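import Pool.Agent.Lib.WP34.Braid2

/-! The braid relation. -/

set_option linter.unusedSectionVars false

namespace Pool.Agent.WP34

namespace Braid

open LinearMap (fst snd proj inr inl)
open Ob Retr

variable {ι : Type} [Fintype ι] [DecidableEq ι] {N : CoxeterMatrix ι} {V : Type} [AddCommGroup V]
  [Module F V] {X : Ob N V} {i j l : ι} {k : ℤ}

/-- ambient space of the symmetric model -/
abbrev B (ι V : Type) := K ι V × (ι → A ι V) × A ι V

/-- the symmetric model -/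
abbrev Y (X : Ob N V) (h : N i j = 3) : Ob N (B ι V) := (R2 X h).tr

def yi (c : K ι V) : B ι V := (c, 0)
def yj (c : K ι V) : B ι V := (0, 0, c, 0)
def yo (v : V) : B ι V := (0, 0, 0, 0, 0, v)

/-- exchange of the two families -/
def sw : K ι V →ₗ[F] K ι V :=
  (fst F _ _ ∘ₗ snd F _ _).prod ((fst F _ _).prod (snd F _ _ ∘ₗ snd F _ _))

@[simp] theorem sw_apply (n n' : ι → V) (u : V) : sw (n, n', u) = (n', n, u) := rfl

section

variable (h : N i j = 3)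
include h

theorem mem_i {z : B ι V} : z ∈ (Y X h).G k i ↔ ∃ n n' u, (n, n', u) ∈ GK X i j j k ∧
    z = yi (n, n', u) := by
  obtain ⟨⟨n, n', u⟩, w⟩ := z
  rw [mem_tr_self]
  exact ⟨fun ⟨a, b⟩ => ⟨n, n', u, a, Prod.ext rfl b⟩, fun ⟨_, _, _, a, b⟩ => by
    simp only [yi, Prod.mk.injEq] at b
    obtain ⟨⟨rfl, rfl, rfl⟩, rfl⟩ := b
    exact ⟨a, rfl⟩⟩

theorem mem_j {z : B ι V} : z ∈ (Y X h).G k j ↔ ∃ n n' u, (n, n', u) ∈ GK X i j i k ∧
    z = yj (n, n', u) := by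
  obtain ⟨c, μ, ⟨n, n', u⟩, w⟩ := z
  rw [mem_tr_ne (adj_ne h).symm, mem_rho_ne (adj_ne h).symm, Z_mem_j h]
  constructor
  · rintro ⟨rfl, rfl, a, rfl⟩; exact ⟨n, n', u, a, rfl⟩
  · rintro ⟨_, _, _, a, b⟩
    simp only [yj, Prod.mk.injEq] at b
    obtain ⟨rfl, rfl, ⟨rfl, rfl, rfl⟩, rfl⟩ := b
    exact ⟨rfl, rfl, a, rfl⟩

theorem mem_o (hi : l ≠ i) (hj : l ≠ j) {z : B ι V} :
    z ∈ (Y X h).G k l ↔ ∃ v ∈ X.G k l, z = yo v := by
  obtain ⟨c, μ, c', ν, n, v⟩ := z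
  rw [mem_tr_ne hi, mem_rho_ne hi, Z_mem_o h hi hj]
  constructor
  · rintro ⟨rfl, rfl, rfl, rfl, rfl, a⟩; exact ⟨v, a, rfl⟩
  · rintro ⟨_, a, b⟩
    simp only [yo, Prod.mk.injEq] at b
    obtain ⟨rfl, rfl, rfl, rfl, rfl, rfl⟩ := b
    exact ⟨rfl, rfl, rfl, rfl, rfl, a⟩

theorem d_i (c : K ι V) : (Y X h).d i (yi c) = yi (dd2 X i j c) := by
  rw [yi, tr_d, LinearMap.map_zero]; rfl

theorem d_j (c : K ι V) : (Y X h).d j (yj c) = yj (d1 X i j c) := by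
  rw [yj, tr_d, rho_d, tr_d]; simp only [LinearMap.map_zero, zero_add]; rfl

theorem d_o (v : V) : (Y X h).d l (yo v) = yo (X.d l v) := by
  rw [yo, tr_d, rho_d, Z_d h]; simp only [LinearMap.map_zero, zero_add]; rfl

theorem p2_out (a : (ι → V) × V) (ha : ∀ p, N i p ≠ 3 → a.1 p = 0) (α : A ι V) :
    p2 j (out N (Z X h).x i (0, 0, a), α) = (cut j a.1, cut i (out N X.x j (a.1 j)), α.2.2.1 j) := by
  rw [p2_apply, out_apply, if_pos h, Z_xij h]
  refine Prod.ext (funext fun p => ?_) rfl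
  by_cases e : p = j
  · simp [e]
  · simp only [cut_ne e, out_apply]
    split_ifs with b
    exacts [by rw [Z_xi h e], (ha p b).symm]

theorem p2_to (a : (ι → V) × V) (ha : ∀ p, N i p ≠ 3 → a.1 p = 0) :
    p2 j (out N (Z X h).x i (0, 0, a), (Z X h).t i (0, 0, a)) =
      (cut j a.1, cut i (out N X.x j (a.1 j)), X.x i j a.2 + X.t j (a.1 j)) := by
  rw [p2_out h a ha, Z_ti h]; simp [out_apply, h]

theorem t_i (n n' : ι → V) (u : V) :
    (Y X h).t i (yi (n, n', u)) = yi (0, cut i (out N X.x j u), X.t j u) := by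
  rw [yi, tr_t_self, ← Prod.mk.eta (p := (R2 X h).e _), rho_t_self]
  erw [e2_snd, p2_to h _ fun p hp => Pi.single_eq_of_ne (by rintro rfl; exact hp h) _]
  simp [yi]

theorem t_j (n n' : ι → V) (u : V) :
    (Y X h).t j (yj (n, n', u)) = yj (cut j (out N X.x i u), 0, X.t i u) := by
  have e := (adj_ne h).symm
  rw [yj, tr_t_ne e, rho_t_ne e, Z_tj h, cor_adj _ _ (adj_symm h), rho_x, rx_to e, Z_xj h, Z_ti h,
    e1_self]
  erw [hh2_apply]
  simp [yj]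

theorem t_o (hi : l ≠ i) (hj : l ≠ j) (v : V) : (Y X h).t l (yo v) = yo (X.t l v) := by
  rw [yo, tr_t_ne hi, rho_t_ne hi, Z_to h hi hj]
  by_cases e : N l i = 3
  · rw [cor_adj _ _ e, rho_x, rx_to hi]
    erw [hh2_apply]
    simp [hj, yo]
  · simp [cor_not _ _ e, yo]

theorem x_i (c : K ι V) : (Y X h).x i l (yi c) = (0, 0, (e2 X i j c).1 l) := by
  rw [yi, tr_x, x_from, rho_x, ← Prod.mk.eta (p := (R2 X h).e c), rx_from]; rfl

theorem x_ij (n n' : ι → V) (u : V) : (Y X h).x i j (yi (n, n', u)) =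
    yj (cut j (out N X.x i (inn N X.x i n)), n', X.t i (inn N X.x i n) + X.x j i u) := by
  rw [x_i h, e2_self]; rfl

theorem x_io (hj : l ≠ j) (n n' : ι → V) (u : V) : (Y X h).x i l (yi (n, n', u)) = yo (n l) := by
  rw [x_i h, e2_ne hj]; rfl

theorem x_ji {n n' : ι → V} {u : V} (hn : n ∈ nx X k i j) : (Y X h).x j i (yj (n, n', u)) =
    yi (n, cut i (out N X.x j (inn N X.x j n')), X.t j (inn N X.x j n') + X.x i j u) := by
  have e := (adj_ne h).symm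
  have b := (mem_nx.1 hn).2
  rw [yj, tr_x, x_to _ _ _ e, rho_x, rx_to e, Z_xj h, e1_self]
  erw [p2_to h _ fun p hp => by
    simp [(mem_nb.1 hn.1).2 p hp, Pi.single_eq_of_ne (show p ≠ j by rintro rfl; exact hp h)]]
  simp [yi, b, cut_of b, add_comm]

theorem x_jo (hi : l ≠ i) (n n' : ι → V) (u : V) : (Y X h).x j l (yj (n, n', u)) = yo (n' l) := by
  have e := (adj_ne h).symm
  rw [yj, tr_x, x_ne _ _ _ e hi, rho_x, rx_ne e hi, Z_xj h, e1_ne hi]; rfl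

theorem x_oi (hi : l ≠ i) (hj : l ≠ j) (v : V) :
    (Y X h).x l i (yo v) = yi (sw (gj X j i (X.x l i v))) := by
  rw [yo, tr_x, x_to _ _ _ hi, rho_x, rx_to hi, Z_xoi h hi hj]
  erw [p2_to h _ fun p hp => by simp [out_apply, hp]]
  simp [yi, gj, out_apply, h, add_comm]

theorem x_oj (hi : l ≠ i) (hj : l ≠ j) (v : V) :
    (Y X h).x l j (yo v) = yj (gj X i j (X.x l j v)) := by
  have e := (adj_ne h).symm
  rw [yo, tr_x, x_ne _ _ _ hi e, rho_x, rx_ne hi e, Z_xoj h hi hj]; rfl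

theorem x_oo {m : ι} (hi : l ≠ i) (hj : l ≠ j) (mi : m ≠ i) (mj : m ≠ j) (v : V) :
    (Y X h).x l m (yo v) = yo (X.x l m v) := by
  rw [yo, tr_x, x_ne _ _ _ hi mi, rho_x, rx_ne hi mi, Z_xoo h hi hj mi mj]; rfl

end

/-- the symmetry of the model -/
def sf (i j l : ι) : B ι V →ₗ[F] B ι V :=
  if l = i then inr F _ _ ∘ₗ inr F _ _ ∘ₗ inl F _ _ ∘ₗ sw ∘ₗ fst F _ _
  else if l = j then inl F _ _ ∘ₗ sw ∘ₗ fst F _ _ ∘ₗ snd F _ _ ∘ₗ snd F _ _ else LinearMap.id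

theorem sf_i (c : K ι V) : sf i j i (yi c) = yj (sw c) := by simp [sf, yi, yj]
theorem sf_j (e : j ≠ i) (c : K ι V) : sf i j j (yj c) = yi (sw c) := by simp [sf, yi, yj, e]
theorem sf_o (hi : l ≠ i) (hj : l ≠ j) (z : B ι V) : sf i j l z = z := by simp [sf, hi, hj]

/-- the symmetry as a morphism -/
def sym (X : Ob N V) (h : N i j = 3) : Hom (Y X h) (Y X (adj_symm h)) where
  f := sf i j
  mem k l z hz := by
    have e := (adj_ne h).symm
    by_cases hi : l = i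
    · subst hi
      obtain ⟨n, n', u, ⟨a, b, c⟩, rfl⟩ := (mem_i h).1 hz
      exact (mem_j _).2 ⟨n', n, u, ⟨b, a, c⟩, sf_i _⟩
    by_cases hj : l = j
    · subst hj
      obtain ⟨n, n', u, ⟨a, b, c⟩, rfl⟩ := (mem_j h).1 hz
      exact (mem_i _).2 ⟨n', n, u, ⟨b, a, c⟩, sf_j e _⟩
    rw [sf_o hi hj, mem_o _ hj hi]; exact (mem_o h hi hj).1 hz
  fd k l z hz := by
    have e := (adj_ne h).symm
    by_cases hi : l = i
    · subst hi
      obtain ⟨n, n', u, -, rfl⟩ := (mem_i h).1 hz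
      rw [d_i, sf_i, sf_i, d_j, dd2_apply, sw_apply, sw_apply, d1_apply, add_comm (X.x l j _)]
    by_cases hj : l = j
    · subst hj
      obtain ⟨n, n', u, -, rfl⟩ := (mem_j h).1 hz
      rw [d_j, sf_j e, sf_j e, d_i, d1_apply, sw_apply, sw_apply, dd2_apply, add_comm (X.x l i _)]
    obtain ⟨v, -, rfl⟩ := (mem_o h hi hj).1 hz
    rw [sf_o hi hj, sf_o hi hj, d_o, d_o]
  ft k l z hz := by
    have e := (adj_ne h).symm
    by_cases hi : l = i
    · subst hi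
      obtain ⟨n, n', u, -, rfl⟩ := (mem_i h).1 hz
      rw [t_i, sf_i, sf_i, sw_apply, sw_apply, t_j]
    by_cases hj : l = j
    · subst hj
      obtain ⟨n, n', u, -, rfl⟩ := (mem_j h).1 hz
      rw [t_j, sf_j e, sf_j e, sw_apply, sw_apply, t_i]
    obtain ⟨v, -, rfl⟩ := (mem_o h hi hj).1 hz
    rw [sf_o hi hj, sf_o hi hj, t_o _ hi hj, t_o _ hj hi]
  fx k l m a z hz := by
    have e := (adj_ne h).symm
    have lm := (adj_ne a).symm
    by_cases hi : l = i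
    · subst hi
      obtain ⟨n, n', u, ⟨-, b, -⟩, rfl⟩ := (mem_i h).1 hz
      by_cases mj : m = j
      · subst mj
        rw [x_ij, sf_j e, sf_i, sw_apply, sw_apply, x_ji _ b]
      · rw [x_io _ mj, sf_o lm mj, sf_i, sw_apply, x_jo _ mj]
    by_cases hj : l = j
    · subst hj
      obtain ⟨n, n', u, ⟨b, -, -⟩, rfl⟩ := (mem_j h).1 hz
      by_cases mi : m = i
      · subst mi
        rw [x_ji _ b, sf_j e, sf_i, sw_apply, sw_apply, x_ij]
      · rw [x_jo _ mi, sf_o mi lm, sf_j e, sw_apply, x_io _ mi]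
    obtain ⟨v, -, rfl⟩ := (mem_o h hi hj).1 hz
    rw [sf_o hi hj]
    by_cases mi : m = i
    · subst mi
      rw [x_oi _ hi hj, sf_i, x_oj _ hj hi]; rfl
    by_cases mj : m = j
    · subst mj
      rw [x_oj _ hi hj, sf_j e, x_oi _ hj hi]
    rw [sf_o mi mj, x_oo _ hi hj mi mj, x_oo _ hj hi mj mi]

theorem sf_sf (h : N i j = 3) {z : B ι V} (hz : z ∈ (Y X h).G k l) : sf j i l (sf i j l z) = z := by
  have e := (adj_ne h).symm
  by_cases hi : l = i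
  · subst hi
    obtain ⟨n, n', u, -, rfl⟩ := (mem_i h).1 hz
    rw [sf_i, sf_j e.symm]; rfl
  by_cases hj : l = j
  · subst hj
    obtain ⟨n, n', u, -, rfl⟩ := (mem_j h).1 hz
    rw [sf_j e, sf_i]; rfl
  rw [sf_o hi hj, sf_o hj hi]

theorem qis_of_inv {W : Type} [AddCommGroup W] [Module F W] {X : Ob N V} {X' : Ob N W}
    (φ : Hom X X') (g : ι → W →ₗ[F] V) (gm : ∀ k i, ∀ y ∈ X'.G k i, g i y ∈ X.G k i)
    (gf : ∀ k i, ∀ x ∈ X.G k i, g i (φ.f i x) = x) (fg : ∀ k i, ∀ y ∈ X'.G k i, φ.f i (g i y) = y) :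
    Qis X X' φ.f := by
  refine fun k i => ⟨fun z hz ⟨y, hy, e⟩ => ⟨g i y, gm _ _ _ hy, ?_⟩, fun y hy =>
    ⟨g i y, ⟨gm _ _ _ hy.1, ?_⟩, by rw [fg _ _ _ hy.1, h2]; exact zero_mem _⟩⟩
  · have a := gm _ _ _ hy
    rw [← gf _ _ _ (X.d_mem _ _ _ a), φ.fd _ _ _ a, fg _ _ _ hy, e, gf _ _ _ hz.1]
  · have a := gm _ _ _ hy.1
    show X.d i (g i y) = 0
    rw [← gf _ _ _ (X.d_mem _ _ _ a), φ.fd _ _ _ a, fg _ _ _ hy.1, (mem_Z.1 hy).2, map_zero]

theorem qi_sym (X : Ob N V) (h : N i j = 3) : QI (Y X h) (Y X (adj_symm h)) :=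
  ⟨sym X h, qis_of_inv _ (sf j i) (sym X (adj_symm h)).mem (fun _ _ _ hz => sf_sf h hz)
    fun _ _ _ hz => sf_sf (adj_symm h) hz⟩

theorem eqv_rho (h1 : St_CONG) {X X' : BO N} (i : ι) (e : Eqv X X') : Eqv (X.rho i) (X'.rho i) := by
  induction e with
  | rel a b e => exact .rel _ _ (h1 a b i e).1
  | refl a => exact .refl _
  | symm a b _ ih => exact .symm _ _ ih
  | trans a b c _ _ ih ih' => exact .trans _ _ _ ih ih'

theorem eqv_Y (h1 : St_CONG) (h2 : St_TR) (X : BO N) (h : N i j = 3) :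
    Eqv ⟨Y X.o h⟩ (((X.rho i).rho j).rho i) :=
  .trans _ _ _ (h2 (BO.rho ⟨Z X.o h⟩ i) i _ (R2 X.o h))
    (eqv_rho h1 i (h2 ((X.rho i).rho j) j _ (R1 X.o h)))

end Braid

theorem st_BRAID (h1 : St_CONG) (h2 : St_TR) : St_BRAID := fun X _ _ h =>
  .trans _ _ _ (.symm _ _ (Braid.eqv_Y h1 h2 X h))
    (.trans _ _ _ (.rel _ _ (Braid.qi_sym X.o h)) (Braid.eqv_Y h1 h2 X (adj_symm h)))

end Pool.Agent.WP34
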