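import Pool.Agent.Lib.WP34.Final

/-! The criterion for a word to be trivial. -/

namespace Pool.Agent.WP34

open Pool.Agent.H51 Fin0

def St_CORE : Prop := ∀ {S ι : Type} [Fintype S] [DecidableEq S] [Fintype ι] [DecidableEq ι]
  {M : CoxeterMatrix S} {N : CoxeterMatrix ι} (U : Unf M N) (r : S), (∀ s, s ≠ r → M s r = 0) →
  ∀ w : List (S × Bool), (∀ a ∈ w, a.1 ≠ r) →
  ((∀ k i, U.pr i ≠ r → (BO.run ⟨Ob.base N fun j => decide (U.pr j = r)⟩
    (w.flatMap fun a => (U.fib a.1).map fun i => (i, a.2))).o.hd k i = 0) ↔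
    FreeGroup.lift (gen M) (FreeGroup.mk w) = 1)

theorem st_CORE (hdg : St_DG) (hm1 : St_MOD1) (hm2 : St_MOD2) (hu1 : St_UNF1)
    (ha : St_IFA) (hb : St_IFB) (hc : St_IFC) (hmain : St_MAIN) : St_CORE := by
  intro S ι _ _ _ _ M N U r hr w hw
  obtain ⟨D, mk, d1, d2, d3⟩ := hdg N U.sl
  set X0 : BO N := ⟨Ob.base N fun j => decide (U.pr j = r)⟩ with hX0
  obtain ⟨Y, y1, y2⟩ := exists_sys U (hu1 U) D (mk X0)
  have y3 : ∀ g s, Y.X (g * (gen M s)⁻¹) = (U.fib s).foldl (fun y i => (D.rho i)⁻¹ y) (Y.X g) := by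
    intro g s
    rw [y2, ← prod_fold, ← List.reverse_reverse (U.fib s), ← prod_fold, List.reverse_reverse,
      List.Perm.prod_eq' ((List.reverse_perm _).map _).symm]
    refine List.pairwise_map.2 (List.pairwise_of_forall_mem_list fun i hi j hj => ?_)
    by_cases e : i = j
    · exact e ▸ Commute.refl _
    have := D.br i trivial j trivial
    rw [(U.sl i j e).resolve_right (U.indep i j (((U.mem_fib _ _).1 hi).trans
      ((U.mem_fib _ _).1 hj).symm))] at this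
    simpa [alt, Commute, SemiconjBy] using this
  have run : ∀ (w : List (S × Bool)) X g, mk X = Y.X g →
      mk (X.run (w.flatMap fun a => (U.fib a.1).map fun i => (i, a.2))) =
        Y.X (g * FreeGroup.lift (gen M) (FreeGroup.mk w)) := by
    intro w
    induction w with
    | nil => exact fun X g h => by simpa [FreeGroup.lift_mk, BO.run] using h
    | cons a w ih =>
      intro X g h
      obtain ⟨s, b⟩ := a
      rw [List.flatMap_cons, BO.run, List.foldl_append, FreeGroup.lift_mk, List.map_cons,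
        List.prod_cons, ← FreeGroup.lift_mk, ← mul_assoc]
      cases b
      · exact ih _ _ ((mk_run mk (fun i => ⇑(D.rho i)⁻¹) false d2 _ X).trans (by rw [h, ← y3]; rfl))
      · exact ih _ _ ((mk_run mk (fun i => ⇑(D.rho i)) true d1 _ X).trans (by rw [h, ← Y.step]; rfl))
  have e3 := run w X0 1 y1.symm
  rw [one_mul] at e3
  have b0 : ∀ k i, D.hd (Y.X 1) k i = 0 ↔ ¬ (k = 0 ∧ U.pr i = r) := fun k i => by
    rw [y1, d3, hd_base, decide_eq_true_iff]
  simp only [← d3, e3]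
  refine ⟨fun hn => ?_, fun h k i a => h ▸ (b0 k i).2 fun e => a e.2⟩
  obtain ⟨a1, a2, a3, a4, a5⟩ := ha Y (hu1 U) (hm1 N U.sl)
  obtain ⟨c1, c2⟩ := hc Y (hu1 U) (hm1 N U.sl) (hm2 N U.sl) a1
  have nn : ∀ g k, 0 ≤ Y.n g k := fun g k => by
    simpa [Sys.n] using U.π_mono (u := 0) fun i => Nat.cast_nonneg (D.hd (Y.X g) k i)
  refine hmain Y.n r _ ⟨nn, a2, a3, a4, c1, hb Y (hu1 U) (hm1 N U.sl) (hm2 N U.sl) a1 a2, c2, a5⟩ hr
    (fun k s hs => Y.n_eq_zero.2 fun i e => (b0 k i).2 fun e' => hs (e.symm.trans e'.2))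
    (fun k hk => Y.n_eq_zero.2 fun i _ => (b0 k i).2 fun e' => hk.ne e'.1)
    ((nn 1 0 r).lt_of_ne' fun e => ?_) ?_ fun k s hs => Y.n_eq_zero.2 fun i e => hn k i (e ▸ hs)
  · obtain ⟨i, hi⟩ := List.exists_mem_of_ne_nil _ (U.surj r)
    rw [U.mem_fib] at hi
    exact (b0 0 i).1 (Y.n_eq_zero.1 e i hi) ⟨rfl, hi⟩
  · rw [FreeGroup.lift_mk]
    refine list_prod_mem fun x hx => ?_
    obtain ⟨a, ha, rfl⟩ := List.mem_map.1 hx
    have := gen_mem_apar (M := M) (T := {r}ᶜ) (hw a ha)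
    cases a.2 <;> simpa using this

end Pool.Agent.WP34
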