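import Pool.Agent.Lib.WP34.Blue

/-! The mapping cylinder of a weak morphism; transfer gives an equivalent object. -/

set_option linter.unusedSectionVars false

namespace Pool.Agent.WP34

open LinearMap (fst snd)

namespace CYL

variable {ι : Type} [Fintype ι] [DecidableEq ι] {N : CoxeterMatrix ι} {V W : Type}
  [AddCommGroup V] [Module F V] [AddCommGroup W] [Module F W] {X : Ob N V} {Y : Ob N W}

/-- triangular maps -/
def tri (f : V →ₗ[F] V) (g : W →ₗ[F] W) (u : V →ₗ[F] W) : V × V × W →ₗ[F] V × V × W :=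
  f.prodMap ((f ∘ₗ fst _ _ _).prod (g ∘ₗ snd _ _ _ + u ∘ₗ fst _ _ _))

@[simp] theorem tri_apply (f : V →ₗ[F] V) (g : W →ₗ[F] W) (u : V →ₗ[F] W) (a b : V) (c : W) :
    tri f g u (a, b, c) = (f a, f b, g c + u b) := rfl

@[simp] theorem tri_zero (f : V →ₗ[F] V) (g : W →ₗ[F] W) (u : V →ₗ[F] W) (a : V) :
    tri f g u (a, 0) = (f a, 0) := by
  rw [← Prod.mk_zero_zero, tri_apply]; simp

theorem rel (φ : WHom X Y) (i : ι) (a b : V) (c : W) :
    inn N (fun i j => tri (X.x i j) (Y.x i j) (φ.f1 i j)) i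
      (out N (fun i j => tri (X.x i j) (Y.x i j) (φ.f1 i j)) i (a, b, c)) =
    (inn N X.x i (out N X.x i a), inn N X.x i (out N X.x i b), inn N Y.x i (out N Y.x i c) +
      ∑ j, if N i j = 3 then Y.x j i (φ.f1 i j b) + φ.f1 j i (X.x i j b) else 0) := by
  simp only [inn_apply, out_apply, ← Finset.sum_add_distrib]
  refine Prod.ext ?_ (Prod.ext ?_ ?_)
  · rw [Prod.fst_sum]
    exact Finset.sum_congr rfl fun p _ => by by_cases h : N i p = 3 <;> simp [h]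
  · rw [Prod.snd_sum, Prod.fst_sum]
    exact Finset.sum_congr rfl fun p _ => by by_cases h : N i p = 3 <;> simp [h]
  · rw [Prod.snd_sum, Prod.snd_sum]
    exact Finset.sum_congr rfl fun p _ => by by_cases h : N i p = 3 <;> simp [h, add_assoc]

/-- the mapping cylinder -/
def cyl (φ : WHom X Y) : Ob N (V × V × W) where
  G k i := (X.G k i).prod ((X.G (k + 1) i).prod (Y.G k i))
  d i := tri (X.d i) (Y.d i) (φ.f0 i) + LinearMap.inl _ _ _ ∘ₗ fst _ _ _ ∘ₗ snd _ _ _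
  t i := tri (X.t i) (Y.t i) (φ.f2 i)
  x i j := tri (X.x i j) (Y.x i j) (φ.f1 i j)
  d_mem k i := by
    rintro ⟨a, b, c⟩ ⟨ha, hb, hc⟩
    simpa using ⟨add_mem (X.d_mem _ _ _ ha) hb, X.d_mem _ _ _ hb,
      add_mem (Y.d_mem _ _ _ hc) (φ.mem0 _ _ _ hb)⟩
  t_mem k i := by
    rintro ⟨a, b, c⟩ ⟨ha, hb, hc⟩
    simpa using ⟨X.t_mem _ _ _ ha, X.t_mem' hb,
      add_mem (Y.t_mem _ _ _ hc) (by simpa using φ.mem2 _ _ _ hb)⟩
  x_mem k i j h := by
    rintro ⟨a, b, c⟩ ⟨ha, hb, hc⟩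
    simpa using ⟨X.x_mem _ _ _ h _ ha, X.x_mem _ _ _ h _ hb,
      add_mem (Y.x_mem _ _ _ h _ hc) (by simpa using φ.mem1 _ _ _ h _ hb)⟩
  dd k i := by
    rintro ⟨a, b, c⟩ ⟨ha, hb, hc⟩
    simp [X.dd _ _ _ ha, X.dd _ _ _ hb, Y.dd _ _ _ hc, φ.c0 _ _ _ hb, h2]
  dx k i j h := by
    rintro ⟨a, b, c⟩ ⟨ha, hb, hc⟩
    simp [X.dx _ _ _ h _ ha, X.dx _ _ _ h _ hb, Y.dx _ _ _ h _ hc, φ.c1 _ _ _ h _ hb,
      add_comm, add_left_comm, h2']
  dt k i := by
    rintro ⟨a, b, c⟩ ⟨ha, hb, hc⟩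
    rw [rel]
    simp [X.dt _ _ _ ha, X.dt _ _ _ hb, Y.dt _ _ _ hc, φ.c2 _ _ _ hb,
      add_assoc, add_comm, add_left_comm, h2']
  bdd := by
    obtain ⟨a, h⟩ := X.bdd
    obtain ⟨b, h'⟩ := Y.bdd
    exact ⟨min (a - 1) b, fun k hk i => by
      simp [h k (by omega), h (k + 1) (by omega), h' k (by omega)]⟩

variable (φ : WHom X Y) {k : ℤ} {i : ι} {a b : V} {c : W}

theorem mem_cyl : (a, b, c) ∈ (cyl φ).G k i ↔
    a ∈ X.G k i ∧ b ∈ X.G (k + 1) i ∧ c ∈ Y.G k i := Iff.rfl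

theorem cyl_d : (cyl φ).d i (a, b, c) = (X.d i a + b, X.d i b, Y.d i c + φ.f0 i b) := by
  simp [cyl]

theorem qi_left (h : Qis X Y φ.f0) : QI X (cyl φ) := by
  refine ⟨⟨fun _ => LinearMap.inl _ _ _, fun k i v hv => ⟨hv, zero_mem _, zero_mem _⟩,
    fun k i v _ => by simp [cyl], fun k i v _ => by simp [cyl],
    fun k i j _ v _ => by simp [cyl]⟩, fun k i => ⟨?_, ?_⟩⟩
  · rintro z - ⟨⟨a, b, c⟩, ⟨ha, hb, hc⟩, e⟩
    rw [cyl_d] at e
    simp only [LinearMap.inl_apply, Prod.ext_iff, Prod.fst_zero, Prod.snd_zero] at e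
    rw [← e.1]
    exact add_mem ⟨a, ha, rfl⟩ ((h k i).1 b ⟨by simpa using hb, e.2.1⟩ ⟨c, hc, eq_of_add e.2.2⟩)
  · rintro ⟨a, b, c⟩ ⟨⟨ha, hb, hc⟩, e⟩
    rw [SetLike.mem_coe, LinearMap.mem_ker, cyl_d] at e
    simp only [Prod.ext_iff, Prod.fst_zero, Prod.snd_zero] at e
    obtain rfl := eq_of_add e.1
    obtain ⟨z, hz, w, hw, e'⟩ := (h k i).2 (c + φ.f0 i a) ⟨add_mem hc (φ.mem0 _ _ _ ha), by
      rw [SetLike.mem_coe, LinearMap.mem_ker, map_add, ← φ.c0 _ _ _ ha, e.2.2]⟩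
    refine ⟨z, hz, (0, z + a, w), ⟨zero_mem _, by simpa using add_mem hz.1 ha, hw⟩, ?_⟩
    rw [cyl_d]
    simp [e', show X.d i z = 0 from hz.2, add_comm, add_left_comm, h2]

theorem qi_right : QI Y (cyl φ) := by
  refine ⟨⟨fun _ => LinearMap.inr _ _ _ ∘ₗ LinearMap.inr _ _ _,
    fun k i v hv => ⟨zero_mem _, zero_mem _, hv⟩, fun k i v _ => by simp [cyl],
    fun k i v _ => by simp [cyl], fun k i j _ v _ => by simp [cyl]⟩, fun k i => ⟨?_, ?_⟩⟩
  · rintro z - ⟨⟨a, b, c⟩, ⟨ha, hb, hc⟩, e⟩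
    rw [cyl_d] at e
    simp only [LinearMap.comp_apply, LinearMap.inr_apply, Prod.ext_iff] at e
    obtain rfl := eq_of_add e.1
    exact ⟨c + φ.f0 i a, add_mem hc (φ.mem0 _ _ _ ha), by
      rw [map_add, ← φ.c0 _ _ _ ha, e.2.2]⟩
  · rintro ⟨a, b, c⟩ ⟨⟨ha, hb, hc⟩, e⟩
    rw [SetLike.mem_coe, LinearMap.mem_ker, cyl_d] at e
    simp only [Prod.ext_iff, Prod.fst_zero, Prod.snd_zero] at e
    obtain rfl := eq_of_add e.1
    refine ⟨c + φ.f0 i a, ⟨add_mem hc (φ.mem0 _ _ _ ha), by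
      rw [SetLike.mem_coe, LinearMap.mem_ker, map_add, ← φ.c0 _ _ _ ha, e.2.2]⟩,
      (0, a, 0), ⟨zero_mem _, by simpa using ha, zero_mem _⟩, ?_⟩
    rw [cyl_d]
    simp [add_comm, h2']

variable {K : Type} [AddCommGroup K] [Module F K]

/-- the weak morphism from the transferred object -/
def wh (R : Retr X i K) : WHom R.tr X where
  f0 j := if j = i then R.e ∘ₗ fst _ _ _ else snd _ _ _
  f1 j l := if l = i then R.h ∘ₗ X.x j i ∘ₗ snd _ _ _ else 0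
  f2 j := if j = i then R.h ∘ₗ X.t i ∘ₗ R.e ∘ₗ fst _ _ _ else 0
  mem0 k j := by
    rintro ⟨c, v⟩
    by_cases h : j = i
    · subst h
      rw [Retr.mem_tr_self, if_pos rfl]
      exact fun h => R.e_mem _ _ h.1
    · rw [Retr.mem_tr_ne h, if_neg h]
      exact fun h => h.2
  mem1 k j l a := by
    rintro ⟨c, v⟩
    by_cases h : l = i
    · subst h
      rw [Retr.mem_tr_ne (adj_ne a), if_pos rfl]
      exact fun h => R.h_mem _ _ (X.x_mem _ _ _ a _ h.2)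
    · rw [if_neg h]
      exact fun _ => zero_mem _
  mem2 k j := by
    rintro ⟨c, v⟩
    by_cases h : j = i
    · subst h
      rw [Retr.mem_tr_self, if_pos rfl]
      exact fun h => R.h_mem _ _ (X.t_mem _ _ _ (R.e_mem _ _ h.1))
    · rw [if_neg h]
      exact fun _ => zero_mem _
  c0 k j := by
    rintro ⟨c, v⟩
    by_cases h : j = i
    · subst h
      rw [Retr.mem_tr_self]
      exact fun h => by simp [Retr.tr_d, R.de _ _ h.1]
    · simp [Retr.tr_d, h]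
  c1 k j l a := by
    rintro ⟨c, v⟩
    by_cases h : j = i
    · subst h
      simp [Retr.tr_x, (adj_ne a).symm, h2]
    · by_cases h' : l = i
      · subst h'
        rw [Retr.mem_tr_ne h]
        intro hv
        simp [Retr.tr_x, Retr.tr_d, h, R.x_to _ _ h, R.ep _ _ (X.x_mem _ _ _ a _ hv.2),
          X.dx _ _ _ a _ hv.2, add_comm, add_left_comm, h2, h2']
      · simp [Retr.tr_x, h, h', R.x_ne _ _ h h', h2]
  c2 k j := by
    rintro ⟨c, v⟩
    by_cases h : j = i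
    · subst h
      rw [Retr.mem_tr_self]
      intro hc
      have he := R.e_mem _ _ hc.1
      rw [Finset.sum_congr rfl (g := fun p => R.h (if N j p = 3 then
        X.x p j (out N X.x j (R.e c) p) else 0)) fun p _ => by
          by_cases a : N j p = 3
          · simp [a, (adj_ne a).symm, Retr.tr_x, out_apply]
          · simp [a], ← map_sum, ← inn_apply]
      simp [Retr.tr_d, Retr.tr_t_self, R.ep _ _ (X.t_mem _ _ _ he), X.dt _ _ _ he, R.de _ _ hc.1,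
        add_assoc, add_comm, add_left_comm, h2, h2']
    · intro _
      rw [Finset.sum_eq_single i (fun p _ hp => by simp [hp, h]) (by simp)]
      by_cases a : N j i = 3
      · simp [h, a, Retr.tr_t_ne h, R.cor_adj _ a, h2, h2']
      · simp [h, a, Retr.tr_t_ne h, R.cor_not _ a, h2]

theorem qis_wh (R : Retr X i K) : Qis R.tr X (wh R).f0 := by
  intro k j
  by_cases h : j = i
  · subst h
    have e0 : ∀ c v, (wh R).f0 j (c, v) = R.e c := fun c v => by simp [wh]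
    constructor
    · rintro ⟨c, v⟩ ⟨hc, -⟩ ⟨u, hu, e⟩
      obtain ⟨hc', rfl⟩ := Retr.mem_tr_self.1 hc
      rw [e0] at e
      exact ⟨(R.p u, 0), Retr.mem_tr_self.2 ⟨R.p_mem _ _ hu, rfl⟩, by
        rw [Retr.tr_d, R.dp _ _ hu, e, R.pe _ _ hc', map_zero]⟩
    · rintro y ⟨hy, dy⟩
      have dy : X.d j y = 0 := dy
      refine ⟨(R.p y, 0), ⟨Retr.mem_tr_self.2 ⟨R.p_mem _ _ hy, rfl⟩, ?_⟩, R.h y,
        R.h_mem _ _ hy, ?_⟩
      · rw [SetLike.mem_coe, LinearMap.mem_ker, Retr.tr_d, R.dp _ _ hy, dy, map_zero, map_zero]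
        rfl
      · rw [e0, R.ep _ _ hy, dy]
        simp [add_comm, h2']
  · have e0 : ∀ c v, (wh R).f0 j (c, v) = v := fun c v => by simp [wh, h]
    constructor
    · rintro ⟨c, v⟩ ⟨hc, -⟩ ⟨u, hu, e⟩
      obtain ⟨rfl, -⟩ := (Retr.mem_tr_ne h).1 hc
      rw [e0] at e
      exact ⟨(0, u), (Retr.mem_tr_ne h).2 ⟨rfl, hu⟩, by rw [Retr.tr_d, map_zero, e]⟩
    · rintro y ⟨hy, dy⟩
      have dy : X.d j y = 0 := dy
      refine ⟨(0, y), ⟨(Retr.mem_tr_ne h).2 ⟨rfl, hy⟩, ?_⟩, ?_⟩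
      · rw [SetLike.mem_coe, LinearMap.mem_ker, Retr.tr_d, dy, map_zero]
        rfl
      · rw [e0, h2]
        exact zero_mem _

end CYL

theorem st_CYL : St_CYL := fun X Y φ h =>
  .trans X ⟨CYL.cyl φ⟩ Y (.rel _ _ (CYL.qi_left φ h)) (.symm _ _ (.rel _ _ (CYL.qi_right φ)))

theorem st_TR : St_TR := fun X _ _ _ _ _ R => st_CYL ⟨R.tr⟩ X (CYL.wh R) (CYL.qis_wh R)

end Pool.Agent.WP34
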