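import Pool.Agent.Lib.WP34.Blue

/-! The action on classes of objects. -/

namespace Pool.Agent.WP34

open Pool.Agent.H51

theorem st_DG (hc : St_CONG) (hi : St_INV) (hm : St_COMM) (hb : St_BRAID) (h1 : St_H1)
    (h2 : St_H2) : St_DG := by
  intro ι _ _ N hN
  let r : BO N → BO N → Prop := fun X Y => QI X.o Y.o
  have hhd : ∀ X Y : BO N, r X Y → X.o.hd = Y.o.hd := fun X Y h => by
    funext k i
    obtain ⟨A, hA⟩ := (h1 X k).1
    exact_mod_cast ((h1 X k).2.2.1 A i hA).symm.trans
      ((h1 Y k).2.2.1 A i (((h1 X k).2.2.2 Y A h).1 hA))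
  let ρ : ι → Equiv.Perm (Quot r) := fun i =>
    { toFun := Quot.map (fun X => X.rho i) fun X Y h => (hc X Y i h).1
      invFun := Quot.map (fun X => X.lam i) fun X Y h => (hc X Y i h).2
      left_inv := Quot.ind fun X => Quot.sound (hi X i).2
      right_inv := Quot.ind fun X => (Quot.sound (hi X i).1).symm }
  refine ⟨{ Q := Quot r
            rho := ρ
            hd := Quot.lift (fun X => X.o.hd) hhd
            IsH := Quot.lift (fun X k A => IsH X.o k A.o) fun X Y h => by
              funext k A; exact propext ((h1 X k).2.2.2 Y A h)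
            br := ?_
            off := Quot.ind fun X i j k h => (h2 X k i).1 j h
            ex := Quot.ind fun X k => (h1 X k).1
            uniq := Quot.ind fun X k => (h1 X k).2.1
            dim := Quot.ind fun X k => (h1 X k).2.2.1
            hr := Quot.ind fun X k A i => (h2 X k i).2.1 A
            up := Quot.ind fun X k A i => (h2 X k i).2.2 A
            bdd := Quot.ind fun X => ?_ }, Quot.mk r, fun _ _ => rfl, fun _ _ => rfl,
    fun _ _ _ => rfl⟩
  · intro i _ j _
    by_cases hij : i = j
    · subst hij; rfl
    apply inv_injective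
    rcases hN i j hij with e | e
    · rw [e]
      simp only [alt, List.map_cons, List.map_nil, List.prod_cons, List.prod_nil, mul_one,
        mul_inv_rev, inv_inv]
      exact Equiv.ext (Quot.ind fun X => Quot.sound (hm X i j hij (by omega)))
    · rw [e]
      simp only [alt, List.map_cons, List.map_nil, List.prod_cons, List.prod_nil, mul_one,
        mul_inv_rev, inv_inv]
      exact Equiv.ext (Quot.ind fun X => Quot.eqvGen_sound (hb X i j e))
  · obtain ⟨a, h⟩ := X.o.bdd
    exact ⟨a, fun k hk i => Ob.hd_eq_zero.2 fun z hz => by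
      have := hz.1; rw [h k hk] at this; exact (Submodule.mem_bot _).1 this ▸ zero_mem _⟩

end Pool.Agent.WP34
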