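import Pool.Agent.Lib.WP34.Blue

/-! Any two vertices in the window lie below a common chamber. -/

set_option linter.unusedSectionVars false

namespace Pool.Agent.WP34

open Pool.Agent.H51 Relation

namespace Dir

variable {S : Type} [Fintype S] [DecidableEq S] {M : CoxeterMatrix S}

/-- going down along a word -/
def dn (z : Artin M) (w : List S) : Artin M := z * (pos M w.reverse)⁻¹

theorem dn_cons (z : Artin M) (s : S) (w : List S) :
    dn z (s :: w) = dn (z * (gen M s)⁻¹) w := by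
  simp [dn, pos_append, mul_assoc]

theorem dn_be (z : Artin M) {p q : List S} (h : BE M p q) : dn z p = dn z q := by
  rw [dn, dn, h.reverse.pos_eq]

theorem dn_append (z : Artin M) (p q : List S) : dn z (p ++ q) * pos M q.reverse = dn z p := by
  simp [dn, pos_append, mul_assoc]

theorem up_pos {T : Set S} {P : Artin M → Prop} (hup : ∀ g, ∀ s ∈ T, P g → P (g * gen M s))
    {l : List S} (hl : Ov T l) {g : Artin M} (hg : P g) : P (g * pos M l) := by
  induction l generalizing g with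
  | nil => simpa using hg
  | cons s l ih =>
    rw [pos_cons, ← mul_assoc]
    exact ih (ov_cons.1 hl).2 (hup g s (ov_cons.1 hl).1 hg)

/-- a set that is closed upwards and closed under diamonds is closed under meets -/
theorem join {T : Set S} {P : Artin M → Prop} (hup : ∀ g, ∀ s ∈ T, P g → P (g * gen M s))
    (hdi : ∀ g, ∀ s ∈ T, ∀ t ∈ T, M s t ≠ 0 → P (g * (gen M s)⁻¹) → P (g * (gen M t)⁻¹) →
      P (dn g (alt s t (M s t))))
    {V : List S} (hV : Ov T V) {z : Artin M} {p q : List S} (hp : Dv M p V) (hq : Dv M q V)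
    (rp : P (dn z p)) (rq : P (dn z q)) :
    ∃ u, Dv M p u ∧ Dv M q u ∧ Dv M u V ∧ P (dn z u) := by
  induction hk : V.length using Nat.strong_induction_on generalizing V z p q with
  | _ k ih =>
    match p, q with
    | [], q => exact ⟨q, Dv.nil _, Dv.refl _, hq, rq⟩
    | p, [] => exact ⟨p, Dv.refl _, Dv.nil _, hp, rp⟩
    | s :: p, t :: q =>
      have op := ov_cons.1 (hV.of_dv hp)
      have oq := ov_cons.1 (hV.of_dv hq)
      obtain ⟨c, hc⟩ := hp
      obtain ⟨d, hd⟩ := hq
      have l1 := hc.length_eq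
      have l2 := hd.length_eq
      simp only [List.cons_append, List.length_cons] at hc hd l1 l2
      obtain ⟨h0, Z, h1, h2⟩ := kk _ s t _ _ (Nat.lt_succ_self _) (hc.trans hd.symm)
      rw [dn_cons] at rp rq
      have a1 : P (z * (gen M s)⁻¹) := by
        simpa [dn] using up_pos hup op.2.reverse rp
      have b1 : P (z * (gen M t)⁻¹) := by
        simpa [dn] using up_pos hup oq.2.reverse rq
      have r1 := hdi z s op.1 t oq.1 h0 a1 b1
      rw [alt_M h0, dn_cons] at r1
      obtain ⟨u1, c1, ⟨e, c2⟩, c3, c4⟩ := ih _ (by omega) (V := p ++ c)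
        (ov_cons.1 (hV.be hc)).2 (Dv.append _ _) ⟨Z, h1.symm⟩ rp r1 rfl
      have e1 : BE M (t :: (alt s t (M s t - 1) ++ e)) (s :: u1) :=
        ((braid_cons h0).symm.append (BE.refl e)).trans (c2.cons s)
      rw [← dn_cons, ← dn_be z e1, dn_cons] at c4
      have d1 : Dv M (alt s t (M s t - 1) ++ e) (q ++ d) :=
        Dv.cancel (p := [t]) ((e1.dv.trans (c3.cons s)).trans (hc.trans hd.symm).dv)
      obtain ⟨u2, f1, f2, f3, f4⟩ := ih _ (by omega) (V := q ++ d)
        (ov_cons.1 (hV.be hd)).2 d1 (Dv.append _ _) c4 rq rfl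
      exact ⟨t :: u2, ((c1.cons s).trans e1.symm.dv).trans (f1.cons t), f2.cons t,
        (f3.cons t).trans hd.dv, by rwa [dn_cons]⟩

variable {n : Artin M → ℤ → S → ℝ}

theorem inv_mul (h1 : I1 n) {T : Set S} {k : Artin M} (hk : k ∈ apar M T) (g : Artin M) (b : ℤ)
    {j : S} (hj : j ∉ T) : n (g * k) b j = n g b j := by
  refine apar_induction (P := fun k => n (g * k) b j = n g b j) hk (by simp) ?_ ?_
  · intro k _ i hi h
    rw [← mul_assoc, h1 (g * k) i b j (fun e => hj (e ▸ hi)), h]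
  · intro k _ i hi h
    rw [← h, ← h1 (g * (k * (gen M i)⁻¹)) i b j (fun e => hj (e ▸ hi))]
    simp [mul_assoc]

theorem inv_cos (h1 : I1 n) {T : Set S} {g c : Artin M} (hk : g⁻¹ * c ∈ apar M T) (b : ℤ)
    {j : S} (hj : j ∉ T) : n c b j = n g b j := by
  simpa using inv_mul h1 hk g b hj

theorem cl_mono {T T' : Set S} (h : T ⊆ T') : Cl M T ⊆ Cl M T' :=
  fun _ ⟨s, hs, e⟩ => ⟨s, h hs, e⟩

theorem win_up (h : IF n) {T : Set S} {a : ℤ} (g : Artin M) (s : S) (hs : s ∈ T)
    (hg : Win n g (Cl M T) a) : Win n (g * gen M s) (Cl M T) a := by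
  intro k hk j hj
  by_cases e : j = s
  · exact (h.i2 g s a fun k hk j hj =>
      hg k hk j (cl_mono (Set.singleton_subset_iff.2 hs) hj)).1 k hk j e
  · rw [h.i1 g s k j e, hg k hk j hj]

theorem win_dia (h : IF n) {T : Set S} {a : ℤ} (g : Artin M) (s : S) (hs : s ∈ T) (t : S)
    (ht : t ∈ T) (h0 : M s t ≠ 0) (gs : Win n (g * (gen M s)⁻¹) (Cl M T) a)
    (gt : Win n (g * (gen M t)⁻¹) (Cl M T) a) : Win n (dn g (alt s t (M s t))) (Cl M T) a := by
  by_cases hst : s = t
  · subst hst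
    simpa [alt, dn] using gs
  have hg : Win n g (Cl M T) a := by simpa using win_up h _ s hs gs
  have self : ∀ r ∈ T, r ∈ Cl M T := fun r hr => ⟨r, hr, by simp⟩
  have e : dn g (alt s t (M s t)) = g * (pos M (alt s t (M s t)))⁻¹ := by
    rw [dn, reverse_alt]
    split_ifs
    · rw [(BE.braid s t).pos_eq]
    · rfl
  have h5 := h.i5 g a s t hst h0 (fun k hk j hj => hg k hk j
      (cl_mono (by rintro r (rfl | rfl) <;> assumption) hj))
    (fun k hk j hj => gs k hk j (self j (hj ▸ hs))) (fun k hk j hj => gt k hk j (self j (hj ▸ ht)))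
  rw [e]
  intro k hk j hj
  by_cases hj' : j ∈ ({s, t} : Set S)
  · exact h5 k hk j hj'
  · rw [inv_mul h.i1 (T := {s, t}) (inv_mem (pos_mem_apar fun c hc => mem_alt hc)) g k hj',
      hg k hk j hj]

theorem wact_fix {T : Set S} {l : List S} (hl : Ov T l) {v : S → ℝ}
    (hv : ∀ j ∈ Cl M T, v j = 0) : wact M l v = v := by
  induction l with
  | nil => simp [wact]
  | cons s l ih =>
    have : wact M (s :: l) v = sref M s (wact M l v) := by simp [wact]
    rw [this, ih (ov_cons.1 hl).2, sref_apply]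
    have h0 : bf M s v = 0 := by
      refine Finset.sum_eq_zero fun j _ => ?_
      by_cases e : M s j = 2
      · simp [kc, e]
      · rw [hv j ⟨s, (ov_cons.1 hl).1, e⟩, mul_zero]
    simp [h0]

/-- a nonnegative vector whose image under the longest element is nonnegative vanishes on `T` -/
theorem vanish {T : Set S} {δ : List S} (hδ : IsDel M T δ) {p : S → ℝ} (p0 : 0 ≤ p)
    (hp : ∀ j ∈ Cl M T, j ∉ T → p j = 0) (hw : 0 ≤ wact M δ p) : ∀ j ∈ T, p j = 0 := by
  classical
  have e : p = T.indicator p + Tᶜ.indicator p := (Set.indicator_self_add_compl T p).symm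
  have h2 : wact M δ (Tᶜ.indicator p) = Tᶜ.indicator p := wact_fix hδ.1 fun j hj => by
    by_cases hT : j ∈ T
    · simp [hT]
    · simp [hT, hp j hj hT]
  have s1 : ∀ j, j ∉ T → T.indicator p j = 0 := fun j hj => by simp [hj]
  have h1 := rho_nonpos_supp (cx M) hδ.2.2.1 (v := T.indicator p)
    (fun j => Set.indicator_nonneg (fun j _ => p0 j) j) s1
  have h3 : rho (cx M) ((cx M).wordProd δ) (T.indicator p) = 0 := by
    funext j
    by_cases hT : j ∈ T
    · refine le_antisymm (h1 j) ?_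
      have := hw j
      rw [e, map_add, h2, ← rho_wordProd (cx M)] at this
      simpa [hT] using this
    · rw [rho_supp (cx M) (wordProd_mem_par _ hδ.1) _ j hT, s1 j hT]; rfl
  have h4 : T.indicator p = 0 := by
    have : rho (cx M) ((cx M).wordProd δ)⁻¹ (rho (cx M) ((cx M).wordProd δ) (T.indicator p)) =
        T.indicator p := by
      rw [← Module.End.mul_apply, ← map_mul]; simp
    rw [← this, h3, map_zero]
  intro j hj
  simpa [hj] using congrFun h4 j

/-- clearing the cohomology over a spherical set -/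
theorem clear (h : IF n) {T : Set S} (hT : Sph M T) {g : Artin M} {a : ℤ}
    (hg : Win n g (Cl M T \ T) a) : ∃ c, g⁻¹ * c ∈ apar M T ∧ Win n c T a := by
  obtain ⟨δ, hδ⟩ := hT.exists_del
  obtain ⟨b0, hb⟩ := h.i8.1 g
  have key : ∀ m : ℕ, b0 + m ≤ a → ∃ c, g⁻¹ * c ∈ apar M T ∧ Win n c T (b0 + m) := by
    intro m
    induction m with
    | zero => exact fun _ => ⟨g, by simp, fun k hk j _ => hb k (by simpa using hk) j trivial⟩
    | succ m ih =>
      intro hm
      push_cast at hm ⊢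
      obtain ⟨c, c1, c2⟩ := ih (by omega)
      have c3 : Win n c (Cl M T) (b0 + m) := fun k hk j hj => by
        by_cases e : j ∈ T
        · exact c2 k hk j e
        · rw [inv_cos h.i1 c1 k e, hg k (by omega) j ⟨hj, e⟩]
      have c4 : g⁻¹ * (c * pos M δ) ∈ apar M T := by
        rw [← mul_assoc]; exact mul_mem c1 (pos_mem_apar hδ.1)
      have c5 := up_pos (P := fun g => Win n g (Cl M T) (b0 + m)) (win_up h) hδ.1 c3
      refine ⟨_, c4, fun k hk j hj => ?_⟩
      rcases lt_or_eq_of_le (show k ≤ b0 + m by omega) with hk' | rfl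
      · exact c5 k hk' j ⟨j, hj, by simp⟩
      · refine vanish hδ (h.nonneg _ _) (fun j hj e => ?_) (h.i4 T c _ δ c3 hδ.1 hδ.2.1) j hj
        rw [inv_cos h.i1 c4 _ e, hg _ (by omega) j ⟨hj, e⟩]
  rcases le_total b0 a with hab | hab
  · obtain ⟨m, rfl⟩ := Int.le.dest hab
    exact key m le_rfl
  · exact ⟨g, by simp, fun k hk j _ => hb k (by omega) j trivial⟩

/-- a vertex in the window lies in a chamber in the window -/
theorem chamber (h : IF n) {T : Set S} (hT : Sph M T) {g0 : Artin M} {a : ℤ} {x : Artin M × S}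
    (hg : Win n g0 (Cl M T \ T) a) (hx : Vx M T g0 x) (hw : Win n x.1 {x.2} a) :
    ∃ c, x.1⁻¹ * c ∈ apar M (T \ {x.2}) ∧ Win n c (Cl M T) a := by
  have h0 : ∀ k < a, ∀ j ∈ Cl M T, j ∉ T \ {x.2} → n x.1 k j = 0 := fun k hk j hj e => by
    by_cases e1 : j ∈ T
    · exact hw k hk j (by_contra fun e2 => e ⟨e1, e2⟩)
    · rw [inv_cos h.i1 hx.2 k e1, hg k hk j ⟨hj, e1⟩]
  obtain ⟨c, c1, c2⟩ := clear h (hT.mono (T' := T \ {x.2}) Set.sdiff_subset) (g := x.1) (a := a)
    fun k hk j hj => h0 k hk j (cl_mono Set.sdiff_subset hj.1) hj.2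
  refine ⟨c, c1, fun k hk j hj => ?_⟩
  by_cases e : j ∈ T \ {x.2}
  · exact c2 k hk j e
  · rw [inv_cos h.i1 c1 k e, h0 k hk j hj e]

end Dir

open Dir in
theorem st_DIR : St_DIR := by
  intro S _ _ M n T h hT g0 a x z hg hx hz wx wz
  obtain ⟨c1, a1, a2⟩ := chamber h hT hg hx wx
  obtain ⟨c2, b1, b2⟩ := chamber h hT hg hz wz
  have hm : c1⁻¹ * c2 ∈ apar M T := by
    have := mul_mem (mul_mem (inv_mem (apar_mono Set.sdiff_subset a1))
      (mul_mem (inv_mem hx.2) hz.2)) (apar_mono Set.sdiff_subset b1)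
    simpa [mul_assoc] using this
  obtain ⟨p, q, op, oq, e⟩ := hT.exists_upper hm
  obtain ⟨c, d, oc, -, hcd⟩ := hT.common op.reverse oq.reverse
  have oV : Ov T (p.reverse ++ c) := ov_append.2 ⟨op.reverse, oc⟩
  have r1 : dn (c1 * pos M p) p.reverse = c1 := by simp [dn]
  have r2 : dn (c1 * pos M p) q.reverse = c2 := by simp [dn, e]
  obtain ⟨u, ⟨e1, u1⟩, ⟨e2, u2⟩, u3, u4⟩ := join (P := fun g => Win n g (Cl M T) a) (win_up h)
    (win_dia h) oV (z := c1 * pos M p) (Dv.append _ _) ⟨d, hcd.symm⟩ (by rwa [r1]) (by rwa [r2])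
  have ou := oV.of_dv u3
  refine ⟨_, e1.reverse, e2.reverse, u4, (ov_append.1 (ou.be u1)).2.reverse,
    (ov_append.1 (ou.be u2)).2.reverse, ?_, ?_⟩
  · rwa [← dn_be _ u1, dn_append, r1]
  · rwa [← dn_be _ u2, dn_append, r2]

end Pool.Agent.WP34
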