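import Pool.Agent.Lib.WP34.Blue

/-! Block H1: existence, uniqueness, dimension and invariance of the cohomology module. -/

set_option linter.unusedSectionVars false

namespace Pool.Agent.WP34

namespace H1

variable {ι : Type} [Fintype ι] [DecidableEq ι] {N : CoxeterMatrix ι} {V W W' : Type}
  [AddCommGroup V] [Module F V] [AddCommGroup W] [Module F W] [AddCommGroup W'] [Module F W']

theorem factor (Z : Submodule F V) (q : V →ₗ[F] W) (q' : V →ₗ[F] W')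
    (h : ∀ z ∈ Z, q z = 0 → q' z = 0) : ∃ f : W →ₗ[F] W', ∀ z ∈ Z, f (q z) = q' z := by
  obtain ⟨s, hs⟩ := (q.domRestrict Z).rangeRestrict.exists_rightInverse_of_surjective
    (LinearMap.range_rangeRestrict _)
  obtain ⟨f, hf⟩ := LinearMap.exists_extend (q' ∘ₗ Z.subtype ∘ₗ s)
  refine ⟨f, fun z hz => ?_⟩
  let w : LinearMap.range (q.domRestrict Z) := ⟨q z, ⟨z, hz⟩, rfl⟩
  have h1 : f (q z) = q' (s w) := LinearMap.congr_fun hf w
  have h3 : q (s w) = q z := congrArg Subtype.val (LinearMap.congr_fun hs w)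
  rw [h1]
  apply eq_of_add
  rw [← map_add]
  exact h _ (add_mem (s w).2 hz) (by rw [map_add, h3, h2])

theorem proj (B : Submodule F V) :
    ∃ p : V →ₗ[F] V, (∀ v, p v = 0 ↔ v ∈ B) ∧ ∀ v, p v + v ∈ B := by
  obtain ⟨r, hr⟩ := B.subtype.exists_leftInverse_of_injective B.ker_subtype
  refine ⟨B.subtype ∘ₗ r + LinearMap.id, fun v => ⟨fun h => ?_, fun h => ?_⟩, fun v => ?_⟩
  · rw [← eq_of_add (show (r v : V) + v = 0 from h)]; exact (r v).2
  · have : r v = ⟨v, h⟩ := LinearMap.congr_fun hr ⟨v, h⟩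
    show (r v : V) + v = 0
    rw [this]; exact h2 v
  · show (r v : V) + v + v ∈ B
    rw [add_assoc, h2, add_zero]; exact (r v).2

theorem x_Z (X : Ob N V) {k i j} (a : N i j = 3) {z : V} (hz : z ∈ X.Z k i) :
    X.x i j z ∈ X.Z k j :=
  ⟨X.x_mem _ _ _ a _ hz.1, by
    show X.d j _ = 0
    rw [X.dx _ _ _ a _ hz.1, (Ob.mem_Z.1 hz).2, map_zero]⟩

theorem x_B (X : Ob N V) {k i j} (a : N i j = 3) {z : V} (hz : z ∈ X.B k i) :
    X.x i j z ∈ X.B k j := by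
  obtain ⟨u, hu, rfl⟩ := hz
  exact ⟨_, X.x_mem _ _ _ a _ hu, X.dx _ _ _ a _ hu⟩

theorem eq_of_mem {B : Submodule F V} {p : V →ₗ[F] W} (hp : ∀ v ∈ B, p v = 0) {u v : V}
    (h : u + v ∈ B) : p u = p v := eq_of_add (by rw [← map_add]; exact hp _ h)

theorem ex (X : Ob N V) (k : ℤ) : ∃ A : Md N V, IsH X k A := by
  choose p hp0 hp using fun i => proj (X.B k i)
  have key : ∀ i j, N i j = 3 → ∀ v, p j (X.x i j (p i v)) = p j (X.x i j v) := fun i j a v =>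
    eq_of_mem (fun v => (hp0 j v).2) (by rw [← map_add]; exact x_B X a (hp i v))
  refine ⟨⟨fun i => (X.Z k i).map (p i), fun i j => p j ∘ₗ X.x i j, ?_, ?_⟩, p, fun _ => rfl,
    fun i z _ => hp0 i z, fun i j a z _ => (key i j a z).symm⟩
  · rintro i j a _ ⟨z, hz, rfl⟩
    exact ⟨_, x_Z X a hz, (key i j a z).symm⟩
  · rintro i _ ⟨z, hz, rfl⟩
    rw [inn_map (x := X.x) (n := out N X.x i z) (p i) fun j a => by
      simp only [out_apply, a, if_true, LinearMap.comp_apply, key i j a, key j i (adj_symm a)]]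
    have h := X.dt _ _ _ hz.1
    rw [(Ob.mem_Z.1 hz).2, map_zero, zero_add] at h
    exact (hp0 i _).2 ⟨_, X.t_mem _ _ _ hz.1, h⟩

theorem uniq {X : Ob N V} {k : ℤ} {A : Md N W} {B : Md N W'} (hA : IsH X k A) (hB : IsH X k B) :
    Emb A B := by
  obtain ⟨q, q1, q2, q3⟩ := hA
  obtain ⟨r, r1, r2, r3⟩ := hB
  choose f hf using fun i => factor (X.Z k i) (q i) (r i) fun z hz h =>
    (r2 i z hz).2 ((q2 i z hz).1 h)
  refine ⟨f, fun i v hv => ?_, fun i v hv => ?_, fun i j a v hv => ?_⟩ <;>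
    (rw [← q1] at hv; obtain ⟨z, hz, rfl⟩ := hv; rw [hf i z hz])
  · rw [← r1]; exact ⟨z, hz, rfl⟩
  · exact fun h => (q2 i z hz).2 ((r2 i z hz).1 h)
  · rw [← q3 i j a z hz, hf j _ (x_Z X a hz), r3 i j a z hz]

theorem dim [Finite V] {X : Ob N V} {k : ℤ} {A : Md N W} (hA : IsH X k A) (i : ι) :
    A.dim i = X.hd k i := by
  obtain ⟨q, q1, q2, -⟩ := hA
  have h1 := ((q i).domRestrict (X.Z k i)).finrank_range_add_finrank_ker
  have h3 : LinearMap.ker ((q i).domRestrict (X.Z k i)) = (X.B k i).comap (X.Z k i).subtype :=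
    Submodule.ext fun z => q2 i z z.2
  rw [LinearMap.range_domRestrict, q1, h3,
    (Submodule.comapSubtypeEquivOfLe Ob.B_le_Z).finrank_eq] at h1
  rw [Md.dim, Ob.hd, ← h1, Nat.add_sub_cancel]

theorem f_Z {X : Ob N V} {Y : Ob N W} (φ : Hom X Y) {k i} {z : V} (hz : z ∈ X.Z k i) :
    φ.f i z ∈ Y.Z k i :=
  ⟨φ.mem _ _ _ hz.1, by
    show Y.d i _ = 0
    rw [← φ.fd _ _ _ hz.1, (Ob.mem_Z.1 hz).2, map_zero]⟩

theorem f_B {X : Ob N V} {Y : Ob N W} (φ : Hom X Y) {k i} {z : V} (hz : z ∈ X.B k i) :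
    φ.f i z ∈ Y.B k i := by
  obtain ⟨u, hu, rfl⟩ := hz
  exact ⟨_, φ.mem _ _ _ hu, (φ.fd _ _ _ hu).symm⟩

theorem back {X : Ob N V} {Y : Ob N W} {k : ℤ} {A : Md N W'} (h : QI X Y) (hA : IsH Y k A) :
    IsH X k A := by
  obtain ⟨φ, hφ⟩ := h
  obtain ⟨q, q1, q2, q3⟩ := hA
  refine ⟨fun i => q i ∘ₗ φ.f i, fun i => ?_, fun i z hz => ?_, fun i j a z hz => ?_⟩
  · rw [← q1]
    refine le_antisymm ?_ ?_
    · rintro _ ⟨z, hz, rfl⟩
      exact ⟨_, f_Z φ hz, rfl⟩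
    · rintro _ ⟨y, hy, rfl⟩
      obtain ⟨z, hz, h⟩ := (hφ k i).2 y hy
      exact ⟨z, hz, eq_of_mem (fun v hv => (q2 i v (Ob.B_le_Z hv)).2 hv) h⟩
  · exact (q2 i _ (f_Z φ hz)).trans ⟨(hφ k i).1 z hz, f_B φ⟩
  · show q j (φ.f j _) = A.x i j (q i (φ.f i z))
    rw [φ.fx _ _ _ a _ hz.1, q3 i j a _ (f_Z φ hz)]

theorem forth {X : Ob N V} {Y : Ob N W} {k : ℤ} {A : Md N W'} (h : QI X Y) (hA : IsH X k A) :
    IsH Y k A := by
  obtain ⟨φ, hφ⟩ := h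
  obtain ⟨q, q1, q2, q3⟩ := hA
  choose p hp0 hp using fun i => proj (Y.B k i)
  choose g hg using fun i => factor (X.Z k i) (p i ∘ₗ φ.f i) (q i) fun z hz h =>
    (q2 i z hz).2 ((hφ k i).1 z hz ((hp0 i _).1 h))
  have key : ∀ i, ∀ z ∈ X.Z k i, ∀ y, φ.f i z + y ∈ Y.B k i → (g i ∘ₗ p i) y = q i z :=
    fun i z hz y h => by
      rw [← hg i z hz]
      exact congrArg (g i) (eq_of_mem (fun v => (hp0 i v).2) h).symm
  refine ⟨fun i => g i ∘ₗ p i, fun i => ?_, fun i y hy => ?_, fun i j a y hy => ?_⟩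
  · rw [← q1]
    refine le_antisymm ?_ ?_
    · rintro _ ⟨y, hy, rfl⟩
      obtain ⟨z, hz, h⟩ := (hφ k i).2 y hy
      exact ⟨z, hz, (key i z hz y h).symm⟩
    · rintro _ ⟨z, hz, rfl⟩
      exact ⟨_, f_Z φ hz, hg i z hz⟩
  · obtain ⟨z, hz, h⟩ := (hφ k i).2 y hy
    rw [key i z hz y h, q2 i z hz]
    refine ⟨fun hb => ?_, fun hb => (hφ k i).1 z hz ?_⟩
    · simpa [h2'] using add_mem (f_B φ hb) h
    · simpa [add_assoc, h2] using add_mem h hb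
  · obtain ⟨z, hz, h⟩ := (hφ k i).2 y hy
    rw [key i z hz y h, key j _ (x_Z X a hz) _ ?_, q3 i j a z hz]
    rw [φ.fx _ _ _ a _ hz.1, ← map_add]
    exact x_B Y a h

end H1

theorem st_H1 : St_H1 := fun X k =>
  ⟨let ⟨A, h⟩ := H1.ex X.o k; ⟨⟨A⟩, h⟩, fun _ _ => H1.uniq, fun _ i h => H1.dim h i,
    fun _ _ h => ⟨H1.forth h, H1.back h⟩⟩

end Pool.Agent.WP34
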