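import Pool.Agent.Lib.WP34.Blue

/-! The lowest cohomology layer under the positive reflection. -/

set_option linter.unusedSectionVars false

namespace Pool.Agent.WP34

open LinearMap (fst snd)

namespace H2

variable {ι : Type} [Fintype ι] [DecidableEq ι] {N : CoxeterMatrix ι} {V W : Type}
  [AddCommGroup V] [Module F V] [AddCommGroup W] [Module F W] {X : Ob N V} {i j : ι} {k : ℤ}

theorem mem_Z_ne (h : j ≠ i) {n : ι → V} {v : V} :
    (n, v) ∈ (X.rho i).Z k j ↔ n = 0 ∧ v ∈ X.Z k j := by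
  rw [Ob.mem_Z, Ob.mem_rho_ne h, Ob.rho_d, Ob.mem_Z]
  constructor
  · rintro ⟨⟨rfl, hv⟩, hd⟩
    exact ⟨rfl, hv, by simpa using hd⟩
  · rintro ⟨rfl, hv, hd⟩
    exact ⟨⟨rfl, hv⟩, by simp [hd]⟩

theorem mem_B_ne (h : j ≠ i) {n : ι → V} {v : V} :
    (n, v) ∈ (X.rho i).B k j ↔ n = 0 ∧ v ∈ X.B k j := by
  rw [Ob.mem_B, Ob.mem_B]
  constructor
  · rintro ⟨⟨m, u⟩, hm, hd⟩
    obtain ⟨rfl, hu⟩ := (Ob.mem_rho_ne h).1 hm
    rw [Ob.rho_d, Prod.mk.injEq] at hd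
    exact ⟨by simpa using hd.1.symm, u, hu, by simpa using hd.2⟩
  · rintro ⟨rfl, u, hu, rfl⟩
    exact ⟨(0, u), (Ob.mem_rho_ne h).2 ⟨rfl, hu⟩, by simp [Ob.rho_d]⟩

theorem mem_Z_self {n : ι → V} {v : V} : (n, v) ∈ (X.rho i).Z k i ↔
    n ∈ nb N (X.Z k) i ∧ v ∈ X.G (k - 1) i ∧ inn N X.x i n = X.d i v := by
  rw [Ob.mem_Z, Ob.mem_rho_self, Ob.rho_d, Prod.mk_eq_zero]
  constructor
  · rintro ⟨⟨hn, hv⟩, h1, h3⟩
    exact ⟨mem_nb.2 ⟨fun p a => ⟨(mem_nb.1 hn).1 p a, congrFun h1 p⟩, (mem_nb.1 hn).2⟩, hv,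
      eq_of_add h3⟩
  · rintro ⟨hn, hv, h⟩
    refine ⟨⟨mem_nb.2 ⟨fun p a => ((mem_nb.1 hn).1 p a).1, (mem_nb.1 hn).2⟩, hv⟩, ?_, ?_⟩
    · funext p
      by_cases a : N i p = 3
      exacts [((mem_nb.1 hn).1 p a).2, by simp [(mem_nb.1 hn).2 p a]]
    · rw [h, h2]

theorem nb_lift {n : ι → V} (hn : n ∈ nb N (X.B k) i) :
    ∃ m ∈ nb N (X.G (k - 1)) i, dia X.d m = n := by
  have : ∀ p, ∃ u, (N i p = 3 → u ∈ X.G (k - 1) p) ∧ (N i p ≠ 3 → u = 0) ∧ X.d p u = n p := by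
    intro p
    by_cases a : N i p = 3
    · obtain ⟨u, hu, e⟩ := Ob.mem_B.1 ((mem_nb.1 hn).1 p a)
      exact ⟨u, fun _ => hu, fun b => absurd a b, e⟩
    · exact ⟨0, fun b => absurd b a, fun _ => rfl, by simp [(mem_nb.1 hn).2 p a]⟩
  choose m h1 h3 h4 using this
  exact ⟨m, mem_nb.2 ⟨h1, h3⟩, funext h4⟩

theorem hd_ne (h : j ≠ i) : (X.rho i).hd k j = X.hd k j := by
  have hz : (X.rho i).Z k j = (X.Z k j).map (LinearMap.inr F (ι → V) V) := by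
    ext ⟨n, v⟩
    rw [mem_Z_ne h, Submodule.mem_map]
    constructor
    · rintro ⟨rfl, hv⟩; exact ⟨v, hv, rfl⟩
    · rintro ⟨u, hu, e⟩
      obtain ⟨rfl, rfl⟩ := Prod.mk.inj e
      exact ⟨rfl, hu⟩
  have hb : (X.rho i).B k j = (X.B k j).map (LinearMap.inr F (ι → V) V) := by
    ext ⟨n, v⟩
    rw [mem_B_ne h, Submodule.mem_map]
    constructor
    · rintro ⟨rfl, hv⟩; exact ⟨v, hv, rfl⟩
    · rintro ⟨u, hu, e⟩
      obtain ⟨rfl, rfl⟩ := Prod.mk.inj e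
      exact ⟨rfl, hu⟩
  rw [Ob.hd, Ob.hd, hz, hb,
    ← (Submodule.equivMapOfInjective _ LinearMap.inr_injective (X.Z k j)).finrank_eq,
    ← (Submodule.equivMapOfInjective _ LinearMap.inr_injective (X.B k j)).finrank_eq]

theorem x_mem_Z (a : N i j = 3) {z : V} (hz : z ∈ X.Z k i) : X.x i j z ∈ X.Z k j :=
  ⟨X.x_mem _ _ _ a _ hz.1, by
    have := X.dx _ _ _ a _ hz.1
    rw [(Ob.mem_Z.1 hz).2, map_zero] at this
    exact this⟩

/-- the projection onto the reflected module -/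
def qq (q : ι → V →ₗ[F] W) (i j : ι) : (ι → V) × V →ₗ[F] (ι → W) × W :=
  (dia q).prodMap (if j = i then 0 else q j)

theorem qq_self (q : ι → V →ₗ[F] W) (n : ι → V) (v : V) : qq q i i (n, v) = (dia q n, 0) := by
  simp [qq]

theorem qq_ne (q : ι → V →ₗ[F] W) (h : j ≠ i) (v : V) : qq q i j (0, v) = (0, q j v) := by
  simp [qq, h]

theorem hr [Finite V] {A : Md N W} (hA : IsH X k A) (h0 : X.hd (k - 1) i = 0) :
    IsH (X.rho i) k (A.r0 i) := by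
  obtain ⟨q, h1, h3, h4⟩ := hA
  have hq : ∀ p, ∀ z ∈ X.Z k p, q p z ∈ A.G p := fun p z hz => h1 p ▸ Submodule.mem_map_of_mem hz
  have hin : ∀ n ∈ nb N (X.Z k) i, inn N A.x i (dia q n) = q i (inn N X.x i n) := fun n hn =>
    inn_map (q i) fun p a => (h4 p i (adj_symm a) _ ((mem_nb.1 hn).1 p a)).symm
  have hZ : ∀ n ∈ nb N (X.Z k) i, inn N X.x i n ∈ X.Z k i := fun n hn =>
    inn_mem (G := X.Z k) (fun _ _ a _ hv => x_mem_Z a hv) hn
  refine ⟨qq q i, fun j => ?_, fun j => ?_, fun j l a => ?_⟩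
  · ext ⟨m, w⟩
    rw [Submodule.mem_map]
    by_cases h : j = i
    · subst h
      rw [Md.mem_r0_self]
      constructor
      · rintro ⟨⟨n, v⟩, hz, e⟩
        obtain ⟨hn, hv, hd⟩ := mem_Z_self.1 hz
        rw [qq_self] at e
        obtain ⟨rfl, rfl⟩ := Prod.mk.inj e
        refine ⟨⟨mem_nb.2 ⟨fun p a => hq p _ ((mem_nb.1 hn).1 p a), fun p a => by
          simp [(mem_nb.1 hn).2 p a]⟩, ?_⟩, rfl⟩
        rw [hin n hn, h3 _ _ (hZ n hn), hd]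
        exact ⟨v, hv, rfl⟩
      · rintro ⟨⟨hm, h5⟩, rfl⟩
        have : ∀ p, ∃ u, (N j p = 3 → u ∈ X.Z k p) ∧ (N j p ≠ 3 → u = 0) ∧ q p u = m p := by
          intro p
          by_cases a : N j p = 3
          · have := (mem_nb.1 hm).1 p a
            rw [← h1 p] at this
            obtain ⟨u, hu, e⟩ := this
            exact ⟨u, fun _ => hu, fun b => absurd a b, e⟩
          · exact ⟨0, fun b => absurd b a, fun _ => rfl, by simp [(mem_nb.1 hm).2 p a]⟩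
        choose n g1 g2 g3 using this
        have hn : n ∈ nb N (X.Z k) j := mem_nb.2 ⟨g1, g2⟩
        have e : dia q n = m := funext g3
        have := hin n hn
        rw [e, h5, eq_comm, h3 _ _ (hZ n hn)] at this
        obtain ⟨v, hv, hd⟩ := Ob.mem_B.1 this
        exact ⟨(n, v), mem_Z_self.2 ⟨hn, hv, hd.symm⟩, by rw [qq_self, e]⟩
    · rw [Md.mem_r0_ne h]
      constructor
      · rintro ⟨⟨n, v⟩, hz, e⟩
        obtain ⟨rfl, hv⟩ := (mem_Z_ne h).1 hz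
        rw [qq_ne q h] at e
        obtain ⟨rfl, rfl⟩ := Prod.mk.inj e
        exact ⟨rfl, hq _ _ hv⟩
      · rintro ⟨rfl, hw⟩
        rw [← h1 j] at hw
        obtain ⟨v, hv, rfl⟩ := hw
        exact ⟨(0, v), (mem_Z_ne h).2 ⟨rfl, hv⟩, qq_ne q h v⟩
  · rintro ⟨n, v⟩ hz
    by_cases h : j = i
    · subst h
      obtain ⟨hn, hv, hd⟩ := mem_Z_self.1 hz
      rw [qq_self, Prod.mk_eq_zero]
      constructor
      · rintro ⟨e, -⟩
        obtain ⟨m, hm, rfl⟩ : ∃ m ∈ nb N (X.G (k - 1)) j, dia X.d m = n :=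
          nb_lift (mem_nb.2 ⟨fun p a => (h3 p _ ((mem_nb.1 hn).1 p a)).1 (congrFun e p),
            (mem_nb.1 hn).2⟩)
        have hu : inn N X.x j m + v ∈ X.Z (k - 1) j :=
          ⟨add_mem (inn_mem (X.x_mem _) hm) hv, by
            rw [SetLike.mem_coe, LinearMap.mem_ker, map_add, X.d_inn hm, hd, h2]⟩
        obtain ⟨w, hw, e'⟩ := Ob.mem_B.1 (Ob.hd_eq_zero.1 h0 hu)
        exact ⟨(m, w), Ob.mem_rho_self.2 ⟨hm, hw⟩, by rw [Ob.rho_d, e', h2']⟩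
      · rintro ⟨⟨m, w⟩, hm, e⟩
        rw [Ob.rho_d] at e
        obtain ⟨rfl, -⟩ := Prod.mk.inj e
        refine ⟨funext fun p => ?_, rfl⟩
        by_cases a : N j p = 3
        · exact (h3 p _ ((mem_nb.1 hn).1 p a)).2
            ⟨m p, (mem_nb.1 (Ob.mem_rho_self.1 hm).1).1 p a, rfl⟩
        · have := (mem_nb.1 hn).2 p a
          rw [dia_apply, this, map_zero]; rfl
    · obtain ⟨rfl, hv⟩ := (mem_Z_ne h).1 hz
      rw [qq_ne q h, mem_B_ne h, Prod.mk_eq_zero, h3 _ _ hv]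
      simp
  · rintro ⟨n, v⟩ hz
    rw [Ob.rho_x, Md.r0_x]
    by_cases h : j = i
    · subst h
      rw [qq_self, rx_from, rx_from, qq_ne q (adj_ne a).symm, dia_apply]
    · obtain ⟨rfl, hv⟩ := (mem_Z_ne h).1 hz
      rw [qq_ne q h]
      by_cases h' : l = i
      · subst h'
        rw [rx_to h, rx_to h, qq_self, ← h4 _ _ a _ hv]
        refine Prod.ext (funext fun p => ?_) rfl
        simp only [dia_apply, out_apply]
        split_ifs with b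
        exacts [h4 _ _ b _ (x_mem_Z a hv), map_zero _]
      · rw [rx_ne h h', rx_ne h h', qq_ne q h', h4 _ _ a _ hv]

theorem up [Finite V] {A : Md N W} (hA : IsH (X.rho i) (k + 1) A) (hi : A.Inj i)
    (h0 : ∀ p, N i p = 3 → X.hd k p = 0) : X.hd k i = 0 := by
  obtain ⟨q, h1, h3, h4⟩ := hA
  refine Ob.hd_eq_zero.2 fun z hz => ?_
  have hc : ((0 : ι → V), z) ∈ (X.rho i).Z (k + 1) i :=
    mem_Z_self.2 ⟨zero_mem _, by simpa using hz.1, by rw [map_zero, (Ob.mem_Z.1 hz).2]⟩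
  have h5 : q i (0, z) = 0 := by
    refine hi _ (h1 i ▸ Submodule.mem_map_of_mem hc) (funext fun p => ?_)
    rw [out_apply]
    split_ifs with a
    · rw [← h4 _ _ a _ hc, Ob.rho_x, rx_from]
      exact map_zero _
    · rfl
  obtain ⟨⟨n, u⟩, hn, e⟩ := Ob.mem_B.1 ((h3 _ _ hc).1 h5)
  rw [add_sub_cancel_right] at hn
  obtain ⟨hn, hu⟩ := Ob.mem_rho_self.1 hn
  rw [Ob.rho_d] at e
  obtain ⟨e1, rfl⟩ := Prod.mk.inj e
  obtain ⟨m, hm, rfl⟩ : ∃ m ∈ nb N (X.G (k - 1)) i, dia X.d m = n :=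
    nb_lift (mem_nb.2 ⟨fun p a => Ob.hd_eq_zero.1 (h0 p a)
      ⟨(mem_nb.1 hn).1 p a, congrFun e1 p⟩, (mem_nb.1 hn).2⟩)
  exact ⟨inn N X.x i m + u, add_mem (inn_mem (X.x_mem _) hm) hu, by rw [map_add, X.d_inn hm]⟩

end H2

theorem st_H2 : St_H2 := fun _ _ _ =>
  ⟨fun _ h => H2.hd_ne h, fun _ h h0 => H2.hr h h0, fun _ h hi h0 => H2.up h hi h0⟩

end Pool.Agent.WP34
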