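import Pool.Agent.Lib.WP34.Blue

/-! The interface facts that come from walking up inside the window. -/

set_option linter.unusedSectionVars false

namespace Pool.Agent.WP34

open Pool.Agent.H51 Relation

namespace IFA

variable {S ι : Type} [Fintype S] [DecidableEq S] [Fintype ι] [DecidableEq ι]
  {M : CoxeterMatrix S} {N : CoxeterMatrix ι} {U : Unf M N} {D : DG N}

theorem off_fold (l : List ι) (X : D.Q) (k : ℤ) {j : ι} (hj : j ∉ l) :
    D.hd (l.foldl (fun Y i => D.rho i Y) X) k j = D.hd X k j := by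
  induction l generalizing X with
  | nil => rfl
  | cons i l ih =>
    rw [List.foldl_cons, ih _ fun h => hj (List.mem_cons_of_mem _ h),
      D.off _ _ _ _ fun h : j = i => hj (h ▸ List.mem_cons_self)]

theorem walk (h1 : MOD1 N) (R : Set ι) (a : ℤ) (l : List ι)
    (hl : ∀ i ∈ l, i ∈ R ∧ ∀ p, N i p = 3 → p ∈ R) (X : D.Q) (A : BM N)
    (hw : ∀ k < a, ∀ p ∈ R, D.hd X k p = 0) (hA : D.IsH X a A) :
    D.IsH (l.foldl (fun Y i => D.rho i Y) X) a (A.rw l) ∧
      ∀ k < a, ∀ p ∈ R, D.hd (l.foldl (fun Y i => D.rho i Y) X) k p = 0 := by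
  induction l generalizing X A with
  | nil => exact ⟨hA, hw⟩
  | cons i l ih =>
    obtain ⟨hi, hn⟩ := hl i List.mem_cons_self
    refine ih (fun j hj => hl j (List.mem_cons_of_mem _ hj)) _ _ (fun k hk p hp => ?_)
      (D.hr _ _ _ _ hA (hw _ (by omega) _ hi))
    by_cases e : p = i
    · subst e
      obtain ⟨B, hB⟩ := D.ex X k
      have h2 := D.dim _ _ _ p (D.hr _ _ _ p hB (hw _ (by omega) _ hp))
      rw [h1.dim_r0_zero B p fun q hq => by
        rw [D.dim _ _ _ q hB, hw k hk q (hn q hq), Nat.cast_zero]] at h2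
      exact_mod_cast h2.symm
    · rw [D.off _ _ _ _ e, hw k hk p hp]

theorem X_pos (Y : Sys U D) (u : List S) (g : Artin M) :
    Y.X (g * pos M u) = (U.uw u).foldl (fun Y i => D.rho i Y) (Y.X g) := by
  induction u generalizing g with
  | nil => simp [Unf.uw]
  | cons s u ih =>
    rw [pos_cons, ← mul_assoc, ih, Y.step, Unf.uw, Unf.uw, List.flatMap_cons, List.foldl_append]

theorem inj_rw (h1 : MOD1 N) (l : List ι) (A : BM N) (j : ι) (hl : ∀ i ∈ l, N i j ≠ 3)
    (h : j ∈ l ∨ A.o.Inj j) : (A.rw l).o.Inj j := by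
  induction l generalizing A with
  | nil => exact h.resolve_left List.not_mem_nil
  | cons i l ih =>
    refine ih (A.r0 i) (fun p hp => hl p (List.mem_cons_of_mem _ hp)) ?_
    rcases h with h | h
    · rcases List.mem_cons.1 h with rfl | h
      exacts [.inr (h1.inj_self A j), .inl h]
    · exact .inr (h1.inj_r0 A i j h (.inl (hl i List.mem_cons_self)))

theorem emb_of_inj (h1 : MOD1 N) (l : List ι) (A : BM N) (h : ∀ j ∈ l, A.o.Inj j) :
    Emb A.o (A.rw l).o := by
  induction l generalizing A with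
  | nil => exact h1.refl A
  | cons i l ih =>
    have hi := h i List.mem_cons_self
    exact h1.trans A (A.r0 i) _ (h1.emb_r0 A i hi)
      (ih (A.r0 i) fun j hj => h1.inj_r0 A i j (h j (List.mem_cons_of_mem _ hj)) (.inr hi))

theorem mem_Cl {T : Set S} {s : S} (hs : s ∈ T) : s ∈ Cl M T := ⟨s, hs, by simp⟩

end IFA

open IFA

theorem st_IFA : St_IFA := by
  intro S ι _ _ _ _ M N U D Y hG h1
  have h0 : ∀ g a A, D.IsH (Y.X g) a A → Y.n g a = U.π A.o.dim := fun g a A h =>
    congrArg U.π (funext fun i => (D.dim _ _ _ i h).symm)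
  have hW : WALK Y := fun T g a A u hw hu hA => by
    have := walk h1 {p | U.pr p ∈ Cl M T} a (U.uw u) (fun i hi => by
      obtain ⟨t, ht, hit⟩ := List.mem_flatMap.mp hi
      have hT : U.pr i ∈ T := (U.mem_fib t i).mp hit ▸ hu t ht
      exact ⟨mem_Cl hT, fun p hp => ⟨_, hT, hG.adj i p hp⟩⟩) (Y.X g) A
      (fun k hk p hp => Y.n_eq_zero.1 (hw k hk _ hp) p rfl) hA
    rw [← X_pos] at this
    exact ⟨this.1, fun k hk j hj => Y.n_eq_zero.2 fun i hi => this.2 k hk i (hi.symm ▸ hj :)⟩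
  have hI1 : I1 Y.n := fun g s k j hj => U.π_congr fun i hi => by
    rw [Y.step, off_fold _ _ _ fun h => hj (hi.symm.trans ((U.mem_fib s i).1 h))]
  refine ⟨hW, hI1, fun g s a hw => ?_, fun T g a s h hw hs hh => ?_, fun g => ?_, fun b => ?_⟩
  · obtain ⟨A, hA⟩ := D.ex (Y.X g) a
    obtain ⟨h2, h3⟩ := hW {s} g a A [s] hw (by simp [Ov]) hA
    rw [pos_singleton] at h2 h3
    refine ⟨fun k hk j hj => h3 k hk j (mem_Cl hj),
      Y.n (g * gen M s) a s - sref M s (Y.n g a) s, sub_nonneg.2 ?_, funext fun j => ?_⟩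
    · have h4 := U.π_mono (h1.dim_rw A _ (hG.red [s] (by simp [CoxeterSystem.IsReduced]))) s
      rw [hG.act_rev, ← h0 _ _ _ hA, ← h0 _ _ _ h2] at h4
      simpa [wact] using h4
    · by_cases e : j = s
      · simp [ee, e]
      · simp [ee, e, hI1 g s a j e, sref_apply]
  · obtain ⟨A, hA⟩ := D.ex (Y.X g) a
    have hh1 : Ov T (s :: h) := ov_cons.2 ⟨hs, hh⟩
    rw [h0 _ _ _ (hW T g a A _ hw hh1 hA).1, h0 _ _ _ (hW T g a A _ hw (ov_cons.2 ⟨hs, hh1⟩) hA).1]
    rw [show U.uw (s :: s :: h) = U.fib s ++ (U.fib s ++ U.uw h) from rfl,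
      show U.uw (s :: h) = U.fib s ++ U.uw h from rfl, BM.rw_append, BM.rw_append, BM.rw_append]
    exact U.π_mono (h1.dim_le _ _ (h1.emb_rw _ _ _ (emb_of_inj h1 _ _ fun j hj =>
      inj_rw h1 _ A j (fun i hi => U.indep i j (((U.mem_fib s i).1 hi).trans
        ((U.mem_fib s j).1 hj).symm)) (.inl hj))))
  · obtain ⟨a, ha⟩ := D.bdd (Y.X g)
    exact ⟨a, fun k hk j _ => Y.n_eq_zero.2 fun i _ => ha k hk i⟩
  · refine (((Set.finite_univ (α := S)).prod (Set.finite_Iic fun i => ⌈b / U.μ i⌉₊)).image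
      fun x => U.π (fun i => (x.2 i : ℝ)) x.1).subset ?_
    rintro r ⟨hr, g, k, j, rfl⟩
    refine ⟨(j, fun i => if U.pr i = j then D.hd (Y.X g) k i else 0), ⟨trivial, fun i => ?_⟩,
      U.π_congr fun i hi => by simp [hi]⟩
    dsimp only
    split_ifs with e
    · have h2 : U.μ i * D.hd (Y.X g) k i ≤ Y.n g k j := by
        have := Finset.single_le_sum (s := Finset.univ)
          (f := fun i => if U.pr i = j then U.μ i * (D.hd (Y.X g) k i : ℝ) else 0)
          (fun p _ => by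
            split_ifs; exacts [mul_nonneg (U.μ_pos p).le (Nat.cast_nonneg _), le_rfl])
          (Finset.mem_univ i)
        rw [if_pos e] at this
        exact this
      have h3 : (D.hd (Y.X g) k i : ℝ) ≤ b / U.μ i := by
        rw [le_div_iff₀ (U.μ_pos i), mul_comm]; exact h2.trans hr
      exact_mod_cast h3.trans (Nat.le_ceil _)
    · exact Nat.zero_le _

end Pool.Agent.WP34
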