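import Pool.Agent.Lib.WP34.Blue

/-! The braid step of the numerical interface. -/

set_option linter.unusedSectionVars false

namespace Pool.Agent.WP34

open Pool.Agent.H51 Relation Pool.Agent.Lib.MP_a1ec0a_al

namespace IfB

variable {S ι : Type} [Fintype S] [DecidableEq S] [Fintype ι] [DecidableEq ι]
  {M : CoxeterMatrix S} {N : CoxeterMatrix ι}

theorem not_rdesc {l : List S} {r : S} (h : (cx M).IsReduced (l ++ [r])) :
    ¬ (cx M).IsRightDescent ((cx M).wordProd l) r := by
  have h1 : (cx M).IsReduced l := by simpa using h.take l.length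
  have h2 := h.eq
  rw [(cx M).wordProd_append, (cx M).wordProd_singleton, List.length_append, ← h1.eq] at h2
  unfold CoxeterSystem.IsRightDescent
  simp at h2
  omega

theorem rdesc {l : List S} {r : S} (h : (cx M).IsReduced (l ++ [r])) :
    (cx M).IsRightDescent ((cx M).wordProd (l ++ [r])) r := by
  rw [(cx M).isRightDescent_iff_not_isRightDescent_mul, (cx M).wordProd_append,
    (cx M).wordProd_singleton, (cx M).simple_mul_simple_cancel_right]
  exact not_rdesc h

theorem rdesc_alt {s t : S} (hst : s ≠ t) (h0 : M s t ≠ 0) :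
    ∀ r ∈ ({s, t} : Set S), (cx M).IsRightDescent ((cx M).wordProd (alt s t (M s t))) r := by
  obtain ⟨m, hm⟩ : ∃ m, M s t = m + 1 := ⟨M s t - 1, by omega⟩
  have r1 : (cx M).IsReduced (alt s t (M s t)) := red_alt _ hst (Or.inr le_rfl)
  have r2 : (cx M).IsReduced (alt t s (M s t)) :=
    red_alt _ hst.symm (Or.inr (M.symmetric s t).le)
  have e := wordProd_braid (cx M) s t
  have a1 : (cx M).IsRightDescent ((cx M).wordProd (alt s t (M s t)))
      (if Even m then s else t) := by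
    rw [hm, alt_succ'] at r1 ⊢; exact rdesc r1
  have a2 : (cx M).IsRightDescent ((cx M).wordProd (alt s t (M s t)))
      (if Even m then t else s) := by
    rw [e]; rw [hm, alt_succ'] at r2 ⊢; exact rdesc r2
  rintro r (rfl | rfl) <;> split_ifs at a1 a2 <;> assumption

theorem dim_nonneg (A : BM N) : 0 ≤ A.o.dim := fun _ => Nat.cast_nonneg _

theorem inj_persist (h1 : MOD1 N) (l : List ι) (j : ι) (hl : ∀ i ∈ l, N i j ≠ 3) (A : BM N)
    (hA : A.o.Inj j) : (A.rw l).o.Inj j := by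
  induction l generalizing A with
  | nil => exact hA
  | cons i l ih =>
    rw [BM.rw_cons]
    exact ih (fun p hp => hl p (List.mem_cons_of_mem _ hp)) _
      (h1.inj_r0 A i j hA (Or.inl (hl i List.mem_cons_self)))

theorem inj_rw (h1 : MOD1 N) (l : List ι) (j : ι) (hl : ∀ i ∈ l, N i j ≠ 3) (hj : j ∈ l)
    (A : BM N) : (A.rw l).o.Inj j := by
  induction l generalizing A with
  | nil => simp at hj
  | cons i l ih =>
    rw [BM.rw_cons]
    have hl' : ∀ p ∈ l, N p j ≠ 3 := fun p hp => hl p (List.mem_cons_of_mem _ hp)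
    rcases List.mem_cons.1 hj with rfl | hj
    · exact inj_persist h1 l j hl' _ (h1.inj_self A j)
    · exact ih hl' hj _

theorem emb_rw_of_inj (h1 : MOD1 N) (R : Set ι) (l : List ι) (hl : ∀ i ∈ l, i ∈ R) (A : BM N)
    (hA : ∀ j ∈ R, A.o.Inj j) : Emb A.o (A.rw l).o := by
  induction l generalizing A with
  | nil => exact h1.refl A
  | cons i l ih =>
    rw [BM.rw_cons]
    have hi := hA i (hl i List.mem_cons_self)
    exact h1.trans A (A.r0 i) _ (h1.emb_r0 A i hi)
      (ih (fun p hp => hl p (List.mem_cons_of_mem _ hp)) _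
        fun j hj => h1.inj_r0 A i j (hA j hj) (Or.inr hi))

theorem mem_uw (U : Unf M N) {l : List S} {i : ι} : i ∈ U.uw l ↔ U.pr i ∈ l := by
  simp [Unf.uw, List.mem_flatMap, U.mem_fib]

theorem rho_eq_zero {w : M.Group} {v : S → ℝ} (h : rho (cx M) w v = 0) : v = 0 := by
  have : rho (cx M) w⁻¹ (rho (cx M) w v) = v := by
    rw [← Module.End.mul_apply, ← map_mul]; simp
  rw [← this, h, map_zero]

/-- modules over a spherical pair without socle vanish -/
theorem vanish {U : Unf M N} (hG : U.Good) (h1 : MOD1 N) (h2 : MOD2 N) {s t : S} (hst : s ≠ t)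
    (h0 : M s t ≠ 0) (B : BM N) (hs : ∀ i, U.pr i ∉ ({s, t} : Set S) → B.o.dim i = 0)
    (hB : ∀ i, U.pr i ∈ ({s, t} : Set S) → B.o.Inj i) : B.o.dim = 0 := by
  set δ := alt s t (M s t) with hδ
  have hov : ∀ i ∈ U.uw δ, U.pr i ∈ ({s, t} : Set S) := fun i hi => mem_alt ((mem_uw U).1 hi)
  have r1 : (cx M).IsReduced δ := red_alt _ hst (Or.inr le_rfl)
  have he : Emb B.o (B.rw (U.uw δ)).o :=
    emb_rw_of_inj h1 {i | U.pr i ∈ ({s, t} : Set S)} _ hov B hB
  obtain ⟨B', -, hB'⟩ := h2 B (U.uw δ) (hG.red δ r1)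
  have e1 : 0 ≤ U.π (wact N (U.uw δ) (B.rw (U.uw δ)).o.dim) := by
    have := U.π_mono ((dim_nonneg B').trans hB')
    rwa [map_zero] at this
  have hnn : 0 ≤ U.π (B.rw (U.uw δ)).o.dim := by
    have := U.π_mono (dim_nonneg (B.rw (U.uw δ)))
    rwa [map_zero] at this
  rw [hG.act, ← rho_wordProd (cx M)] at e1
  have e2 := rho_nonpos_supp (cx M) (rdesc_alt hst h0) hnn fun j hj =>
    (U.π_eq_zero (dim_nonneg _)).2 fun i hi => by
      rw [h1.dim_off B _ i fun h => hj (hi ▸ hov i h)]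
      exact hs i (hi ▸ hj)
  have e3 := rho_eq_zero (le_antisymm e2 e1)
  refine le_antisymm (fun i => ?_) (dim_nonneg B)
  exact (h1.dim_le _ _ he i).trans
    ((U.π_eq_zero (dim_nonneg _)).1 (congrFun e3 (U.pr i)) i rfl).le

theorem off_fold (D : DG N) (l : List ι) (Z : D.Q) (k : ℤ) (j : ι) (hj : j ∉ l) :
    D.hd (l.foldl (fun Y i => D.rho i Y) Z) k j = D.hd Z k j := by
  induction l generalizing Z with
  | nil => rfl
  | cons i l ih =>
    rw [List.foldl_cons, ih _ fun h => hj (List.mem_cons_of_mem _ h)]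
    exact D.off Z i j k fun h => hj (h ▸ List.mem_cons_self)

/-- going down along a list of independent vertices -/
theorem down (h1 : MOD1 N) (D : DG N) (a : ℤ) (Z : D.Q) (l : List ι) (hn : l.Nodup)
    (hi : ∀ i ∈ l, ∀ j ∈ l, N i j ≠ 3)
    (H1 : ∀ k < a, ∀ i ∈ l, ∀ p, N i p = 3 → D.hd Z k p = 0)
    (H2 : ∀ k < a, ∀ i ∈ l, D.hd (l.foldl (fun Y i => D.rho i Y) Z) k i = 0)
    (H3 : ∀ A, D.IsH (l.foldl (fun Y i => D.rho i Y) Z) a A → ∀ i ∈ l, A.o.Inj i) :
    ∀ k < a, ∀ i ∈ l, D.hd Z k i = 0 := by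
  induction l using List.reverseRecOn with
  | nil => simp
  | append_singleton l i0 ih =>
    rw [List.foldl_append, List.foldl_cons, List.foldl_nil] at H2 H3
    set Z' := l.foldl (fun Y i => D.rho i Y) Z with hZ'
    have m0 : i0 ∈ l ++ [i0] := by simp
    have ml : ∀ i ∈ l, i ∈ l ++ [i0] := fun i h => List.mem_append_left _ h
    have hn0 : i0 ∉ l := fun h => by
      rw [List.nodup_append] at hn
      exact hn.2.2 i0 h i0 (by simp) rfl
    have key : ∀ k < a, D.hd Z' k i0 = 0 := by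
      intro k hk
      obtain ⟨A, hA⟩ := D.ex (D.rho i0 Z') (k + 1)
      refine D.up Z' k A i0 hA ?_ fun p hp => ?_
      · rcases lt_or_eq_of_le (show k + 1 ≤ a by omega) with h | h
        · refine h1.inj_of_dim A i0 ?_
          rw [D.dim _ _ _ _ hA, H2 _ h i0 m0, Nat.cast_zero]
        · exact H3 A (h ▸ hA) i0 m0
      · rw [hZ', off_fold D l Z k p fun h => hi i0 m0 p (ml p h) hp]
        exact H1 k hk i0 m0 p hp
    have hl := ih (List.Nodup.of_append_left hn) (fun i h j h' => hi i (ml i h) j (ml j h'))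
      (fun k hk i h => H1 k hk i (ml i h))
      (fun k hk i h => by
        rw [← D.off Z' i0 i k fun e => hn0 (e ▸ h)]; exact H2 k hk i (ml i h))
      (fun A hA i h => h1.inj_of_r0 A i0 i (fun e => hn0 (e ▸ h)) (hi i0 m0 i (ml i h))
        (H3 _ (D.hr Z' a A i0 hA (key _ (by omega))) i (ml i h)))
    intro k hk i h
    rcases List.mem_append.1 h with h | h
    · exact hl k hk i h
    · rw [List.mem_singleton.1 h, ← off_fold D l Z k i0 hn0]; exact key k hk

variable {U : Unf M N} {D : DG N} (Y : Sys U D)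

theorem n_inv (hI : I1 Y.n) (g : Artin M) (s : S) (k : ℤ) {j : S} (hj : j ≠ s) :
    Y.n (g * (gen M s)⁻¹) k j = Y.n g k j := by
  rw [← hI (g * (gen M s)⁻¹) s k j hj, inv_mul_cancel_right]

theorem mem_Cl {T : Set S} {s : S} (hs : s ∈ T) : s ∈ Cl M T := ⟨s, hs, by simp⟩

theorem win_inv (hI : I1 Y.n) {g : Artin M} {s : S} {a : ℤ} {R : Set S} (hR : Win Y.n g R a)
    (hs : Win Y.n (g * (gen M s)⁻¹) {s} a) : Win Y.n (g * (gen M s)⁻¹) R a := by
  intro k hk j hj
  by_cases e : j = s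
  · exact hs k hk j e
  · rw [n_inv Y hI g s k e]; exact hR k hk j hj

theorem inj_of_win (h1 : MOD1 N) (hW : WALK Y) (hI : I1 Y.n) {g : Artin M} {s : S} {a : ℤ}
    {T : Set S} (hsT : s ∈ T) (hR : Win Y.n g (Cl M T) a)
    (hs : Win Y.n (g * (gen M s)⁻¹) {s} a) {A : BM N} (hA : D.IsH (Y.X g) a A) {i : ι}
    (hi : U.pr i = s) : A.o.Inj i := by
  obtain ⟨A0, hA0⟩ := D.ex (Y.X (g * (gen M s)⁻¹)) a
  have h := (hW T _ a A0 [s] (win_inv Y hI hR hs) (by simpa [Ov] using hsT) hA0).1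
  rw [pos_singleton, inv_mul_cancel_right] at h
  refine h1.emb_inj _ _ i (D.uniq _ _ _ _ hA h) (inj_rw h1 _ i (fun p hp => U.indep p i ?_) ?_ A0)
  · simpa [hi] using (mem_uw U).1 hp
  · exact (mem_uw U).2 (by simp [hi])

theorem win_of_inj (hG : U.Good) (h1 : MOD1 N) (hI : I1 Y.n) {g : Artin M} {r : S} {a : ℤ}
    {T : Set S} (hr : r ∈ T) (hR : Win Y.n g (Cl M T) a) {A : BM N} (hA : D.IsH (Y.X g) a A)
    (hinj : ∀ i, U.pr i = r → A.o.Inj i) : Win Y.n (g * (gen M r)⁻¹) (Cl M T) a := by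
  refine win_inv Y hI hR fun k hk j hj => ?_
  have hstep := Y.step (g * (gen M r)⁻¹) r
  rw [inv_mul_cancel_right] at hstep
  rw [Set.mem_singleton_iff.1 hj, Y.n_eq_zero]
  intro i hi
  refine down h1 D a _ (U.fib r) (U.nodup r) (fun i h j h' => U.indep i j ?_)
    (fun k hk i h p hp => ?_) (fun k hk i h => ?_) (fun B hB i h => ?_) k hk i
    ((U.mem_fib r i).2 hi)
  · rw [(U.mem_fib r i).1 h, (U.mem_fib r j).1 h']
  · have e := (U.mem_fib r i).1 h
    have hne : U.pr p ≠ r := fun e' => U.indep i p (e.trans e'.symm) hp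
    refine (Y.n_eq_zero.1 ?_) p rfl
    rw [n_inv Y hI g r k hne]
    exact hR k hk _ ⟨r, hr, e ▸ hG.adj i p hp⟩
  · rw [← hstep]
    exact Y.n_eq_zero.1 (hR k hk r (mem_Cl hr)) i ((U.mem_fib r i).1 h)
  · rw [← hstep] at hB
    exact h1.emb_inj _ _ i (D.uniq _ _ _ _ hB hA) (hinj i ((U.mem_fib r i).1 h))

end IfB

open IfB in
theorem st_IFB : St_IFB := by
  intro S ι _ _ _ _ M N U D Y hG h1 h2 hW hI g a s t hst h0 hg hs ht
  obtain ⟨A, hA⟩ := D.ex (Y.X g) a
  have hinj : ∀ i, U.pr i ∈ ({s, t} : Set S) → A.o.Inj i := by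
    rintro i (h | h)
    · exact inj_of_win Y h1 hW hI (by simp) hg hs hA h
    · exact inj_of_win Y h1 hW hI (by simp) hg ht hA h
  have main : ∀ u : List S, Ov {s, t} u → (cx M).IsReduced u →
      Win Y.n (g * (pos M u)⁻¹) (Cl M {s, t}) a := by
    intro u
    induction u with
    | nil => intro _ _; simpa using hg
    | cons r u ih =>
      intro hov hred
      obtain ⟨hr, hu⟩ := ov_cons.1 hov
      have ru := (red_cons _ hred).1
      have hw := ih hu ru
      obtain ⟨A', hA'⟩ := D.ex (Y.X (g * (pos M u)⁻¹)) a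
      have hx := (hW _ _ a A' u hw hu hA').1
      rw [inv_mul_cancel_right] at hx
      have e1 : Emb (A'.rw (U.uw u)).o A.o := D.uniq _ _ _ _ hx hA
      rw [pos_cons, mul_inv_rev, ← mul_assoc]
      refine win_of_inj Y hG h1 hI hr hw hA' fun i hi => ?_
      obtain ⟨B, c, hB, hc, hc0⟩ := h1.soc A' i
      have e2 : Emb (B.rw (U.uw u)).o A.o := h1.trans _ _ _ (h1.emb_rw _ _ _ hB) e1
      have z := vanish hG h1 h2 hst h0 (B.rw (U.uw u)) (fun j hj => by
        rw [h1.dim_off B _ j fun h => hj (hu _ ((mem_uw U).1 h)), hc]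
        have : j ≠ i := fun e => hj (by rw [e, hi]; exact hr)
        simp [ee, this]) fun j hj => h1.emb_inj _ _ j e2 (hinj j hj)
      have e3 := U.π_mono (h1.dim_rw B _ (hG.red u ru))
      rw [z, map_zero, hG.act_rev, hc, map_smul, U.π_ee, hi, smul_smul, map_smul,
        ← rho_wordProd (cx M)] at e3
      have hred' : (cx M).IsReduced (u.reverse ++ [r]) := by
        rw [← List.reverse_cons]; exact hred.reverse
      have e4 := rho_nonneg (cx M) (not_rdesc hred')
      have c0 : 0 ≤ c := by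
        have := dim_nonneg B i
        rw [hc] at this
        simpa [ee] using this
      refine hc0 (by_contra fun hne => ?_)
      have cp : 0 < c * U.μ i := mul_pos (lt_of_le_of_ne c0 (Ne.symm hne)) (U.μ_pos i)
      refine rho_ee_ne (cx M) _ r (le_antisymm (fun j => ?_) e4)
      have := e3 j
      rw [Pi.smul_apply, smul_eq_mul, Pi.zero_apply] at this
      exact le_of_mul_le_mul_left (by simpa using this) cp
  intro k hk j hj
  exact main _ (fun c hc => mem_alt hc) (red_alt _ hst (Or.inr le_rfl)) k hk j (mem_Cl hj)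

end Pool.Agent.WP34
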