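import Pool.Agent.Lib.WP34.Blue

/-! The interface facts that come from chains of submodules. -/

namespace Pool.Agent.WP34

open Pool.Agent.H51 Relation

theorem st_IFC : St_IFC := by
  intro S ι _ _ _ _ M N U D Y hG h1 h2 hW
  have h0 : ∀ g a A, D.IsH (Y.X g) a A → Y.n g a = U.π A.o.dim := fun g a A h =>
    congrArg U.π (funext fun i => (D.dim _ _ _ i h).symm)
  have hd : ∀ B : BM N, 0 ≤ U.π B.o.dim := fun B => by
    simpa using U.π_mono (u := 0) (v := B.o.dim) fun i => Nat.cast_nonneg _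
  have key : ∀ T g a u A, Win Y.n g (Cl M T) a → Ov T u → (cx M).IsReduced u →
      D.IsH (Y.X g) a A → ∃ B : BM N, ReflTransGen (fun P Q : BM N => Emb P.o A.o ∧ Emb Q.o A.o ∧
        ∃ i ∈ U.uw u, ∃ c : ℝ, 0 ≤ c ∧ P.o.dim = Q.o.dim + c • ee i) A B ∧
        U.π B.o.dim ≤ wact M u (Y.n (g * pos M u) a) := fun T g a u A hw hu hr hA => by
    obtain ⟨B, h3, h4⟩ := h2 A _ (hG.red u hr)
    refine ⟨B, h3, ?_⟩
    rw [h0 _ _ _ (hW T g a A u hw hu hA).1, ← hG.act]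
    exact U.π_mono h4
  refine ⟨fun T g a u hw hu hr => ?_, fun T g a u s hw hu hr hs => ?_⟩
  · obtain ⟨A, hA⟩ := D.ex (Y.X g) a
    obtain ⟨B, -, h4⟩ := key T g a u A hw hu hr hA
    exact (hd B).trans h4
  obtain ⟨A, hA⟩ := D.ex (Y.X g) a
  obtain ⟨B, h3, h4⟩ := key T g a u A hw hu hr hA
  have adm : ∀ P : BM N, Emb P.o A.o → (∀ i, U.pr i ∉ T → P.o.dim i = A.o.dim i) →
      Adm Y.n T g a (U.π P.o.dim) := fun P hP he => by
    refine ⟨fun j hj => ?_, fun v hv hr => ?_⟩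
    · rw [h0 _ _ _ hA]
      exact U.π_congr fun i hi => he i (hi ▸ hj)
    · rw [h0 _ _ _ (hW T g a A v hw hv hA).1, ← hG.act_rev]
      exact U.π_mono ((h1.dim_rw P _ (hG.red v hr)).trans (h1.dim_le _ _ (h1.emb_rw P A _ hP)))
  have h5 : (∀ i, U.pr i ∉ T → B.o.dim i = A.o.dim i) ∧ (U.π B.o.dim s = U.π A.o.dim s ∨
      ∃ (p : S → ℝ) (c : ℝ), 0 < c ∧ Adm Y.n T g a p ∧ Adm Y.n T g a (p + c • ee s)) := by
    clear h4
    induction h3 with
    | refl => exact ⟨fun _ _ => rfl, .inl rfl⟩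
    | @tail P Q _ h ih =>
      obtain ⟨hP, hQ, i, hi, c, hc, e⟩ := h
      obtain ⟨t, ht, hit⟩ := List.mem_flatMap.mp hi
      have hT : U.pr i ∈ T := (U.mem_fib t i).mp hit ▸ hu t ht
      have h6 : ∀ j, U.pr j ∉ T → Q.o.dim j = A.o.dim j := fun j hj => by
        have hji : j ≠ i := fun h => hj (h ▸ hT)
        rw [← ih.1 j hj, e]
        simp [ee, hji]
      have h7 : U.π P.o.dim = U.π Q.o.dim + (c * U.μ i) • ee (U.pr i) := by
        rw [e, map_add, map_smul, U.π_ee, smul_smul]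
      refine ⟨h6, ih.2.elim (fun h8 => ?_) .inr⟩
      by_cases h9 : U.pr i = s ∧ 0 < c
      · exact .inr ⟨_, _, mul_pos h9.2 (U.μ_pos i), adm Q hQ h6, h9.1 ▸ h7 ▸ adm P hP ih.1⟩
      · refine .inl (h8 ▸ ?_)
        rw [h7]
        rcases hc.eq_or_lt with rfl | hc
        · simp
        · have : s ≠ U.pr i := fun h => h9 ⟨h.symm, hc⟩
          simp [ee, this]
  exact h5.2.imp_left fun h => by rw [h0 _ _ _ hA, ← h]; exact h4 s

end Pool.Agent.WP34
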