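import Pool.Agent.Lib.WP34.Blue

/-! The case of an infinite irreducible Coxeter group. -/

set_option linter.unusedSectionVars false

namespace Pool.Agent.WP34

open Pool.Agent.H51 Relation Filter

namespace Inf

variable {S : Type} [Fintype S] [DecidableEq S] {M : CoxeterMatrix S} {T : Set S}

theorem mono {P Q : Artin M × S → Prop} (h : ∀ u, u.2 ∈ T → P u → Q u) {x y : Artin M × S}
    (c : Conn M T P x y) : Conn M T Q x y := by
  induction c with
  | refl => exact ReflTransGen.refl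
  | tail _ h1 ih => exact ReflTransGen.tail ih ⟨h1.1, h _ h1.1 h1.2.1, h1.2.2⟩

theorem ev {α : Type} {l : Filter α} {P : Artin M × S → Prop} {Q : α → Artin M × S → Prop}
    (h : ∀ u, u.2 ∈ T → P u → ∀ᶠ a in l, Q a u) {x y : Artin M × S} (c : Conn M T P x y) :
    ∀ᶠ a in l, Conn M T (Q a) x y := by
  induction c with
  | refl => exact Eventually.of_forall fun _ => ReflTransGen.refl
  | tail _ h1 ih =>
    filter_upwards [ih, h _ h1.1 h1.2.1] with a h2 h3
    exact ReflTransGen.tail h2 ⟨h1.1, h3, h1.2.2⟩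

theorem other {v : S → ℝ} (hv : PF M T v) {s : S} (hs : s ∈ T) : ∃ t ∈ T, t ≠ s := by
  by_contra h
  have h1 : v = v s • ee s := funext fun j => by
    by_cases e : j = s
    · simp [e, ee]
    · rw [hv.2.1 j fun hj => h ⟨j, hj, e⟩]
      simp [e, ee]
  have h2 := hv.2.2 s hs
  rw [h1, map_smul, bf_ee, kc_self] at h2
  have h3 := hv.1 s hs
  simp only [neg_neg, smul_eq_mul, mul_one] at h2
  linarith

theorem conn_all {v : S → ℝ} (hv : PF M T v) (x : Artin M × S) {h : Artin M} (hh : h ∈ apar M T) :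
    ∀ j ∈ T, Conn M T (fun _ => True) x (x.1 * h, j) := by
  have key : ∀ (g k : Artin M) (s : S), s ∈ T → k ∈ apar M {s} →
      (∀ j ∈ T, Conn M T (fun _ => True) x (g, j)) →
        ∀ j ∈ T, Conn M T (fun _ => True) x (g * k, j) := fun g k s hs hk ih j hj => by
    obtain ⟨t, ht, hts⟩ := other hv hs
    refine ReflTransGen.tail (ih t ht) ⟨hj, trivial, g * k, ?_, by simp⟩
    rw [inv_mul_cancel_left]
    exact apar_mono (by rintro _ rfl; exact ⟨hs, hts.symm⟩) hk
  refine apar_induction (P := fun h => ∀ j ∈ T, Conn M T (fun _ => True) x (x.1 * h, j)) hh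
    (fun j hj => ReflTransGen.single ⟨hj, trivial, x.1, by simp, by simp⟩)
    (fun g _ i hi ih => ?_) fun g _ i hi ih => ?_
  · rw [← mul_assoc]
    exact key _ _ i hi (gen_mem_apar rfl) ih
  · rw [← mul_assoc]
    exact key _ _ i hi (inv_mem (gen_mem_apar rfl)) ih

variable {n : Artin M → ℤ → S → ℝ} {v : S → ℝ}

theorem fe_add (hv : PF M T v) {g0 : Artin M} {b : ℤ} {θ : S → ℝ} (h : Fe n T g0 b θ) {τ : ℝ}
    (hτ : 0 ≤ τ) : Fe n T g0 b (θ + τ • v) :=
  ⟨h.1, fun j hj => by simp [hv.2.1 j hj.2, h.2.1 j hj], fun s hs => by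
    rw [map_add, map_smul, smul_eq_mul]
    exact add_nonpos (h.2.2 s hs) (mul_nonpos_of_nonneg_of_nonpos hτ (hv.2.2 s hs))⟩

/-- lowering the threshold along the positive direction -/
theorem lower (hI : IF n) (hv : PF M T v) (hL : PL n T) {g0 : Artin M} {b : ℤ} {θ : S → ℝ}
    (h : Fe n T g0 b θ) {x y : Artin M × S} (hx : Vx M T g0 x) (hy : y.2 ∈ T) (h1 : Np n b θ x)
    (h2 : Np n b θ y) (c : Conn M T (fun u => Win n u.1 {u.2} b) x y) :
    Conn M T (Np n b θ) x y := by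
  let C : ℝ → Set ℝ := fun τ => {t | 0 < t ∧ t < τ ∧ ∃ g, ∃ j ∈ T, n g b j = θ j + t * v j}
  have hC : ∀ τ, (C τ).Finite := fun τ => by
    refine (Set.Finite.biUnion T.toFinite fun j _ =>
      (hI.i8.2 (θ j + τ * v j)).image fun r => (r - θ j) / v j).subset ?_
    rintro t ⟨-, h4, g, j, hj, e⟩
    refine Set.mem_biUnion hj ⟨_, ⟨?_, g, b, j, rfl⟩, ?_⟩
    · rw [e]
      linarith [mul_lt_mul_of_pos_right h4 (hv.1 j hj)]
    · simp only [e, add_sub_cancel_left, mul_div_cancel_right₀ _ (hv.1 j hj).ne']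
  have cut : ∀ τ t, 0 ≤ t → (∀ s ∈ C τ, s ≤ t) → ∀ u : Artin M × S, u.2 ∈ T →
      Neg n b (θ + τ • v) u → Np n b (θ + t • v) u := fun τ t ht hm u hu hn => by
    refine ⟨hn.1, not_lt.mp fun hlt => ?_⟩
    have h3 := hv.1 _ hu
    have h4 := hn.2
    simp only [Pi.add_apply, Pi.smul_apply, smul_eq_mul] at hlt h4
    have h5 : t < (n u.1 b u.2 - θ u.2) / v u.2 := by rw [lt_div_iff₀ h3]; linarith
    exact absurd (hm _ ⟨ht.trans_lt h5, by rw [div_lt_iff₀ h3]; linarith, u.1, u.2, hu, by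
      rw [div_mul_cancel₀ _ h3.ne']; ring⟩) (not_le.mpr h5)
  have neg : ∀ t : ℝ, 0 < t → ∀ u : Artin M × S, u.2 ∈ T → Np n b θ u → Neg n b (θ + t • v) u :=
    fun (t : ℝ) (ht : 0 < t) u hu hn => ⟨hn.1, hn.2.trans_lt (lt_add_of_pos_right _ (mul_pos ht (hv.1 _ hu)))⟩
  have key : ∀ (m : ℕ) (τ : ℝ), (C τ).ncard = m → Conn M T (Neg n b (θ + τ • v)) x y →
      Conn M T (Np n b θ) x y := fun m => by
    induction m using Nat.strong_induction_on with
    | _ m ih =>
      intro τ hm c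
      rcases (C τ).eq_empty_or_nonempty with e | e
      · simpa using mono (cut τ 0 le_rfl (by simp [e])) c
      · obtain ⟨t, ht, h3⟩ := Set.exists_max_image _ id (hC τ) e
        obtain ⟨z, h4, -, -, h5⟩ := hL g0 b _ x y (fe_add hv h ht.1.le) hx (neg t ht.1 x hx.1 h1)
          (mono (cut τ t ht.1.le h3) c)
        refine ih _ (hm ▸ Set.ncard_lt_ncard ⟨fun s hs => ⟨hs.1, hs.2.1.trans ht.2.1, hs.2.2⟩,
          fun hs => lt_irrefl _ (hs ht).2.1⟩ (hC τ)) t rfl
          (ReflTransGen.tail h4 ⟨hy, neg t ht.1 y hy h2, h5⟩)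
  obtain ⟨τ, hτ⟩ := (ev (l := atTop) (Q := fun τ : ℝ => Neg n b (θ + τ • v)) (fun u hu hw => by
    filter_upwards [eventually_gt_atTop ((n u.1 b u.2 - θ u.2) / v u.2)] with τ hτ
    rw [div_lt_iff₀ (hv.1 _ hu)] at hτ
    exact ⟨hw, sub_lt_iff_lt_add'.mp hτ⟩) c).exists
  exact key _ τ rfl hτ

end Inf

open Inf in
theorem st_INF : St_INF := by
  intro S _ _ M n T v hI hv hL g0 a θ x z h hx hz h1 h2
  have c0 := conn_all hv x (h := x.1⁻¹ * z.1) (by
    simpa [mul_assoc] using mul_mem (inv_mem hx.2) hz.2) z.2 hz.1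
  rw [mul_inv_cancel_left] at c0
  obtain ⟨b, c1, hb⟩ := ((ev (l := atBot) (Q := fun (b : ℤ) u => Win n u.1 {u.2} b)
    (fun u _ _ => by
      obtain ⟨a', ha'⟩ := hI.i8.1 u.1
      filter_upwards [eventually_le_atBot a'] with b hb
      exact fun k hk j _ => ha' k (hk.trans_le hb) j trivial) c0).and (eventually_le_atBot a)).exists
  have key : ∀ b', b ≤ b' → b' ≤ a → Conn M T (fun u => Win n u.1 {u.2} b') x z := by
    intro b' hb'
    induction b', hb' using Int.leInduction with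
    | base => exact fun _ => c1
    | succ b' _ ih =>
      intro h3
      have h4 : ∀ u : Artin M × S, Win n u.1 {u.2} a → Np n b' 0 u := fun u hu =>
        ⟨fun k hk => hu k (by omega), (hu b' (by omega) _ rfl).le⟩
      refine mono (fun u _ hu k hk j hj => ?_) (lower hI hv hL (g0 := g0) (θ := 0)
        ⟨fun k hk => h.1 k (by omega), fun j hj => (h.1 b' (by omega) j hj).symm, by simp⟩ hx hz.1
        (h4 x h1.1) (h4 z h2.1) (ih (by omega)))
      rcases (Int.le_of_lt_add_one hk).eq_or_lt with rfl | hk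
      · exact le_antisymm (hj ▸ hu.2) (hI.nonneg _ _ _)
      · exact hu.1 k hk j hj
  exact lower hI hv hL h hx hz.1 ⟨h1.1, h1.2.le⟩ h2 (key a hb le_rfl)

end Pool.Agent.WP34
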