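import Pool.Agent.Lib.WP34.Blue

/-! The two reflections at a vertex are inverse to each other, and reflections at non adjacent
vertices commute. -/

set_option linter.unusedSectionVars false

namespace Pool.Agent.WP34

open LinearMap (fst snd inr)

namespace INVC

variable {ι : Type} [Fintype ι] [DecidableEq ι] {N : CoxeterMatrix ι} {V W : Type}
  [AddCommGroup V] [Module F V] [AddCommGroup W] [Module F W]

/-- a family of vectors placed in the second coordinates -/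
def up : (ι → V) →ₗ[F] (ι → (ι → V) × V) := dia fun _ => inr F (ι → V) V

/-- the family of second coordinates -/
def dn : (ι → (ι → V) × V) →ₗ[F] (ι → V) := dia fun _ => snd F (ι → V) V

@[simp] theorem up_apply (m : ι → V) (p : ι) : up m p = (0, m p) := rfl

@[simp] theorem dn_up (m : ι → V) : dn (up m) = m := rfl

theorem up_inj {m n : ι → V} (h : up m = up n) : m = n := by rw [← dn_up m, h, dn_up]

theorem mem_nb_up {G : ι → Submodule F V} {G' : ι → Submodule F ((ι → V) × V)} {i : ι}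
    (h : ∀ p, N i p = 3 → ∀ n v, (n, v) ∈ G' p ↔ n = 0 ∧ v ∈ G p) {n' : ι → (ι → V) × V} :
    n' ∈ nb N G' i ↔ ∃ m ∈ nb N G i, n' = up m := by
  constructor
  · intro hn
    obtain ⟨h1, h2⟩ := mem_nb.1 hn
    refine ⟨dn n', mem_nb.2 ⟨fun p a => ((h p a (n' p).1 (n' p).2).1 (h1 p a)).2, fun p a => ?_⟩,
      funext fun p => Prod.ext ?_ rfl⟩
    · exact congrArg Prod.snd (h2 p a)
    · by_cases a : N i p = 3
      exacts [((h p a (n' p).1 (n' p).2).1 (h1 p a)).1, (congrArg Prod.fst (h2 p a) :)]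
  · rintro ⟨m, hm, rfl⟩
    obtain ⟨h1, h2⟩ := mem_nb.1 hm
    exact mem_nb.2 ⟨fun p a => (h p a _ _).2 ⟨rfl, h1 p a⟩, fun p a => by simp [h2 p a]⟩

theorem qis_at {X : Ob N V} {Y : Ob N W} (φ : Hom X Y) (i : ι)
    (inj : ∀ k, ∀ v ∈ X.G k i, φ.f i v = 0 → v = 0)
    (sur : ∀ k, ∀ y ∈ Y.G k i, ∃ v ∈ X.G k i, φ.f i v = y) (k : ℤ) :
    (∀ z ∈ X.Z k i, φ.f i z ∈ Y.B k i → z ∈ X.B k i) ∧
      ∀ y ∈ Y.Z k i, ∃ z ∈ X.Z k i, φ.f i z + y ∈ Y.B k i := by
  constructor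
  · rintro z hz ⟨y, hy, e⟩
    obtain ⟨u, hu, rfl⟩ := sur _ y hy
    refine ⟨u, hu, eq_of_add (inj k _ (add_mem (X.d_mem' hu) hz.1) ?_)⟩
    rw [map_add, φ.fd _ _ _ hu, e, h2]
  · rintro y ⟨hy, hd⟩
    obtain ⟨u, hu, rfl⟩ := sur _ y hy
    refine ⟨u, ⟨hu, inj _ _ (X.d_mem _ _ _ hu) ?_⟩, by rw [h2]; exact zero_mem _⟩
    rw [φ.fd _ _ _ hu]
    exact hd

variable (X : Ob N V) {i j l : ι} {k : ℤ}

theorem nb_lam {n' : ι → (ι → V) × V} :
    n' ∈ nb N ((X.lam i).G k) i ↔ ∃ m ∈ nb N (X.G k) i, n' = up m :=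
  mem_nb_up fun _ a _ _ => Ob.mem_lam_ne (adj_ne a).symm

theorem nb_rho (h : j = i ∨ N j i ≠ 3) {n' : ι → (ι → V) × V} :
    n' ∈ nb N ((X.rho i).G k) j ↔ ∃ m ∈ nb N (X.G k) j, n' = up m :=
  mem_nb_up fun _ a _ _ => Ob.mem_rho_ne (by
    rintro rfl
    exact h.elim (adj_ne a) fun b => b a)

theorem dia_lam {G : ι → Submodule F V} {m : ι → V} (hm : m ∈ nb N G i) :
    dia (X.lam i).d (up m) = up (dia X.d m) := by
  funext p
  by_cases e : p = i
  · subst e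
    simp [(mem_nb.1 hm).2 p (by simp), Ob.lam_d_self]
  · simp [Ob.lam_d_ne e]

theorem inn_lam {G : ι → Submodule F V} {m : ι → V} (hm : m ∈ nb N G i) :
    inn N (X.lam i).x i (up m) = (m, 0) := by
  rw [inn_apply, Finset.sum_congr rfl (g := fun p => LinearMap.inl F _ _ (Pi.single p (m p)))
    fun p _ => by
      by_cases a : N i p = 3
      · simp [a, Ob.lam_x, lx_to (adj_ne a).symm]
      · simp [a, (mem_nb.1 hm).2 p a, Prod.ext_iff], ← map_sum, Finset.univ_sum_single]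
  rfl

theorem out_lam (n : ι → V) (v : V) :
    out N (X.lam i).x i (n, v) = up (out N X.x i (inn N X.x i n + X.t i v)) := by
  funext p
  by_cases a : N i p = 3 <;> simp [out_apply, a, Ob.lam_x, Prod.ext_iff]

theorem dia_rho (m : ι → V) : dia (X.rho i).d (up m) = up (dia X.d m) := by
  funext p
  simp [Ob.rho_d]

theorem out_rho {G : ι → Submodule F V} {n : ι → V} (hn : n ∈ nb N G i) (v : V) :
    out N (X.rho i).x i (n, v) = up n := by
  funext p
  by_cases a : N i p = 3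
  · simp [out_apply, a, Ob.rho_x]
  · simp [out_apply, a, (mem_nb.1 hn).2 p a, Prod.ext_iff]

theorem inn_rho (m : ι → V) : inn N (X.rho i).x i (up m) =
    (out N X.x i (inn N X.x i m), X.t i (inn N X.x i m)) :=
  inn_map ((out N X.x i).prod (X.t i)) fun p a => by simp [Ob.rho_x, rx_to (adj_ne a).symm]

theorem inn_rho_ne (h : j ≠ i) (h' : N j i ≠ 3) (m : ι → V) :
    inn N (X.rho i).x j (up m) = (0, inn N X.x j m) :=
  inn_map (inr F (ι → V) V) fun p a => by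
    have e : p ≠ i := by rintro rfl; exact h' a
    simp [Ob.rho_x, rx_ne e h]

theorem out_rho_ne (h : j ≠ i) (h' : N j i ≠ 3) (n : ι → V) (v : V) :
    out N (X.rho i).x j (n, v) = up (out N X.x j v) := by
  funext p
  by_cases a : N j p = 3
  · have e : p ≠ i := by rintro rfl; exact h' a
    simp [out_apply, a, Ob.rho_x, rx_ne h e]
  · simp [out_apply, a, Prod.ext_iff]

/-- the underlying maps of the unit -/
def etaF (i j : ι) : V →ₗ[F] (ι → (ι → V) × V) × ((ι → V) × V) :=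
  (if j = i then up ∘ₗ out N X.x i else 0).prod (inr F (ι → V) V)

theorem etaF_self (v : V) : etaF X i i v = (up (out N X.x i v), (0, v)) := by simp [etaF]

theorem etaF_ne (h : j ≠ i) (v : V) : etaF X i j v = (0, (0, v)) := by simp [etaF, h]

/-- the unit -/
def eta (i : ι) : Hom X ((X.lam i).rho i) where
  f := etaF X i
  mem k j v hv := by
    by_cases h : j = i
    · subst h
      rw [etaF_self, Ob.mem_rho_self, nb_lam, Ob.mem_lam_self, sub_add_cancel]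
      exact ⟨⟨_, out_mem (X.x_mem k) hv, rfl⟩, zero_mem _, hv⟩
    · rw [etaF_ne X h, Ob.mem_rho_ne h, Ob.mem_lam_ne h]
      exact ⟨rfl, rfl, hv⟩
  fd k j v hv := by
    by_cases h : j = i
    · subst h
      have := out_mem (X.x_mem k) hv
      rw [etaF_self, etaF_self, Ob.rho_d, dia_lam X this, inn_lam X this, Ob.lam_d_self,
        X.dia_out hv]
      simp [h2]
    · rw [etaF_ne X h, etaF_ne X h, Ob.rho_d, Ob.lam_d_ne h]
      simp
  ft k j v hv := by
    by_cases h : j = i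
    · subst h
      rw [etaF_self, etaF_self, Ob.rho_t_self, out_lam, Ob.lam_t]
      simp
    · rw [etaF_ne X h, etaF_ne X h, Ob.rho_t_ne h, Ob.lam_t]
      simp
  fx k j l a v hv := by
    rw [Ob.rho_x]
    by_cases h : j = i
    · subst h
      rw [etaF_self, etaF_ne X (adj_ne a).symm, rx_from]
      simp [out_apply, a]
    · by_cases h' : l = i
      · subst h'
        rw [etaF_self, etaF_ne X h, rx_to h, Ob.lam_x, lx_to h, ← Ob.lam_x, out_lam, Ob.lam_t,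
          inn_single _ (adj_symm a)]
        simp
      · rw [etaF_ne X h, etaF_ne X h', rx_ne h h', Ob.lam_x, lx_ne h h']

theorem eta_qis (i : ι) : Qis X ((X.lam i).rho i) (eta X i).f := by
  intro k j
  by_cases h : j = i
  · subst h
    constructor
    · rintro z - ⟨⟨n', n, u⟩, hy, e⟩
      rw [SetLike.mem_coe, Ob.mem_rho_self, nb_lam, Ob.mem_lam_self, sub_add_cancel] at hy
      obtain ⟨⟨m, hm, rfl⟩, -, hu⟩ := hy
      refine ⟨u, hu, ?_⟩
      rw [Ob.rho_d, inn_lam X hm, Ob.lam_d_self] at e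
      have e2 := congrArg (fun a => a.2.2) (e.trans (etaF_self X z))
      simpa using e2
    · rintro ⟨n', n, u⟩ ⟨hy, e⟩
      rw [SetLike.mem_coe, Ob.mem_rho_self, nb_lam, Ob.mem_lam_self, sub_add_cancel] at hy
      obtain ⟨⟨m, hm, rfl⟩, hn, hu⟩ := hy
      rw [SetLike.mem_coe, LinearMap.mem_ker, Ob.rho_d, inn_lam X hm, Ob.lam_d_self] at e
      have e1 : m + (dia X.d n + out N X.x j u) = 0 := congrArg (fun a => a.2.1) e
      have e2 : X.d j u = 0 := by simpa using congrArg (fun a => a.2.2) e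
      refine ⟨u, ⟨hu, e2⟩, (up n, (0, 0)), ?_, ?_⟩
      · rw [SetLike.mem_coe, Ob.mem_rho_self, nb_lam]
        exact ⟨⟨n, hn, rfl⟩, zero_mem _⟩
      · change _ = etaF X j j u + _
        rw [Ob.rho_d, dia_lam X hn, inn_lam X hn, Ob.lam_d_self, etaF_self, eq_of_add e1]
        simp [add_comm, h2, h2']
  · refine qis_at (eta X i) j (fun k v _ e => ?_) (fun k y hy => ?_) k
    · exact congrArg (fun a => a.2.2) ((etaF_ne X h v).symm.trans e)
    · obtain ⟨n', n, u⟩ := y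
      rw [Ob.mem_rho_ne h, Ob.mem_lam_ne h] at hy
      obtain ⟨rfl, rfl, hu⟩ := hy
      exact ⟨u, hu, etaF_ne X h u⟩

/-- the underlying maps of the counit -/
def epsF (i j : ι) : (ι → (ι → V) × V) × ((ι → V) × V) →ₗ[F] V :=
  snd F _ _ ∘ₗ snd F _ _ + if j = i then inn N X.x i ∘ₗ dn ∘ₗ fst F _ _ else 0

theorem epsF_self (n' : ι → (ι → V) × V) (a : (ι → V) × V) :
    epsF X i i (n', a) = a.2 + inn N X.x i (dn n') := by simp [epsF]

theorem epsF_ne (h : j ≠ i) (n' : ι → (ι → V) × V) (a : (ι → V) × V) :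
    epsF X i j (n', a) = a.2 := by simp [epsF, h]

theorem mem_E {a : (ι → (ι → V) × V) × ((ι → V) × V)} : a ∈ ((X.rho i).lam i).G k i ↔
    ∃ m ∈ nb N (X.G k) i, ∃ n ∈ nb N (X.G (k + 1)) i, ∃ v ∈ X.G k i, a = (up m, (n, v)) := by
  obtain ⟨n', n, v⟩ := a
  rw [Ob.mem_lam_self, nb_rho X (Or.inl rfl), Ob.mem_rho_self, add_sub_cancel_right]
  constructor
  · rintro ⟨⟨m, hm, rfl⟩, hn, hv⟩
    exact ⟨m, hm, n, hn, v, hv, rfl⟩
  · rintro ⟨m, hm, n, hn, v, hv, ⟨⟩⟩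
    exact ⟨⟨m, hm, rfl⟩, hn, hv⟩

theorem mem_E_ne (h : j ≠ i) {a : (ι → (ι → V) × V) × ((ι → V) × V)} :
    a ∈ ((X.rho i).lam i).G k j ↔ ∃ v ∈ X.G k j, a = (0, (0, v)) := by
  obtain ⟨n', n, v⟩ := a
  rw [Ob.mem_lam_ne h, Ob.mem_rho_ne h]
  constructor
  · rintro ⟨rfl, rfl, hv⟩
    exact ⟨v, hv, rfl⟩
  · rintro ⟨v, hv, ⟨⟩⟩
    exact ⟨rfl, rfl, hv⟩

theorem d_E {G : ι → Submodule F V} (m : ι → V) {n : ι → V} (hn : n ∈ nb N G i) (v : V) :
    ((X.rho i).lam i).d i (up m, (n, v)) =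
      (up (dia X.d m + n), (dia X.d n, inn N X.x i n + X.d i v)) := by
  rw [Ob.lam_d_self, dia_rho, out_rho X hn, Ob.rho_d, map_add]

/-- the counit -/
def eps (i : ι) : Hom ((X.rho i).lam i) X where
  f := epsF X i
  mem k j a ha := by
    by_cases h : j = i
    · subst h
      obtain ⟨m, hm, n, -, v, hv, rfl⟩ := (mem_E X).1 ha
      rw [epsF_self]
      exact add_mem hv (inn_mem (X.x_mem k) hm)
    · obtain ⟨v, hv, rfl⟩ := (mem_E_ne X h).1 ha
      rwa [epsF_ne X h]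
  fd k j a ha := by
    by_cases h : j = i
    · subst h
      obtain ⟨m, hm, n, hn, v, hv, rfl⟩ := (mem_E X).1 ha
      rw [d_E X m hn, epsF_self, epsF_self]
      simp [X.d_inn hm, add_assoc, add_comm, add_left_comm, h2']
    · obtain ⟨v, hv, rfl⟩ := (mem_E_ne X h).1 ha
      rw [Ob.lam_d_ne h, Ob.rho_d, epsF_ne X h, epsF_ne X h]
      simp
  ft k j a ha := by
    by_cases h : j = i
    · subst h
      obtain ⟨m, hm, n, hn, v, hv, rfl⟩ := (mem_E X).1 ha
      rw [Ob.lam_t, inn_rho, Ob.rho_t_self, epsF_self, epsF_self]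
      simp [add_comm]
    · obtain ⟨v, hv, rfl⟩ := (mem_E_ne X h).1 ha
      rw [Ob.lam_t, Ob.rho_t_ne h, epsF_ne X h, epsF_ne X h]
      simp
  fx k j l a b hb := by
    rw [Ob.lam_x]
    by_cases h : j = i
    · subst h
      obtain ⟨m, hm, n, hn, v, hv, rfl⟩ := (mem_E X).1 hb
      rw [lx_from, inn_rho, Ob.rho_t_self, epsF_self, epsF_ne X (adj_ne a).symm, Ob.rho_x,
        Prod.mk_add_mk, rx_from]
      simp [out_apply, a, add_comm]
    · obtain ⟨v, hv, rfl⟩ := (mem_E_ne X h).1 hb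
      by_cases h' : l = i
      · subst h'
        have e : dn (Pi.single j ((0 : ι → V), v)) = Pi.single j v := by
          funext p
          by_cases e : p = j <;> simp [dn, e]
        rw [lx_to h, epsF_self, epsF_ne X h, e, inn_single _ (adj_symm a)]
        simp
      · rw [lx_ne h h', Ob.rho_x, rx_ne h h', epsF_ne X h, epsF_ne X h']

theorem eps_qis (i : ι) : Qis ((X.rho i).lam i) X (eps X i).f := by
  intro k j
  by_cases h : j = i
  · subst h
    constructor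
    · rintro z ⟨hz, e⟩ ⟨w, hw, e'⟩
      obtain ⟨m, hm, n, hn, v, hv, rfl⟩ := (mem_E X).1 hz
      rw [SetLike.mem_coe, LinearMap.mem_ker, d_E X m hn] at e
      have e1 : dia X.d m = n := eq_of_add (up_inj ((congrArg Prod.fst e).trans (map_zero _).symm))
      have e2 : X.d j w = v + inn N X.x j m := e'.trans (epsF_self X _ _)
      refine ⟨(up 0, (m, w)), (mem_E X).2 ⟨0, zero_mem _, m, by rwa [sub_add_cancel], w, hw, rfl⟩,
        ?_⟩
      rw [d_E X 0 hm, e1, e2, add_comm v]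
      simp [h2']
    · rintro y ⟨hy, e⟩
      refine ⟨(up 0, (0, y)), ⟨(mem_E X).2 ⟨0, zero_mem _, 0, zero_mem _, y, hy, rfl⟩, ?_⟩, ?_⟩
      · rw [SetLike.mem_coe, LinearMap.mem_ker, d_E X (G := X.G k) 0 (zero_mem _)]
        simpa using e
      · change epsF X j j _ + _ ∈ _
        rw [epsF_self]
        simp [h2]
  · refine qis_at (eps X i) j (fun k a ha e => ?_) (fun k y hy => ?_) k
    · obtain ⟨v, hv, rfl⟩ := (mem_E_ne X h).1 ha
      rw [show v = 0 from (epsF_ne X h _ _).symm.trans e]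
      rfl
    · exact ⟨(0, (0, y)), (mem_E_ne X h).2 ⟨y, hy, rfl⟩, epsF_ne X h _ _⟩

/-- exchange of the two families -/
def sw : (ι → (ι → V) × V) × ((ι → V) × V) →ₗ[F] (ι → (ι → V) × V) × ((ι → V) × V) :=
  (up ∘ₗ fst F _ _ ∘ₗ snd F _ _).prod ((dn ∘ₗ fst F _ _).prod (snd F _ _ ∘ₗ snd F _ _))

theorem sw_up (m n : ι → V) (v : V) : sw (up m, (n, v)) = (up n, (m, v)) := rfl

theorem sw_0 (n : ι → V) (v : V) : sw (0, (n, v)) = (up n, (0, v)) := rfl

theorem sw_1 (m : ι → V) (v : V) : sw (up m, (0, v)) = (0, (m, v)) := rfl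

theorem sw_2 (v : V) : sw (ι := ι) (0, (0, v)) = (0, (0, v)) := rfl

variable {a : (ι → (ι → V) × V) × ((ι → V) × V)}

theorem mem_out (h : j ≠ i) (h' : N j i ≠ 3) : a ∈ ((X.rho i).rho j).G k j ↔
    ∃ m ∈ nb N (X.G k) j, ∃ v ∈ X.G (k - 1) j, a = (up m, (0, v)) := by
  obtain ⟨n', n, v⟩ := a
  rw [Ob.mem_rho_self, nb_rho X (Or.inr h'), Ob.mem_rho_ne h]
  constructor
  · rintro ⟨⟨m, hm, rfl⟩, rfl, hv⟩
    exact ⟨m, hm, v, hv, rfl⟩
  · rintro ⟨m, hm, v, hv, ⟨⟩⟩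
    exact ⟨⟨m, hm, rfl⟩, rfl, hv⟩

theorem mem_in (h : i ≠ j) : a ∈ ((X.rho i).rho j).G k i ↔
    ∃ n ∈ nb N (X.G k) i, ∃ v ∈ X.G (k - 1) i, a = (0, (n, v)) := by
  obtain ⟨n', n, v⟩ := a
  rw [Ob.mem_rho_ne h, Ob.mem_rho_self]
  constructor
  · rintro ⟨rfl, hn, hv⟩
    exact ⟨n, hn, v, hv, rfl⟩
  · rintro ⟨n, hn, v, hv, ⟨⟩⟩
    exact ⟨rfl, hn, hv⟩

theorem mem_off (h : l ≠ i) (h' : l ≠ j) : a ∈ ((X.rho i).rho j).G k l ↔
    ∃ v ∈ X.G k l, a = (0, (0, v)) := by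
  obtain ⟨n', n, v⟩ := a
  rw [Ob.mem_rho_ne h', Ob.mem_rho_ne h]
  constructor
  · rintro ⟨rfl, rfl, hv⟩
    exact ⟨v, hv, rfl⟩
  · rintro ⟨v, hv, ⟨⟩⟩
    exact ⟨rfl, rfl, hv⟩

theorem sw_mem (h : i ≠ j) (h' : N i j ≠ 3) (ha : a ∈ ((X.rho i).rho j).G k l) :
    sw a ∈ ((X.rho j).rho i).G k l ∧ sw (sw a) = a := by
  have h'' : N j i ≠ 3 := fun e => h' (adj_symm e)
  by_cases e : l = i
  · subst e
    obtain ⟨n, hn, v, hv, rfl⟩ := (mem_in X h).1 ha
    exact ⟨(mem_out X h h').2 ⟨n, hn, v, hv, rfl⟩, rfl⟩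
  · by_cases e' : l = j
    · subst e'
      obtain ⟨n, hn, v, hv, rfl⟩ := (mem_out X e h'').1 ha
      exact ⟨(mem_in X e).2 ⟨n, hn, v, hv, rfl⟩, rfl⟩
    · obtain ⟨v, hv, rfl⟩ := (mem_off X e e').1 ha
      exact ⟨(mem_off X e' e).2 ⟨v, hv, rfl⟩, rfl⟩

/-- the commutation isomorphism -/
def com (h : i ≠ j) (h' : N i j ≠ 3) : Hom ((X.rho i).rho j) ((X.rho j).rho i) where
  f _ := sw
  mem _ _ _ ha := (sw_mem X h h' ha).1
  fd k l a ha := by
    have h'' : N j i ≠ 3 := fun e => h' (adj_symm e)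
    by_cases e : l = i
    · subst e
      obtain ⟨n, hn, v, hv, rfl⟩ := (mem_in X h).1 ha
      rw [sw_0, Ob.rho_d, Ob.rho_d, Ob.rho_d, Ob.rho_d, dia_rho, inn_rho_ne X h h']
      simp [sw_0]
    · by_cases e' : l = j
      · subst e'
        obtain ⟨n, hn, v, hv, rfl⟩ := (mem_out X e h'').1 ha
        rw [sw_1, Ob.rho_d, Ob.rho_d, Ob.rho_d, Ob.rho_d, dia_rho, inn_rho_ne X e h'']
        simp [sw_1]
      · obtain ⟨v, hv, rfl⟩ := (mem_off X e e').1 ha
        rw [sw_2, Ob.rho_d, Ob.rho_d, Ob.rho_d, Ob.rho_d]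
        simp [sw_2]
  ft k l a ha := by
    have h'' : N j i ≠ 3 := fun e => h' (adj_symm e)
    by_cases e : l = i
    · subst e
      obtain ⟨n, hn, v, hv, rfl⟩ := (mem_in X h).1 ha
      rw [sw_0, Ob.rho_t_ne h, Ob.rho_t_self, Ob.rho_t_self, out_rho_ne X h h', Ob.rho_t_ne h, sw_0]
    · by_cases e' : l = j
      · subst e'
        obtain ⟨n, hn, v, hv, rfl⟩ := (mem_out X e h'').1 ha
        rw [sw_1, Ob.rho_t_self, out_rho_ne X e h'', Ob.rho_t_ne e, Ob.rho_t_ne e, Ob.rho_t_self,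
          sw_1]
      · obtain ⟨v, hv, rfl⟩ := (mem_off X e e').1 ha
        rw [sw_2, Ob.rho_t_ne e', Ob.rho_t_ne e, Ob.rho_t_ne e, Ob.rho_t_ne e', sw_2]
  fx k l p b a ha := by
    have h'' : N j i ≠ 3 := fun e => h' (adj_symm e)
    rw [Ob.rho_x, Ob.rho_x (X := X.rho j)]
    by_cases e : l = i
    · subst e
      obtain ⟨n, hn, v, hv, rfl⟩ := (mem_in X h).1 ha
      have hp : p ≠ j := by rintro rfl; exact h' b
      rw [sw_0, rx_ne h hp, rx_from, Ob.rho_x, rx_from, sw_2, up_apply]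
    · by_cases e' : l = j
      · subst e'
        obtain ⟨n, hn, v, hv, rfl⟩ := (mem_out X e h'').1 ha
        have hp : p ≠ i := by rintro rfl; exact h'' b
        rw [sw_1, rx_ne e hp, rx_from, Ob.rho_x, rx_from, up_apply, sw_2]
      · obtain ⟨v, hv, rfl⟩ := (mem_off X e e').1 ha
        rw [sw_2]
        by_cases g : p = i
        · subst g
          rw [rx_ne e' h, rx_to e, Ob.rho_x, rx_to e, sw_0, Ob.rho_x, rx_ne e' h, ← Ob.rho_x,
            out_rho_ne X h h', Ob.rho_t_ne h]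
        · by_cases g' : p = j
          · subst g'
            rw [rx_ne e g, rx_to e', Ob.rho_x, rx_ne e g, ← Ob.rho_x, out_rho_ne X g h'',
              Ob.rho_t_ne g, sw_1, Ob.rho_x, rx_to e']
          · rw [rx_ne e' g', rx_ne e g, Ob.rho_x, Ob.rho_x, rx_ne e' g', rx_ne e g, sw_2]

theorem com_qis (h : i ≠ j) (h' : N i j ≠ 3) :
    Qis ((X.rho i).rho j) ((X.rho j).rho i) (com X h h').f := fun k l =>
  qis_at (com X h h') l
    (fun _ _ ha e => by rw [← (sw_mem X h h' ha).2, show sw _ = 0 from e, map_zero])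
    (fun _ y hy => ⟨sw y, sw_mem X h.symm (fun e => h' (adj_symm e)) hy⟩) k

end INVC

theorem st_INV : St_INV := fun X i =>
  ⟨⟨INVC.eta X.o i, INVC.eta_qis X.o i⟩, ⟨INVC.eps X.o i, INVC.eps_qis X.o i⟩⟩

theorem st_COMM : St_COMM := fun X _ _ h h' => ⟨INVC.com X.o h h', INVC.com_qis X.o h h'⟩

end Pool.Agent.WP34
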