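import Pool.Agent.Lib.WP34.Blue

/-! The main induction and faithfulness. -/

namespace Pool.Agent.WP34

open Pool.Agent.H51

theorem st_MAIN (ht : St_TRI) (hd : St_DIR) (hs : St_SPH) (hp : St_PLAT) (hf : St_INF)
    (hm : St_SMALL) : St_MAIN := by
  intro S _ _ M n r g I hr h1 h2 h3 hg h4
  have nz : ∀ k (T : Set S), T.ncard ≤ k → NZ n T := by
    intro k
    induction k with
    | zero =>
      intro T hT g0 a θ x z _ hx
      rw [Nat.le_zero, Set.ncard_eq_zero] at hT
      exact absurd hx.1 (by simp [hT])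
    | succ k ih =>
      intro T hT
      by_cases sp : ∃ T1 T2, Split M T T1 T2
      · obtain ⟨T1, T2, sp⟩ := sp
        have e := Set.ncard_union_eq sp.2.2.1
        have e1 := (Set.ncard_pos (s := T1)).2 sp.1
        have e2 := (Set.ncard_pos (s := T2)).2 sp.2.1
        rw [sp.2.2.2.1] at e
        exact (hm n I).2 T T1 T2 sp (ih _ (by omega)) (ih _ (by omega))
      rcases T.subsingleton_or_nontrivial with h | h
      · rcases h.eq_empty_or_singleton with rfl | ⟨s, rfl⟩
        exacts [ih _ (by simp), (hm n I).1 s]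
      have pl : PL n T := hp n T I fun i hi => ih _ (by
        have := Set.ncard_sdiff_singleton_lt_of_mem hi; omega)
      have pp : PP n T := by
        rcases ht M T with h' | ⟨v, h'⟩ | h'
        exacts [hs n T I h' (hd n T I h') h sp, hf n T v I h' pl, absurd h' sp]
      exact fun g0 a θ x z f hx hz nx nz => pl g0 a θ x z f hx nx (pp g0 a θ x z f hx hz nx nz)
  have key : ∀ (T : Set S) s, T ⊆ {r}ᶜ → s ∈ T → g ∈ apar M T → g ∈ apar M (T \ {s}) := by
    intro T s hT hs hg
    have sr : s ≠ r := hT hs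
    let θ : S → ℝ := n 1 0 r • (ee s + ee r)
    have θs : θ s = n 1 0 r := by simp [θ, ee, sr]
    have θo : ∀ j, j ≠ s → j ≠ r → θ j = 0 := fun j a b => by simp [θ, ee, a, b]
    have fe : Fe n T 1 0 θ := by
      refine ⟨fun k hk j _ => ?_, fun j hj => ?_, fun t ht => ?_⟩
      · by_cases e : j = r
        exacts [e ▸ h2 k hk, h1 k j e]
      · by_cases e : j = r
        · simp [θ, ee, e, sr.symm]
        · rw [θo j (fun e' => hj.2 (e' ▸ hs)) e, h1 0 j e]
      · have : kc M t r = 1 := by simp [kc, hr t (hT ht)]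
        simp only [θ, map_smul, map_add, bf_ee, this, smul_eq_mul]
        refine mul_nonpos_of_nonneg_of_nonpos h3.le ?_
        by_cases e : t = s
        · simp [e]
        · linarith [kc_nonneg (M := M) e]
    obtain ⟨y, c1, -, -, c, c2, c3⟩ := nz _ T le_rfl 1 0 θ (1, s) (g, s) fe ⟨hs, by simp⟩
      ⟨hs, by simpa using hg⟩
      ⟨fun k _ j hj => h1 k j (hj ▸ sr), by rw [θs, h1 0 s sr]; exact h3⟩
      ⟨fun k _ j hj => h4 k j (hj ▸ sr), by rw [θs, h4 0 s sr]; exact h3.le⟩
    have : y.2 = s ∧ y.1 ∈ apar M (T \ {s}) := by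
      clear c2
      induction c1 with
      | refl => exact ⟨rfl, one_mem _⟩
      | @tail u v _ h ih =>
        obtain ⟨h5, h6, c, h7, h8⟩ := h
        have e : v.2 = s := by
          by_contra e
          exact (I.nonneg v.1 0 v.2).not_gt (h6.2.trans_eq (θo _ e (hT h5)))
        rw [ih.1] at h7
        rw [e] at h8
        exact ⟨e, by simpa using mul_mem (mul_mem ih.2 h7) (inv_mem h8)⟩
    rw [this.1] at c2
    simpa using mul_mem (mul_mem this.2 c2) (inv_mem c3)
  have fin : ∀ k (T : Set S), T.ncard = k → T ⊆ {r}ᶜ → g ∈ apar M T → g = 1 := by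
    intro k
    induction k with
    | zero =>
      intro T h _ hg
      rw [Set.ncard_eq_zero] at h
      simpa [h, apar] using hg
    | succ k ih =>
      intro T h hT hg
      obtain ⟨s, hs⟩ := (Set.ncard_pos (s := T)).1 (by omega)
      exact ih _ (by rw [Set.ncard_sdiff_singleton_of_mem hs]; omega)
        (Set.sdiff_subset.trans hT) (key T s hT hs hg)
  exact fin _ _ rfl subset_rfl hg

end Pool.Agent.WP34
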