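import Pool.Agent.Lib.WP34.Blue

/-! The elementary facts about modules over the preprojective data. -/

set_option linter.unusedSectionVars false

namespace Pool.Agent.WP34

open Pool.Agent.H51 Module

namespace MOD1

variable {ι : Type} [Fintype ι] [DecidableEq ι] {N : CoxeterMatrix ι} {U V W : Type}
  [AddCommGroup U] [Module F U] [AddCommGroup V] [Module F V] [AddCommGroup W] [Module F W]

theorem emb_refl (A : Md N V) : Emb A A :=
  ⟨fun _ => LinearMap.id, fun _ _ h => h, fun _ _ _ h => h, fun _ _ _ _ _ => rfl⟩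

theorem emb_trans {A : Md N U} {B : Md N V} {C : Md N W} (h : Emb A B) (h' : Emb B C) :
    Emb A C := by
  obtain ⟨f, f1, f2, f3⟩ := h
  obtain ⟨g, g1, g2, g3⟩ := h'
  refine ⟨fun i => g i ∘ₗ f i, fun i v hv => g1 _ _ (f1 _ _ hv),
    fun i v hv e => f2 _ _ hv (g2 _ _ (f1 _ _ hv) e), fun i j a v hv => ?_⟩
  simp only [LinearMap.comp_apply]
  rw [f3 _ _ a _ hv, g3 _ _ a _ (f1 _ _ hv)]

theorem emb_dim [Finite W] {A : Md N V} {B : Md N W} (h : Emb A B) : A.dim ≤ B.dim := by
  obtain ⟨f, f1, f2, -⟩ := h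
  intro i
  have : finrank F (A.G i) ≤ finrank F (B.G i) :=
    LinearMap.finrank_le_finrank_of_injective (f := (f i).restrict (f1 i))
      ((injective_iff_map_eq_zero _).2 fun v e =>
        Subtype.ext (f2 _ _ v.2 (congrArg Subtype.val e)))
  simp only [Md.dim]
  exact_mod_cast this

theorem dia_out {A : Md N V} {B : Md N W} {f : ι → V →ₗ[F] W}
    (f3 : ∀ i j, N i j = 3 → ∀ v ∈ A.G i, f j (A.x i j v) = B.x i j (f i v)) {i : ι} {v : V}
    (hv : v ∈ A.G i) : dia f (out N A.x i v) = out N B.x i (f i v) := by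
  funext p
  simp only [dia_apply, out_apply]
  split_ifs with a
  exacts [f3 _ _ a _ hv, map_zero _]

theorem emb_r0_r0 {A : Md N V} {B : Md N W} (h : Emb A B) (i : ι) : Emb (A.r0 i) (B.r0 i) := by
  obtain ⟨f, f1, f2, f3⟩ := h
  refine ⟨fun j => (dia f).prodMap (f j), fun j => ?_, fun j => ?_, fun j l a => ?_⟩
  · rintro ⟨n, v⟩
    by_cases h : j = i
    · subst h
      simp only [LinearMap.prodMap_apply, Md.mem_r0_self]
      rintro ⟨⟨h1, h2⟩, rfl⟩
      refine ⟨⟨mem_nb.2 ⟨fun p a => f1 _ _ ((mem_nb.1 h1).1 p a), fun p a => ?_⟩, ?_⟩, map_zero _⟩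
      · simp [(mem_nb.1 h1).2 p a]
      · rw [inn_map (x := A.x) (m := dia f n) (n := n) (f j) fun p a =>
          (f3 _ _ (adj_symm a) _ ((mem_nb.1 h1).1 p a)).symm, h2, map_zero]
    · simp only [LinearMap.prodMap_apply, Md.mem_r0_ne h]
      rintro ⟨rfl, hv⟩
      exact ⟨map_zero _, f1 _ _ hv⟩
  · rintro ⟨n, v⟩
    by_cases h : j = i
    · subst h
      simp only [LinearMap.prodMap_apply, Md.mem_r0_self, Prod.mk_eq_zero]
      rintro ⟨⟨h1, -⟩, rfl⟩ ⟨e, -⟩
      refine ⟨funext fun p => ?_, rfl⟩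
      by_cases a : N j p = 3
      exacts [f2 _ _ ((mem_nb.1 h1).1 p a) (congrFun e p), (mem_nb.1 h1).2 p a]
    · simp only [LinearMap.prodMap_apply, Md.mem_r0_ne h, Prod.mk_eq_zero]
      rintro ⟨rfl, hv⟩ ⟨-, e⟩
      exact ⟨rfl, f2 _ _ hv e⟩
  · rintro ⟨n, v⟩
    by_cases h : j = i
    · subst h
      simp [Md.r0_x]
    · simp only [Md.mem_r0_ne h, Md.r0_x, LinearMap.prodMap_apply]
      rintro ⟨rfl, hv⟩
      by_cases h' : l = i
      · subst h'
        simp [rx_to h, dia_out f3 (A.x_mem _ _ a _ hv), f3 _ _ a _ hv]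
      · simp [rx_ne h h', f3 _ _ a _ hv]

theorem emb_rw' (l : List ι) : ∀ A B : BM N, Emb A.o B.o → Emb (A.rw l).o (B.rw l).o := by
  induction l with
  | nil => exact fun _ _ h => h
  | cons i l ih => exact fun A B h => ih (A.r0 i) (B.r0 i) (emb_r0_r0 h i)

theorem emb_inj' {A : Md N V} {B : Md N W} {i : ι} (h : Emb A B) (hB : B.Inj i) : A.Inj i := by
  obtain ⟨f, f1, f2, f3⟩ := h
  intro v hv e
  exact f2 _ _ hv (hB _ (f1 _ _ hv) (by rw [← dia_out f3 hv, e, map_zero]))

theorem inj_self' (A : Md N V) (i : ι) : (A.r0 i).Inj i := by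
  rintro ⟨n, v⟩ hv e
  obtain ⟨⟨h1, -⟩, rfl⟩ := Md.mem_r0_self.1 hv
  refine Prod.ext (funext fun p => ?_) rfl
  by_cases a : N i p = 3
  · simpa [out_apply, a, Md.r0_x] using congrFun e p
  · exact (mem_nb.1 h1).2 p a

theorem inj_r0' {A : Md N V} {i j : ι} (hj : A.Inj j) (h : N i j ≠ 3 ∨ A.Inj i) :
    (A.r0 i).Inj j := by
  by_cases e : j = i
  · subst e; exact inj_self' A j
  rintro ⟨n, v⟩ hv' o
  obtain ⟨rfl, hv⟩ := (Md.mem_r0_ne e).1 hv'
  refine Prod.ext rfl (hj v hv (funext fun p => ?_))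
  have := congrFun o p
  by_cases a : N j p = 3
  · by_cases e' : p = i
    · subst e'
      simp only [out_apply, a, if_true, Md.r0_x, rx_to e, Pi.zero_apply, Prod.mk_eq_zero] at this ⊢
      exact (h.resolve_left fun c => c (adj_symm a)) _ (A.x_mem _ _ a _ hv) this.1
    · simpa [out_apply, a, Md.r0_x, rx_ne e e'] using this
  · simp [out_apply, a]

theorem inj_of_r0' {A : Md N V} {i j : ι} (e : j ≠ i) (h : N i j ≠ 3) (hj : (A.r0 i).Inj j) :
    A.Inj j := by
  intro v hv o
  refine congrArg Prod.snd (hj (0, v) ((Md.mem_r0_ne e).2 ⟨rfl, hv⟩) (funext fun p => ?_))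
  have := congrFun o p
  by_cases a : N j p = 3
  · have e' : p ≠ i := by rintro rfl; exact h (adj_symm a)
    simpa [out_apply, a, Md.r0_x, rx_ne e e'] using this
  · simp [out_apply, a]

theorem bot_of_dim [Finite V] {A : Md N V} {i : ι} (h : A.dim i = 0) : A.G i = ⊥ :=
  Submodule.finrank_eq_zero.1 (by simpa [Md.dim] using h)

theorem emb_r0' {A : Md N V} {i : ι} (hi : A.Inj i) : Emb A (A.r0 i) := by
  refine ⟨fun j => if j = i then (out N A.x i).prod 0 else LinearMap.inr F _ _, fun j v hv => ?_,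
    fun j v hv => ?_, fun j l a v _ => ?_⟩
  · by_cases h : j = i
    · subst h
      simp only [if_true]
      exact Md.mem_r0_self.2 ⟨⟨out_mem A.x_mem hv, A.rel _ _ hv⟩, rfl⟩
    · simp only [h, if_false]
      exact (Md.mem_r0_ne h).2 ⟨rfl, hv⟩
  · by_cases h : j = i
    · subst h
      simp only [if_true]
      exact fun e => hi v hv (congrArg Prod.fst e)
    · simp only [h, if_false]
      exact fun e => congrArg Prod.snd e
  · by_cases h : j = i
    · subst h
      simp [(adj_ne a).symm, Md.r0_x, out_apply, a]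
    · by_cases h' : l = i
      · subst h'
        simp [h, Md.r0_x, rx_to h]
      · simp [h, h', Md.r0_x, rx_ne h h']

theorem dim_ne (A : Md N V) {i j : ι} (h : j ≠ i) : (A.r0 i).dim j = A.dim j := by
  have : (A.r0 i).G j = (A.G j).map (LinearMap.inr F (ι → V) V) := by
    simp [Md.r0, h, Submodule.map_inr]
  simp only [Md.dim]
  rw [this, ← (Submodule.equivMapOfInjective _ LinearMap.inr_injective (A.G j)).finrank_eq]

theorem dim_self (A : Md N V) (i : ι) :
    (A.r0 i).dim i = finrank F ↥(nb N A.G i ⊓ LinearMap.ker (inn N A.x i)) := by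
  have : (A.r0 i).G i = (nb N A.G i ⊓ LinearMap.ker (inn N A.x i)).map
      (LinearMap.inl F (ι → V) V) := by
    simp [Md.r0, Submodule.map_inl]
  simp only [Md.dim]
  rw [this, ← (Submodule.equivMapOfInjective _ LinearMap.inl_injective _).finrank_eq]

/-- a product of submodules -/
def piEquiv (P : ι → Submodule F V) : ↥(Submodule.pi Set.univ P) ≃ₗ[F] ∀ i, P i where
  toFun n i := ⟨n.1 i, n.2 i trivial⟩
  map_add' _ _ := rfl
  map_smul' _ _ := rfl
  invFun n := ⟨fun i => n i, fun i _ => (n i).2⟩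
  left_inv _ := rfl
  right_inv _ := rfl

theorem dim_nb [Finite V] (A : Md N V) (i : ι) :
    (finrank F (nb N A.G i) : ℝ) = ∑ p, if N i p = 3 then A.dim p else 0 := by
  rw [nb, (piEquiv _).finrank_eq, Module.finrank_pi_fintype, Nat.cast_sum]
  refine Finset.sum_congr rfl fun p _ => ?_
  by_cases a : N i p = 3
  · rw [if_pos a, if_pos a, Md.dim]
  · rw [if_neg a, if_neg a, finrank_bot, Nat.cast_zero]

theorem rank_null [Finite V] (A : Md N V) (i : ι) :
    finrank F ((nb N A.G i).map (inn N A.x i)) +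
      finrank F ↥(nb N A.G i ⊓ LinearMap.ker (inn N A.x i)) = finrank F (nb N A.G i) := by
  have := LinearMap.finrank_range_add_finrank_ker ((inn N A.x i).domRestrict (nb N A.G i))
  rwa [LinearMap.range_domRestrict, LinearMap.ker_domRestrict,
    ← Submodule.finrank_map_subtype_eq, Submodule.map_comap_subtype] at this

theorem sref_self (hN : SL N) (v : ι → ℝ) (i : ι) :
    sref N i v i = (∑ p, if N i p = 3 then v p else 0) - v i := by
  have : ∀ p, -kc N i p * v p = (if p = i then v p else 0) -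
      (if N i p = 3 then v p else 0) / 2 := by
    intro p
    by_cases e : p = i
    · subst e; simp
    · rcases hN i p (Ne.symm e) with h | h
      · simp [kc, h, e]
      · simp [kc, h, e]; ring
  rw [sref_apply]
  simp only [bf, LinearMap.coe_mk, AddHom.coe_mk, this, Finset.sum_sub_distrib, ← Finset.sum_div,
    Finset.sum_ite_eq', Finset.mem_univ, if_true, ee, Pi.sub_apply, Pi.smul_apply,
    Pi.single_eq_same, smul_eq_mul]
  ring

theorem dim_r0' [Finite V] (hN : SL N) (A : Md N V) (i : ι) :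
    ∃ f : ℝ, 0 ≤ f ∧ (A.r0 i).dim = sref N i A.dim + f • ee i := by
  have h1 : finrank F ((nb N A.G i).map (inn N A.x i)) ≤ finrank F (A.G i) :=
    Submodule.finrank_mono (by rintro _ ⟨n, hn, rfl⟩; exact inn_mem A.x_mem hn)
  refine ⟨A.dim i - finrank F ((nb N A.G i).map (inn N A.x i)), ?_, funext fun j => ?_⟩
  · simp only [Md.dim, sub_nonneg]; exact_mod_cast h1
  · by_cases h : j = i
    · subst h
      have := congrArg (Nat.cast : ℕ → ℝ) (rank_null A j)
      rw [Nat.cast_add, dim_nb] at this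
      rw [dim_self, Pi.add_apply, sref_self hN, ← this]
      simp [ee]
    · simp [dim_ne A h, sref_apply, ee, h]

theorem dim_r0_zero' [Finite V] (A : Md N V) (i : ι) (h : ∀ p, N i p = 3 → A.dim p = 0) :
    (A.r0 i).dim i = 0 := by
  have h1 : (finrank F (nb N A.G i) : ℝ) = 0 := by
    rw [dim_nb]
    exact Finset.sum_eq_zero fun p _ => by split_ifs with a; exacts [h p a, rfl]
  have := rank_null A i
  rw [Nat.cast_eq_zero.1 h1] at this
  rw [dim_self, Nat.cast_eq_zero]
  omega

theorem dim_off' (l : List ι) (j : ι) : ∀ A : BM N, j ∉ l → (A.rw l).o.dim j = A.o.dim j := by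
  induction l with
  | nil => exact fun _ _ => rfl
  | cons i l ih =>
    intro A h
    rw [List.mem_cons, not_or] at h
    rw [BM.rw_cons, ih _ h.2]
    exact dim_ne A.o h.1

theorem dim_rw' (hN : SL N) (l : List ι) : ∀ A : BM N, (cx N).IsReduced l →
    wact N l.reverse A.o.dim ≤ (A.rw l).o.dim := by
  induction l with
  | nil => exact fun A _ => le_rfl
  | cons i l ih =>
    intro A h
    obtain ⟨f, f0, hf⟩ := dim_r0' hN A.o i
    have h1 := ih (A.r0 i) (h.drop 1)
    have h2 : 0 ≤ wact N l.reverse (ee i) := by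
      rw [← rho_wordProd (cx N)]
      refine rho_nonneg _ (not_lt.2 ?_)
      have := h.reverse.eq
      rw [List.reverse_cons, (cx N).wordProd_append, (cx N).wordProd_singleton] at this
      rw [this]
      exact ((cx N).length_wordProd_le _).trans (by simp)
    have h3 : wact N (i :: l).reverse A.o.dim = wact N l.reverse (sref N i A.o.dim) := by
      simp [wact]
    rw [h3, BM.rw_cons]
    refine le_trans ?_ h1
    rw [hf, map_add, map_smul]
    exact le_add_of_nonneg_right (smul_nonneg f0 h2)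

/-- the socle at `i` -/
def soc' (A : Md N V) (i : ι) : Md N V where
  G j := if j = i then A.G i ⊓ LinearMap.ker (out N A.x i) else ⊥
  x _ _ := 0
  x_mem := by simp
  rel := by simp [inn_apply]

theorem soc_emb (A : Md N V) (i : ι) : Emb (soc' A i) A := by
  refine ⟨fun _ => LinearMap.id, fun j v hv => ?_, fun _ _ _ h => h, fun j l a v hv => ?_⟩
  · by_cases h : j = i
    · subst h
      simp only [soc', if_true] at hv
      exact hv.1
    · simp only [soc', h, if_false, Submodule.mem_bot] at hv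
      simp [hv]
  · by_cases h : j = i
    · subst h
      simp only [soc', if_true] at hv
      have := congrFun (show out N A.x j v = 0 from hv.2) l
      simp only [out_apply, a, if_true, Pi.zero_apply] at this
      simp [soc', this]
    · simp only [soc', h, if_false, Submodule.mem_bot] at hv
      simp [hv]

theorem soc_dim (A : Md N V) (i : ι) : (soc' A i).dim = (soc' A i).dim i • ee i := by
  funext j
  by_cases h : j = i
  · subst h; simp [ee]
  · have : (soc' A i).G j = ⊥ := by simp [soc', h]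
    rw [Md.dim, this]
    simp [ee, h]

theorem soc_inj [Finite V] (A : Md N V) (i : ι) (h : (soc' A i).dim i = 0) : A.Inj i := by
  intro v hv e
  have : v ∈ (soc' A i).G i := by simp only [soc', if_true]; exact ⟨hv, e⟩
  rwa [bot_of_dim h, Submodule.mem_bot] at this

end MOD1

open MOD1 in
theorem st_MOD1 : St_MOD1 := fun _ hN =>
  { refl := fun A => emb_refl A.o
    trans := fun _ _ _ => emb_trans
    dim_le := fun _ _ => emb_dim
    emb_rw := fun A B l => emb_rw' l A B
    emb_inj := fun _ _ _ => emb_inj'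
    inj_self := fun A => inj_self' A.o
    inj_r0 := fun _ _ _ => inj_r0'
    inj_of_r0 := fun _ _ _ => inj_of_r0'
    inj_of_dim := fun _ _ h v hv _ => by rwa [bot_of_dim h, Submodule.mem_bot] at hv
    emb_r0 := fun _ _ => emb_r0'
    dim_r0 := fun A => dim_r0' hN A.o
    dim_r0_zero := fun A => dim_r0_zero' A.o
    dim_off := fun A l j => dim_off' l j A
    dim_rw := fun A l => dim_rw' hN l A
    soc := fun A i => ⟨⟨soc' A.o i⟩, _, soc_emb A.o i, soc_dim A.o i, soc_inj A.o i⟩ }

end Pool.Agent.WP34
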