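import Pool.Agent.Lib.WP34.Blue

/-! A chain of submodules that ends below the reflected dimension vector. -/

set_option linter.unusedSectionVars false

namespace Pool.Agent.WP34

open Pool.Agent.H51 Relation Module

namespace Mod2

variable {ι : Type} [Fintype ι] [DecidableEq ι] {N : CoxeterMatrix ι}
variable {V W : Type} [AddCommGroup V] [Module F V] [AddCommGroup W] [Module F W]

/-- closed subfamilies -/
structure Sub (A : Md N V) (B : ι → Submodule F V) : Prop where
  le : ∀ j, B j ≤ A.G j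
  cl : ∀ i j, N i j = 3 → ∀ v ∈ B i, A.x i j v ∈ B j

/-- the submodule given by a closed subfamily -/
def Sub.md {A : Md N V} {B : ι → Submodule F V} (h : Sub A B) : Md N V :=
  ⟨B, A.x, h.cl, fun i v hv => A.rel i v (h.le i hv)⟩

/-- replace the space at `i` by the image of the incoming map -/
def beta (A : Md N V) (i : ι) (B : ι → Submodule F V) (j : ι) : Submodule F V :=
  if j = i then (nb N B i).map (inn N A.x i) else B j

theorem beta_self (A : Md N V) (i : ι) (B : ι → Submodule F V) :
    beta A i B i = (nb N B i).map (inn N A.x i) := if_pos rfl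

theorem beta_ne (A : Md N V) {i j : ι} (h : j ≠ i) (B : ι → Submodule F V) :
    beta A i B j = B j := if_neg h

theorem beta_le {A : Md N V} {B : ι → Submodule F V} (h : Sub A B) (i j : ι) :
    beta A i B j ≤ B j := by
  by_cases e : j = i
  · subst e
    rw [beta_self]
    rintro _ ⟨n, hn, rfl⟩
    exact inn_mem h.cl hn
  · rw [beta_ne A e]

theorem to_beta (A : Md N V) {B : ι → Submodule F V} {i j : ι} (a : N j i = 3) {v : V}
    (hv : v ∈ B j) : A.x j i v ∈ beta A i B i := by
  rw [beta_self]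
  exact ⟨_, single_mem (adj_symm a) hv, inn_single _ (adj_symm a) v⟩

theorem Sub.beta {A : Md N V} {B : ι → Submodule F V} (h : Sub A B) (i : ι) :
    Sub A (beta A i B) := by
  refine ⟨fun j => (beta_le h i j).trans (h.le j), fun j l a v hv => ?_⟩
  by_cases e : l = i
  · subst e
    exact to_beta A a (beta_le h l j hv)
  · rw [beta_ne A e]
    exact h.cl j l a v (beta_le h i j hv)

/-- the iterated radical along a word -/
def rad (A : Md N V) (l : List ι) : ι → Submodule F V := l.foldr (beta A) A.G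

theorem sub_rad (A : Md N V) (l : List ι) : Sub A (rad A l) := by
  induction l with
  | nil => exact ⟨fun _ => le_rfl, A.x_mem⟩
  | cons i l ih => exact ih.beta i

/-- dimension vector of a family -/
noncomputable def dims (B : ι → Submodule F V) (j : ι) : ℝ := finrank F (B j)

theorem chain (A : BM N) (l0 l : List ι) (hl : ∀ i ∈ l, i ∈ l0) :
    ∃ B : BM N, ReflTransGen (fun P Q : BM N => Emb P.o A.o ∧ Emb Q.o A.o ∧
      ∃ i ∈ l0, ∃ c : ℝ, 0 ≤ c ∧ P.o.dim = Q.o.dim + c • ee i) A B ∧ Emb B.o A.o ∧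
      B.o.dim = dims (rad A.o l) := by
  induction l with
  | nil => exact ⟨A, .refl, ⟨fun _ => .id, fun _ _ h => h, fun _ _ _ h => h, fun _ _ _ _ _ => rfl⟩, rfl⟩
  | cons i l ih =>
    obtain ⟨B, h1, h2, h3⟩ := ih fun j hj => hl j (List.mem_cons_of_mem _ hj)
    have hs := sub_rad A.o (i :: l)
    have he : Emb hs.md A.o :=
      ⟨fun _ => .id, fun j _ h => hs.le j h, fun _ _ _ h => h, fun _ _ _ _ _ => rfl⟩
    refine ⟨⟨hs.md⟩, h1.tail ⟨h2, he, i, hl i List.mem_cons_self,
      dims (rad A.o l) i - dims (rad A.o (i :: l)) i, ?_, ?_⟩, he, rfl⟩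
    · exact sub_nonneg.2 (Nat.cast_le.2 (Submodule.finrank_mono (beta_le (sub_rad A.o l) i i)))
    · rw [h3]
      funext j
      change _ = dims (rad A.o (i :: l)) j + _
      by_cases e : j = i
      · subst e; simp [ee]
      · have : dims (rad A.o (i :: l)) j = dims (rad A.o l) j :=
          congrArg (fun S : Submodule F A.V => (finrank F S : ℝ)) (beta_ne A.o e _)
        simp [ee, e, this]

/-- families of vectors in a family of subspaces -/
def piEquiv (S : ι → Submodule F V) : Submodule.pi Set.univ S ≃ₗ[F] ∀ p, S p where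
  toFun n p := ⟨n.1 p, n.2 p trivial⟩
  invFun f := ⟨fun p => f p, fun p _ => (f p).2⟩
  map_add' _ _ := rfl
  map_smul' _ _ := rfl
  left_inv _ := rfl
  right_inv _ := rfl

theorem finrank_nb [Finite V] (B : ι → Submodule F V) (i : ι) :
    (finrank F (nb N B i) : ℝ) = ∑ p, if N i p = 3 then dims B p else 0 := by
  rw [nb, (piEquiv _).finrank_eq, finrank_pi_fintype, Nat.cast_sum]
  refine Finset.sum_congr rfl fun p _ => ?_
  by_cases h : N i p = 3
  · rw [if_pos h, if_pos h]; rfl
  · rw [if_neg h, if_neg h]; simp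

theorem sref_self (hN : SL N) (d : ι → ℝ) (i : ι) :
    sref N i d i = (∑ p, if N i p = 3 then d p else 0) - d i := by
  have : ∀ p, -kc N i p * d p =
      (if p = i then d p else 0) - (if N i p = 3 then d p else 0) / 2 := fun p => by
    by_cases e : p = i
    · subst e; simp
    · rcases hN i p (Ne.symm e) with h | h
      · simp [kc, h, e]
      · simp [kc, h, e]; ring
  rw [sref_apply]
  simp only [bf, LinearMap.coe_mk, AddHom.coe_mk, this, Finset.sum_sub_distrib, ← Finset.sum_div,
    Finset.sum_ite_eq', Finset.mem_univ, if_true, Pi.sub_apply, Pi.smul_apply, ee, Pi.single_eq_same,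
    smul_eq_mul]
  ring

theorem finrank_split [Finite V] [Finite W] (S : Submodule F V) (f : V →ₗ[F] W) :
    finrank F (S.map f) + finrank F (S ⊓ LinearMap.ker f : Submodule F V) = finrank F S := by
  rw [← LinearMap.finrank_range_add_finrank_ker (f.domRestrict S), LinearMap.range_domRestrict,
    LinearMap.ker_domRestrict, ← Submodule.finrank_map_subtype_eq S, Submodule.map_comap_subtype]

/-- pulling a closed family back along the reflection -/
def pb (A : Md N V) (i : ι) (B : ι → Submodule F ((ι → V) × V)) : ι → Submodule F V :=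
  beta A i fun j => (B j).comap (LinearMap.inr F _ _)

theorem sub_pb {A : Md N V} {i : ι} {B : ι → Submodule F ((ι → V) × V)} (h : Sub (A.r0 i) B) :
    Sub A (pb A i B) := by
  have h0 : ∀ j, j ≠ i → ∀ v, (0, v) ∈ B j → v ∈ A.G j := fun j e v hv =>
    ((Md.mem_r0_ne e).1 (h.le j hv)).2
  refine ⟨fun j => ?_, fun j l a v hv => ?_⟩
  · by_cases e : j = i
    · subst e
      rw [pb, beta_self]
      rintro _ ⟨n, hn, rfl⟩
      exact inn_mem A.x_mem (mem_nb.2 ⟨fun p a => h0 p (adj_ne a).symm _ ((mem_nb.1 hn).1 p a),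
        (mem_nb.1 hn).2⟩)
    · rw [pb, beta_ne A e]
      exact h0 j e
  · by_cases e : j = i
    · subst e
      rw [pb, beta_self] at hv
      obtain ⟨n, hn, rfl⟩ := hv
      have h1 : (fun p => ((0, n p) : (ι → V) × V)) ∈ nb N B j :=
        mem_nb.2 ⟨(mem_nb.1 hn).1, fun p a => by rw [(mem_nb.1 hn).2 p a]; rfl⟩
      have h2 := inn_mem h.cl h1
      rw [Md.r0_x, inn_map (x := A.x) (n := n) ((out N A.x j).prod 0) fun p a => by
        simp [rx_to (adj_ne a).symm]] at h2
      have h3 := h.cl j l a _ h2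
      rw [pb, beta_ne A (adj_ne a).symm]
      simpa [Md.r0_x, out_apply, a] using h3
    · rw [pb, beta_ne A e] at hv
      by_cases e' : l = i
      · subst e'
        exact to_beta A a hv
      · rw [pb, beta_ne A e']
        have h3 := h.cl j l a _ hv
        simpa [Md.r0_x, rx_ne e e'] using h3

theorem dims_pb [Finite V] (hN : SL N) {A : Md N V} {i : ι} {B : ι → Submodule F ((ι → V) × V)}
    (h : Sub (A.r0 i) B) : ∃ c : ℝ, 0 ≤ c ∧ sref N i (dims B) = dims (pb A i B) + c • ee i := by
  set B0 : ι → Submodule F V := fun j => (B j).comap (LinearMap.inr F _ _) with hB0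
  have h0 : ∀ j, j ≠ i → dims B j = dims B0 j := fun j e => by
    have : B j = (B0 j).map (LinearMap.inr F _ _) := by
      rw [hB0, Submodule.map_comap_eq_self]
      rintro ⟨n, v⟩ hv
      exact ⟨v, by rw [((Md.mem_r0_ne e).1 (h.le j hv)).1]; rfl⟩
    rw [dims, dims, this,
      ← (Submodule.equivMapOfInjective _ LinearMap.inr_injective (B0 j)).finrank_eq]
  have h1 : finrank F (B i) ≤
      finrank F (nb N B0 i ⊓ LinearMap.ker (inn N A.x i) : Submodule F (ι → V)) := by
    refine le_trans (Submodule.finrank_mono (t := Submodule.map (LinearMap.inl F _ V)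
      (nb N B0 i ⊓ LinearMap.ker (inn N A.x i))) ?_) (Submodule.finrank_map_le _ _)
    rintro ⟨n, v⟩ hv
    obtain ⟨⟨a1, a2⟩, rfl⟩ := Md.mem_r0_self.1 (h.le i hv)
    refine ⟨n, ⟨mem_nb.2 ⟨fun p a => ?_, (mem_nb.1 a1).2⟩, a2⟩, rfl⟩
    simpa [Md.r0_x, hB0] using h.cl i p a _ hv
  have h2 := finrank_split (nb N B0 i) (inn N A.x i)
  have h3 := finrank_nb (N := N) B0 i
  have h4 : (∑ p, if N i p = 3 then dims B p else 0) = ∑ p, if N i p = 3 then dims B0 p else 0 :=
    Finset.sum_congr rfl fun p _ => by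
      split_ifs with a
      exacts [h0 p (adj_ne a).symm, rfl]
  refine ⟨sref N i (dims B) i - dims (pb A i B) i, ?_, funext fun j => ?_⟩
  · rw [sref_self hN, h4, ← h3, ← h2, dims, dims, pb, beta_self]
    have : (finrank F (B i) : ℝ) ≤ _ := Nat.cast_le.2 h1
    push_cast
    linarith
  · by_cases e : j = i
    · subst e; simp [ee]
    · have : dims (pb A i B) j = dims B0 j := by rw [dims, pb, beta_ne A e]; rfl
      simp [ee, e, sref_apply, this, h0 j e]

/-- module maps -/
structure Mp (P : Md N W) (A : Md N V) (φ : ι → W →ₗ[F] V) : Prop where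
  mem : ∀ i, ∀ v ∈ P.G i, φ i v ∈ A.G i
  comm : ∀ i j, N i j = 3 → ∀ v ∈ P.G i, φ j (P.x i j v) = A.x i j (φ i v)

/-- composition with the natural map to the reflection -/
def nat (A : Md N V) (i : ι) (φ : ι → W →ₗ[F] V) (j : ι) : W →ₗ[F] (ι → V) × V :=
  if j = i then (out N A.x i ∘ₗ φ i).prod 0 else LinearMap.prod 0 (φ j)

theorem nat_self (A : Md N V) (i : ι) (φ : ι → W →ₗ[F] V) (w : W) :
    nat A i φ i w = (out N A.x i (φ i w), 0) := by simp [nat]

theorem nat_ne (A : Md N V) {i j : ι} (e : j ≠ i) (φ : ι → W →ₗ[F] V) (w : W) :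
    nat A i φ j w = (0, φ j w) := by simp [nat, e]

theorem Mp.nat {P : Md N W} {A : Md N V} {φ : ι → W →ₗ[F] V} (h : Mp P A φ) (i : ι) :
    Mp P (A.r0 i) (nat A i φ) := by
  refine ⟨fun j v hv => ?_, fun j l a v hv => ?_⟩
  · by_cases e : j = i
    · subst e
      rw [nat_self]
      exact Md.mem_r0_self.2 ⟨⟨out_mem A.x_mem (h.mem j v hv), A.rel j _ (h.mem j v hv)⟩, rfl⟩
    · rw [nat_ne A e]
      exact (Md.mem_r0_ne e).2 ⟨rfl, h.mem j v hv⟩
  · by_cases e : j = i
    · subst e
      simp [nat_self, nat_ne A (adj_ne a).symm, Md.r0_x, out_apply, a, h.comm j l a v hv]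
    · by_cases e' : l = i
      · subst e'
        simp [nat_self, nat_ne A e, Md.r0_x, rx_to e, h.comm j l a v hv]
      · simp [nat_ne A e, nat_ne A e', Md.r0_x, rx_ne e e', h.comm j l a v hv]

theorem main (hN : SL N) (P : Md N W) (l : List ι) : ∀ (A : BM N) (φ : ι → W →ₗ[F] A.V),
    Mp P A.o φ → ∃ B, Sub A.o B ∧ (∀ j, ∀ w ∈ rad P l j, φ j w ∈ B j) ∧
      ∀ v, RedA N v l → 0 ≤ rho (cx N) v (wact N l (A.rw l).o.dim - dims B) := by
  induction l with
  | nil =>
    intro A φ h
    refine ⟨A.o.G, sub_rad A.o [], h.mem, fun v _ => ?_⟩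
    have : wact N [] (A.rw []).o.dim - dims A.o.G = 0 := sub_self _
    rw [this, map_zero]
  | cons i l ih =>
    intro A φ h
    obtain ⟨B, h1, h2, h3⟩ := ih (A.r0 i) _ (h.nat i)
    refine ⟨pb A.o i B, sub_pb h1, fun j w hw => ?_, fun v hv => ?_⟩
    · have k : ∀ p, p ≠ i → ∀ u ∈ rad P l p, (0, φ p u) ∈ B p := fun p e u hu =>
        nat_ne A.o e φ u ▸ h2 p u hu
      change w ∈ beta P i (rad P l) j at hw
      by_cases e : j = i
      · subst e
        rw [beta_self] at hw
        obtain ⟨n, hn, rfl⟩ := hw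
        rw [pb, beta_self]
        refine ⟨dia φ n, mem_nb.2 ⟨fun p a => k p (adj_ne a).symm _ ((mem_nb.1 hn).1 p a),
          fun p a => by simp [(mem_nb.1 hn).2 p a]⟩, inn_map (φ j) fun p a => ?_⟩
        exact (h.comm p j (adj_symm a) _ ((sub_rad P l).le p ((mem_nb.1 hn).1 p a))).symm
      · rw [beta_ne P e] at hw
        rw [pb, beta_ne A.o e]
        exact k j e w hw
    · obtain ⟨c, hc, e⟩ := dims_pb hN h1
      obtain ⟨a1, a2⟩ := redA_cons.1 hv
      have : wact N (i :: l) (A.rw (i :: l)).o.dim - dims (pb A.o i B) =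
          sref N i (wact N l ((A.r0 i).rw l).o.dim - dims B) + c • ee i := by
        rw [map_sub, e, BM.rw_cons, ← sub_sub, sub_add_cancel]
        simp [wact]
      have h4 := h3 _ a2
      rw [map_mul, Module.End.mul_apply, rho_simple] at h4
      rw [this, map_add, map_smul]
      exact add_nonneg h4 (smul_nonneg hc (rho_nonneg _ a1))

end Mod2

open Mod2 in
theorem st_MOD2 : St_MOD2 := by
  intro ι _ _ N hN A l hl
  obtain ⟨B, h1, -, h2⟩ := chain A l l fun _ h => h
  obtain ⟨C, -, h3, h4⟩ := main hN A.o l A (fun _ => .id) ⟨fun _ _ h => h, fun _ _ _ _ _ => rfl⟩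
  have h5 := h4 1 (by rw [RedA, one_mul, hl, (cx N).length_one, zero_add])
  rw [map_one, Module.End.one_apply, sub_nonneg] at h5
  refine ⟨B, h1, h2 ▸ le_trans (fun j => ?_) h5⟩
  exact Nat.cast_le.2 (Submodule.finrank_mono (h3 j))

end Pool.Agent.WP34
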