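import Pool.Agent.Lib.WP34.Blue

/-! Plateaus can be avoided; the rank one and the reducible cases. -/

set_option linter.unusedSectionVars false

namespace Pool.Agent.WP34

open Pool.Agent.H51 Relation

namespace Plat

variable {S : Type} [Fintype S] [DecidableEq S] {M : CoxeterMatrix S}
  {n : Artin M → ℤ → S → ℝ}

theorem inv (h : I1 n) {T : Set S} {g g' : Artin M} (hg : g⁻¹ * g' ∈ apar M T) (k : ℤ) {j : S}
    (hj : j ∉ T) : n g' k j = n g k j := by
  have hne : ∀ i ∈ T, j ≠ i := fun i hi e => hj (e ▸ hi)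
  have := apar_induction (P := fun u => n (g * u) k j = n g k j) hg (by rw [mul_one])
    (fun u _ i hi e => by rw [← mul_assoc, h _ i k j (hne i hi), e])
    (fun u _ i hi e => by
      rw [← e, ← mul_assoc, ← h _ i k j (hne i hi), inv_mul_cancel_right])
  rwa [mul_inv_cancel_left] at this

theorem win_inv (h : I1 n) {T : Set S} {g g' : Artin M} (hg : g⁻¹ * g' ∈ apar M T) {a : ℤ} {j : S}
    (hj : j ∉ T) (hw : Win n g {j} a) : Win n g' {j} a := fun k hk i hi => by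
  obtain rfl : i = j := hi
  rw [inv h hg k hj, hw k hk i rfl]

theorem neg_inv (h : I1 n) {T : Set S} {g g' : Artin M} (hg : g⁻¹ * g' ∈ apar M T) {a : ℤ}
    {θ : S → ℝ} {j : S} (hj : j ∉ T) (hw : Neg n a θ (g, j)) : Neg n a θ (g', j) :=
  ⟨win_inv h hg hj hw.1, (inv h hg a hj).trans_lt hw.2⟩

theorem np_inv (h : I1 n) {T : Set S} {g g' : Artin M} (hg : g⁻¹ * g' ∈ apar M T) {a : ℤ}
    {θ : S → ℝ} {j : S} (hj : j ∉ T) (hw : Np n a θ (g, j)) : Np n a θ (g', j) :=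
  ⟨win_inv h hg hj hw.1, (inv h hg a hj).trans_le hw.2⟩

theorem rel_symm {H : Subgroup (Artin M)} {a b : Artin M} (h : a⁻¹ * b ∈ H) : b⁻¹ * a ∈ H := by
  simpa using H.inv_mem h

theorem rel_trans {H : Subgroup (Artin M)} {a b c : Artin M} (h : a⁻¹ * b ∈ H) (h' : b⁻¹ * c ∈ H) :
    a⁻¹ * c ∈ H := by
  simpa [mul_assoc] using H.mul_mem h h'

theorem rel_refl (H : Subgroup (Artin M)) (a : Artin M) : a⁻¹ * a ∈ H := by simp

theorem near_refl (T : Set S) (x : Artin M × S) : Near M T x x := ⟨x.1, rel_refl _ _, rel_refl _ _⟩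

theorem near_mono {T T' : Set S} (h : T ⊆ T') {x y : Artin M × S} (hn : Near M T x y) :
    Near M T' x y :=
  have ⟨c, h1, h2⟩ := hn
  ⟨c, apar_mono (Set.sdiff_subset_sdiff_left h) h1, apar_mono (Set.sdiff_subset_sdiff_left h) h2⟩

theorem conn_mono {T T' : Set S} (h : T ⊆ T') {P : Artin M × S → Prop} {x y : Artin M × S}
    (hc : Conn M T P x y) : Conn M T' P x y := by
  induction hc with
  | refl => exact ReflTransGen.refl
  | tail _ h' ih => exact ih.tail ⟨h h'.1, h'.2.1, near_mono h h'.2.2⟩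

theorem conn_vx {T : Set S} {P : Artin M × S → Prop} {g : Artin M} {x y : Artin M × S}
    (hc : Conn M T P x y) (hx : Vx M T g x) (hp : P x) : Vx M T g y ∧ P y := by
  induction hc with
  | refl => exact ⟨hx, hp⟩
  | tail _ h ih =>
    obtain ⟨h1, h2, c, h3, h4⟩ := h
    exact ⟨⟨h1, rel_trans ih.1.2 (rel_trans (apar_mono Set.sdiff_subset h3)
      (rel_symm (apar_mono Set.sdiff_subset h4)))⟩, h2⟩

theorem cl_mono {T T' : Set S} (h : T ⊆ T') : Cl M T ⊆ Cl M T' :=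
  fun _ ⟨s, hs, h'⟩ => ⟨s, h hs, h'⟩

/-- feasibility for a smaller set, at another chamber -/
theorem fe_of (h : I1 n) {T T' : Set S} (hT : T' ⊆ T) {g g' : Artin M} {a : ℤ} {θ : S → ℝ}
    (hf : Fe n T g a θ) (hg : g⁻¹ * g' ∈ apar M T)
    (ht : ∀ j ∈ Cl M T', j ∈ T → j ∉ T' → Win n g' {j} a ∧ θ j = n g' a j) : Fe n T' g' a θ := by
  refine ⟨fun k hk j hj => ?_, fun j hj => ?_, fun s hs => hf.2.2 s (hT hs)⟩
  · by_cases hj' : j ∈ T
    · exact (ht j hj.1 hj' hj.2).1 k hk j rfl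
    · rw [inv h hg k hj', hf.1 k hk j ⟨cl_mono hT hj.1, hj'⟩]
  · by_cases hj' : j ∈ T
    · exact (ht j hj.1 hj' hj.2).2
    · rw [inv h hg a hj', hf.2.1 j ⟨cl_mono hT hj.1, hj'⟩]

theorem kc_two {s t : S} (h : M s t = 2) : kc M s t = 0 := by
  rw [kc, h]
  exact_mod_cast Real.cos_pi_div_two

/-- the inequality in rank one -/
theorem rank_one (h : IF n) {s : S} {g0 g : Artin M} {a : ℤ} {θ : S → ℝ} (hf : Fe n {s} g0 a θ)
    (hg : g0⁻¹ * g ∈ apar M {s}) (hw : Win n g {s} a) (m : ℕ) :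
    2 * θ s ≤ n g a s + n (g * gen M s ^ (m + 1)) a s := by
  have hf' : Fe n {s} g a θ := fe_of h.i1 subset_rfl hf hg fun j _ h1 h2 => absurd h1 h2
  have hw' : Win n g (Cl M {s}) a := fun k hk j hj => by
    by_cases e : j = s
    · exact hw k hk j e
    · exact hf'.1 k hk j ⟨hj, e⟩
  have h1 : ∀ m, pos M (List.replicate m s) = gen M s ^ m := fun m => by simp [pos]
  induction m with
  | zero =>
    obtain ⟨-, f, h2, h3⟩ := h.i2 g s a hw'
    have h4 : bf M s (θ - n g a) = θ s - n g a s := by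
      show ∑ j, -kc M s j * (θ - n g a) j = _
      rw [Finset.sum_eq_single s (fun j _ hj => ?_) (by simp)]
      · simp
      · by_cases e : M s j = 2
        · rw [kc_two e, neg_zero, zero_mul]
        · rw [Pi.sub_apply, hf'.2.1 j ⟨⟨s, rfl, e⟩, hj⟩, sub_self, mul_zero]
    have h5 := hf.2.2 s rfl
    have h6 := congrFun h3 s
    rw [map_sub] at h4
    simp only [sref_apply, ee, Pi.add_apply, Pi.sub_apply, Pi.smul_apply, Pi.single_eq_same,
      smul_eq_mul, mul_one] at h6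
    rw [zero_add, pow_one]
    linarith
  | succ m ih =>
    have h2 := h.i3 {s} g a s (List.replicate m s) hw' rfl
      (fun c hc => List.eq_of_mem_replicate hc) s
    rw [← List.replicate_succ, ← List.replicate_succ, h1, h1] at h2
    linarith

theorem nz_one (h : IF n) (s : S) : NZ n {s} := by
  rintro g0 a θ ⟨x, i⟩ ⟨z, j⟩ hf hx hz hn hp
  obtain rfl : s = i := hx.1.symm
  obtain rfl : s = j := hz.1.symm
  have h1 := rel_trans (rel_symm hx.2) hz.2
  rw [apar, Set.image_singleton, Subgroup.mem_closure_singleton] at h1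
  obtain ⟨k, hk⟩ := h1
  have h2 : n x a s < θ s := hn.2
  have h3 : n z a s ≤ θ s := hp.2
  rcases k with (_ | m) | m
  · obtain rfl : x = z := by simpa [eq_inv_mul_iff_mul_eq] using hk
    exact ⟨_, ReflTransGen.refl, rfl, hn, near_refl _ _⟩
  · have h4 := rank_one h hf hx.2 hn.1 m
    rw [Int.ofNat_eq_natCast, zpow_natCast] at hk
    simp only at h4 hk
    rw [hk, mul_inv_cancel_left] at h4
    linarith
  · have h4 := rank_one h hf hz.2 hp.1 m
    rw [zpow_negSucc, inv_eq_iff_eq_inv, mul_inv_rev, inv_inv] at hk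
    simp only at h4 hk
    rw [hk, mul_inv_cancel_left] at h4
    linarith

theorem comm {T1 T2 : Set S} (h : ∀ s ∈ T1, ∀ t ∈ T2, M s t = 2) {g1 g2 : Artin M}
    (h1 : g1 ∈ apar M T1) (h2 : g2 ∈ apar M T2) : Commute g1 g2 := by
  have h3 : ∀ t ∈ T2, Commute g1 (gen M t) := fun t ht => by
    have h4 : ∀ s ∈ T1, Commute (gen M s) (gen M t) := fun s hs => by
      have := brOn_gen (M := M) s trivial t trivial
      rw [h s hs t ht] at this
      simpa [alt, commute_iff_eq] using this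
    exact apar_induction (P := fun u => Commute u (gen M t)) h1 (Commute.one_left _)
      (fun u _ i hi e => e.mul_left (h4 i hi)) fun u _ i hi e => e.mul_left (h4 i hi).inv_left
  exact apar_induction (P := fun u => Commute g1 u) h2 (Commute.one_right _)
    (fun u _ i hi e => e.mul_right (h3 i hi)) fun u _ i hi e => e.mul_right (h3 i hi).inv_right

theorem decomp {T1 T2 : Set S} (h : ∀ s ∈ T1, ∀ t ∈ T2, M s t = 2) {g : Artin M}
    (hg : g ∈ apar M (T1 ∪ T2)) : ∃ g1 ∈ apar M T1, ∃ g2 ∈ apar M T2, g = g1 * g2 := by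
  have key : ∀ u v : Artin M, v ∈ apar M T1 ∨ v ∈ apar M T2 →
      (∃ g1 ∈ apar M T1, ∃ g2 ∈ apar M T2, u = g1 * g2) →
      ∃ g1 ∈ apar M T1, ∃ g2 ∈ apar M T2, u * v = g1 * g2 := by
    rintro _ v (hv | hv) ⟨g1, h1, g2, h2, rfl⟩
    · exact ⟨g1 * v, mul_mem h1 hv, g2, h2, by rw [mul_assoc, mul_assoc, (comm h hv h2).eq]⟩
    · exact ⟨g1, h1, g2 * v, mul_mem h2 hv, mul_assoc _ _ _⟩
  exact apar_induction (P := fun u => ∃ g1 ∈ apar M T1, ∃ g2 ∈ apar M T2, u = g1 * g2) hg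
    ⟨1, one_mem _, 1, one_mem _, (mul_one _).symm⟩
    (fun u _ i hi => key u _ (hi.imp gen_mem_apar gen_mem_apar))
    fun u _ i hi => key u _ (hi.imp (fun e => inv_mem (gen_mem_apar e))
      fun e => inv_mem (gen_mem_apar e))

theorem nz_split (h : IF n) {T T1 T2 : Set S} (hd : Disjoint T1 T2) (hu : T1 ∪ T2 = T)
    (hc : ∀ s ∈ T1, ∀ t ∈ T2, M s t = 2) (h1 : NZ n T1) {g0 : Artin M} {a : ℤ} {θ : S → ℝ}
    {x z : Artin M × S} (hf : Fe n T g0 a θ) (hx : Vx M T g0 x) (hz : Vx M T g0 z)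
    (hn : Neg n a θ x) (hp : Np n a θ z) (hx1 : x.2 ∈ T1) :
    ∃ y, Conn M T (Neg n a θ) x y ∧ y.2 ∈ T ∧ Neg n a θ y ∧ Near M T y z := by
  subst hu
  obtain ⟨g1, hg1, g2, hg2, e⟩ := decomp hc (rel_trans (rel_symm hx.2) hz.2)
  have e' : z.1 = x.1 * (g1 * g2) := by rw [← e, mul_inv_cancel_left]
  have s2 : ∀ i ∈ T1, T2 ⊆ (T1 ∪ T2) \ {i} := fun i hi t ht =>
    ⟨Or.inr ht, fun e => Set.disjoint_left.mp hd hi (e ▸ ht)⟩
  rcases hz.1 with hz1 | hz2
  · have h2 : (x.1 * g1)⁻¹ * z.1 ∈ apar M T2 := by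
      rwa [e', ← mul_assoc x.1, inv_mul_cancel_left]
    obtain ⟨y, h3, h4, h5, d, h6, h7⟩ := h1 x.1 a θ x (x.1 * g1, z.2)
      (fe_of h.i1 Set.subset_union_left hf hx.2 fun j ⟨s, hs, hj⟩ h3 h4 =>
        absurd (hc s hs j (h3.resolve_left h4)) hj)
      ⟨hx1, rel_refl _ _⟩ ⟨hz1, by rwa [inv_mul_cancel_left]⟩ hn
      (np_inv h.i1 (rel_symm h2) (Set.disjoint_left.mp hd hz1) hp)
    exact ⟨y, conn_mono Set.subset_union_left h3, Or.inl h4, h5, d,
      apar_mono (Set.sdiff_subset_sdiff_left Set.subset_union_left) h6,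
      rel_trans (apar_mono (s2 _ hz1) (rel_symm h2))
        (apar_mono (Set.sdiff_subset_sdiff_left Set.subset_union_left) h7)⟩
  · refine ⟨x, ReflTransGen.refl, hx.1, hn, x.1 * g2, ?_, ?_⟩
    · rw [inv_mul_cancel_left]
      exact apar_mono (s2 _ hx1) hg2
    · refine rel_symm ?_
      rw [e', (comm hc hg1 hg2).eq, ← mul_assoc x.1, inv_mul_cancel_left]
      exact apar_mono (T' := (T1 ∪ T2) \ {z.2})
        (fun t ht => ⟨Or.inl ht, fun e => Set.disjoint_left.mp hd ht (e ▸ hz2)⟩) hg1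

end Plat

open Plat

theorem st_PLAT : St_PLAT := by
  intro S _ _ M n T h hT g0 a θ x z hf hx hn hc
  induction hc with
  | refl => exact ⟨x, ReflTransGen.refl, hx.1, hn, near_refl _ _⟩
  | @tail z z' hc hs ih =>
    obtain ⟨y, h1, h2, h3, h4⟩ := ih
    obtain ⟨hz, hp⟩ := conn_vx hc hx ⟨hn.1, hn.2.le⟩
    obtain ⟨h5, h6, h7⟩ := hs
    by_cases h8 : Neg n a θ z
    · exact ⟨z, h1.tail ⟨hz.1, h8, h4⟩, hz.1, h8, h7⟩
    obtain ⟨c, h9, h10⟩ := h4
    obtain ⟨c', h11, h12⟩ := h7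
    have h13 : Neg n a θ (c, y.2) := neg_inv h.i1 h9 (fun e => e.2 rfl) h3
    have h14 : y.2 ≠ z.2 := fun e =>
      h8 (neg_inv h.i1 (rel_symm h10) (fun e => e.2 rfl) (e ▸ h13))
    by_cases h15 : z'.2 = z.2
    · exact ⟨y, h1, h2, h3, c, h9, rel_trans h12 (h15 ▸ rel_trans (rel_symm h11) h10)⟩
    obtain ⟨y', h16, h17, h18, d, h19, h20⟩ := hT z.2 hz.1 z.1 a θ (c, y.2) (c', z'.2)
      (fe_of h.i1 Set.sdiff_subset hf hz.2 fun j _ e1 e2 => by
        obtain rfl : j = z.2 := by_contra fun e => e2 ⟨e1, e⟩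
        exact ⟨hp.1, le_antisymm (not_lt.mp fun e => h8 ⟨hp.1, e⟩) hp.2⟩)
      ⟨⟨h2, h14⟩, h10⟩ ⟨⟨h5, h15⟩, h11⟩ h13 (np_inv h.i1 h12 (fun e => e.2 rfl) h6)
    exact ⟨y', (h1.tail (c := (c, y.2)) ⟨h2, h13, c, h9, rel_refl _ _⟩).trans
      (conn_mono Set.sdiff_subset h16), h17.1, h18, d,
      apar_mono (Set.sdiff_subset_sdiff_left Set.sdiff_subset) h19,
      rel_trans h12 (apar_mono (Set.sdiff_subset_sdiff_left Set.sdiff_subset) h20)⟩

theorem st_SMALL : St_SMALL := by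
  intro S _ _ M n h
  refine ⟨nz_one h, fun T T1 T2 ⟨_, _, hd, hu, hc⟩ h1 h2 g0 a θ x z hf hx hz hn hp => ?_⟩
  rcases (hu ▸ hx.1 : x.2 ∈ T1 ∪ T2) with e | e
  · exact nz_split h hd hu hc h1 hf hx hz hn hp e
  · exact nz_split h hd.symm ((Set.union_comm _ _).trans hu)
      (fun s hs t ht => (M.symmetric s t).trans (hc t ht s hs)) h2 hf hx hz hn hp e

end Pool.Agent.WP34
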