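import Pool.Agent.Lib.WP34.Blue

/-! The spherical case: a negative vertex is connected to every nonpositive vertex. -/

set_option linter.unusedSectionVars false

namespace Pool.Agent.WP34

open Pool.Agent.H51 Relation CoxeterSystem

namespace SPH

variable {S : Type} [Fintype S] [DecidableEq S] {M : CoxeterMatrix S}

theorem sub_Cl {T : Set S} {s : S} (hs : s ∈ T) : s ∈ Cl M T := ⟨s, hs, by simp⟩

theorem Cl_mono {T T' : Set S} (h : T ⊆ T') : Cl M T ⊆ Cl M T' :=
  fun _ ⟨s, hs, e⟩ => ⟨s, h hs, e⟩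

theorem two_of_kc {s t : S} (hst : s ≠ t) (h : kc M s t = 0) : M s t = 2 := by
  by_contra h2
  have := kc_ge_half (M := M) (i := s) (j := t) (by have := M.off_diagonal s t hst; omega)
  linarith

theorem kc_two {s t : S} (h : M s t = 2) : kc M s t = 0 := by simp [kc, h]

theorem rho_inv_rho (u : M.Group) (v : S → ℝ) : rho (cx M) u⁻¹ (rho (cx M) u v) = v := by
  rw [← Module.End.mul_apply, ← map_mul]; simp

theorem rho_mul_simple (u : M.Group) (r : S) (v : S → ℝ) :
    rho (cx M) (u * (cx M).simple r) v = rho (cx M) u (sref M r v) := by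
  rw [map_mul, Module.End.mul_apply, rho_simple]

theorem sref_sref (r : S) (v : S → ℝ) : sref M r (sref M r v) = v := by
  rw [← Module.End.mul_apply, sref_sq]; rfl

/-- the positive lift of an element of the Coxeter group -/
noncomputable def lift (u : M.Group) : Artin M := pos M ((cx M).exists_isReduced u).choose

theorem lift_word {l : List S} (h : (cx M).IsReduced l) : lift ((cx M).wordProd l) = pos M l := by
  obtain ⟨h1, h2⟩ := ((cx M).exists_isReduced ((cx M).wordProd l)).choose_spec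
  exact (matsumoto _ h1 h h2.symm).pos_eq

theorem lift_one : lift (1 : M.Group) = 1 := by
  simpa using lift_word (M := M) (l := []) (by simp [CoxeterSystem.IsReduced])

theorem lift_mul {u : M.Group} {r : S} (h : ¬ (cx M).IsRightDescent u r) :
    lift (u * (cx M).simple r) = lift u * gen M r := by
  obtain ⟨l, hl, rfl⟩ := (cx M).exists_isReduced u
  have h1 := (cx M).not_isRightDescent_iff.1 h
  have h2 : (cx M).IsReduced (l ++ [r]) := red_append _ (by simp [h1, hl.eq])
  have := lift_word h2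
  rw [wordProd_append, wordProd_singleton, pos_append, pos_singleton] at this
  rw [this, lift_word hl]

theorem lift_par {T : Set S} {u : M.Group} (hu : u ∈ par (cx M) T) :
    ∃ l, Ov T l ∧ lift u = pos M l := by
  obtain ⟨l, h1, h2, rfl⟩ := exists_red_par _ hu
  exact ⟨l, h1, lift_word h2⟩

theorem lift_step (u : M.Group) (r : S) :
    (lift (u * (cx M).simple r))⁻¹ * lift u = gen M r ∨
      (lift (u * (cx M).simple r))⁻¹ * lift u = (gen M r)⁻¹ := by
  by_cases h : (cx M).IsRightDescent u r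
  · left
    have := lift_mul ((cx M).isRightDescent_iff_not_isRightDescent_mul.1 h)
    rw [(cx M).simple_mul_simple_cancel_right] at this
    rw [this]; group
  · right
    rw [lift_mul h]; group

/-- a non reduced word contains a square in front of a reduced suffix -/
theorem decomp {T : Set S} {h : List S} (ho : Ov T h) (hr : ¬ (cx M).IsReduced h) :
    ∃ h0 s w, Ov T h0 ∧ s ∈ T ∧ Ov T w ∧ (cx M).IsReduced (s :: w) ∧
      BE M h (h0 ++ s :: s :: w) := by
  induction h with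
  | nil => exact absurd (by simp [CoxeterSystem.IsReduced]) hr
  | cons a h ih =>
    obtain ⟨ha, ho'⟩ := ov_cons.1 ho
    by_cases h1 : (cx M).IsReduced h
    · have hd : (cx M).IsLeftDescent ((cx M).wordProd h) a := by
        by_contra hd
        apply hr
        have := (cx M).not_isLeftDescent_iff.1 hd
        unfold CoxeterSystem.IsReduced
        rw [wordProd_cons, this, h1.eq, List.length_cons]
      obtain ⟨w, hw, e⟩ := (cx M).exists_isReduced ((cx M).simple a * (cx M).wordProd h)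
      have e2 : (cx M).wordProd h = (cx M).wordProd (a :: w) := by
        rw [wordProd_cons, ← e, (cx M).simple_mul_simple_cancel_left]
      have r2 : (cx M).IsReduced (a :: w) := by
        have := (cx M).isLeftDescent_iff.1 hd
        unfold CoxeterSystem.IsReduced
        rw [← e2, ← this, e, hw.eq, List.length_cons]
      have b := matsumoto _ h1 r2 e2
      exact ⟨[], a, w, Ov.nil, ha, (ov_cons.1 (ho'.be b.symm)).2, r2, b.cons a⟩
    · obtain ⟨h0, s, w, a1, a2, a3, a4, a5⟩ := ih ho' h1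
      exact ⟨a :: h0, s, w, ov_cons.2 ⟨ha, a1⟩, a2, a3, a4, a5.cons a⟩

theorem near_symm {T : Set S} {x y : Artin M × S} (h : Near M T x y) : Near M T y x :=
  let ⟨c, h1, h2⟩ := h; ⟨c, h2, h1⟩

theorem conn_symm {T : Set S} {P : Artin M × S → Prop} {x y : Artin M × S} (h : Conn M T P x y)
    (hx : x.2 ∈ T) (hP : P x) : Conn M T P y x := by
  have : (y.2 ∈ T ∧ P y) ∧ Conn M T P y x := by
    induction h with
    | refl => exact ⟨⟨hx, hP⟩, ReflTransGen.refl⟩
    | tail _ h2 ih =>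
      exact ⟨⟨h2.1, h2.2.1⟩, ReflTransGen.head ⟨ih.1.1, ih.1.2, near_symm h2.2.2⟩ ih.2⟩
  exact this.2

/-- a linear functional is determined on vectors supported on `T` by its values on `T` -/
theorem func_ext {T : Set S} (φ ψ : (S → ℝ) →ₗ[ℝ] ℝ) (h : ∀ t ∈ T, φ (ee t) = ψ (ee t))
    {z : S → ℝ} (hz : ∀ j, j ∉ T → z j = 0) : φ z = ψ z := by
  rw [pi_eq_sum_univ' z, map_sum, map_sum]
  refine Finset.sum_congr rfl fun j _ => ?_
  by_cases hj : j ∈ T
  · rw [map_smul, map_smul]; exact congrArg _ (h j hj)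
  · simp [hz j hj]

/-- opposite vertices that differ by a simple reflection -/
theorem anti_form {T : Set S} {W : M.Group} (hW : W ∈ par (cx M) T) {s i : S} (hs : s ∈ T)
    (hi : i ∈ T) (h : Anti M T ((cx M).simple s * W, i) (W, i)) :
    ∃ κ : ℝ, κ ≠ 0 ∧ ∀ z : S → ℝ, (∀ j, j ∉ T → z j = 0) →
      rho (cx M) W⁻¹ z i = κ * bf M s z ∧
        rho (cx M) ((cx M).simple s * W)⁻¹ z i = -κ * bf M s z := by
  obtain ⟨τ, hτ, h⟩ := h
  let φ : (S → ℝ) →ₗ[ℝ] ℝ := (LinearMap.proj i).comp (rho (cx M) W⁻¹)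
  have hφ : ∀ z, φ z = rho (cx M) W⁻¹ z i := fun _ => rfl
  have hψ : ∀ z, rho (cx M) ((cx M).simple s * W)⁻¹ z i = φ z - 2 * bf M s z * φ (ee s) := by
    intro z
    rw [mul_inv_rev, (cx M).inv_simple, rho_mul_simple, ← hφ, sref_apply, map_sub, map_smul,
      smul_eq_mul]
  have h1 : ∀ t ∈ T, (1 + τ) * φ (ee t) = 2 * bf M s (ee t) * φ (ee s) := by
    intro t ht
    have := h t ht
    simp only at this
    rw [hψ, ← hφ] at this
    linarith
  have h2 : φ (ee s) ≠ 0 := by
    intro h0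
    have := func_ext (T := T) φ 0 (fun t ht => by
      have := h1 t ht
      rw [h0, mul_zero] at this
      simpa using (mul_eq_zero.1 this).resolve_left (by linarith)) (root_supp (cx M) hW hi)
    rw [hφ, rho_inv_rho] at this
    simp [ee] at this
  have h3 : τ = 1 := by
    have := h1 s hs
    rw [bf_ee, kc_self] at this
    have := mul_right_cancel₀ h2 this
    linarith
  have h4 : ∀ z : S → ℝ, (∀ j, j ∉ T → z j = 0) → φ z = φ (ee s) * bf M s z := by
    intro z hz
    have := func_ext (T := T) φ (φ (ee s) • bf M s) (fun t ht => by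
      have := h1 t ht
      rw [h3] at this
      simp only [LinearMap.smul_apply, smul_eq_mul]
      linarith) hz
    simpa using this
  refine ⟨φ (ee s), h2, fun z hz => ⟨h4 z hz, ?_⟩⟩
  rw [hψ, h4 z hz]; ring

theorem all_reached {T : Set S} (hns : ¬ ∃ T1 T2, Split M T T1 T2) {s : S} (hs : s ∈ T) {r : S}
    (hr : r ∈ T) : ∃ v ∈ par (cx M) T, bf M s (rho (cx M) v (ee r)) ≠ 0 := by
  by_contra hc
  apply hns
  refine ⟨{t ∈ T | ∃ v ∈ par (cx M) T, bf M s (rho (cx M) v (ee t)) ≠ 0},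
    {t ∈ T | ¬ ∃ v ∈ par (cx M) T, bf M s (rho (cx M) v (ee t)) ≠ 0},
    ⟨s, hs, 1, one_mem _, by simp⟩, ⟨r, hr, hc⟩, Set.disjoint_left.2 fun t h1 h2 => h2.2 h1.2,
    Set.ext fun t => ⟨fun h => h.elim And.left And.left, fun h => (em _).imp (⟨h, ·⟩) (⟨h, ·⟩)⟩, ?_⟩
  rintro p ⟨hp, v, hv, h1⟩ t ⟨ht, h2⟩
  push Not at h2
  have hne : p ≠ t := by rintro rfl; exact h1 (h2 v hv)
  apply two_of_kc hne
  have h3 := h2 _ (mul_mem hv (simple_mem_par _ hp))
  rw [rho_mul_simple, sref_ee, map_add, map_smul, map_add, map_smul, h2 v hv, zero_add,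
    smul_eq_mul] at h3
  have := (mul_eq_zero.1 h3).resolve_right h1
  linarith

theorem rho_fix {T : Set S} {v : S → ℝ} (h : ∀ r ∈ T, bf M r v = 0) {u : M.Group}
    (hu : u ∈ par (cx M) T) : rho (cx M) u v = v := by
  refine par_induction (cx M) (P := fun u => rho (cx M) u v = v) hu (by simp) ?_
  intro w _ r hr ih
  rw [rho_mul_simple, sref_apply, h r hr]
  simpa using ih

variable {n : Artin M → ℤ → S → ℝ}

theorem n_apar (H : IF n) {T : Set S} {k : Artin M} (hk : k ∈ apar M T) (g : Artin M) (m : ℤ)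
    {j : S} (hj : j ∉ T) : n (g * k) m j = n g m j := by
  refine apar_induction (P := fun k => n (g * k) m j = n g m j) hk (by simp) ?_ ?_
  · intro k _ i hi ih
    rw [← mul_assoc, H.i1 _ i m j (fun e => hj (e ▸ hi)), ih]
  · intro k _ i hi ih
    rw [← ih, ← H.i1 (g * (k * (gen M i)⁻¹)) i m j (fun e => hj (e ▸ hi))]
    congr 1; group

variable (n) in
/-- chambers in the window -/
def Gd (T : Set S) (a : ℤ) (th : S → ℝ) (g : Artin M) : Prop :=
  Win n g (Cl M T) a ∧ ∀ j, j ∉ T → n g a j = th j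

variable {T : Set S} {a : ℤ} {th : S → ℝ} {g : Artin M}

theorem Gd.gen (H : IF n) (hg : Gd n T a th g) {s : S} (hs : s ∈ T) :
    Gd n T a th (g * gen M s) := by
  refine ⟨fun k hk j hj => ?_, fun j hj => ?_⟩
  · by_cases e : j = s
    · subst e
      exact (H.i2 g j a fun k hk i hi =>
        hg.1 k hk i (Cl_mono (Set.singleton_subset_iff.2 hs) hi)).1 k hk j rfl
    · rw [H.i1 _ _ _ _ e, hg.1 k hk j hj]
  · rw [H.i1 _ s a j (fun e => hj (e ▸ hs)), hg.2 j hj]

theorem Gd.pos (H : IF n) (hg : Gd n T a th g) {l : List S} (hl : Ov T l) :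
    Gd n T a th (g * pos M l) := by
  induction l generalizing g with
  | nil => simpa using hg
  | cons s l ih =>
    rw [pos_cons, ← mul_assoc]
    exact ih (hg.gen H (ov_cons.1 hl).1) (ov_cons.1 hl).2

theorem Gd.lift (H : IF n) (hg : Gd n T a th g) {u : M.Group} (hu : u ∈ par (cx M) T) :
    Gd n T a th (g * lift u) := by
  obtain ⟨l, h1, h2⟩ := lift_par hu
  rw [h2]; exact hg.pos H h1

theorem Gd.np (hg : Gd n T a th g) {i : S} (hi : i ∈ T) (h : n g a i ≤ th i) :
    Np n a th (g, i) :=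
  ⟨fun k hk j hj => hg.1 k hk j (by rw [Set.mem_singleton_iff.1 hj]; exact sub_Cl hi), h⟩

variable (n a th g) in
/-- the vectors attached to the chambers of the apartment based at `g` -/
noncomputable def yy (u : M.Group) : S → ℝ := rho (cx M) u (n (g * lift u) a - th)

theorem val_yy (c : M.Group × S) :
    val M (yy n a th g) c = n (g * lift c.1) a c.2 - th c.2 := by
  rw [val, yy, rho_inv_rho]; rfl

theorem Gd.yy_off (H : IF n) (hg : Gd n T a th g) {u : M.Group} (hu : u ∈ par (cx M) T) (j : S)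
    (hj : j ∉ T) : yy n a th g u j = 0 := by
  rw [yy, rho_supp _ hu _ j hj, Pi.sub_apply, (hg.lift H hu).2 j hj, sub_self]

theorem Gd.yy_step (H : IF n) (hg : Gd n T a th g) {u : M.Group} (hu : u ∈ par (cx M) T) {r : S}
    (hr : r ∈ T) : ∃ c : ℝ, -(2 * bf M r th) ≤ c ∧
      yy n a th g u - yy n a th g (u * (cx M).simple r) = c • rho (cx M) u (ee r) := by
  have key : ∀ u ∈ par (cx M) T, ¬ (cx M).IsRightDescent u r → ∃ c : ℝ, -(2 * bf M r th) ≤ c ∧
      yy n a th g u - yy n a th g (u * (cx M).simple r) = c • rho (cx M) u (ee r) := by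
    intro u hu hd
    obtain ⟨-, f, hf, e⟩ := H.i2 (g * SPH.lift u) r a fun k hk i hi =>
      (hg.lift H hu).1 k hk i (Cl_mono (Set.singleton_subset_iff.2 hr) hi)
    refine ⟨f - 2 * bf M r th, by linarith, ?_⟩
    rw [yy, yy, lift_mul hd, ← mul_assoc, e, rho_mul_simple, ← map_sub, ← map_smul]
    congr 1
    rw [map_sub, map_add, sref_sref, map_smul, sref_ee_self, sref_apply]
    module
  by_cases hd : (cx M).IsRightDescent u r
  · obtain ⟨c, h1, h2⟩ := key _ (mul_mem hu (simple_mem_par _ hr))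
      ((cx M).isRightDescent_iff_not_isRightDescent_mul.1 hd)
    refine ⟨c, h1, ?_⟩
    rw [(cx M).simple_mul_simple_cancel_right, rho_mul_simple, sref_ee_self, map_neg] at h2
    rw [← neg_sub, h2]; simp
  · exact key u hu hd

theorem Gd.seg (hS : St_SEG) (H : IF n) (hT : Sph M T) (hth : ∀ s ∈ T, bf M s th ≤ 0)
    (hg : Gd n T a th g) :
    (∀ u ∈ par (cx M) T, ∀ v ∈ par (cx M) T, ∀ j ∈ T,
      rho (cx M) u⁻¹ (yy n a th g v) j ≤ n (g * SPH.lift u) a j - th j) ∧
    ∀ b c : M.Group × S, b.1 ∈ par (cx M) T → b.2 ∈ T → c.1 ∈ par (cx M) T → c.2 ∈ T →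
      n (g * SPH.lift b.1) a b.2 ≤ th b.2 → n (g * SPH.lift c.1) a c.2 ≤ th c.2 →
      n (g * SPH.lift c.1) a c.2 < th c.2 ∨ ¬ Anti M T b c →
      Conn M T (Np n a th) (g * SPH.lift b.1, b.2) (g * SPH.lift c.1, c.2) := by
  obtain ⟨h1, h2⟩ := hS M T (yy n a th g) hT (fun u hu => hg.yy_off H hu) fun u hu r hr => by
    obtain ⟨c, h1, h2⟩ := hg.yy_step H hu hr
    exact ⟨c, by linarith [hth r hr], h2⟩
  refine ⟨fun u hu v hv j hj => by simpa only [val_yy] using h1 u hu v hv j hj, ?_⟩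
  intro b c b1 b2 c1 c2 hb hc hbc
  have := h2 b c b1 b2 c1 c2 (by rw [val_yy]; linarith) (by rw [val_yy]; linarith)
    (by rw [val_yy]; exact hbc.imp_left fun h => by linarith)
  refine ReflTransGen.lift (fun c : M.Group × S => (g * SPH.lift c.1, c.2)) ?_ _ _ this
  rintro ⟨u, i⟩ ⟨v, j⟩ ⟨a1, a2, a3, a4⟩
  simp only [val_yy] at a1 a2 a3 a4
  refine ⟨a2, (hg.lift H a1).np a2 (by linarith), g * SPH.lift u, by simp, ?_⟩
  rcases a4 with rfl | ⟨rfl, r, hr, hne, rfl⟩
  · simp
  · have hm : H51.gen M r ∈ apar M (T \ {j}) := gen_mem_apar ⟨hr, hne⟩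
    simp only [mul_inv_rev, mul_assoc, inv_mul_cancel_left]
    rcases lift_step u r with e | e <;> rw [e]
    exacts [hm, inv_mem hm]

/-- the antipodal case -/
theorem Gd.antipodal (hS : St_SEG) (H : IF n) (hT : Sph M T) (hth : ∀ s ∈ T, bf M s th ≤ 0)
    (hnt : T.Nontrivial) (hns : ¬ ∃ T1 T2, Split M T T1 T2) (hg : Gd n T a th g) {s i : S}
    {w : List S} (hs : s ∈ T) (hi : i ∈ T) (hw : Ov T w) (hr : (cx M).IsReduced (s :: w))
    (h1 : n (g * H51.pos M (s :: w)) a i ≤ th i) (h2 : n (g * H51.pos M w) a i ≤ th i)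
    (hA : Anti M T ((cx M).wordProd (s :: w), i) ((cx M).wordProd w, i))
    (hpos : ∀ u ∈ par (cx M) T, ∀ j ∈ T, th j ≤ n (g * SPH.lift u) a j) :
    n g a s ≤ th s ∧ ¬ Anti M T ((cx M).wordProd (s :: w), i) (1, s) := by
  have hr' := (red_cons _ hr).1
  have hw' : Ov T (s :: w) := ov_cons.2 ⟨hs, hw⟩
  have m1 := wordProd_mem_par (cx M) hw
  have m2 := wordProd_mem_par (cx M) hw'
  obtain ⟨κ, hκ, hf⟩ := anti_form m1 hs hi (by rwa [wordProd_cons] at hA)
  rw [← wordProd_cons] at hf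
  have zero : ∀ z : S → ℝ, (∀ j, j ∉ T → z j = 0) → rho (cx M) ((cx M).wordProd w)⁻¹ z i ≤ 0 →
      rho (cx M) ((cx M).wordProd (s :: w))⁻¹ z i ≤ 0 → bf M s z = 0 := by
    intro z hz a1 a2
    rw [(hf z hz).1] at a1
    rw [(hf z hz).2] at a2
    exact (mul_eq_zero.1 (show κ * bf M s z = 0 by linarith)).resolve_left hκ
  refine ⟨?_, ?_⟩
  swap
  · rintro ⟨τ, -, h⟩
    apply hns
    obtain ⟨t, ht, hts⟩ := hnt.exists_ne s
    refine ⟨{s}, T \ {s}, ⟨s, rfl⟩, ⟨t, ht, hts⟩, Set.disjoint_sdiff_right, by simp [hs], ?_⟩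
    rintro s' hs' r ⟨hr, hne⟩
    obtain rfl : s = s' := hs'.symm
    have hne' : r ≠ s := hne
    have e := h r hr
    simp only at e
    rw [(hf (ee r) fun j hj => Pi.single_eq_of_ne (fun e : j = r => hj (e ▸ hr)) _).2] at e
    rw [bf_ee] at e
    apply two_of_kc hne'.symm
    simpa [ee, hne'.symm, hκ] using e
  obtain ⟨cv, -⟩ := hg.seg hS H hT hth
  have hy : ∀ v ∈ par (cx M) T, bf M s (yy n a th g v) = 0 := fun v hv =>
    zero _ (hg.yy_off H hv) ((cv _ m1 v hv i hi).trans (by rw [lift_word hr']; linarith))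
      ((cv _ m2 v hv i hi).trans (by rw [lift_word hr]; linarith))
  have hb : ∀ r ∈ T, bf M r th = 0 := by
    intro r hr
    obtain ⟨v, hv, hne⟩ := all_reached hns hs hr
    obtain ⟨c, c1, c2⟩ := hg.yy_step H hv hr
    have := congrArg (bf M s) c2
    rw [map_sub, hy v hv, hy _ (mul_mem hv (simple_mem_par _ hr)), map_smul, smul_eq_mul,
      sub_self] at this
    have := (mul_eq_zero.1 this.symm).resolve_right hne
    linarith [hth r hr]
  obtain ⟨δ, d1, d2, d3, -⟩ := hT.exists_del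
  have m3 := wordProd_mem_par (cx M) d1
  rcases H.i6 T g a δ s hg.1 d1 d2 hs with h | ⟨p, c, hc, p1, p2⟩
  · have := rho_nonpos_supp (cx M) d3 (v := n (g * H51.pos M δ) a - th) (fun j => by
      by_cases hj : j ∈ T
      · have := hpos _ m3 j hj
        rw [lift_word d2] at this
        simpa using this
      · simp [(hg.pos H d1).2 j hj]) (fun j hj => by simp [(hg.pos H d1).2 j hj]) s
    rw [map_sub, rho_fix hb m3, rho_wordProd, Pi.sub_apply, Pi.zero_apply] at this
    linarith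
  · exfalso
    have adm : ∀ p, Adm n T g a p → bf M s (p - th) = 0 := by
      intro p hp
      have b1 := hp.2 w hw hr' i
      have b2 := hp.2 _ hw' hr i
      rw [← rho_wordProd (cx M), wordProd_reverse] at b1 b2
      refine zero _ (fun j hj => by simp [hp.1 j hj, hg.2 j hj]) ?_ ?_
      · rw [map_sub, rho_fix hb (inv_mem m1), Pi.sub_apply]; linarith
      · rw [map_sub, rho_fix hb (inv_mem m2), Pi.sub_apply]; linarith
    have e1 := adm _ p1
    have e2 := adm _ p2
    rw [add_sub_right_comm, map_add, e1, map_smul, bf_ee, kc_self] at e2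
    simp at e2
    linarith

theorem Gd.shorter (H : IF n) (hg : Gd n T a th g) {h h0 w : List S} {s : S} (h1 : Ov T h0)
    (hs : s ∈ T) (hw : Ov T w) (e : BE M h (h0 ++ s :: s :: w)) :
    n (g * H51.pos M (h0 ++ s :: w)) a ≤ n (g * H51.pos M h) a := by
  rw [e.pos_eq, pos_append, pos_append, ← mul_assoc, ← mul_assoc]
  exact H.i3 T _ a s w (hg.pos H h1).1 hs hw

theorem Gd.exists_red (H : IF n) (hg : Gd n T a th g) {h : List S} (ho : Ov T h) :
    ∃ u, Ov T u ∧ (cx M).IsReduced u ∧ n (g * H51.pos M u) a ≤ n (g * H51.pos M h) a := by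
  induction hk : h.length using Nat.strong_induction_on generalizing h with
  | _ k ih =>
    by_cases hr : (cx M).IsReduced h
    · exact ⟨h, ho, hr, le_rfl⟩
    obtain ⟨h0, s, w, a1, a2, a3, -, a5⟩ := decomp ho hr
    have := a5.length_eq
    obtain ⟨u, b1, b2, b3⟩ := ih _ (by simp at this ⊢; omega) (h := h0 ++ s :: w)
      (ov_append.2 ⟨a1, ov_cons.2 ⟨a2, a3⟩⟩) rfl
    exact ⟨u, b1, b2, b3.trans (hg.shorter H a1 a2 a3 a5)⟩

theorem Gd.core (hS : St_SEG) (H : IF n) (hT : Sph M T) (hth : ∀ s ∈ T, bf M s th ≤ 0)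
    (hnt : T.Nontrivial) (hns : ¬ ∃ T1 T2, Split M T T1 T2) (hg : Gd n T a th g)
    {u0 : List S} {i0 : S} (o0 : Ov T u0) (r0 : (cx M).IsReduced u0) (hi0 : i0 ∈ T)
    (n0 : n (g * H51.pos M u0) a i0 < th i0) {h : List S} (ho : Ov T h) {i : S} (hi : i ∈ T)
    (hn : n (g * H51.pos M h) a i ≤ th i) :
    Conn M T (Np n a th) (g * H51.pos M h, i) (g * H51.pos M u0, i0) := by
  induction hk : h.length using Nat.strong_induction_on generalizing h i with
  | _ k ih =>
    by_cases hr : (cx M).IsReduced h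
    · have := (hg.seg hS H hT hth).2 ((cx M).wordProd h, i) ((cx M).wordProd u0, i0)
        (wordProd_mem_par _ ho) hi (wordProd_mem_par _ o0) hi0
      simp only [lift_word hr, lift_word r0] at this
      exact this hn n0.le (Or.inl n0)
    obtain ⟨h0, s, w, a1, a2, a3, a4, a5⟩ := decomp ho hr
    have hl := a5.length_eq
    have a4' := (red_cons _ a4).1
    have o1 : Ov T (h0 ++ [s]) := ov_append.2 ⟨a1, ov_cons.2 ⟨a2, Ov.nil⟩⟩
    have o2 : Ov T (s :: w) := ov_cons.2 ⟨a2, a3⟩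
    have hg' := hg.pos H o1
    have e1 : g * H51.pos M (h0 ++ [s]) * H51.pos M (s :: w) = g * H51.pos M h := by
      rw [a5.pos_eq, mul_assoc, ← pos_append]; simp
    have e2 : g * H51.pos M (h0 ++ [s]) * H51.pos M w = g * H51.pos M (h0 ++ s :: w) := by
      rw [mul_assoc, ← pos_append]; simp
    have hn2 := (hg.shorter H a1 a2 a3 a5 i).trans hn
    have c2 := ih _ (by simp at hl ⊢; omega) (ov_append.2 ⟨a1, o2⟩) hi hn2 rfl
    have sg := (hg'.seg hS H hT hth).2
    have m1 := wordProd_mem_par (cx M) a3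
    have m2 := wordProd_mem_par (cx M) o2
    have s1 := fun c => sg ((cx M).wordProd (s :: w), i) c m2 hi
    have s2 := fun c => sg ((cx M).wordProd w, i) c m1 hi
    simp only [lift_word a4, lift_word a4', e1, e2] at s1 s2
    by_cases hA : Anti M T ((cx M).wordProd (s :: w), i) ((cx M).wordProd w, i)
    swap
    · have := s1 ((cx M).wordProd w, i) m1 hi hn
      simp only [lift_word a4', e2] at this
      exact (this hn2 (Or.inr hA)).trans c2
    by_cases hneg : ∃ u ∈ par (cx M) T, ∃ j ∈ T,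
        n (g * H51.pos M (h0 ++ [s]) * SPH.lift u) a j < th j
    · obtain ⟨u, hu, j, hj, hlt⟩ := hneg
      exact ((s1 (u, j) hu hj hn hlt.le (Or.inl hlt)).trans
        (conn_symm (s2 (u, j) hu hj hn2 hlt.le (Or.inl hlt)) hi
          ((hg.pos H (ov_append.2 ⟨a1, o2⟩)).np hi hn2))).trans c2
    push Not at hneg
    obtain ⟨b1, b2⟩ := hg'.antipodal hS H hT hth hnt hns a2 hi a3 a4 (by rwa [e1]) (by rwa [e2])
      hA hneg
    have := s1 (1, s) (one_mem _) a2 hn
    simp only [lift_one, mul_one] at this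
    exact (this b1 (Or.inr b2)).trans (ih _ (by simp at hl ⊢; omega) o1 a2 b1 rfl)

end SPH

open SPH in
theorem st_SPH (h : St_SEG) : St_SPH := by
  classical
  intro S _ _ M n T H hT hD hnt hns g0 a θ x z hF hx hz nx nz
  obtain ⟨top, h1, h2, w0, o1, o2, m1, m2⟩ := hD g0 a x z hF.1 hx hz nx.1 nz.1
  have mt : g0⁻¹ * top ∈ apar M T := by
    have := mul_mem (mul_mem hx.2 (apar_mono Set.sdiff_subset m1)) (inv_mem (pos_mem_apar o1))
    simpa [mul_assoc] using this
  let th : S → ℝ := fun j => if j ∈ T then θ j else n top a j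
  have e : ∀ j ∈ T, th j = θ j := fun j hj => if_pos hj
  have hg : Gd n T a th top := ⟨w0, fun j hj => (if_neg hj).symm⟩
  have hth : ∀ s ∈ T, bf M s th ≤ 0 := by
    intro s hs
    refine le_of_eq_of_le (Finset.sum_congr rfl fun j _ => ?_) (hF.2.2 s hs)
    by_cases hj : j ∈ T
    · rw [e j hj]
    by_cases h2 : M s j = 2
    · simp [kc_two h2]
    · rw [hF.2.1 j ⟨⟨s, hs, h2⟩, hj⟩, ← hg.2 j hj, ← n_apar H mt g0 a hj, mul_inv_cancel_left]
  have v1 : n (top * pos M h1) a x.2 = n x.1 a x.2 := by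
    rw [← n_apar H m1 x.1 a (j := x.2) (by simp), mul_inv_cancel_left]
  have v2 : n (top * pos M h2) a z.2 = n z.1 a z.2 := by
    rw [← n_apar H m2 z.1 a (j := z.2) (by simp), mul_inv_cancel_left]
  have n1 : n (top * pos M h1) a x.2 < th x.2 := by rw [v1, e _ hx.1]; exact nx.2
  have n2 : n (top * pos M h2) a z.2 ≤ th z.2 := by rw [v2, e _ hz.1]; exact nz.2
  obtain ⟨u0, o0, r0, l0⟩ := hg.exists_red H o1
  have n0 := (l0 x.2).trans_lt n1
  have c1 := hg.core h H hT hth hnt hns o0 r0 hx.1 n0 o1 hx.1 n1.le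
  have c2 := conn_symm (hg.core h H hT hth hnt hns o0 r0 hx.1 n0 o2 hz.1 n2) hz.1
    ((hg.pos H o2).np hz.1 n2)
  have c3 : Conn M T (Np n a th) x (top * pos M h2, z.2) :=
    ReflTransGen.head (b := (top * pos M h1, x.2))
      ⟨hx.1, (hg.pos H o1).np hx.1 n1.le, _, m1, by simp⟩ (c1.trans c2)
  have c4 : Conn M T (Np n a th) x z :=
    c3.tail ⟨hz.1, ⟨nz.1, by rw [e _ hz.1]; exact nz.2⟩, _, by simp, m2⟩
  exact ReflTransGen.mono (fun u v ⟨a1, a2, a3⟩ => ⟨a1, ⟨a2.1, e _ a1 ▸ a2.2⟩, a3⟩) _ _ c4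

end Pool.Agent.WP34
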