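import Pool.Agent.Lib.WP34.Blue

/-! Block TRI: spherical, Perron-Frobenius or split. -/

set_option linter.unusedSectionVars false

namespace Pool.Agent.WP34

open Pool.Agent.H51

namespace Tri

variable {S : Type} [Fintype S] [DecidableEq S] (M : CoxeterMatrix S) {T : Set S}

theorem BB_add (u v x : S → ℝ) : BB M u (v + x) = BB M u v + BB M u x := by
  simp [BB, mul_add, Finset.sum_add_distrib]

theorem Q_add (v : S → ℝ) (s : S) (c : ℝ) :
    BB M (v + c • ee s) (v + c • ee s) = BB M v v + 2 * c * bf M s v + c ^ 2 := by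
  rw [BB_add, BB_smul, BB_symm _ v, BB_symm _ (ee s), BB_add, BB_add, BB_smul, BB_smul,
    BB_symm v (ee s), BB_ee, BB_ee, bf_ee, kc_self]
  ring

theorem ht_add (v : S → ℝ) (s : S) (c : ℝ) : ∑ i, (v + c • ee s) i = ∑ i, v i + c := by
  simp [ee, Finset.sum_add_distrib, Pi.single_apply]

theorem Q_le {v : S → ℝ} (hv : 0 ≤ v) : BB M v v ≤ (∑ i, v i) ^ 2 := by
  rw [sq, Finset.sum_mul_sum]
  refine Finset.sum_le_sum fun i _ => ?_
  change v i * ∑ j, -kc M i j * v j ≤ _
  rw [Finset.mul_sum]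
  refine Finset.sum_le_sum fun j _ => mul_le_mul_of_nonneg_left ?_ (hv i)
  have : -1 ≤ kc M i j := Real.neg_one_le_cos _
  nlinarith [show 0 ≤ v j from hv j]

theorem bf_le {v : S → ℝ} (hv : 0 ≤ v) {s : S} (hs : v s = 0) (t : S) :
    bf M s v ≤ -kc M s t * v t := by
  have h : ∀ j, 0 ≤ kc M s j * v j := fun j => by
    by_cases e : s = j
    · rw [← e, hs, mul_zero]
    · exact mul_nonneg (kc_nonneg e) (hv j)
  have := Finset.single_le_sum (fun j _ => h j) (Finset.mem_univ t)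
  change ∑ j, -kc M s j * v j ≤ _
  simp only [neg_mul, Finset.sum_neg_distrib]
  linarith

theorem exists_min (T : Set S) : ∃ m : ℝ,
    (∀ w : S → ℝ, 0 ≤ w → (∀ j, j ∉ T → w j = 0) → m * (∑ i, w i) ^ 2 ≤ BB M w w) ∧
    (0 < m ∨ ∃ v : S → ℝ, 0 ≤ v ∧ (∀ j, j ∉ T → v j = 0) ∧ ∑ i, v i = 1 ∧ BB M v v = m) := by
  rcases T.eq_empty_or_nonempty with rfl | ⟨s, hs⟩
  · refine ⟨1, fun w _ h => ?_, Or.inl one_pos⟩
    obtain rfl : w = 0 := funext fun j => h j (by simp)
    simp [BB]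
  have hc : IsCompact (stdSimplex ℝ S ∩ {w | ∀ j, j ∉ T → w j = 0}) := by
    refine (isCompact_stdSimplex ℝ S).inter_right ?_
    simp only [Set.ofPred_forall]
    exact isClosed_iInter fun j => isClosed_iInter fun _ =>
      isClosed_eq (continuous_apply j) continuous_const
  have hcont : Continuous fun w : S → ℝ => BB M w w := by
    change Continuous fun w : S → ℝ => ∑ i, w i * ∑ j, -kc M i j * w j
    fun_prop
  obtain ⟨v, ⟨⟨h1, h2⟩, h3⟩, h4⟩ := hc.exists_isMinOn ⟨ee s, single_mem_stdSimplex ℝ s,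
    fun j hj => Pi.single_eq_of_ne (by rintro rfl; exact hj hs) _⟩ hcont.continuousOn
  refine ⟨BB M v v, fun w hw hT => ?_, Or.inr ⟨v, h1, h3, h2, rfl⟩⟩
  rcases (Finset.sum_nonneg fun i _ => hw i : 0 ≤ ∑ i, w i).eq_or_lt with h0 | h0
  · obtain rfl : w = 0 := funext fun j =>
      (Finset.sum_eq_zero_iff_of_nonneg fun i _ => hw i).1 h0.symm j (Finset.mem_univ j)
    simp [BB]
  · have h5 : BB M v v ≤ BB M ((∑ i, w i)⁻¹ • w) ((∑ i, w i)⁻¹ • w) := h4 ⟨⟨fun j =>
      mul_nonneg (inv_nonneg.2 h0.le) (hw j), by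
        simp only [Pi.smul_apply, smul_eq_mul, ← Finset.mul_sum]
        exact inv_mul_cancel₀ h0.ne'⟩, fun j hj => by simp [hT j hj]⟩
    rw [BB_smul, BB_symm _ w, BB_smul, ← mul_assoc, ← mul_inv, ← sq, le_inv_mul_iff₀ (by positivity),
      mul_comm] at h5
    exact h5

theorem kkt {m : ℝ} (hm : m ≤ 0)
    (h : ∀ w : S → ℝ, 0 ≤ w → (∀ j, j ∉ T → w j = 0) → m * (∑ i, w i) ^ 2 ≤ BB M w w)
    {v : S → ℝ} (h1 : 0 ≤ v) (h2 : ∀ j, j ∉ T → v j = 0) (h3 : ∑ i, v i = 1)
    (h4 : BB M v v = m) {s : S} (hs : s ∈ T) : bf M s v ≤ 0 := by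
  rcases (show 0 ≤ v s from h1 s).eq_or_lt with h0 | h0
  · simpa [← h0] using bf_le M h1 h0.symm s
  by_contra hb
  rw [not_le] at hb
  have e1 : min (v s) (bf M s v) ≤ v s := min_le_left _ _
  have e2 : min (v s) (bf M s v) ≤ bf M s v := min_le_right _ _
  have e3 : 0 < min (v s) (bf M s v) := lt_min h0 hb
  have e4 : v s ≤ 1 := h3 ▸ Finset.single_le_sum (fun j _ => h1 j) (Finset.mem_univ s)
  generalize min (v s) (bf M s v) = ε at e1 e2 e3
  have := h (v + (-ε) • ee s) (fun j => by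
    by_cases e : j = s
    · subst e; simpa [ee] using e1
    · simpa [ee, e] using h1 j) (fun j hj => by
    have : j ≠ s := by rintro rfl; exact hj hs
    simp [ee, this, h2 j hj])
  rw [Q_add, ht_add, h3, h4] at this
  have e5 : 2 * (bf M s v - m) ≤ ε * (1 - m) := by
    refine le_of_mul_le_mul_left ?_ e3
    nlinarith
  nlinarith

theorem pf_or_split {v : S → ℝ} (h1 : 0 ≤ v) (h0 : v ≠ 0) (h2 : ∀ j, j ∉ T → v j = 0)
    (h3 : ∀ s ∈ T, bf M s v ≤ 0) : (∃ v, PF M T v) ∨ ∃ T1 T2, Split M T T1 T2 := by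
  classical
  induction hn : (Finset.univ.filter fun j => v j = 0).card using Nat.strong_induction_on
    generalizing v with
  | _ n ih =>
  by_cases ha : ∀ s ∈ T, v s ≠ 0
  · exact Or.inl ⟨v, fun s hs => (show 0 ≤ v s from h1 s).lt_of_ne' (ha s hs), h2, h3⟩
  by_cases hb : ∀ t, v t ≠ 0 → ∀ s ∈ T, v s = 0 → M t s = 2
  · refine Or.inr ⟨{t | v t ≠ 0}, {s | s ∈ T ∧ v s = 0}, Function.ne_iff.1 h0, ?_, ?_, ?_,
      fun t ht s hs => hb t ht s hs.1 hs.2⟩
    · push Not at ha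
      exact ha
    · exact Set.disjoint_left.2 fun t ht hs => ht hs.2
    · ext t
      refine ⟨fun h => h.elim (fun h => by_contra fun e => h (h2 t e)) fun h => h.1, fun h => ?_⟩
      by_cases e : v t = 0
      exacts [Or.inr ⟨h, e⟩, Or.inl e]
  push Not at hb
  obtain ⟨t, ht, s, hs, hvs, hM⟩ := hb
  have hst : s ≠ t := by rintro rfl; exact ht hvs
  have hk : 1 / 2 ≤ kc M s t := kc_ge_half (by
    have := M.off_diagonal s t hst
    rw [M.symmetric] at hM
    omega)
  have hvt : 0 < v t := (show 0 ≤ v t from h1 t).lt_of_ne' ht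
  have hlt : 0 < -bf M s v := by nlinarith [bf_le M h1 hvs t]
  have hv' : ∀ j, j ≠ s → (v + (-bf M s v) • ee s) j = v j := fun j hj => by simp [ee, hj]
  have hs' : (v + (-bf M s v) • ee s) s = -bf M s v := by simp [ee, hvs]
  refine ih _ ?_ (v := v + (-bf M s v) • ee s) (fun j => ?_) (fun e => ?_) (fun j hj => ?_)
    (fun r hr => ?_) rfl
  · rw [← hn]
    refine Finset.card_lt_card ⟨fun j hj => ?_, fun h => ?_⟩
    · rw [Finset.mem_filter] at hj ⊢
      by_cases e : j = s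
      · exact ⟨hj.1, e ▸ hvs⟩
      · exact ⟨hj.1, hv' j e ▸ hj.2⟩
    · have := (Finset.mem_filter.1 (h (Finset.mem_filter.2 ⟨Finset.mem_univ s, hvs⟩))).2
      exact hlt.ne' (hs' ▸ this)
  · by_cases e : j = s
    · rw [e, hs']; exact hlt.le
    · rw [hv' j e]; exact h1 j
  · exact hlt.ne' (hs' ▸ congrFun e s)
  · rw [hv' j (by rintro rfl; exact hj hs), h2 j hj]
  · rw [map_add, map_smul, bf_ee, smul_eq_mul]
    by_cases e : r = s
    · rw [e, kc_self]; linarith
    · nlinarith [h3 r hr, kc_nonneg (M := M) e]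

/-- the sum of the roots of a word -/
noncomputable def xx : List S → S → ℝ
  | [] => 0
  | s :: w => sref M s (xx w) + (1 : ℝ) • ee s

theorem xx_Q (w : List S) : BB M (xx M w) (xx M w) = ∑ i, xx M w i := by
  induction w with
  | nil => simp [xx, BB]
  | cons s w ih =>
    rw [xx, Q_add, ht_add, BB_sref, ← Module.End.mul_apply, sref_sq, Module.End.one_apply, ih,
      sref_apply, sub_eq_add_neg, ← neg_smul, ht_add, map_add, map_smul, bf_ee, kc_self,
      smul_eq_mul]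
    ring

theorem xx_concat (w : List S) (s : S) : xx M (w ++ [s]) = xx M w + wact M w (ee s) := by
  induction w with
  | nil => simp [xx, wact]
  | cons a w ih =>
    rw [List.cons_append, xx, ih, xx, map_add, add_right_comm]
    simp [wact]

theorem xx_red (w : List S) (h1 : ∀ c ∈ w, c ∈ T) (h2 : (cx M).IsReduced w) :
    0 ≤ xx M w ∧ (∀ j, j ∉ T → xx M w j = 0) ∧ (w.length : ℝ) ≤ ∑ i, xx M w i := by
  induction w using List.reverseRecOn with
  | nil => simp [xx]
  | append_singleton w s ih =>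
    have hw : (cx M).IsReduced w := by simpa using h2.take w.length
    have hT : ∀ c ∈ w, c ∈ T := fun c hc => h1 c (by simp [hc])
    obtain ⟨a1, a2, a3⟩ := ih hT hw
    have hd : ¬ (cx M).IsRightDescent ((cx M).wordProd w) s := by
      rw [CoxeterSystem.IsRightDescent, ← (cx M).wordProd_concat, List.concat_eq_append, h2, hw]
      simp
    have b1 := rho_nonneg (cx M) hd
    have b2 := root_supp (cx M) (wordProd_mem_par (cx M) hT) (h1 s (by simp))
    have b3 := Q_le M b1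
    rw [BB_rho, ← Module.End.mul_apply, ← map_mul, inv_mul_cancel, map_one, Module.End.one_apply,
      BB_ee, bf_ee, kc_self, neg_neg] at b3
    have b4 : 1 ≤ ∑ i, rho (cx M) ((cx M).wordProd w) (ee s) i :=
      (one_le_sq_iff₀ (Finset.sum_nonneg fun i _ => b1 i)).1 b3
    rw [xx_concat, ← rho_wordProd (cx M)]
    refine ⟨add_nonneg a1 b1, fun j hj => by rw [Pi.add_apply, a2 j hj, b2 j hj, add_zero], ?_⟩
    simp only [Pi.add_apply, Finset.sum_add_distrib, List.length_append, List.length_singleton]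
    push_cast
    linarith

theorem sph {m : ℝ} (hm : 0 < m)
    (h : ∀ w : S → ℝ, 0 ≤ w → (∀ j, j ∉ T → w j = 0) → m * (∑ i, w i) ^ 2 ≤ BB M w w) :
    Sph M T := by
  refine ((List.finite_length_le S ⌈m⁻¹⌉₊).image (cx M).wordProd).subset fun g hg => ?_
  obtain ⟨w, h1, h2, rfl⟩ := exists_red_par (cx M) hg
  obtain ⟨a1, a2, a3⟩ := xx_red M w h1 h2
  refine ⟨w, ?_, rfl⟩
  have a4 := h _ a1 a2
  rw [xx_Q] at a4
  have a5 : ∑ i, xx M w i ≤ m⁻¹ := by
    by_contra hc
    rw [not_le, inv_lt_iff_one_lt_mul₀' hm] at hc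
    have : 0 < ∑ i, xx M w i := (mul_pos_iff_of_pos_left hm).1 (by linarith)
    nlinarith
  have : (w.length : ℝ) ≤ ⌈m⁻¹⌉₊ := (a3.trans a5).trans (Nat.le_ceil _)
  exact_mod_cast this

end Tri

theorem st_TRI : St_TRI := by
  intro S _ _ M T
  obtain ⟨m, h, hm⟩ := Tri.exists_min M T
  by_cases h0 : 0 < m
  · exact Or.inl (Tri.sph M h0 h)
  obtain ⟨v, h1, h2, h3, h4⟩ := hm.resolve_left h0
  refine Or.inr (Tri.pf_or_split M h1 ?_ h2 fun s hs => Tri.kkt M (not_lt.1 h0) h h1 h2 h3 h4 hs)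
  rintro rfl
  simp at h3

end Pool.Agent.WP34
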