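import Pool.Agent.Lib.WP34.Blue

/-! The facts about an unfolding. -/

set_option linter.unusedSectionVars false

namespace Pool.Agent.WP34

open Pool.Agent.H51 CoxeterSystem

namespace UNF1

variable {S ι : Type} [Fintype S] [DecidableEq S] [Fintype ι] [DecidableEq ι]
  {M : CoxeterMatrix S} {N : CoxeterMatrix ι}

theorem wact_cons (a : ι) (l : List ι) (v : ι → ℝ) :
    wact N (a :: l) v = sref N a (wact N l v) := by simp [wact]

theorem wact_append (l l' : List ι) (v : ι → ℝ) :
    wact N (l ++ l') v = wact N l (wact N l' v) := by simp [wact]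

theorem kc_two {i j : ι} (h : N i j = 2) : kc N i j = 0 := by simp [kc, h]

theorem kc_three {i j : ι} (h : N i j = 3) : kc N i j = 1 / 2 := by simp [kc, h]

theorem bf_apply (i : ι) (v : ι → ℝ) : bf N i v = ∑ j, -kc N i j * v j := rfl

theorem sref_coord (a j : ι) (v : ι → ℝ) :
    sref N a v j = if j = a then v j - 2 * bf N a v else v j := by
  rw [sref_apply]
  by_cases h : j = a
  · subst h; simp [ee]
  · simp [ee, h]

/-- a product of commuting reflections -/
theorem wact_ind {l : List ι} (hl : l.Nodup) (h : ∀ i ∈ l, ∀ j ∈ l, i ≠ j → kc N i j = 0)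
    (v : ι → ℝ) (j : ι) : wact N l v j = if j ∈ l then v j - 2 * bf N j v else v j := by
  induction l generalizing j with
  | nil => simp [wact]
  | cons a l ih =>
    obtain ⟨ha, hl'⟩ := List.nodup_cons.1 hl
    have ih' := ih hl' fun i hi j hj => h i (List.mem_cons_of_mem _ hi) j (List.mem_cons_of_mem _ hj)
    have hb : bf N a (wact N l v) = bf N a v := by
      rw [bf_apply, bf_apply]
      refine Finset.sum_congr rfl fun p _ => ?_
      rw [ih']
      split_ifs with hp
      · rw [h a List.mem_cons_self p (List.mem_cons_of_mem _ hp) fun e => ha (e ▸ hp)]; simp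
      · rfl
    rw [wact_cons, sref_coord, hb, ih']
    by_cases hj : j = a
    · subst hj; simp [ha]
    · simp [hj]

variable (U : Unf M N)

theorem kc_fib {i j : ι} (h : U.pr i = U.pr j) (hij : i ≠ j) : kc N i j = 0 :=
  kc_two ((U.sl i j hij).resolve_right (U.indep i j h))

theorem sum_kc (s : S) (j : ι) :
    ∑ i, (if U.pr i = s then U.μ i * kc N i j else 0) = kc M s (U.pr j) * U.μ j := by
  by_cases h : s = U.pr j
  · subst h
    rw [Finset.sum_eq_single j (fun i _ hi => by
      split_ifs with e
      · rw [kc_fib U e hi, mul_zero]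
      · rfl) (by simp)]
    simp
  · have e : ∀ i, (if U.pr i = s then U.μ i * kc N i j else 0) =
        (if U.pr i = s ∧ N i j = 3 then U.μ i else 0) / 2 := fun i => by
      by_cases h1 : U.pr i = s
      · rcases U.sl i j (fun e => h (e ▸ h1.symm)) with h2 | h2
        · simp [h1, h2, kc_two h2]
        · simp [h1, h2, kc_three h2, div_eq_mul_inv]
      · simp [h1]
    simp_rw [e]
    rw [← Finset.sum_div, U.wsum s j h]; ring

theorem sum_bf (s : S) (v : ι → ℝ) :
    ∑ i, (if U.pr i = s then U.μ i * bf N i v else 0) = bf M s (U.π v) := by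
  have e1 : ∀ i, (if U.pr i = s then U.μ i * bf N i v else 0) =
      ∑ j, -((if U.pr i = s then U.μ i * kc N i j else 0) * v j) := fun i => by
    split_ifs
    · rw [bf_apply, Finset.mul_sum]; exact Finset.sum_congr rfl fun j _ => by ring
    · simp
  have e2 : ∀ t, -kc M s t * U.π v t =
      ∑ j, if U.pr j = t then -(kc M s (U.pr j) * U.μ j * v j) else 0 := fun t => by
    rw [U.π_apply, Finset.mul_sum]
    refine Finset.sum_congr rfl fun j _ => ?_
    split_ifs with h
    · rw [h]; ring
    · simp
  rw [bf_apply]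
  simp_rw [e1, e2]
  rw [Finset.sum_comm, Finset.sum_comm (s := Finset.univ (α := S))]
  refine Finset.sum_congr rfl fun j _ => ?_
  rw [Finset.sum_neg_distrib, ← Finset.sum_mul, sum_kc]
  simp

/-- the product of the reflections of a fibre projects to one reflection -/
theorem pi_fib {s : S} {l : List ι} (hl : l.Nodup) (hm : ∀ i, i ∈ l ↔ U.pr i = s) (v : ι → ℝ) :
    U.π (wact N l v) = sref M s (U.π v) := by
  have h := wact_ind (N := N) hl (fun i hi j hj hij =>
    kc_fib U (((hm i).1 hi).trans ((hm j).1 hj).symm) hij) v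
  funext t
  rw [sref_coord]
  split_ifs with ht
  · subst ht
    rw [← sum_bf, U.π_apply, U.π_apply, Finset.mul_sum, ← Finset.sum_sub_distrib]
    refine Finset.sum_congr rfl fun i _ => ?_
    split_ifs with hi
    · rw [h, if_pos ((hm i).2 hi)]; ring
    · simp
  · exact U.π_congr fun i hi => by rw [h, if_neg fun e => ht (hi.symm.trans ((hm i).1 e))]

theorem pi_flat {φ : S → List ι} (hl : ∀ s, (φ s).Nodup) (hm : ∀ s i, i ∈ φ s ↔ U.pr i = s)
    (l : List S) (v : ι → ℝ) : U.π (wact N (l.flatMap φ) v) = wact M l (U.π v) := by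
  induction l with
  | nil => simp [wact]
  | cons s l ih => rw [List.flatMap_cons, wact_append, pi_fib U (hl s) (hm s), ih, wact_cons]

theorem act (l : List S) (v : ι → ℝ) : U.π (wact N (U.uw l) v) = wact M l (U.π v) :=
  pi_flat U U.nodup U.mem_fib l v

theorem act_rev (l : List S) (v : ι → ℝ) :
    U.π (wact N (U.uw l).reverse v) = wact M l.reverse (U.π v) := by
  rw [Unf.uw, List.reverse_flatMap]
  exact pi_flat U (fun s => List.nodup_reverse.2 (U.nodup s))
    (fun s i => List.mem_reverse.trans (U.mem_fib s i)) _ v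

/-- descents of an unfolded word -/
theorem desc_iff (u : List S) (i : ι) :
    (cx N).IsRightDescent ((cx N).wordProd (U.uw u)) i ↔
      (cx M).IsRightDescent ((cx M).wordProd u) (U.pr i) := by
  have e : U.π (rho (cx N) ((cx N).wordProd (U.uw u)) (ee i)) =
      U.μ i • rho (cx M) ((cx M).wordProd u) (ee (U.pr i)) := by
    rw [rho_wordProd, rho_wordProd, act, U.π_ee, map_smul]
  have hμ := U.μ_pos i
  constructor
  · intro h
    have h1 := U.π_mono (rho_nonpos _ h)
    rw [e, map_zero] at h1
    exact (descent_iff _).2 fun t => nonpos_of_mul_nonpos_right' hμ (h1 t)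
  · intro h
    by_contra h'
    have h1 := U.π_mono (rho_nonneg _ h')
    rw [e, map_zero] at h1
    exact (not_descent_iff _).2 (fun t => nonneg_of_mul_nonneg_right' hμ (h1 t)) h
where
  nonpos_of_mul_nonpos_right' {a b : ℝ} (ha : 0 < a) (h : a * b ≤ 0) : b ≤ 0 := by
    by_contra h'; nlinarith
  nonneg_of_mul_nonneg_right' {a b : ℝ} (ha : 0 < a) (h : 0 ≤ a * b) : 0 ≤ b := by
    by_contra h'; nlinarith

theorem desc_of_red {l : List ι} {s : ι} (h : (cx N).IsReduced (l ++ [s])) :
    (cx N).IsRightDescent ((cx N).wordProd (l ++ [s])) s := by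
  unfold IsRightDescent
  rw [h.eq, wordProd_append, wordProd_singleton, simple_mul_simple_cancel_right]
  have := (cx N).length_wordProd_le l
  simp; omega

theorem red_concat {l : List ι} {s : ι} : (cx N).IsReduced (l ++ [s]) ↔
    (cx N).IsReduced l ∧ ¬ (cx N).IsRightDescent ((cx N).wordProd l) s := by
  constructor
  · intro h
    have h1 : (cx N).IsReduced l := by simpa using h.take l.length
    refine ⟨h1, (cx N).not_isRightDescent_iff.2 ?_⟩
    have := h.eq
    rw [wordProd_append, wordProd_singleton] at this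
    rw [this, h1.eq]; simp
  · rintro ⟨h1, h2⟩
    exact red_append _ (by simp [(cx N).not_isRightDescent_iff.1 h2, h1.eq])

theorem red_step {u : List S} {s : S} (hu : (cx N).IsReduced (U.uw u))
    (hs : ¬ (cx M).IsRightDescent ((cx M).wordProd u) s) (l : List ι) (hl : l.Nodup)
    (hm : ∀ i ∈ l, U.pr i = s) : (cx N).IsReduced (U.uw u ++ l) := by
  induction l using List.reverseRecOn with
  | nil => simpa using hu
  | append_singleton l i ih =>
    have hi : U.pr i = s := hm i (by simp)
    have hl' : l.Nodup := hl.of_append_left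
    have hil : i ∉ l := fun e => by
      rw [List.nodup_append] at hl
      exact hl.2.2 i e i (by simp) rfl
    have hm' : ∀ j ∈ l, U.pr j = s := fun j hj => hm j (by simp [hj])
    rw [← List.append_assoc, red_concat]
    refine ⟨ih hl' hm', ?_⟩
    have e : wact N l (ee i) = ee i := by
      funext j
      rw [wact_ind hl' fun a ha b hb hab => kc_fib U ((hm' a ha).trans (hm' b hb).symm) hab]
      split_ifs with hj
      · rw [bf_ee, kc_fib U ((hm' j hj).trans hi.symm) fun e => hil (e ▸ hj)]; simp
      · rfl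
    rw [not_descent_iff, rho_wordProd, wact_append, e, ← rho_wordProd (cx N), ← not_descent_iff,
      desc_iff, hi]
    exact hs

theorem red (l : List S) (h : (cx M).IsReduced l) : (cx N).IsReduced (U.uw l) := by
  induction l using List.reverseRecOn with
  | nil => simp [Unf.uw, CoxeterSystem.IsReduced]
  | append_singleton u s ih =>
    obtain ⟨h1, h2⟩ := red_concat.1 h
    have e : U.uw (u ++ [s]) = U.uw u ++ U.fib s := by simp [Unf.uw]
    rw [e]
    exact red_step U (ih h1) h2 _ (U.nodup s) fun i hi => (U.mem_fib s i).1 hi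

theorem desc_alt {s t r : S} (hst : s ≠ t) (h0 : M s t ≠ 0) (hr : r = s ∨ r = t) :
    (cx M).IsRightDescent ((cx M).wordProd (alt s t (M s t))) r := by
  obtain ⟨n, hn⟩ : ∃ n, M s t = n + 1 := ⟨M s t - 1, by omega⟩
  have e := (BE.braid (M := M) s t).wordProd_eq (cx M)
  have r1 := red_alt (cx M) hst (n := M s t) (Or.inr le_rfl)
  have r2 := (BE.braid (M := M) s t).isReduced (cx M) r1
  rw [hn] at e r1 r2 ⊢
  rw [alt_succ'] at r1 r2
  have d1 := desc_of_red r1
  have d2 := desc_of_red r2
  rw [← alt_succ'] at d1 d2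
  rw [← e] at d2
  by_cases h : Even n
  · rw [if_pos h] at d1 d2
    rcases hr with rfl | rfl <;> assumption
  · rw [if_neg h] at d1 d2
    rcases hr with rfl | rfl <;> assumption

theorem braid (s t : S) : BE N (U.uw (alt s t (M s t))) (U.uw (alt t s (M s t))) := by
  by_cases hst : s = t
  · subst hst; exact BE.refl _
  by_cases h0 : M s t = 0
  · rw [h0]; exact BE.refl _
  have e := (BE.braid (M := M) s t).wordProd_eq (cx M)
  have r1 := red_alt (cx M) hst (n := M s t) (Or.inr le_rfl)
  have r2 := (BE.braid (M := M) s t).isReduced (cx M) r1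
  have hp : ∀ a b n, (a = s ∨ a = t) → (b = s ∨ b = t) →
      (cx N).wordProd (U.uw (alt a b n)) ∈ par (cx N) {i | U.pr i = s ∨ U.pr i = t} :=
    fun a b n ha hb => wordProd_mem_par _ fun c hc => by
      obtain ⟨r, hr, hc⟩ := List.mem_flatMap.1 hc
      rw [Set.mem_ofPred_eq, (U.mem_fib r c).1 hc]
      rcases mem_alt hr with rfl | rfl <;> assumption
  have p1 := hp s t (M s t) (Or.inl rfl) (Or.inr rfl)
  have p2 := hp t s (M s t) (Or.inr rfl) (Or.inl rfl)
  have d1 : ∀ i ∈ {i | U.pr i = s ∨ U.pr i = t},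
      (cx N).IsRightDescent ((cx N).wordProd (U.uw (alt s t (M s t)))) i :=
    fun i hi => (desc_iff U _ i).2 (desc_alt hst h0 hi)
  have d2 : ∀ i ∈ {i | U.pr i = s ∨ U.pr i = t},
      (cx N).IsRightDescent ((cx N).wordProd (U.uw (alt t s (M s t)))) i :=
    fun i hi => (desc_iff U _ i).2 (e ▸ desc_alt hst h0 hi)
  have l1 := length_mul_max (cx N) d1 (mul_mem (inv_mem p1) p2)
  have l2 := length_mul_max (cx N) d2 (mul_mem (inv_mem p2) p1)
  rw [mul_inv_cancel_left] at l1 l2
  have l3 := (cx N).length_eq_zero_iff.1 (by omega : (cx N).length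
    (((cx N).wordProd (U.uw (alt s t (M s t))))⁻¹ * (cx N).wordProd (U.uw (alt t s (M s t)))) = 0)
  exact matsumoto (cx N) (red U _ r1) (red U _ r2) (inv_mul_eq_one.1 l3)

theorem adj (i j : ι) (h : N i j = 3) : M (U.pr i) (U.pr j) ≠ 2 := by
  intro h2
  have h1 := U.wsum (U.pr i) j fun e => U.indep i j e h
  rw [kc_two h2, mul_zero, zero_mul, Finset.sum_eq_zero_iff_of_nonneg fun p _ => by
    split_ifs; exacts [(U.μ_pos p).le, le_rfl]] at h1
  have h3 := h1 i (Finset.mem_univ i)
  rw [if_pos ⟨rfl, h⟩] at h3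
  exact (U.μ_pos i).ne' h3

end UNF1

theorem st_UNF1 : St_UNF1 := fun U =>
  ⟨UNF1.act U, UNF1.act_rev U, UNF1.red U, UNF1.braid U, UNF1.adj U⟩

end Pool.Agent.WP34
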