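import Pool.Agent.Lib.WP34.Cong
import Pool.Agent.Lib.WP34.Inv
import Pool.Agent.Lib.WP34.Cyl
import Pool.Agent.Lib.WP34.Braid
import Pool.Agent.Lib.WP34.H1
import Pool.Agent.Lib.WP34.H2
import Pool.Agent.Lib.WP34.DG
import Pool.Agent.Lib.WP34.Mod1
import Pool.Agent.Lib.WP34.Mod2
import Pool.Agent.Lib.WP34.Unf1
import Pool.Agent.Lib.WP34.IfA
import Pool.Agent.Lib.WP34.IfB
import Pool.Agent.Lib.WP34.IfC
import Pool.Agent.Lib.WP34.Tri
import Pool.Agent.Lib.WP34.Seg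
import Pool.Agent.Lib.WP34.Dir
import Pool.Agent.Lib.WP34.Sph
import Pool.Agent.Lib.WP34.Plat
import Pool.Agent.Lib.WP34.Inf
import Pool.Agent.Lib.WP34.Main
import Pool.Agent.Lib.WP34.Core

/-! Assembly. -/

namespace Pool.Agent.WP34

theorem dg : St_DG := st_DG st_CONG st_INV st_COMM (st_BRAID st_CONG st_TR) st_H1 st_H2

theorem main : St_MAIN := st_MAIN st_TRI st_DIR (st_SPH st_SEG) st_PLAT st_INF st_SMALL

theorem core : St_CORE := st_CORE dg st_MOD1 st_MOD2 st_UNF1 st_IFA st_IFB st_IFC main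

end Pool.Agent.WP34
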