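import Pool.Agent.Lib.WP34.Tr
import Pool.Agent.Lib.MP_a1ec0a_al.TCode

/-! Interfaces and statements of the steps in the solution of the word problem. -/

set_option linter.unusedSectionVars false

namespace Pool.Agent.WP34

open Pool.Agent.H51 Relation Pool.Agent.Lib.MP_a1ec0a_al

section defs

variable {S ι : Type} [Fintype S] [DecidableEq S] [Fintype ι] [DecidableEq ι]

/-- simply laced -/
def SL (N : CoxeterMatrix ι) : Prop := ∀ i j, i ≠ j → N i j = 2 ∨ N i j = 3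

/-- what is used about the derived category -/
structure DG (N : CoxeterMatrix ι) where
  Q : Type 1
  rho : ι → Equiv.Perm Q
  hd : Q → ℤ → ι → ℕ
  IsH : Q → ℤ → BM N → Prop
  br : BrOn N Set.univ fun i => (rho i)⁻¹
  off : ∀ X i j k, j ≠ i → hd (rho i X) k j = hd X k j
  ex : ∀ X k, ∃ A, IsH X k A
  uniq : ∀ X k A B, IsH X k A → IsH X k B → Emb A.o B.o
  dim : ∀ X k A i, IsH X k A → A.o.dim i = hd X k i
  hr : ∀ X k A i, IsH X k A → hd X (k - 1) i = 0 → IsH (rho i X) k (A.r0 i)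
  up : ∀ X k A i, IsH (rho i X) (k + 1) A → A.o.Inj i → (∀ p, N i p = 3 → hd X k p = 0) →
    hd X k i = 0
  bdd : ∀ X, ∃ a, ∀ k < a, ∀ i, hd X k i = 0

/-- an unfolding of `M` to a simply laced matrix -/
structure Unf (M : CoxeterMatrix S) (N : CoxeterMatrix ι) where
  pr : ι → S
  fib : S → List ι
  μ : ι → ℝ
  sl : SL N
  mem_fib : ∀ s i, i ∈ fib s ↔ pr i = s
  nodup : ∀ s, (fib s).Nodup
  surj : ∀ s, fib s ≠ []
  μ_pos : ∀ i, 0 < μ i
  indep : ∀ i j, pr i = pr j → N i j ≠ 3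
  wsum : ∀ s j, s ≠ pr j →
    ∑ i, (if pr i = s ∧ N i j = 3 then μ i else 0) = 2 * kc M s (pr j) * μ j

variable {M : CoxeterMatrix S} {N : CoxeterMatrix ι}

/-- the weighted projection -/
def Unf.π (U : Unf M N) : (ι → ℝ) →ₗ[ℝ] (S → ℝ) where
  toFun v s := ∑ i, if U.pr i = s then U.μ i * v i else 0
  map_add' u v := by
    funext s; simp only [Pi.add_apply, ← Finset.sum_add_distrib]
    exact Finset.sum_congr rfl fun i _ => by split_ifs <;> ring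
  map_smul' c v := by
    funext s; simp only [Pi.smul_apply, smul_eq_mul, RingHom.id_apply, Finset.mul_sum]
    exact Finset.sum_congr rfl fun i _ => by split_ifs <;> ring

theorem Unf.π_apply (U : Unf M N) (v : ι → ℝ) (s : S) :
    U.π v s = ∑ i, if U.pr i = s then U.μ i * v i else 0 := rfl

theorem Unf.π_mono (U : Unf M N) {u v : ι → ℝ} (h : u ≤ v) : U.π u ≤ U.π v := fun _ =>
  Finset.sum_le_sum fun i _ => by
    split_ifs; exacts [mul_le_mul_of_nonneg_left (h i) (U.μ_pos i).le, le_rfl]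

theorem Unf.π_ee (U : Unf M N) (i : ι) : U.π (ee i) = U.μ i • ee (U.pr i) := by
  funext s
  rw [U.π_apply, Finset.sum_eq_single i (fun j _ h => by simp [ee, h]) (by simp)]
  by_cases h : U.pr i = s
  · simp [ee, h]
  · simp [ee, h, Ne.symm h]

theorem Unf.π_congr (U : Unf M N) {u v : ι → ℝ} {s : S} (h : ∀ i, U.pr i = s → u i = v i) :
    U.π u s = U.π v s :=
  Finset.sum_congr rfl fun i _ => by split_ifs with e; exacts [by rw [h i e], rfl]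

theorem Unf.π_eq_zero (U : Unf M N) {v : ι → ℝ} (hv : 0 ≤ v) {s : S} :
    U.π v s = 0 ↔ ∀ i, U.pr i = s → v i = 0 := by
  rw [U.π_apply, Finset.sum_eq_zero_iff_of_nonneg fun i _ => by
    split_ifs; exacts [mul_nonneg (U.μ_pos i).le (hv i), le_rfl]]
  simp [(U.μ_pos _).ne']

/-- the unfolded word -/
def Unf.uw (U : Unf M N) (l : List S) : List ι := l.flatMap U.fib

/-- the facts about an unfolding -/
structure Unf.Good (U : Unf M N) : Prop where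
  act : ∀ l v, U.π (wact N (U.uw l) v) = wact M l (U.π v)
  act_rev : ∀ l v, U.π (wact N (U.uw l).reverse v) = wact M l.reverse (U.π v)
  red : ∀ l, (cx M).IsReduced l → (cx N).IsReduced (U.uw l)
  braid : ∀ s t, BE N (U.uw (alt s t (M s t))) (U.uw (alt t s (M s t)))
  adj : ∀ i j, N i j = 3 → M (U.pr i) (U.pr j) ≠ 2

/-- an orbit of the Artin group -/
structure Sys (U : Unf M N) (D : DG N) where
  X : Artin M → D.Q
  step : ∀ g s, X (g * gen M s) = (U.fib s).foldl (fun Y i => D.rho i Y) (X g)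

/-- the weighted dimensions of the cohomology -/
def Sys.n {U : Unf M N} {D : DG N} (Y : Sys U D) (g : Artin M) (k : ℤ) : S → ℝ :=
  U.π fun i => D.hd (Y.X g) k i

theorem Sys.n_eq_zero {U : Unf M N} {D : DG N} (Y : Sys U D) {g : Artin M} {k : ℤ} {s : S} :
    Y.n g k s = 0 ↔ ∀ i, U.pr i = s → D.hd (Y.X g) k i = 0 := by
  rw [Sys.n, U.π_eq_zero fun _ => Nat.cast_nonneg _]; simp

variable (M)

/-- `T` and its neighbours -/
def Cl (T : Set S) : Set S := {j | ∃ s ∈ T, M s j ≠ 2}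

variable {M} (n : Artin M → ℤ → S → ℝ)

/-- nothing below degree `a` on `R` -/
def Win (g : Artin M) (R : Set S) (a : ℤ) : Prop := ∀ k < a, ∀ j ∈ R, n g k j = 0

/-- classes of submodules that are everything outside `T` -/
def Adm (T : Set S) (g : Artin M) (a : ℤ) (p : S → ℝ) : Prop :=
  (∀ j, j ∉ T → p j = n g a j) ∧
    ∀ v, Ov T v → (cx M).IsReduced v → wact M v.reverse p ≤ n (g * pos M v) a

def I1 : Prop := ∀ g s k j, j ≠ s → n (g * gen M s) k j = n g k j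
def I2 : Prop := ∀ g s a, Win n g (Cl M {s}) a → Win n (g * gen M s) {s} a ∧
  ∃ f : ℝ, 0 ≤ f ∧ n (g * gen M s) a = sref M s (n g a) + f • ee s
def I3 : Prop := ∀ T g a s h, Win n g (Cl M T) a → s ∈ T → Ov T h →
  n (g * pos M (s :: h)) a ≤ n (g * pos M (s :: s :: h)) a
def I4 : Prop := ∀ T g a u, Win n g (Cl M T) a → Ov T u → (cx M).IsReduced u →
  0 ≤ wact M u (n (g * pos M u) a)
def I5 : Prop := ∀ g a s t, s ≠ t → M s t ≠ 0 → Win n g (Cl M {s, t}) a →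
  Win n (g * (gen M s)⁻¹) {s} a → Win n (g * (gen M t)⁻¹) {t} a →
  Win n (g * (pos M (alt s t (M s t)))⁻¹) {s, t} a
def I6 : Prop := ∀ T g a u s, Win n g (Cl M T) a → Ov T u → (cx M).IsReduced u → s ∈ T →
  n g a s ≤ wact M u (n (g * pos M u) a) s ∨
    ∃ (p : S → ℝ) (c : ℝ), 0 < c ∧ Adm n T g a p ∧ Adm n T g a (p + c • ee s)
def I8 : Prop := (∀ g, ∃ a, Win n g Set.univ a) ∧
  ∀ b : ℝ, {r | r ≤ b ∧ ∃ g k j, n g k j = r}.Finite

/-- the numerical interface -/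
structure IF : Prop where
  nonneg : ∀ g k, 0 ≤ n g k
  i1 : I1 n
  i2 : I2 n
  i3 : I3 n
  i4 : I4 n
  i5 : I5 n
  i6 : I6 n
  i8 : I8 n

variable (M) in
/-- the vertices `x.1 ⟨T - x.2⟩` and `y.1 ⟨T - y.2⟩` lie in a common chamber -/
def Near (T : Set S) (x y : Artin M × S) : Prop :=
  ∃ c, x.1⁻¹ * c ∈ apar M (T \ {x.2}) ∧ y.1⁻¹ * c ∈ apar M (T \ {y.2})

variable (M) in
/-- vertices of the complex of `g0 ⟨T⟩` -/
def Vx (T : Set S) (g0 : Artin M) (x : Artin M × S) : Prop := x.2 ∈ T ∧ g0⁻¹ * x.1 ∈ apar M T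

/-- negative vertices -/
def Neg (a : ℤ) (θ : S → ℝ) (x : Artin M × S) : Prop := Win n x.1 {x.2} a ∧ n x.1 a x.2 < θ x.2

/-- nonpositive vertices -/
def Np (a : ℤ) (θ : S → ℝ) (x : Artin M × S) : Prop := Win n x.1 {x.2} a ∧ n x.1 a x.2 ≤ θ x.2

variable (M) in
/-- connected through vertices with property `P` -/
def Conn (T : Set S) (P : Artin M × S → Prop) : Artin M × S → Artin M × S → Prop :=
  ReflTransGen fun u v => v.2 ∈ T ∧ P v ∧ Near M T u v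

/-- feasible thresholds -/
def Fe (T : Set S) (g0 : Artin M) (a : ℤ) (θ : S → ℝ) : Prop :=
  Win n g0 (Cl M T \ T) a ∧ (∀ j ∈ Cl M T \ T, θ j = n g0 a j) ∧ ∀ s ∈ T, bf M s θ ≤ 0

/-- a negative vertex is connected to every nonpositive vertex through nonpositive ones -/
def PP (T : Set S) : Prop := ∀ g0 a θ x z, Fe n T g0 a θ → Vx M T g0 x → Vx M T g0 z →
  Neg n a θ x → Np n a θ z → Conn M T (Np n a θ) x z

/-- plateaus can be avoided -/
def PL (T : Set S) : Prop := ∀ g0 a θ x z, Fe n T g0 a θ → Vx M T g0 x → Neg n a θ x →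
  Conn M T (Np n a θ) x z → ∃ y, Conn M T (Neg n a θ) x y ∧ y.2 ∈ T ∧ Neg n a θ y ∧ Near M T y z

/-- the negative vertices are connected and dominate the nonpositive ones -/
def NZ (T : Set S) : Prop := ∀ g0 a θ x z, Fe n T g0 a θ → Vx M T g0 x → Vx M T g0 z →
  Neg n a θ x → Np n a θ z → ∃ y, Conn M T (Neg n a θ) x y ∧ y.2 ∈ T ∧ Neg n a θ y ∧ Near M T y z

/-- any two vertices in the window lie below a common chamber -/
def DIR (T : Set S) : Prop := ∀ g0 a (x z : Artin M × S), Win n g0 (Cl M T \ T) a →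
  Vx M T g0 x → Vx M T g0 z → Win n x.1 {x.2} a → Win n z.1 {z.2} a →
  ∃ top h1 h2, Win n top (Cl M T) a ∧ Ov T h1 ∧ Ov T h2 ∧
    x.1⁻¹ * (top * pos M h1) ∈ apar M (T \ {x.2}) ∧ z.1⁻¹ * (top * pos M h2) ∈ apar M (T \ {z.2})

variable (M)

def Split (T T1 T2 : Set S) : Prop :=
  T1.Nonempty ∧ T2.Nonempty ∧ Disjoint T1 T2 ∧ T1 ∪ T2 = T ∧ ∀ s ∈ T1, ∀ t ∈ T2, M s t = 2

def PF (T : Set S) (v : S → ℝ) : Prop :=
  (∀ s ∈ T, 0 < v s) ∧ (∀ j, j ∉ T → v j = 0) ∧ ∀ s ∈ T, bf M s v ≤ 0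

/-- the value of a vertex of the Coxeter complex -/
noncomputable def val (y : M.Group → S → ℝ) (c : M.Group × S) : ℝ :=
  rho (cx M) c.1⁻¹ (y c.1) c.2

/-- a move in the Coxeter complex of `T` -/
def WStep (T : Set S) (P : M.Group × S → Prop) (a b : M.Group × S) : Prop :=
  b.1 ∈ par (cx M) T ∧ b.2 ∈ T ∧ P b ∧
    (b.1 = a.1 ∨ b.2 = a.2 ∧ ∃ r ∈ T, r ≠ a.2 ∧ b.1 = a.1 * (cx M).simple r)

/-- opposite vertices -/
def Anti (T : Set S) (a b : M.Group × S) : Prop :=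
  ∃ τ : ℝ, 0 < τ ∧ ∀ t ∈ T, rho (cx M) a.1⁻¹ (ee t) a.2 = -τ * rho (cx M) b.1⁻¹ (ee t) b.2

end defs

/-! ### differential graded modules -/

def St_CONG : Prop := ∀ {ι : Type} [Fintype ι] [DecidableEq ι] {N : CoxeterMatrix ι} (X Y : BO N)
  (i : ι), QI X.o Y.o → QI (X.o.rho i) (Y.o.rho i) ∧ QI (X.o.lam i) (Y.o.lam i)

def St_INV : Prop := ∀ {ι : Type} [Fintype ι] [DecidableEq ι] {N : CoxeterMatrix ι} (X : BO N)
  (i : ι), QI X.o ((X.o.lam i).rho i) ∧ QI ((X.o.rho i).lam i) X.o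

def St_COMM : Prop := ∀ {ι : Type} [Fintype ι] [DecidableEq ι] {N : CoxeterMatrix ι} (X : BO N)
  (i j : ι), i ≠ j → N i j ≠ 3 → QI ((X.o.rho i).rho j) ((X.o.rho j).rho i)

def St_CYL : Prop := ∀ {ι : Type} [Fintype ι] [DecidableEq ι] {N : CoxeterMatrix ι} (X Y : BO N)
  (φ : WHom X.o Y.o), Qis X.o Y.o φ.f0 → Eqv X Y

def St_TR : Prop := ∀ {ι : Type} [Fintype ι] [DecidableEq ι] {N : CoxeterMatrix ι} (X : BO N)
  (i : ι) (K : Type) [AddCommGroup K] [Module F K] [Finite K] (R : Retr X.o i K), Eqv ⟨R.tr⟩ X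

def St_BRAID : Prop := ∀ {ι : Type} [Fintype ι] [DecidableEq ι] {N : CoxeterMatrix ι} (X : BO N)
  (i j : ι), N i j = 3 → Eqv (((X.rho i).rho j).rho i) (((X.rho j).rho i).rho j)

def St_H1 : Prop := ∀ {ι : Type} [Fintype ι] [DecidableEq ι] {N : CoxeterMatrix ι} (X : BO N)
  (k : ℤ), (∃ A : BM N, IsH X.o k A.o) ∧
    (∀ A B : BM N, IsH X.o k A.o → IsH X.o k B.o → Emb A.o B.o) ∧
    (∀ (A : BM N) i, IsH X.o k A.o → A.o.dim i = X.o.hd k i) ∧
    ∀ (Y : BO N) (A : BM N), QI X.o Y.o → (IsH X.o k A.o ↔ IsH Y.o k A.o)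

def St_H2 : Prop := ∀ {ι : Type} [Fintype ι] [DecidableEq ι] {N : CoxeterMatrix ι} (X : BO N)
  (k : ℤ) (i : ι), (∀ j, j ≠ i → (X.o.rho i).hd k j = X.o.hd k j) ∧
    (∀ A : BM N, IsH X.o k A.o → X.o.hd (k - 1) i = 0 → IsH (X.o.rho i) k (A.o.r0 i)) ∧
    ∀ A : BM N, IsH (X.o.rho i) (k + 1) A.o → A.o.Inj i → (∀ p, N i p = 3 → X.o.hd k p = 0) →
      X.o.hd k i = 0

def St_DG : Prop := ∀ {ι : Type} [Fintype ι] [DecidableEq ι] (N : CoxeterMatrix ι), SL N →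
  ∃ (D : DG N) (mk : BO N → D.Q), (∀ X i, mk (X.rho i) = D.rho i (mk X)) ∧
    (∀ X i, mk (X.lam i) = (D.rho i)⁻¹ (mk X)) ∧ ∀ X k i, D.hd (mk X) k i = X.o.hd k i

/-! ### modules -/

/-- the elementary facts about modules -/
structure MOD1 {ι : Type} [Fintype ι] [DecidableEq ι] (N : CoxeterMatrix ι) : Prop where
  refl : ∀ A : BM N, Emb A.o A.o
  trans : ∀ A B C : BM N, Emb A.o B.o → Emb B.o C.o → Emb A.o C.o
  dim_le : ∀ A B : BM N, Emb A.o B.o → A.o.dim ≤ B.o.dim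
  emb_rw : ∀ (A B : BM N) l, Emb A.o B.o → Emb (A.rw l).o (B.rw l).o
  emb_inj : ∀ (A B : BM N) i, Emb A.o B.o → B.o.Inj i → A.o.Inj i
  inj_self : ∀ (A : BM N) i, (A.o.r0 i).Inj i
  inj_r0 : ∀ (A : BM N) i j, A.o.Inj j → N i j ≠ 3 ∨ A.o.Inj i → (A.o.r0 i).Inj j
  inj_of_r0 : ∀ (A : BM N) i j, j ≠ i → N i j ≠ 3 → (A.o.r0 i).Inj j → A.o.Inj j
  inj_of_dim : ∀ (A : BM N) i, A.o.dim i = 0 → A.o.Inj i
  emb_r0 : ∀ (A : BM N) i, A.o.Inj i → Emb A.o (A.o.r0 i)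
  dim_r0 : ∀ (A : BM N) i, ∃ f : ℝ, 0 ≤ f ∧ (A.o.r0 i).dim = sref N i A.o.dim + f • ee i
  dim_r0_zero : ∀ (A : BM N) i, (∀ p, N i p = 3 → A.o.dim p = 0) → (A.o.r0 i).dim i = 0
  dim_off : ∀ (A : BM N) l j, j ∉ l → (A.rw l).o.dim j = A.o.dim j
  dim_rw : ∀ (A : BM N) l, (cx N).IsReduced l → wact N l.reverse A.o.dim ≤ (A.rw l).o.dim
  soc : ∀ (A : BM N) i, ∃ (B : BM N) (c : ℝ), Emb B.o A.o ∧ B.o.dim = c • ee i ∧
    (c = 0 → A.o.Inj i)

def St_MOD1 : Prop := ∀ {ι : Type} [Fintype ι] [DecidableEq ι] (N : CoxeterMatrix ι), SL N → MOD1 N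

/-- a chain of submodules ending below the reflected dimension vector -/
def MOD2 {ι : Type} [Fintype ι] [DecidableEq ι] (N : CoxeterMatrix ι) : Prop :=
  ∀ (A : BM N) l, (cx N).IsReduced l → ∃ B : BM N, ReflTransGen (fun P Q : BM N =>
    Emb P.o A.o ∧ Emb Q.o A.o ∧ ∃ i ∈ l, ∃ c : ℝ, 0 ≤ c ∧ P.o.dim = Q.o.dim + c • ee i) A B ∧
      B.o.dim ≤ wact N l (A.rw l).o.dim

def St_MOD2 : Prop := ∀ {ι : Type} [Fintype ι] [DecidableEq ι] (N : CoxeterMatrix ι), SL N → MOD2 N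

/-! ### unfolding and the interface -/

def St_UNF1 : Prop := ∀ {S ι : Type} [Fintype S] [DecidableEq S] [Fintype ι] [DecidableEq ι]
  {M : CoxeterMatrix S} {N : CoxeterMatrix ι} (U : Unf M N), U.Good

def St_UNF2 : Prop := ∃ (rr : TR.Mat → ℕ) (adj : TR.Mat → ℕ → ℕ → Bool) (pr : TR.Mat → ℕ → ℕ),
  PR rr ∧ PR (fun x : TR.Mat × ℕ × ℕ => adj x.1 x.2.1 x.2.2) ∧ PR (fun x : TR.Mat × ℕ => pr x.1 x.2) ∧
  ∀ L, ∃ (N : CoxeterMatrix (Fin (rr L))) (U : Unf (TR.cm L) N),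
    (∀ i j : Fin (rr L), N i j = 3 ↔ adj L i j = true) ∧ (∀ i, (U.pr i).1 = pr L i) ∧
    ∀ s, (U.fib s).map Fin.val = (List.range (rr L)).filter fun i => pr L i == s.1

/-- walking up from a chamber in the window -/
def WALK {S ι : Type} [Fintype S] [DecidableEq S] [Fintype ι] [DecidableEq ι]
    {M : CoxeterMatrix S} {N : CoxeterMatrix ι} {U : Unf M N} {D : DG N} (Y : Sys U D) : Prop :=
  ∀ T g a A u, Win Y.n g (Cl M T) a → Ov T u → D.IsH (Y.X g) a A →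
    D.IsH (Y.X (g * pos M u)) a (A.rw (U.uw u)) ∧ Win Y.n (g * pos M u) (Cl M T) a

def St_IFA : Prop := ∀ {S ι : Type} [Fintype S] [DecidableEq S] [Fintype ι] [DecidableEq ι]
  {M : CoxeterMatrix S} {N : CoxeterMatrix ι} {U : Unf M N} {D : DG N} (Y : Sys U D),
  U.Good → MOD1 N → WALK Y ∧ I1 Y.n ∧ I2 Y.n ∧ I3 Y.n ∧ I8 Y.n

def St_IFB : Prop := ∀ {S ι : Type} [Fintype S] [DecidableEq S] [Fintype ι] [DecidableEq ι]
  {M : CoxeterMatrix S} {N : CoxeterMatrix ι} {U : Unf M N} {D : DG N} (Y : Sys U D),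
  U.Good → MOD1 N → MOD2 N → WALK Y → I1 Y.n → I5 Y.n

def St_IFC : Prop := ∀ {S ι : Type} [Fintype S] [DecidableEq S] [Fintype ι] [DecidableEq ι]
  {M : CoxeterMatrix S} {N : CoxeterMatrix ι} {U : Unf M N} {D : DG N} (Y : Sys U D),
  U.Good → MOD1 N → MOD2 N → WALK Y → I4 Y.n ∧ I6 Y.n

/-! ### combinatorics -/

def St_TRI : Prop := ∀ {S : Type} [Fintype S] [DecidableEq S] (M : CoxeterMatrix S) (T : Set S),
  Sph M T ∨ (∃ v, PF M T v) ∨ ∃ T1 T2, Split M T T1 T2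

def St_SEG : Prop := ∀ {S : Type} [Fintype S] [DecidableEq S] (M : CoxeterMatrix S) (T : Set S)
  (y : M.Group → S → ℝ), Sph M T → (∀ u ∈ par (cx M) T, ∀ j, j ∉ T → y u j = 0) →
  (∀ u ∈ par (cx M) T, ∀ r ∈ T, ∃ c : ℝ, 0 ≤ c ∧
    y u - y (u * (cx M).simple r) = c • rho (cx M) u (ee r)) →
  (∀ u ∈ par (cx M) T, ∀ v ∈ par (cx M) T, ∀ j ∈ T, rho (cx M) u⁻¹ (y v) j ≤ val M y (u, j)) ∧
  ∀ a b : M.Group × S, a.1 ∈ par (cx M) T → a.2 ∈ T → b.1 ∈ par (cx M) T → b.2 ∈ T →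
    val M y a ≤ 0 → val M y b ≤ 0 → val M y b < 0 ∨ ¬ Anti M T a b →
    ReflTransGen (WStep M T fun c => val M y c ≤ 0) a b

def St_DIR : Prop := ∀ {S : Type} [Fintype S] [DecidableEq S] {M : CoxeterMatrix S}
  (n : Artin M → ℤ → S → ℝ) (T : Set S), IF n → Sph M T → DIR n T

def St_SPH : Prop := ∀ {S : Type} [Fintype S] [DecidableEq S] {M : CoxeterMatrix S}
  (n : Artin M → ℤ → S → ℝ) (T : Set S), IF n → Sph M T → DIR n T → T.Nontrivial →
  (¬ ∃ T1 T2, Split M T T1 T2) → PP n T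

def St_PLAT : Prop := ∀ {S : Type} [Fintype S] [DecidableEq S] {M : CoxeterMatrix S}
  (n : Artin M → ℤ → S → ℝ) (T : Set S), IF n → (∀ i ∈ T, NZ n (T \ {i})) → PL n T

def St_INF : Prop := ∀ {S : Type} [Fintype S] [DecidableEq S] {M : CoxeterMatrix S}
  (n : Artin M → ℤ → S → ℝ) (T : Set S) (v : S → ℝ), IF n → PF M T v → PL n T → PP n T

def St_SMALL : Prop := ∀ {S : Type} [Fintype S] [DecidableEq S] {M : CoxeterMatrix S}
  (n : Artin M → ℤ → S → ℝ), IF n → (∀ s, NZ n {s}) ∧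
    ∀ T T1 T2, Split M T T1 T2 → NZ n T1 → NZ n T2 → NZ n T

def St_MAIN : Prop := ∀ {S : Type} [Fintype S] [DecidableEq S] {M : CoxeterMatrix S}
  (n : Artin M → ℤ → S → ℝ) (r : S) (g : Artin M), IF n → (∀ s, s ≠ r → M s r = 0) →
  (∀ k s, s ≠ r → n 1 k s = 0) → (∀ k < 0, n 1 k r = 0) → 0 < n 1 0 r → g ∈ apar M {r}ᶜ →
  (∀ k s, s ≠ r → n g k s = 0) → g = 1

/-! ### computability -/

def St_CODE : Prop :=
  ∃ P : ℕ × List (List Bool) × List Bool × List (ℕ × Bool) × ℕ → Prop, S1 P ∧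
    ∀ (r : ℕ) (N : CoxeterMatrix (Fin r)) (A : List (List Bool)) (R : List Bool)
      (u : List (Fin r × Bool)) (i : Fin r),
      (∀ i j : Fin r, N i j = 3 ↔ (A.getD i []).getD j false = true) →
      (P (r, A, R, u.map fun a => (a.1.1, a.2), i) ↔
        ∃ k, (BO.run ⟨Ob.base N fun j => R.getD j false⟩ u).o.hd k i ≠ 0)

def St_PROC : Prop := ∃ f : TR.Mat × TR.Wd →. Bool, Partrec f ∧
  ∀ L w, ∃ b ∈ f (L, w), (b = true ↔ TR.ev L w = 1)

end Pool.Agent.WP34
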