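import Pool.Agent.Lib.WP34.Blue

/-! The first retraction for the braid relation. -/

set_option linter.unusedSectionVars false

namespace Pool.Agent.WP34.Braid

open LinearMap (fst snd proj inr)
open Ob

variable {ι : Type} [Fintype ι] [DecidableEq ι] {N : CoxeterMatrix ι} {V : Type} [AddCommGroup V]
  [Module F V]

/-- kill one coordinate -/
def cut (b : ι) : (ι → V) →ₗ[F] (ι → V) := LinearMap.pi fun p => if p = b then 0 else proj p

theorem cut_apply (b : ι) (n : ι → V) (p : ι) : cut b n p = if p = b then 0 else n p := by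
  simp only [cut, LinearMap.pi_apply]; split_ifs <;> rfl

@[simp] theorem cut_self (b : ι) (n : ι → V) : cut b n b = 0 := by simp [cut_apply]

theorem cut_ne {b p : ι} (h : p ≠ b) (n : ι → V) : cut b n p = n p := by simp [cut_apply, h]

theorem cut_of {b : ι} {n : ι → V} (h : n b = 0) : cut b n = n := by
  funext p; by_cases e : p = b <;> simp [cut_apply, e, h]

@[simp] theorem cut_single (b : ι) (v : V) : cut b (Pi.single b v : ι → V) = 0 := by
  funext p; by_cases e : p = b <;> simp [cut_apply, e]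

theorem cut_add_single (b : ι) (n : ι → V) : cut b n + Pi.single b (n b) = n := by
  funext p; by_cases e : p = b <;> simp [cut_apply, e]

theorem cut_eq (b : ι) (n : ι → V) : cut b n = n + Pi.single b (n b) := by
  funext p; by_cases e : p = b <;> simp [cut_apply, e, h2]

theorem dia_cut (d : ι → V →ₗ[F] V) (b : ι) (n : ι → V) : dia d (cut b n) = cut b (dia d n) := by
  funext p; by_cases e : p = b <;> simp [cut_apply, e]

theorem dia_single (d : ι → V →ₗ[F] V) (b : ι) (v : V) :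
    dia d (Pi.single b v) = Pi.single b (d b v) := by
  funext p; by_cases e : p = b <;> simp [e]

theorem inn_split (x : ι → ι → V →ₗ[F] V) {i j : ι} (h : N i j = 3) (n : ι → V) :
    inn N x i n = x j i (n j) + inn N x i (cut j n) := by
  conv_lhs => rw [← cut_add_single j n, map_add, inn_single x h, add_comm]

/-- families on the neighbours of `a` other than `b` -/
def nx (X : Ob N V) (k : ℤ) (a b : ι) : Submodule F (ι → V) :=
  nb N (X.G k) a ⊓ LinearMap.ker (proj b)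

variable {X : Ob N V} {i j : ι} {k : ℤ}

theorem mem_nx {n : ι → V} : n ∈ nx X k i j ↔ n ∈ nb N (X.G k) i ∧ n j = 0 := Iff.rfl

theorem cut_mem {n : ι → V} (h : n ∈ nb N (X.G k) i) : cut j n ∈ nx X k i j :=
  ⟨mem_nb.2 ⟨fun p hp => by
      rw [cut_apply]; split_ifs; exacts [zero_mem _, (mem_nb.1 h).1 p hp],
    fun p hp => by rw [cut_apply]; split_ifs; exacts [rfl, (mem_nb.1 h).2 p hp]⟩, cut_self _ _⟩

theorem dia_nx {n : ι → V} (h : n ∈ nx X k i j) : dia X.d n ∈ nx X (k + 1) i j :=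
  ⟨X.dia_mem h.1, by have := (mem_nx.1 h).2; simp [this]⟩

theorem inn_nx {n : ι → V} (h : n ∈ nx X k i j) : inn N X.x i n ∈ X.G k i :=
  inn_mem (X.x_mem k) h.1

/-- the small complexes -/
abbrev K (ι V : Type) := (ι → V) × (ι → V) × V

/-- the incoming map of a reflected object at a neighbour -/
theorem inn_rx (x : ι → ι → V →ₗ[F] V) (t : V →ₗ[F] V) (h : N i j = 3) (ν : ι → (ι → V) × V) :
    inn N (rx N x t i) j ν = (0, (ν i).1 j + inn N x j (cut i fun p => (ν p).2)) := by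
  rw [inn_split _ (adj_symm h), inn_map (x := x) (n := cut i fun p => (ν p).2) (inr F (ι → V) V)]
  · rw [← Prod.mk.eta (p := ν i), rx_from]; simp
  · intro p _
    by_cases e : p = i
    · simp [e, Prod.ext_iff]
    · rw [cut_ne e, cut_ne e, ← Prod.mk.eta (p := ν p), rx_ne e (adj_ne h).symm]; rfl

variable (X i j)

def e1 : K ι V →ₗ[F] (ι → (ι → V) × V) × (ι → V) × V :=
  (LinearMap.pi fun p => if p = i then
    (fst F _ _ + LinearMap.single F (fun _ => V) j ∘ₗ inn N X.x j ∘ₗ fst F _ _ ∘ₗ snd F _ _).prod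
      (snd F _ _ ∘ₗ snd F _ _)
    else inr F _ _ ∘ₗ proj p ∘ₗ fst F _ _ ∘ₗ snd F _ _).prod 0

def p1 : ((ι → (ι → V) × V) × (ι → V) × V) →ₗ[F] K ι V :=
  (cut j ∘ₗ fst F _ _ ∘ₗ proj i ∘ₗ fst F _ _).prod
    ((cut i ∘ₗ dia (fun _ => snd F _ _) ∘ₗ fst F _ _).prod
      (snd F _ _ ∘ₗ proj i ∘ₗ fst F _ _ + X.x j i ∘ₗ snd F _ _ ∘ₗ snd F _ _))

def h1 (i j : ι) : ((ι → (ι → V) × V) × (ι → V) × V) →ₗ[F] (ι → (ι → V) × V) × (ι → V) × V :=
  (LinearMap.single F (fun _ => (ι → V) × V) i ∘ₗ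
    (LinearMap.single F (fun _ => V) j ∘ₗ snd F _ _ ∘ₗ snd F _ _).prod 0).prod 0

def d1 : K ι V →ₗ[F] K ι V :=
  (dia X.d ∘ₗ fst F _ _).prod ((dia X.d ∘ₗ fst F _ _ ∘ₗ snd F _ _).prod
    (inn N X.x i ∘ₗ fst F _ _ + X.x j i ∘ₗ inn N X.x j ∘ₗ fst F _ _ ∘ₗ snd F _ _ +
      X.d i ∘ₗ snd F _ _ ∘ₗ snd F _ _))

variable {X i j}

theorem e1_self (m m' : ι → V) (w : V) :
    (e1 X i j (m, m', w)).1 i = (m + Pi.single j (inn N X.x j m'), w) := by simp [e1]
theorem e1_ne {p : ι} (h : p ≠ i) (m m' : ι → V) (w : V) :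
    (e1 X i j (m, m', w)).1 p = (0, m' p) := by simp [e1, h]
@[simp] theorem e1_snd (c : K ι V) : (e1 X i j c).2 = 0 := rfl
theorem p1_apply (ν : ι → (ι → V) × V) (a : (ι → V) × V) : p1 X i j (ν, a) =
    (cut j (ν i).1, cut i fun p => (ν p).2, (ν i).2 + X.x j i a.2) := rfl
theorem h1_apply (ν : ι → (ι → V) × V) (a : (ι → V) × V) :
    h1 i j (ν, a) = (Pi.single i (Pi.single j a.2, 0), 0) := rfl
theorem d1_apply (m m' : ι → V) (w : V) : d1 X i j (m, m', w) =
    (dia X.d m, dia X.d m', inn N X.x i m + X.x j i (inn N X.x j m') + X.d i w) := rfl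

/-- the pieces of the small complex -/
def GK (X : Ob N V) (i j l : ι) (k : ℤ) : Submodule F (K ι V) :=
  (nx X k i j).prod ((nx X k j i).prod (X.G (k - 1) l))

theorem mem_GK {l : ι} {m m' : ι → V} {w : V} : (m, m', w) ∈ GK X i j l k ↔
    m ∈ nx X k i j ∧ m' ∈ nx X k j i ∧ w ∈ X.G (k - 1) l := Iff.rfl

theorem mem2 (h : N i j = 3) {ν : ι → (ι → V) × V} {a : (ι → V) × V} :
    (ν, a) ∈ ((X.rho i).rho j).G k j ↔ (ν i).1 ∈ nb N (X.G k) i ∧ (ν i).2 ∈ X.G (k - 1) i ∧
      (∀ p, p ≠ i → (ν p).1 = 0) ∧ (cut i fun p => (ν p).2) ∈ nb N (X.G k) j ∧ a.1 = 0 ∧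
      a.2 ∈ X.G (k - 1) j := by
  have hji := adj_symm h
  rw [mem_rho_self, ← Prod.mk.eta (p := a), mem_rho_ne (adj_ne h).symm, mem_nb (n := ν)]
  constructor
  · rintro ⟨⟨h1, h2⟩, h3, h4⟩
    have := h1 i hji
    rw [← Prod.mk.eta (p := ν i), mem_rho_self] at this
    have h5 : ∀ p, p ≠ i → N j p = 3 → (ν p).1 = 0 ∧ (ν p).2 ∈ X.G k p := fun p e hp => by
      have := h1 p hp
      rwa [← Prod.mk.eta (p := ν p), mem_rho_ne e] at this
    refine ⟨this.1, this.2, fun p e => ?_, mem_nb.2 ⟨fun p hp => ?_, fun p hp => ?_⟩, h3, h4⟩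
    · by_cases hp : N j p = 3
      exacts [(h5 p e hp).1, by simp [h2 p hp]]
    · rw [cut_apply]; split_ifs with e; exacts [zero_mem _, (h5 p e hp).2]
    · simp [cut_apply, h2 p hp]
  · rintro ⟨h1, h2, h3, h4, h5, h6⟩
    refine ⟨⟨fun p hp => ?_, fun p hp => ?_⟩, h5, h6⟩
    · rw [← Prod.mk.eta (p := ν p)]
      by_cases e : p = i
      · subst e; exact mem_rho_self.2 ⟨h1, h2⟩
      · exact (mem_rho_ne e).2 ⟨h3 p e, by simpa [cut_ne e] using (mem_nb.1 h4).1 p hp⟩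
    · have e : p ≠ i := by rintro rfl; exact hp hji
      exact Prod.ext (h3 p e) (by simpa [cut_ne e] using (mem_nb.1 h4).2 p hp)

theorem e1_cut (m m' : ι → V) (w : V) (hm : m' i = 0) :
    (cut i fun p => ((e1 X i j (m, m', w)).1 p).2) = m' := by
  funext p; by_cases e : p = i
  · simp [e, hm]
  · rw [cut_ne e, e1_ne e]

theorem d2 (h : N i j = 3) (ν : ι → (ι → V) × V) (a : (ι → V) × V) :
    ((X.rho i).rho j).d j (ν, a) = (dia (X.rho i).d ν, dia X.d a.1,
      (ν i).1 j + inn N X.x j (cut i fun p => (ν p).2) + (inn N X.x j a.1 + X.d j a.2)) := by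
  rw [rho_d, rho_x, inn_rx _ _ h, ← Prod.mk.eta (p := a), rho_d]; simp

theorem d1c (a : (ι → V) × V) (p : ι) : (X.rho i).d p a =
    (dia X.d a.1, inn N X.x p a.1 + X.d p a.2) := rfl

/-- the first retraction -/
def R1 (X : Ob N V) (h : N i j = 3) : Retr ((X.rho i).rho j) j (K ι V) where
  G := GK X i j i
  d := d1 X i j
  e := e1 X i j
  p := p1 X i j
  h := h1 i j
  d_mem k := by
    rintro ⟨m, m', w⟩ hc
    obtain ⟨a, b, c⟩ := mem_GK.1 hc
    rw [d1_apply, mem_GK]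
    exact ⟨dia_nx a, dia_nx b, by
      simpa using add_mem (add_mem (inn_nx a) (X.x_mem _ _ _ (adj_symm h) _ (inn_nx b))) (X.d_mem' c)⟩
  e_mem k := by
    rintro ⟨m, m', w⟩ hc
    obtain ⟨a, b, c⟩ := mem_GK.1 hc
    rw [← Prod.mk.eta (p := e1 X i j _), mem2 h, e1_self, e1_cut _ _ _ (mem_nx.1 b).2]
    exact ⟨add_mem a.1 (single_mem h (inn_nx b)), c, fun p e => by rw [e1_ne e], b.1, rfl,
      zero_mem _⟩
  p_mem k := by
    rintro ⟨ν, a⟩ hv
    obtain ⟨a1, a2, -, a4, -, a6⟩ := (mem2 h).1 hv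
    exact ⟨cut_mem a1, ⟨a4, cut_self _ _⟩, add_mem a2 (X.x_mem _ _ _ (adj_symm h) _ a6)⟩
  h_mem k := by
    rintro ⟨ν, a⟩ hv
    obtain ⟨-, -, -, -, -, a6⟩ := (mem2 h).1 hv
    rw [h1_apply, mem2 h]
    refine ⟨by simpa using single_mem h a6, by simp, fun p e => by simp [e], ?_, rfl, zero_mem _⟩
    rw [show (cut i fun p => (Pi.single (M := fun _ => (ι → V) × V) i (Pi.single j a.2, 0) p).2) = 0
      from funext fun p => by by_cases e : p = i <;> simp [cut_apply, e]]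
    exact zero_mem _
  de k := by
    rintro ⟨m, m', w⟩ hc
    obtain ⟨a, b, c⟩ := mem_GK.1 hc
    rw [← Prod.mk.eta (p := e1 X i j (m, m', w)), d2 h, e1_cut _ _ _ (mem_nx.1 b).2, d1_apply]
    refine Prod.ext (funext fun p => ?_) ?_
    · by_cases e : p = i
      · subst e
        simp [d1c, e1_self, dia_single, X.d_inn b.1, inn_single _ h]
      · simp [d1c, e1_ne e]
    · have := (mem_nx.1 a).2
      simp [e1_self, this, h2, Prod.ext_iff]
  dp k := by
    rintro ⟨ν, a⟩ hv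
    obtain ⟨a1, a2, a3, a4, a5, a6⟩ := (mem2 h).1 hv
    rw [d2 h, p1_apply, p1_apply, d1_apply]
    refine Prod.ext (dia_cut _ _ _) (Prod.ext (funext fun p => ?_) ?_)
    · by_cases e : p = i
      · simp [e]
      · simp [cut_ne e, d1c, a3 p e]
    · simp [d1c, a5, inn_split X.x h (ν i).1, X.dx _ _ _ (adj_symm h) _ a6, add_assoc, add_comm,
        add_left_comm, h2']
  pe k := by
    rintro ⟨m, m', w⟩ hc
    obtain ⟨a, b, c⟩ := mem_GK.1 hc
    rw [← Prod.mk.eta (p := e1 X i j (m, m', w)), p1_apply, e1_cut _ _ _ (mem_nx.1 b).2, e1_self]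
    simp [cut_of (mem_nx.1 a).2]
  ep k := by
    rintro ⟨ν, a⟩ hv
    obtain ⟨a1, a2, a3, a4, a5, a6⟩ := (mem2 h).1 hv
    rw [d2 h, h1_apply, h1_apply, d2 h, p1_apply]
    refine Prod.ext (funext fun p => ?_) ?_
    · by_cases e : p = i
      · subst e
        simp only [e1_self, Prod.fst_add, Pi.add_apply, d1c, Pi.single_eq_same, a5, map_zero,
          dia_single, inn_single _ h]
        refine Prod.ext ?_ (by simp)
        simp [cut_eq j (ν p).1, Pi.single_add, add_assoc, add_comm, add_left_comm, h2']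
      · simp [e1_ne e, d1c, e, cut_ne e, Prod.ext_iff, a3 p e]
    · rw [show (cut i fun p => (Pi.single (M := fun _ => (ι → V) × V) i (Pi.single j a.2, 0) p).2)
        = 0 from funext fun p => by by_cases e : p = i <;> simp [cut_apply, e]]
      simp [Prod.ext_iff, a5, h2]

end Pool.Agent.WP34.Braid
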