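import Pool.Agent.Lib.WP34.Braid1

/-! The second retraction for the braid relation. -/

set_option linter.unusedSectionVars false

namespace Pool.Agent.WP34.Braid

open LinearMap (fst snd proj inr)
open Ob Retr

variable {ι : Type} [Fintype ι] [DecidableEq ι] {N : CoxeterMatrix ι} {V : Type} [AddCommGroup V]
  [Module F V] {X : Ob N V} {i j l : ι} {k : ℤ}

/-- ambient space after the first retraction -/
abbrev A (ι V : Type) := K ι V × (ι → (ι → V) × V) × (ι → V) × V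

/-- the object after the first retraction -/
abbrev Z (X : Ob N V) (h : N i j = 3) : Ob N (A ι V) := (R1 X h).tr

/-- the arrows into the small complex at `j` -/
def gj (X : Ob N V) (i j : ι) (b : V) : K ι V :=
  (cut j (out N X.x i (X.x j i b)), cut i (out N X.x j b), X.t i (X.x j i b) + X.x j i (X.t j b))

section

variable (h : N i j = 3) {c : K ι V} {ν : ι → (ι → V) × V} {a : (ι → V) × V}
include h

theorem Z_mem_i : (c, ν, a) ∈ (Z X h).G k i ↔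
    c = 0 ∧ ν = 0 ∧ a.1 ∈ nb N (X.G k) i ∧ a.2 ∈ X.G (k - 1) i := by
  rw [mem_tr_ne (adj_ne h), mem_rho_ne (adj_ne h), ← Prod.mk.eta (p := a), mem_rho_self]

theorem Z_mem_o (hi : l ≠ i) (hj : l ≠ j) : (c, ν, a) ∈ (Z X h).G k l ↔
    c = 0 ∧ ν = 0 ∧ a.1 = 0 ∧ a.2 ∈ X.G k l := by
  rw [mem_tr_ne hj, mem_rho_ne hj, ← Prod.mk.eta (p := a), mem_rho_ne hi]

theorem Z_mem_j {w} : (c, w) ∈ (Z X h).G k j ↔ c ∈ GK X i j i k ∧ w = 0 := mem_tr_self

theorem Z_d (l : ι) : (Z X h).d l (c, 0, a) =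
    (d1 X i j c, 0, dia X.d a.1, inn N X.x l a.1 + X.d l a.2) := by
  rw [tr_d, rho_d, map_zero, map_zero, zero_add]; rfl

theorem p1_to (b : V) : p1 X i j (out N (X.rho i).x j (0, b), (X.rho i).t j (0, b)) = gj X i j b := by
  have e := (adj_ne h).symm
  rw [p1_apply, rho_t_ne e, out_apply, if_pos (adj_symm h), rho_x, rx_to e]
  refine Prod.ext rfl (Prod.ext (funext fun p => ?_) rfl)
  by_cases e' : p = i
  · simp [gj, e']
  · simp only [gj, cut_ne e', out_apply]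
    split_ifs
    exacts [by rw [rx_ne e e'], rfl]

theorem Z_xi (hj : l ≠ j) : (Z X h).x i l (c, ν, a) = (0, 0, 0, a.1 l) := by
  rw [tr_x, x_ne _ _ _ (adj_ne h) hj, rho_x, rx_ne (adj_ne h) hj, rho_x, ← Prod.mk.eta (p := a),
    rx_from]

theorem Z_xij : (Z X h).x i j (c, ν, a) = (gj X i j (a.1 j), 0) := by
  rw [tr_x, x_to _ _ _ (adj_ne h), rho_x, rx_to (adj_ne h), ← p1_to h, rho_x (X := X),
    ← Prod.mk.eta (p := a), rx_from]
  rfl

theorem Z_xj {w} : (Z X h).x j l (c, w) = (0, 0, (e1 X i j c).1 l) := by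
  rw [tr_x, x_from, rho_x, ← Prod.mk.eta (p := (R1 X h).e c), rx_from]; rfl

theorem Z_xoi (hi : l ≠ i) (hj : l ≠ j) : (Z X h).x l i (c, ν, a) =
    (0, 0, out N X.x i (X.x l i a.2), X.t i (X.x l i a.2)) := by
  rw [tr_x, x_ne _ _ _ hj (adj_ne h), rho_x, rx_ne hj (adj_ne h), rho_x, ← Prod.mk.eta (p := a),
    rx_to hi]

theorem Z_xoj (hi : l ≠ i) (hj : l ≠ j) : (Z X h).x l j (c, ν, a) = (gj X i j (X.x l j a.2), 0) := by
  rw [tr_x, x_to _ _ _ hj, rho_x, rx_to hj, ← p1_to h, rho_x (X := X),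
    ← Prod.mk.eta (p := a), rx_ne hi (adj_ne h).symm]
  rfl

theorem Z_xoo {m : ι} (hi : l ≠ i) (hj : l ≠ j) (mi : m ≠ i) (mj : m ≠ j) :
    (Z X h).x l m (c, ν, a) = (0, 0, 0, X.x l m a.2) := by
  rw [tr_x, x_ne _ _ _ hj mj, rho_x, rx_ne hj mj, rho_x, ← Prod.mk.eta (p := a), rx_ne hi mi]

theorem Z_ti : (Z X h).t i (c, ν, a) =
    (0, 0, out N X.x i a.2 + Pi.single j (X.t j (a.1 j)), X.t i a.2) := by
  have e := adj_ne h
  obtain ⟨n, v⟩ := a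
  rw [tr_t_ne e, cor_adj _ _ h, rho_t_ne e, rho_x, rx_to e, rho_x (X := X), rx_from, rho_t_self, rho_t_ne e.symm]
  erw [h1_apply]
  simp

theorem Z_tj {w} : (Z X h).t j (c, w) = 0 := by
  rw [tr_t_self, ← Prod.mk.eta (p := (R1 X h).e c), rho_t_self]
  erw [e1_snd]
  rw [map_zero, map_zero]
  exact Prod.ext (map_zero (R1 X h).p) rfl

theorem Z_to (hi : l ≠ i) (hj : l ≠ j) : (Z X h).t l (c, ν, a) = (0, 0, 0, X.t l a.2) := by
  rw [tr_t_ne hj, rho_t_ne hj, ← Prod.mk.eta (p := a), rho_t_ne hi]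
  by_cases e : N l j = 3
  · rw [cor_adj _ _ e, rho_x, rx_to hj]
    erw [h1_apply]
    simp [hi]
  · simp [cor_not _ _ e]

theorem inn_Z (μ : ι → A ι V) : inn N (Z X h).x i μ =
    (0, 0, (μ j).1.1 + Pi.single j (inn N X.x j (μ j).1.2.1) +
      out N X.x i (inn N X.x i (cut j fun p => (μ p).2.2.2)),
      (μ j).1.2.2 + X.t i (inn N X.x i (cut j fun p => (μ p).2.2.2))) := by
  rw [inn_split _ h, inn_map (x := X.x) (n := cut j fun p => (μ p).2.2.2)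
    (inr F (K ι V) _ ∘ₗ inr F (ι → (ι → V) × V) _ ∘ₗ (out N X.x i).prod (X.t i))]
  · rw [← Prod.mk.eta (p := μ j), Z_xj h]
    obtain ⟨⟨m, m', w⟩, _⟩ := μ j
    simp [e1_self]
  · intro p hp
    by_cases e : p = j
    · simp [e, Prod.ext_iff]
    · rw [cut_ne e, cut_ne e]
      exact Z_xoi h (adj_ne hp).symm e

theorem mem3 {μ : ι → A ι V} {α : A ι V} : (μ, α) ∈ ((Z X h).rho i).G k i ↔
    (μ j).1 ∈ GK X i j i k ∧ (μ j).2 = 0 ∧ (∀ p, p ≠ j → μ p = (0, 0, 0, (μ p).2.2.2)) ∧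
      (cut j fun p => (μ p).2.2.2) ∈ nb N (X.G k) i ∧ α = (0, 0, α.2.2) ∧
      α.2.2.1 ∈ nb N (X.G (k - 1)) i ∧ α.2.2.2 ∈ X.G (k - 1 - 1) i := by
  obtain ⟨c, ν, a⟩ := α
  rw [mem_rho_self, Z_mem_i h, mem_nb (n := μ)]
  constructor
  · rintro ⟨⟨h1, h2⟩, rfl, rfl, h3, h4⟩
    have := (Z_mem_j h).1 (h1 j h)
    have h5 : ∀ p, p ≠ j → N i p = 3 → μ p = (0, 0, 0, (μ p).2.2.2) ∧ (μ p).2.2.2 ∈ X.G k p :=
      fun p e hp => by
        obtain ⟨b1, b2, b3, b4⟩ := (Z_mem_o h (adj_ne hp).symm e).1 (h1 p hp)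
        exact ⟨Prod.ext b1 (Prod.ext b2 (Prod.ext b3 rfl)), b4⟩
    refine ⟨this.1, this.2, fun p e => ?_, mem_nb.2 ⟨fun p hp => ?_, fun p hp => ?_⟩, rfl, h3, h4⟩
    · by_cases hp : N i p = 3
      exacts [(h5 p e hp).1, by simp [h2 p hp, Prod.ext_iff]]
    · rw [cut_apply]; split_ifs with e; exacts [zero_mem _, (h5 p e hp).2]
    · simp [cut_apply, h2 p hp]
  · rintro ⟨h1, h2, h3, h4, h5, h6, h7⟩
    obtain ⟨rfl, rfl⟩ : c = 0 ∧ ν = 0 := by simpa using h5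
    refine ⟨⟨fun p hp => ?_, fun p hp => ?_⟩, rfl, rfl, h6, h7⟩
    · by_cases e : p = j
      · subst e; exact (Z_mem_j h).2 ⟨h1, h2⟩
      · rw [h3 p e, Z_mem_o h (adj_ne hp).symm e]
        exact ⟨rfl, rfl, rfl, by simpa [cut_ne e] using (mem_nb.1 h4).1 p hp⟩
    · have e : p ≠ j := by rintro rfl; exact hp h
      have := (mem_nb.1 h4).2 p hp
      rw [cut_ne e] at this
      rw [h3 p e, this]; rfl

end

variable (X i j)

def e2 : K ι V →ₗ[F] (ι → A ι V) × A ι V :=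
  (LinearMap.pi fun p => if p = j then
    ((cut j ∘ₗ out N X.x i ∘ₗ inn N X.x i ∘ₗ fst F _ _).prod ((fst F _ _ ∘ₗ snd F _ _).prod
      (X.t i ∘ₗ inn N X.x i ∘ₗ fst F _ _ + X.x j i ∘ₗ snd F _ _ ∘ₗ snd F _ _))).prod 0
    else inr F _ _ ∘ₗ inr F _ _ ∘ₗ inr F _ _ ∘ₗ proj p ∘ₗ fst F _ _).prod
  (inr F _ _ ∘ₗ inr F _ _ ∘ₗ
    (LinearMap.single F (fun _ => V) j ∘ₗ snd F _ _ ∘ₗ snd F _ _).prod 0)

def p2 (j : ι) : ((ι → A ι V) × A ι V) →ₗ[F] K ι V :=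
  (cut j ∘ₗ dia (fun _ => snd F _ _ ∘ₗ snd F _ _ ∘ₗ snd F _ _) ∘ₗ fst F _ _).prod
    ((fst F _ _ ∘ₗ snd F _ _ ∘ₗ fst F _ _ ∘ₗ proj j ∘ₗ fst F _ _).prod
      (proj j ∘ₗ fst F _ _ ∘ₗ snd F _ _ ∘ₗ snd F _ _ ∘ₗ snd F _ _))

def hh2 (j : ι) : ((ι → A ι V) × A ι V) →ₗ[F] (ι → A ι V) × A ι V :=
  (LinearMap.single F (fun _ => A ι V) j ∘ₗ
    ((cut j ∘ₗ fst F _ _ ∘ₗ snd F _ _ ∘ₗ snd F _ _ ∘ₗ snd F _ _).prod
      ((0 : _ →ₗ[F] (ι → V)).prod (snd F _ _ ∘ₗ snd F _ _ ∘ₗ snd F _ _ ∘ₗ snd F _ _))).prod 0).prod 0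

def dd2 : K ι V →ₗ[F] K ι V :=
  (dia X.d ∘ₗ fst F _ _).prod ((dia X.d ∘ₗ fst F _ _ ∘ₗ snd F _ _).prod
    (X.x i j ∘ₗ inn N X.x i ∘ₗ fst F _ _ + inn N X.x j ∘ₗ fst F _ _ ∘ₗ snd F _ _ +
      X.d j ∘ₗ snd F _ _ ∘ₗ snd F _ _))

variable {X i j}

theorem e2_self (n n' : ι → V) (u : V) : (e2 X i j (n, n', u)).1 j =
    ((cut j (out N X.x i (inn N X.x i n)), n', X.t i (inn N X.x i n) + X.x j i u), 0) := by
  simp [e2]
theorem e2_ne {p : ι} (h : p ≠ j) (n n' : ι → V) (u : V) :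
    (e2 X i j (n, n', u)).1 p = (0, 0, 0, n p) := by simp [e2, h]
theorem e2_snd (n n' : ι → V) (u : V) : (e2 X i j (n, n', u)).2 = (0, 0, Pi.single j u, 0) := rfl
theorem p2_apply (μ : ι → A ι V) (α : A ι V) : p2 j (μ, α) =
    (cut j fun p => (μ p).2.2.2, (μ j).1.2.1, α.2.2.1 j) := rfl
theorem hh2_apply (μ : ι → A ι V) (α : A ι V) :
    hh2 j (μ, α) = (Pi.single j ((cut j α.2.2.1, 0, α.2.2.2), 0), 0) := rfl
theorem dd2_apply (n n' : ι → V) (u : V) : dd2 X i j (n, n', u) =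
    (dia X.d n, dia X.d n', X.x i j (inn N X.x i n) + inn N X.x j n' + X.d j u) := rfl

theorem e2_cut (n n' : ι → V) (u : V) (hn : n j = 0) :
    (cut j fun p => ((e2 X i j (n, n', u)).1 p).2.2.2) = n := by
  funext p; by_cases e : p = j
  · simp [e, hn]
  · rw [cut_ne e, e2_ne e]

theorem cut_sgl (c : K ι V) :
    (cut j fun p => (Pi.single (M := fun _ => A ι V) j (c, 0) p).2.2.2) = 0 :=
  funext fun p => by by_cases e : p = j <;> simp [cut_apply, e]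

/-- the second retraction -/
def R2 (X : Ob N V) (h : N i j = 3) : Retr ((Z X h).rho i) i (K ι V) where
  G := GK X i j j
  d := dd2 X i j
  e := e2 X i j
  p := p2 j
  h := hh2 j
  d_mem k := by
    rintro ⟨n, n', u⟩ hc
    obtain ⟨a, b, c⟩ := mem_GK.1 hc
    rw [dd2_apply, mem_GK]
    exact ⟨dia_nx a, dia_nx b, by
      simpa using add_mem (add_mem (X.x_mem _ _ _ h _ (inn_nx a)) (inn_nx b)) (X.d_mem' c)⟩
  e_mem k := by
    rintro ⟨n, n', u⟩ hc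
    obtain ⟨a, b, c⟩ := mem_GK.1 hc
    rw [← Prod.mk.eta (p := e2 X i j _), mem3 h, e2_self, e2_cut _ _ _ (mem_nx.1 a).2, e2_snd]
    exact ⟨mem_GK.2 ⟨cut_mem (out_mem (X.x_mem k) (inn_nx a)), b,
      add_mem (X.t_mem _ _ _ (inn_nx a)) (X.x_mem _ _ _ (adj_symm h) _ c)⟩, rfl,
      fun p e => by rw [e2_ne e], a.1, rfl, single_mem h c, zero_mem _⟩
  p_mem k := by
    rintro ⟨μ, α⟩ hv
    obtain ⟨a1, -, -, a4, -, a6, -⟩ := (mem3 h).1 hv
    exact ⟨⟨a4, cut_self _ _⟩, a1.2.1, (mem_nb.1 a6).1 j h⟩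
  h_mem k := by
    rintro ⟨μ, α⟩ hv
    obtain ⟨-, -, -, -, -, a6, a7⟩ := (mem3 h).1 hv
    rw [hh2_apply, mem3 h, cut_sgl, Pi.single_eq_same]
    exact ⟨mem_GK.2 ⟨cut_mem a6, zero_mem _, a7⟩, rfl, fun p e => by simp [e, Prod.ext_iff],
      zero_mem _, rfl, zero_mem _, zero_mem _⟩
  de k := by
    rintro ⟨n, n', u⟩ hc
    obtain ⟨a, b, c⟩ := mem_GK.1 hc
    have a' := inn_nx a
    rw [← Prod.mk.eta (p := e2 X i j (n, n', u)), rho_d, inn_Z h, e2_cut _ _ _ (mem_nx.1 a).2,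
      dd2_apply, e2_snd, Z_d h, e2_self]
    refine Prod.ext (funext fun p => ?_) ?_
    · dsimp only
      by_cases e : p = j
      · subst e
        rw [dia_apply, e2_self, e2_self, show (0 : (ι → (ι → V) × V) × (ι → V) × V) = (0, 0) from rfl,
          Z_d h, d1_apply, dia_cut, X.dia_out a', X.d_inn a.1, map_add, X.dt _ _ _ a', X.d_inn a.1,
          inn_split X.x h (out N X.x i (inn N X.x i n)), X.dx _ _ _ (adj_symm h) _ c, out_apply,
          if_pos h]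
        simp [add_assoc, add_comm, add_left_comm, h2, Prod.ext_iff]
      · rw [dia_apply, e2_ne e, e2_ne e, Z_d h]; simp
    · rw [e2_snd]
      simp [cut_eq j (out N X.x i _), out_apply, h, dia_single, inn_single _ h, Pi.single_add,
        add_assoc, add_comm, add_left_comm, h2', h2]
  dp k := by
    rintro ⟨μ, α⟩ hv
    obtain ⟨a1, a2, a3, a4, a5, a6, a7⟩ := (mem3 h).1 hv
    rw [rho_d, inn_Z h, a5, Z_d h, p2_apply, p2_apply, dd2_apply]
    refine Prod.ext (funext fun p => ?_) (Prod.ext ?_ ?_)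
    · by_cases e : p = j
      · simp [e]
      · simp only [dia_apply, cut_ne e]
        rw [a3 p e, Z_d h]; simp
    · rfl
    · have : (μ j).1.1 j = 0 := a1.1.2
      simp [this, out_apply, h, add_comm]
  pe k := by
    rintro ⟨n, n', u⟩ hc
    obtain ⟨a, b, c⟩ := mem_GK.1 hc
    rw [← Prod.mk.eta (p := e2 X i j (n, n', u)), p2_apply, e2_cut _ _ _ (mem_nx.1 a).2, e2_self,
      e2_snd]
    simp
  ep k := by
    rintro ⟨μ, α⟩ hv
    obtain ⟨a1, a2, a3, a4, a5, a6, a7⟩ := (mem3 h).1 hv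
    have b1 : (μ j).1.1 j = 0 := a1.1.2
    rw [hh2_apply, rho_d, rho_d, inn_Z h, inn_Z h, cut_sgl, a5, Z_d h, hh2_apply, p2_apply]
    refine Prod.ext (funext fun p => ?_) ?_
    · by_cases e : p = j
      · subst e
        simp only [e2_self, Prod.fst_add, Pi.add_apply, dia_apply, Pi.single_eq_same]
        rw [show (0 : (ι → (ι → V) × V) × (ι → V) × V) = (0, 0) from rfl, Z_d h, d1_apply]
        simp [Prod.ext_iff, a2, cut_of b1, dia_cut, inn_split X.x h α.2.2.1, add_assoc, add_comm,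
          add_left_comm, h2', h2]
      · simp only [e2_ne e, Prod.fst_add, Pi.add_apply, dia_apply, Pi.single_eq_of_ne e, map_zero,
          add_zero, cut_ne e]
        exact (a3 p e).symm
    · rw [e2_snd]
      simp [cut_eq j α.2.2.1, h2, h2', Prod.ext_iff]

end Pool.Agent.WP34.Braid
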