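import Pool.Agent.Lib.WP34.BraidB3

/-! The braid relation. -/

set_option linter.unusedSectionVars false

namespace Pool.Agent.WP34.BraidB

open LinearMap (fst snd proj)

variable {ι : Type} [Fintype ι] [DecidableEq ι] {N : CoxeterMatrix ι} {V : Type} [AddCommGroup V]
  [Module F V]

/-- the ambient space of the model -/
abbrev WY (ι V : Type) := K ι V × (ι → WZ ι V) × WZ ι V

/-- embedding at the first vertex -/
def eA : K ι V →ₗ[F] WY ι V := mkL (fun c => (c, 0)) fun a b => by simp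
/-- embedding at the second vertex -/
def eB : K ι V →ₗ[F] WY ι V := mkL (fun c => (0, 0, c, 0)) fun a b => by simp
/-- embedding at the other vertices -/
def eC : V →ₗ[F] WY ι V := mkL (fun v => (0, 0, 0, 0, 0, v)) fun a b => by simp

theorem eA_apply (c : K ι V) : eA c = (c, 0) := rfl
theorem eB_apply (c : K ι V) : eB c = (0, 0, c, 0) := rfl
theorem eC_apply (v : V) : (eC v : WY ι V) = (0, 0, 0, 0, 0, v) := rfl

variable {X : Ob N V} {i j l m : ι} (a : N i j = 3) {k : ℤ}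

theorem R2_e : (R2 X a).e = e2 X i j := rfl
theorem R2_p : (R2 X a).p = p2 j := rfl
theorem R2_h : (R2 X a).h = hh2 j := rfl

theorem xY_to (h : l ≠ i) (c : K ι V) (b : ι → WZ ι V) (z : WZ ι V) {n : ι → V} {v : V}
    (hn : ∀ p, N i p ≠ 3 → n p = 0) (hs : (R1 X a).tr.x l i z = (0, 0, n, v)) :
    (R2 X a).tr.x l i (c, b, z) =
      ((zo j n, zo i (out N X.x j (n j)), X.x i j v + X.t j (n j)), 0) := by
  rw [Retr.tr_x, Retr.x_to _ _ _ h, R2_p, Ob.rho_x, rx_to h, hs, out_Z a _ _ hn, tZ_i,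
    p2_apply _ _ _ (zo_self _ _)]
  simp [out_apply, a]

theorem xY_ne (h : l ≠ i) (h' : m ≠ i) (c : K ι V) (b : ι → WZ ι V) (z : WZ ι V) :
    (R2 X a).tr.x l m (c, b, z) = (0, 0, (R1 X a).tr.x l m z) := by
  rw [Retr.tr_x, Retr.x_ne _ _ _ h h', Ob.rho_x, rx_ne h h']

theorem halfA : Half X (R2 X a).tr i j eA eB eC where
  mem k := by
    rintro ⟨c, v⟩
    rw [Retr.mem_tr_self]
    exact ⟨fun ⟨h, e⟩ => ⟨c, h, by rw [e]; rfl⟩, fun ⟨c', h, e⟩ => by cases e; exact ⟨h, rfl⟩⟩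
  inj := ⟨fst _ _ _, fun _ => rfl⟩
  d k c h := by rw [eA_apply, Retr.tr_d, LinearMap.map_zero]; rfl
  t k n n' u h := by
    rw [eA_apply, Retr.tr_t_self, R2_e, R2_p, e2_apply, Ob.rho_t_self,
      out_Z a _ _ fun p b => Pi.single_eq_of_ne (by rintro rfl; exact b a) _, tZ_i,
      p2_apply _ _ _ (zo_self _ _), eA_apply]
    simp
  xAB k n n' u h := by
    rw [eA_apply, Retr.tr_x, Retr.x_from, R2_e, e2_apply, Ob.rho_x, rx_from, fm_self, eB_apply]
  xAC k n n' u l h h' _ := by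
    rw [eA_apply, Retr.tr_x, Retr.x_from, R2_e, e2_apply, Ob.rho_x, rx_from, fm_ne h', eC_apply]
  xCA k l v h h' b hv := by
    rw [eC_apply, xY_to a h _ _ _ (n := out N X.x i (X.x l i v)) (v := X.t i (X.x l i v))
      (fun p b => by simp [out_apply, b]) (by rw [xZ_ne a h' (adj_ne a), rx_to h]), eA_apply]
    simp [out_apply, a]

include a in
theorem nb_add_single {G : ι → Submodule F V} {n : ι → V} (h : n ∈ nb N G i) (s : V) (p : ι)
    (b : N i p ≠ 3) : (n + Pi.single j s : ι → V) p = 0 := by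
  have : p ≠ j := by rintro rfl; exact b a
  simp [(mem_nb.1 h).2 p b, this]

theorem halfB : Half X (R2 X a).tr j i eB eA eC where
  mem k := by
    rintro ⟨c, b, z⟩
    rw [Retr.mem_tr_ne (adj_ne a).symm, Ob.mem_rho_ne (adj_ne a).symm, memZ_j a]
    exact ⟨fun ⟨e, e', c, h, e''⟩ => ⟨c, h, by rw [e, e', e'']; rfl⟩,
      fun ⟨c', h, e⟩ => by cases e; exact ⟨rfl, rfl, c', h, rfl⟩⟩
  inj := ⟨fst _ _ _ ∘ₗ snd _ _ _ ∘ₗ snd _ _ _, fun _ => rfl⟩
  d k c h := by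
    rw [eB_apply, Retr.tr_d, Ob.rho_d, dZ_j, eB_apply]; simp [LinearMap.map_zero]
  t k m' m w h := by
    obtain ⟨-, ⟨h3, h4⟩, -⟩ := mem_KG.1 h
    rw [eB_apply, Retr.tr_t_ne (adj_ne a).symm, Ob.rho_t_ne (adj_ne a).symm, tZ_j,
      Retr.cor_adj _ _ (adj_symm a), R2_h, Ob.rho_x, rx_to (adj_ne a).symm, xZ_ji, tZ_i, hh2_apply,
      rx_from, eB_apply]
    simp
  xAB k m' m w h := by
    obtain ⟨-, ⟨h3, h4⟩, -⟩ := mem_KG.1 h
    rw [eB_apply, xY_to a (adj_ne a).symm _ _ _ (nb_add_single a h3 _) (xZ_ji a _ _ _ _), eA_apply]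
    simp [zo_eq h4, h4, add_comm]
  xAC k m' m w l h h' _ := by
    rw [eB_apply, xY_ne a (adj_ne a).symm h', xZ_jl a h', eC_apply]
  xCA k l v h h' b hv := by
    rw [eC_apply, xY_ne a h' (adj_ne a).symm, xZ_to a h _ _ _ (s := X.x l j v)
      (by rw [Ob.rho_x, rx_ne h' (adj_ne a).symm]), eB_apply, add_comm (X.t i _)]

theorem rest : Rest X (R2 X a).tr i j eC where
  mem k l := by
    rintro ⟨c, b, z⟩ h h'
    rw [Retr.mem_tr_ne h, Ob.mem_rho_ne h, memZ_l a h h']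
    exact ⟨fun ⟨e, e', c, h, e''⟩ => ⟨c, h, by rw [e, e', e'']; rfl⟩,
      fun ⟨c', h, e⟩ => by cases e; exact ⟨rfl, rfl, c', h, rfl⟩⟩
  inj := ⟨snd _ _ _ ∘ₗ snd _ _ _ ∘ₗ snd _ _ _ ∘ₗ snd _ _ _ ∘ₗ snd _ _ _, fun _ => rfl⟩
  d k l v h h' hv := by
    rw [eC_apply, Retr.tr_d, Ob.rho_d, dZ, eC_apply]; simp [LinearMap.map_zero]
  t k l v h h' hv := by
    rw [eC_apply, Retr.tr_t_ne h, Ob.rho_t_ne h, tZ_l a h h', eC_apply]
    by_cases e : N l i = 3
    · rw [Retr.cor_adj _ _ e, R2_h, Ob.rho_x, rx_to h, xZ_ne a h' (adj_ne a), rx_to h, tZ_i,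
        hh2_apply, rx_from]
      simp [fm_ne h']
    · rw [Retr.cor_not _ _ e, add_zero]
  x k l m v h h' g g' hv := by
    rw [eC_apply, xY_ne a h g, xZ_ne a h' g', rx_ne h g, eC_apply]

theorem eqv_model (h1 : St_CONG) (h2 : St_TR) (X : BO N) {i j : ι} (a : N i j = 3) :
    Eqv ⟨(R2 X.o a).tr⟩ (((X.rho i).rho j).rho i) :=
  .trans _ _ _ (h2 (BO.rho ⟨(R1 X.o a).tr⟩ i) i _ (R2 X.o a))
    (eqv_rho h1 (h2 ((X.rho i).rho j) j _ (R1 X.o a)) i)

theorem st_BRAID (h1 : St_CONG) (h2 : St_TR) : St_BRAID := fun X i j a =>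
  .trans _ _ _ (.symm _ _ (eqv_model h1 h2 X a)) (.trans _ _ _
    (.rel _ _ (qi_of_spec a (halfA a) (halfB a) (rest a) (halfB (adj_symm a)) (halfA (adj_symm a))
      (rest (adj_symm a)).symm)) (eqv_model h1 h2 X (adj_symm a)))

end Pool.Agent.WP34.BraidB
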