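import Pool.Agent.Lib.WP34.Blue

/-! The symmetric model for the braid relation: specification and uniqueness. -/

set_option linter.unusedSectionVars false

namespace Pool.Agent.WP34.BraidB

open LinearMap (fst snd proj)

/-- additive maps are linear -/
def mkL {A B : Type} [AddCommGroup A] [Module F A] [AddCommGroup B] [Module F B] (f : A → B)
    (h : ∀ a b, f (a + b) = f a + f b) : A →ₗ[F] B := (AddMonoidHom.mk' f h).toZModLinearMap 2

@[simp] theorem mkL_apply {A B : Type} [AddCommGroup A] [Module F A] [AddCommGroup B] [Module F B]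
    (f : A → B) (h : ∀ a b, f (a + b) = f a + f b) (a : A) : mkL f h a = f a := rfl

variable {ι : Type} [Fintype ι] [DecidableEq ι] {N : CoxeterMatrix ι} {V : Type} [AddCommGroup V]
  [Module F V]

/-- kill one component -/
def zo (j : ι) : (ι → V) →ₗ[F] (ι → V) := LinearMap.pi fun p => if p = j then 0 else proj p

theorem zo_apply (j : ι) (n : ι → V) (p : ι) : zo j n p = if p = j then 0 else n p := by
  simp only [zo, LinearMap.pi_apply]; split_ifs <;> rfl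

@[simp] theorem zo_self (j : ι) (n : ι → V) : zo j n j = 0 := by simp [zo_apply]
theorem zo_ne {j p : ι} (h : p ≠ j) (n : ι → V) : zo j n p = n p := by simp [zo_apply, h]
theorem zo_eq {j : ι} {n : ι → V} (h : n j = 0) : zo j n = n := by
  funext p; by_cases e : p = j
  · subst e; simp [h]
  · exact zo_ne e n
@[simp] theorem zo_single (j : ι) (v : V) : zo j (Pi.single j v : ι → V) = 0 := by
  funext p; by_cases e : p = j
  · subst e; simp
  · simp [zo_ne e, e]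
theorem zo_add_single (j : ι) (n : ι → V) : zo j n + Pi.single j (n j) = n := by
  funext p; by_cases e : p = j
  · subst e; simp
  · simp [zo_ne e, e]
theorem zo_eq_add (j : ι) (n : ι → V) : zo j n = n + Pi.single j (n j) := by
  conv_rhs => rw [← zo_add_single j n]
  simp [add_assoc, h2]
theorem dia_zo (d : ι → V →ₗ[F] V) (j : ι) (n : ι → V) : dia d (zo j n) = zo j (dia d n) := by
  funext p; by_cases e : p = j
  · subst e; simp
  · simp [zo_ne e]
theorem dia_single (d : ι → V →ₗ[F] V) (j : ι) (v : V) :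
    dia d (Pi.single j v) = Pi.single j (d j v) := by
  funext p; by_cases e : p = j
  · subst e; simp
  · simp [e]
theorem zo_mem {G : ι → Submodule F V} {i j : ι} {n : ι → V} (h : n ∈ nb N G i) :
    zo j n ∈ nb N G i :=
  mem_nb.2 ⟨fun p hp => by
    by_cases e : p = j
    · subst e; simp
    · rw [zo_ne e]; exact (mem_nb.1 h).1 p hp, fun p hp => by
    by_cases e : p = j
    · subst e; simp
    · rw [zo_ne e]; exact (mem_nb.1 h).2 p hp⟩
theorem inn_zo (x : ι → ι → V →ₗ[F] V) {i j : ι} (a : N i j = 3) (n : ι → V) :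
    inn N x i (zo j n) = inn N x i n + x j i (n j) := by
  rw [zo_eq_add, map_add, inn_single _ a]

/-- the ambient space of the small complexes -/
abbrev K (ι V : Type) := (ι → V) × (ι → V) × V

variable (X : Ob N V)

/-- the small complex at `i` -/
def KG (i j : ι) (k : ℤ) : Submodule F (K ι V) :=
  (nb N (X.G k) i ⊓ LinearMap.ker (proj j)).prod
    ((nb N (X.G k) j ⊓ LinearMap.ker (proj i)).prod (X.G (k - 1) j))

variable {X} in
theorem mem_KG {i j : ι} {k : ℤ} {n n' : ι → V} {u : V} : (n, n', u) ∈ KG X i j k ↔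
    (n ∈ nb N (X.G k) i ∧ n j = 0) ∧ (n' ∈ nb N (X.G k) j ∧ n' i = 0) ∧ u ∈ X.G (k - 1) j :=
  Iff.rfl

/-- its differential -/
def dK (i j : ι) : K ι V →ₗ[F] K ι V :=
  mkL (fun c => (dia X.d c.1, dia X.d c.2.1,
    X.x i j (inn N X.x i c.1) + inn N X.x j c.2.1 + X.d j c.2.2)) fun a b => by
      simp [add_assoc, add_comm, add_left_comm]

theorem dK_apply (i j : ι) (n n' : ι → V) (u : V) : dK X i j (n, n', u) =
    (dia X.d n, dia X.d n', X.x i j (inn N X.x i n) + inn N X.x j n' + X.d j u) := rfl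

theorem dK_mem {i j : ι} (a : N i j = 3) (k : ℤ) (c : K ι V) (h : c ∈ KG X i j k) :
    dK X i j c ∈ KG X i j (k + 1) := by
  obtain ⟨n, n', u⟩ := c
  obtain ⟨⟨h1, h2⟩, ⟨h3, h4⟩, h5⟩ := mem_KG.1 h
  rw [dK_apply, mem_KG, add_sub_cancel_right]
  exact ⟨⟨X.dia_mem h1, by simp [h2]⟩, ⟨X.dia_mem h3, by simp [h4]⟩,
    add_mem (add_mem (X.x_mem _ _ _ a _ (inn_mem (X.x_mem k) h1)) (inn_mem (X.x_mem k) h3))
      (X.d_mem' h5)⟩

variable {W W' : Type} [AddCommGroup W] [Module F W] [AddCommGroup W'] [Module F W']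

/-- the structure of the model at the vertex `i` -/
structure Half (Y : Ob N W) (i j : ι) (A B : K ι V →ₗ[F] W) (C : V →ₗ[F] W) : Prop where
  mem : ∀ k z, z ∈ Y.G k i ↔ ∃ c ∈ KG X i j k, A c = z
  inj : ∃ r : W →ₗ[F] K ι V, ∀ c, r (A c) = c
  d : ∀ k, ∀ c ∈ KG X i j k, Y.d i (A c) = A (dK X i j c)
  t : ∀ k n n' u, (n, n', u) ∈ KG X i j k →
    Y.t i (A (n, n', u)) = A (0, zo i (out N X.x j u), X.t j u)
  xAB : ∀ k n n' u, (n, n', u) ∈ KG X i j k → Y.x i j (A (n, n', u)) =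
    B (n', zo j (out N X.x i (inn N X.x i n)), X.t i (inn N X.x i n) + X.x j i u)
  xAC : ∀ k n n' u l, l ≠ i → l ≠ j → (n, n', u) ∈ KG X i j k → Y.x i l (A (n, n', u)) = C (n l)
  xCA : ∀ k l v, l ≠ i → l ≠ j → N l i = 3 → v ∈ X.G k l → Y.x l i (C v) =
    A (zo j (out N X.x i (X.x l i v)), zo i (out N X.x j (X.x i j (X.x l i v))),
      X.x i j (X.t i (X.x l i v)) + X.t j (X.x i j (X.x l i v)))

/-- the structure of the model at the other vertices -/
structure Rest (Y : Ob N W) (i j : ι) (C : V →ₗ[F] W) : Prop where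
  mem : ∀ k l z, l ≠ i → l ≠ j → (z ∈ Y.G k l ↔ ∃ v ∈ X.G k l, C v = z)
  inj : ∃ r : W →ₗ[F] V, ∀ c, r (C c) = c
  d : ∀ k l v, l ≠ i → l ≠ j → v ∈ X.G k l → Y.d l (C v) = C (X.d l v)
  t : ∀ k l v, l ≠ i → l ≠ j → v ∈ X.G k l → Y.t l (C v) = C (X.t l v)
  x : ∀ k l l' v, l ≠ i → l ≠ j → l' ≠ i → l' ≠ j → v ∈ X.G k l → Y.x l l' (C v) = C (X.x l l' v)

variable {X}

theorem Rest.symm {Y : Ob N W} {i j : ι} {C : V →ₗ[F] W} (h : Rest X Y i j C) : Rest X Y j i C :=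
  ⟨fun k l z a b => h.mem k l z b a, h.inj, fun k l z a b => h.d k l z b a,
    fun k l z a b => h.t k l z b a, fun k l l' z a b c d => h.x k l l' z b a d c⟩

theorem exists_hom {Y : Ob N W} {Y' : Ob N W'} {i j : ι} (a : N i j = 3) {A B : K ι V →ₗ[F] W}
    {C : V →ₗ[F] W} {A' B' : K ι V →ₗ[F] W'} {C' : V →ₗ[F] W'}
    (hA : Half X Y i j A B C) (hB : Half X Y j i B A C) (hC : Rest X Y i j C)
    (hA' : Half X Y' i j A' B' C') (hB' : Half X Y' j i B' A' C') (hC' : Rest X Y' i j C') :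
    ∃ φ : Hom Y Y', (∀ c, φ.f i (A c) = A' c) ∧ (∀ c, φ.f j (B c) = B' c) ∧
      ∀ l c, l ≠ i → l ≠ j → φ.f l (C c) = C' c := by
  obtain ⟨rA, hrA⟩ := hA.inj
  obtain ⟨rB, hrB⟩ := hB.inj
  obtain ⟨rC, hrC⟩ := hC.inj
  have ij : i ≠ j := adj_ne a
  set f : ι → W →ₗ[F] W' := fun l =>
    if l = i then A' ∘ₗ rA else if l = j then B' ∘ₗ rB else C' ∘ₗ rC with hf
  have fA : ∀ c, f i (A c) = A' c := fun c => by simp [hf, hrA]
  have fB : ∀ c, f j (B c) = B' c := fun c => by simp [hf, hrB, ij.symm]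
  have fC : ∀ l c, l ≠ i → l ≠ j → f l (C c) = C' c := fun l c h h' => by simp [hf, hrC, h, h']
  clear_value f
  refine ⟨⟨f, ?_, ?_, ?_, ?_⟩, fA, fB, fC⟩
  · intro k l v hv
    by_cases h : l = i
    · subst h
      obtain ⟨c, hc, rfl⟩ := (hA.mem k v).1 hv
      exact (hA'.mem k _).2 ⟨c, hc, (fA c).symm⟩
    by_cases h' : l = j
    · subst h'
      obtain ⟨c, hc, rfl⟩ := (hB.mem k v).1 hv
      exact (hB'.mem k _).2 ⟨c, hc, (fB c).symm⟩
    obtain ⟨c, hc, rfl⟩ := (hC.mem k l v h h').1 hv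
    exact (hC'.mem k l _ h h').2 ⟨c, hc, (fC l c h h').symm⟩
  · intro k l v hv
    by_cases h : l = i
    · subst h
      obtain ⟨c, hc, rfl⟩ := (hA.mem k v).1 hv
      rw [hA.d k c hc, fA, fA, hA'.d k c hc]
    by_cases h' : l = j
    · subst h'
      obtain ⟨c, hc, rfl⟩ := (hB.mem k v).1 hv
      rw [hB.d k c hc, fB, fB, hB'.d k c hc]
    obtain ⟨c, hc, rfl⟩ := (hC.mem k l v h h').1 hv
    rw [hC.d k l c h h' hc, fC _ _ h h', fC _ _ h h', hC'.d k l c h h' hc]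
  · intro k l v hv
    by_cases h : l = i
    · subst h
      obtain ⟨⟨n, n', u⟩, hc, rfl⟩ := (hA.mem k v).1 hv
      rw [hA.t k _ _ _ hc, fA, fA, hA'.t k _ _ _ hc]
    by_cases h' : l = j
    · subst h'
      obtain ⟨⟨n, n', u⟩, hc, rfl⟩ := (hB.mem k v).1 hv
      rw [hB.t k _ _ _ hc, fB, fB, hB'.t k _ _ _ hc]
    obtain ⟨c, hc, rfl⟩ := (hC.mem k l v h h').1 hv
    rw [hC.t k l c h h' hc, fC _ _ h h', fC _ _ h h', hC'.t k l c h h' hc]
  · intro k l m b v hv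
    have lm : l ≠ m := adj_ne b
    by_cases h : l = i
    · subst h
      obtain ⟨⟨n, n', u⟩, hc, rfl⟩ := (hA.mem k v).1 hv
      by_cases g : m = j
      · subst g
        rw [hA.xAB k _ _ _ hc, fA, fB, hA'.xAB k _ _ _ hc]
      · rw [hA.xAC k _ _ _ m lm.symm g hc, fA, fC _ _ lm.symm g, hA'.xAC k _ _ _ m lm.symm g hc]
    by_cases h' : l = j
    · subst h'
      obtain ⟨⟨n, n', u⟩, hc, rfl⟩ := (hB.mem k v).1 hv
      by_cases g : m = i
      · subst g
        rw [hB.xAB k _ _ _ hc, fA, fB, hB'.xAB k _ _ _ hc]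
      · rw [hB.xAC k _ _ _ m lm.symm g hc, fB, fC _ _ g lm.symm, hB'.xAC k _ _ _ m lm.symm g hc]
    obtain ⟨c, hc, rfl⟩ := (hC.mem k l v h h').1 hv
    by_cases g : m = i
    · subst g
      rw [hA.xCA k l c h h' b hc, fA, fC _ _ h h', hA'.xCA k l c h h' b hc]
    by_cases g' : m = j
    · subst g'
      rw [hB.xCA k l c h' h b hc, fB, fC _ _ h h', hB'.xCA k l c h' h b hc]
    rw [hC.x k l m c h h' g g' hc, fC _ _ h h', fC _ _ g g', hC'.x k l m c h h' g g' hc]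

theorem qis_of_inv {Y : Ob N W} {Y' : Ob N W'} (φ : Hom Y Y') (ψ : Hom Y' Y)
    (h : ∀ k l, ∀ v ∈ Y.G k l, ψ.f l (φ.f l v) = v)
    (h' : ∀ k l, ∀ v ∈ Y'.G k l, φ.f l (ψ.f l v) = v) : Qis Y Y' φ.f := by
  intro k l
  refine ⟨fun z hz ⟨u, hu, e⟩ => ⟨ψ.f l u, ψ.mem _ _ _ hu, ?_⟩, fun y hy =>
    ⟨ψ.f l y, ⟨ψ.mem _ _ _ hy.1, ?_⟩, ?_⟩⟩
  · rw [← ψ.fd _ _ _ hu, e, h _ _ _ hz.1]
  · show Y.d l (ψ.f l y) = 0
    rw [← ψ.fd _ _ _ hy.1, show Y'.d l y = 0 from hy.2, map_zero]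
  · rw [h' _ _ _ hy.1, h2]; exact zero_mem _

theorem qi_of_spec {Y : Ob N W} {Y' : Ob N W'} {i j : ι} (a : N i j = 3) {A B : K ι V →ₗ[F] W}
    {C : V →ₗ[F] W} {A' B' : K ι V →ₗ[F] W'} {C' : V →ₗ[F] W'}
    (hA : Half X Y i j A B C) (hB : Half X Y j i B A C) (hC : Rest X Y i j C)
    (hA' : Half X Y' i j A' B' C') (hB' : Half X Y' j i B' A' C') (hC' : Rest X Y' i j C') :
    QI Y Y' := by
  obtain ⟨φ, a1, a2, a3⟩ := exists_hom a hA hB hC hA' hB' hC'
  obtain ⟨ψ, b1, b2, b3⟩ := exists_hom a hA' hB' hC' hA hB hC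
  refine ⟨φ, qis_of_inv φ ψ (fun k l v hv => ?_) fun k l v hv => ?_⟩
  · by_cases h : l = i
    · subst h
      obtain ⟨c, hc, rfl⟩ := (hA.mem k v).1 hv
      rw [a1, b1]
    by_cases h' : l = j
    · subst h'
      obtain ⟨c, hc, rfl⟩ := (hB.mem k v).1 hv
      rw [a2, b2]
    obtain ⟨c, hc, rfl⟩ := (hC.mem k l v h h').1 hv
    rw [a3 _ _ h h', b3 _ _ h h']
  · by_cases h : l = i
    · subst h
      obtain ⟨c, hc, rfl⟩ := (hA'.mem k v).1 hv
      rw [b1, a1]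
    by_cases h' : l = j
    · subst h'
      obtain ⟨c, hc, rfl⟩ := (hB'.mem k v).1 hv
      rw [b2, a2]
    obtain ⟨c, hc, rfl⟩ := (hC'.mem k l v h h').1 hv
    rw [b3 _ _ h h', a3 _ _ h h']

theorem eqv_rho (h1 : St_CONG) {X Y : BO N} (h : Eqv X Y) (i : ι) : Eqv (X.rho i) (Y.rho i) := by
  induction h with
  | rel X Y h => exact .rel _ _ (h1 X Y i h).1
  | refl X => exact .refl _
  | symm X Y _ ih => exact .symm _ _ ih
  | trans X Y Z _ _ ih ih' => exact .trans _ _ _ ih ih'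

end Pool.Agent.WP34.BraidB
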