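import Pool.Agent.Lib.WP34.BraidB1

/-! The first retraction. -/

set_option linter.unusedSectionVars false

namespace Pool.Agent.WP34.BraidB

open LinearMap (fst snd proj)

variable {ι : Type} [Fintype ι] [DecidableEq ι] {N : CoxeterMatrix ι} {V : Type} [AddCommGroup V]
  [Module F V]

/-- a family with a prescribed component -/
def fam {A B : Type} [AddCommGroup A] [AddCommGroup B] (i : ι) (c : A × B) (n : ι → B) :
    ι → A × B := fun p => if p = i then c else (0, n p)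

section fam
variable {A B : Type} [AddCommGroup A] [AddCommGroup B]

@[simp] theorem fam_self (i : ι) (c : A × B) (n : ι → B) : fam i c n i = c := by simp [fam]
theorem fam_ne {i p : ι} (h : p ≠ i) (c : A × B) (n : ι → B) : fam i c n p = (0, n p) := by
  simp [fam, h]
@[simp] theorem fam_add (i : ι) (c c' : A × B) (n n' : ι → B) :
    fam i c n + fam i c' n' = fam i (c + c') (n + n') := by
  funext p; by_cases e : p = i
  · subst e; simp
  · simp [fam_ne e]
@[simp] theorem fam_zero (i : ι) : fam i (0 : A × B) (0 : ι → B) = 0 := by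
  funext p; by_cases e : p = i
  · subst e; simp
  · simp [fam_ne e]
theorem fam_congr {i : ι} {c c' : A × B} {n n' : ι → B} (h : c = c') (h' : ∀ p, p ≠ i → n p = n' p) :
    fam i c n = fam i c' n' := by
  funext p; by_cases e : p = i
  · subst e; simp [h]
  · simp [fam_ne e, h' p e]
end fam

variable {X : Ob N V} {i j : ι}

theorem mem_nb_rho (a : N i j = 3) {k : ℤ} {m : ι → (ι → V) × V} :
    m ∈ nb N ((X.rho i).G k) j ↔ ∃ n v n', m = fam i (n, v) n' ∧ n ∈ nb N (X.G k) i ∧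
      v ∈ X.G (k - 1) i ∧ n' ∈ nb N (X.G k) j ∧ n' i = 0 := by
  constructor
  · intro h
    obtain ⟨h1, h2⟩ := mem_nb.1 h
    have hi := Ob.mem_rho_self.1 (show ((m i).1, (m i).2) ∈ _ from h1 i (adj_symm a))
    refine ⟨(m i).1, (m i).2, zo i fun p => (m p).2, ?_, hi.1, hi.2, mem_nb.2 ⟨?_, ?_⟩, by simp⟩
    · funext p
      by_cases e : p = i
      · subst e; simp
      · rw [fam_ne e, zo_ne e]
        by_cases b : N j p = 3
        · exact Prod.ext ((Ob.mem_rho_ne e).1 (show ((m p).1, (m p).2) ∈ _ from h1 p b)).1 rfl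
        · simp [h2 p b, Prod.ext_iff]
    · intro p b
      by_cases e : p = i
      · subst e; simp
      · rw [zo_ne e]; exact ((Ob.mem_rho_ne e).1 (show ((m p).1, (m p).2) ∈ _ from h1 p b)).2
    · intro p b
      by_cases e : p = i
      · subst e; simp
      · rw [zo_ne e, h2 p b]; rfl
  · rintro ⟨n, v, n', rfl, h1, h2, h3, h4⟩
    refine mem_nb.2 ⟨fun p b => ?_, fun p b => ?_⟩
    · by_cases e : p = i
      · subst e; rw [fam_self]; exact Ob.mem_rho_self.2 ⟨h1, h2⟩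
      · rw [fam_ne e]; exact (Ob.mem_rho_ne e).2 ⟨rfl, (mem_nb.1 h3).1 p b⟩
    · have e : p ≠ i := by rintro rfl; exact b (adj_symm a)
      rw [fam_ne e, (mem_nb.1 h3).2 p b]; rfl

theorem dia_rho (n : ι → V) (v : V) (n' : ι → V) : dia (X.rho i).d (fam i (n, v) n') =
    fam i (dia X.d n, inn N X.x i n + X.d i v) (dia X.d n') := by
  funext p; by_cases e : p = i
  · subst e; simp [Ob.rho_d]
  · simp [fam_ne e, Ob.rho_d]

theorem inn_rho (a : N i j = 3) (n : ι → V) (v : V) {n' : ι → V} (h : n' i = 0) :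
    inn N (X.rho i).x j (fam i (n, v) n') = (0, n j + inn N X.x j n') := by
  have e := inn_zo (X.rho i).x (adj_symm a) (fam i (n, v) n')
  rw [fam_self, Ob.rho_x, rx_from] at e
  have e' : inn N (rx N X.x (X.t i) i) j (zo i (fam i (n, v) n')) =
      LinearMap.inr F (ι → V) V (inn N X.x j n') := inn_map _ fun p b => by
    by_cases g : p = i
    · subst g; simp [h, Prod.ext_iff]
    · simp [zo_ne g, fam_ne g, rx_ne g (adj_ne a).symm]
  rw [e'] at e
  rw [Ob.rho_x, eq_of_add (v := inn N _ j _) (w := (0, n j) + LinearMap.inr F (ι → V) V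
    (inn N X.x j n')) (by rw [e, add_comm (0, n j), add_assoc, h2 (0, n j), add_zero, h2])]
  simp

theorem out_rho (a : N i j = 3) (s : V) : out N (X.rho i).x j (0, s) =
    fam i (out N X.x i (X.x j i s), X.t i (X.x j i s)) (zo i (out N X.x j s)) := by
  funext p; by_cases e : p = i
  · subst e; simp [out_apply, adj_symm a, Ob.rho_x, rx_to (adj_ne a).symm]
  · rw [fam_ne e, zo_ne e, out_apply, out_apply, Ob.rho_x, rx_ne (adj_ne a).symm e]
    split_ifs <;> rfl

theorem mem2 (a : N i j = 3) {k : ℤ} {z : (ι → (ι → V) × V) × (ι → V) × V} :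
    z ∈ ((X.rho i).rho j).G k j ↔ ∃ n v n' u, z = (fam i (n, v) n', 0, u) ∧ n ∈ nb N (X.G k) i ∧
      v ∈ X.G (k - 1) i ∧ n' ∈ nb N (X.G k) j ∧ n' i = 0 ∧ u ∈ X.G (k - 1) j := by
  obtain ⟨m, c, u⟩ := z
  rw [Ob.mem_rho_self, mem_nb_rho a, Ob.mem_rho_ne (adj_ne a).symm]
  constructor
  · rintro ⟨⟨n, v, n', rfl, h1, h2, h3, h4⟩, rfl, h5⟩
    exact ⟨n, v, n', u, rfl, h1, h2, h3, h4, h5⟩
  · rintro ⟨n, v, n', u', e, h1, h2, h3, h4, h5⟩
    simp only [Prod.mk.injEq] at e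
    obtain ⟨rfl, rfl, rfl⟩ := e
    exact ⟨⟨n, v, n', rfl, h1, h2, h3, h4⟩, rfl, h5⟩

theorem d2 (a : N i j = 3) (n : ι → V) (v : V) {n' : ι → V} (h : n' i = 0) (u : V) :
    ((X.rho i).rho j).d j (fam i (n, v) n', 0, u) =
      (fam i (dia X.d n, inn N X.x i n + X.d i v) (dia X.d n'), 0,
        n j + inn N X.x j n' + X.d j u) := by
  rw [Ob.rho_d, dia_rho, inn_rho a _ _ h, Ob.rho_d]
  simp

variable (X i j)

/-- inclusion -/
def e1 : K ι V →ₗ[F] (ι → (ι → V) × V) × (ι → V) × V :=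
  mkL (fun c => (fam i (c.2.1 + Pi.single j (inn N X.x j c.1), c.2.2) c.1, 0)) fun a b => by
    simp [Pi.single_add, add_assoc, add_comm, add_left_comm]

/-- projection -/
def p1 : ((ι → (ι → V) × V) × (ι → V) × V) →ₗ[F] K ι V :=
  mkL (fun z => (zo i fun p => (z.1 p).2, zo j (z.1 i).1, (z.1 i).2 + X.x j i z.2.2)) fun a b => by
    simp only [Prod.fst_add, Prod.snd_add, Pi.add_apply, map_add, Prod.mk_add_mk, ← Pi.add_def]
    simp [add_assoc, add_comm, add_left_comm]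

/-- homotopy -/
def h1 : ((ι → (ι → V) × V) × (ι → V) × V) →ₗ[F] (ι → (ι → V) × V) × (ι → V) × V :=
  mkL (fun z => (fam i (Pi.single j z.2.2, 0) 0, 0)) fun a b => by simp [Pi.single_add]

variable {X i j}

theorem e1_apply (m' m : ι → V) (w : V) : e1 X i j (m', m, w) =
    (fam i (m + Pi.single j (inn N X.x j m'), w) m', 0, 0) := rfl

theorem p1_apply (n : ι → V) (v : V) {n' : ι → V} (h : n' i = 0) (c : ι → V) (u : V) :
    p1 X i j (fam i (n, v) n', c, u) = (n', zo j n, v + X.x j i u) := by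
  simp only [p1, mkL_apply, fam_self, Prod.mk.injEq, and_true]
  funext p; by_cases e : p = i
  · subst e; simp [h]
  · simp [zo_ne e, fam_ne e]

theorem h1_apply (m : ι → (ι → V) × V) (c : ι → V) (u : V) :
    h1 i j (m, c, u) = (fam i (Pi.single j u, 0) 0, 0, 0) := rfl

variable (X)

/-- the retraction of the complex at `j` after two reflections -/
def R1 (a : N i j = 3) : Retr ((X.rho i).rho j) j (K ι V) where
  G := KG X j i
  d := dK X j i
  e := e1 X i j
  p := p1 X i j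
  h := h1 i j
  d_mem := dK_mem X (adj_symm a)
  e_mem k := by
    rintro ⟨m', m, w⟩ h
    obtain ⟨⟨h1, h2⟩, ⟨h3, h4⟩, h5⟩ := mem_KG.1 h
    exact (mem2 a).2 ⟨_, _, _, _, rfl, add_mem h3 (single_mem a (inn_mem (X.x_mem k) h1)), h5, h1,
      h2, zero_mem _⟩
  p_mem k z h := by
    obtain ⟨n, v, n', u, rfl, h1, h2, h3, h4, h5⟩ := (mem2 a).1 h
    rw [p1_apply _ _ h4]
    exact mem_KG.2 ⟨⟨h3, h4⟩, ⟨zo_mem h1, by simp⟩, add_mem h2 (X.x_mem _ _ _ (adj_symm a) _ h5)⟩
  h_mem k z h := by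
    obtain ⟨n, v, n', u, rfl, h1, h2, h3, h4, h5⟩ := (mem2 a).1 h
    exact (mem2 a).2 ⟨_, _, _, _, rfl, single_mem a h5, zero_mem _, zero_mem _, rfl, zero_mem _⟩
  de k := by
    rintro ⟨m', m, w⟩ h
    obtain ⟨⟨h1, g2⟩, ⟨h3, h4⟩, h5⟩ := mem_KG.1 h
    rw [e1_apply, d2 a _ _ g2, dK_apply, e1_apply]
    simp [dia_single, X.d_inn h1, inn_single _ a, h4, h2, add_comm]
  dp k z h := by
    obtain ⟨n, v, n', u, rfl, h1, g2, h3, h4, h5⟩ := (mem2 a).1 h
    rw [p1_apply _ _ h4, d2 a _ _ h4, dK_apply, p1_apply _ _ (by simp [h4])]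
    simp [dia_zo, inn_zo _ a, X.dx _ _ _ (adj_symm a) _ h5, add_assoc, add_comm, add_left_comm]
  pe k := by
    rintro ⟨m', m, w⟩ h
    obtain ⟨⟨h1, g2⟩, ⟨h3, h4⟩, h5⟩ := mem_KG.1 h
    rw [e1_apply, p1_apply _ _ g2]
    simp [zo_eq h4]
  ep k z h := by
    obtain ⟨n, v, n', u, rfl, h1, g2, h3, h4, h5⟩ := (mem2 a).1 h
    rw [p1_apply _ _ h4, d2 a _ _ h4, e1_apply, h1_apply, h1_apply, d2 a _ _ rfl]
    simp [dia_single, inn_single _ a, zo_eq_add, Pi.single_add, add_assoc, add_comm, add_left_comm,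
      h2, h2']

end Pool.Agent.WP34.BraidB
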