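import Pool.Agent.Lib.WP34.BraidB2

/-! The second retraction. -/

set_option linter.unusedSectionVars false

namespace Pool.Agent.WP34.BraidB

open LinearMap (fst snd proj)

variable {ι : Type} [Fintype ι] [DecidableEq ι] {N : CoxeterMatrix ι} {V : Type} [AddCommGroup V]
  [Module F V]

/-- the ambient space after two reflections -/
abbrev W2 (ι V : Type) := (ι → (ι → V) × V) × (ι → V) × V
/-- the ambient space after the first retraction -/
abbrev WZ (ι V : Type) := K ι V × W2 ι V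

variable {X : Ob N V} {i j l m : ι} (a : N i j = 3) {k : ℤ}

theorem R1_e : (R1 X a).e = e1 X i j := rfl
theorem R1_p : (R1 X a).p = p1 X i j := rfl
theorem R1_h : (R1 X a).h = h1 i j := rfl
theorem R1_d : (R1 X a).d = dK X j i := rfl

theorem memZ_j {z : WZ ι V} : z ∈ (R1 X a).tr.G k j ↔ ∃ c ∈ KG X j i k, z = (c, 0) := by
  obtain ⟨c, v⟩ := z
  rw [Retr.mem_tr_self]
  exact ⟨fun ⟨h, e⟩ => ⟨c, h, by rw [e]⟩, fun ⟨c', h, e⟩ => by cases e; exact ⟨h, rfl⟩⟩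

theorem memZ_i {z : WZ ι V} : z ∈ (R1 X a).tr.G k i ↔
    ∃ n ∈ nb N (X.G k) i, ∃ v ∈ X.G (k - 1) i, z = (0, 0, n, v) := by
  obtain ⟨c, b, n, v⟩ := z
  rw [Retr.mem_tr_ne (adj_ne a), Ob.mem_rho_ne (adj_ne a), Ob.mem_rho_self]
  exact ⟨fun ⟨e, e', h, h'⟩ => ⟨n, h, v, h', by rw [e, e']⟩,
    fun ⟨n', h, v', h', e⟩ => by cases e; exact ⟨rfl, rfl, h, h'⟩⟩

theorem memZ_l (h : l ≠ i) (h' : l ≠ j) {z : WZ ι V} : z ∈ (R1 X a).tr.G k l ↔
    ∃ v ∈ X.G k l, z = (0, 0, 0, v) := by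
  obtain ⟨c, b, n, v⟩ := z
  rw [Retr.mem_tr_ne h', Ob.mem_rho_ne h', Ob.mem_rho_ne h]
  exact ⟨fun ⟨e, e', e'', h⟩ => ⟨v, h, by rw [e, e', e'']⟩,
    fun ⟨v', h, e⟩ => by cases e; exact ⟨rfl, rfl, rfl, h⟩⟩

theorem dZ (l : ι) (n : ι → V) (v : V) : (R1 X a).tr.d l (0, 0, n, v) =
    (0, 0, dia X.d n, inn N X.x l n + X.d l v) := by
  rw [Retr.tr_d, Ob.rho_d, Ob.rho_d]; simp

theorem dZ_j (l : ι) (c : K ι V) : (R1 X a).tr.d l (c, 0) = (dK X j i c, 0) := by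
  rw [Retr.tr_d, map_zero]; rfl

theorem xZ_ji (m' m : ι → V) (w : V) (z : W2 ι V) : (R1 X a).tr.x j i ((m', m, w), z) =
    (0, 0, m + Pi.single j (inn N X.x j m'), w) := by
  rw [Retr.tr_x, Retr.x_from, R1_e, e1_apply, Ob.rho_x, rx_from, fam_self]

theorem xZ_jl (h : l ≠ i) (m' m : ι → V) (w : V) (z : W2 ι V) :
    (R1 X a).tr.x j l ((m', m, w), z) = (0, 0, 0, m' l) := by
  rw [Retr.tr_x, Retr.x_from, R1_e, e1_apply, Ob.rho_x, rx_from, fam_ne h]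

theorem xZ_to (h : l ≠ j) (c : K ι V) (b : ι → (ι → V) × V) (z : (ι → V) × V) {s : V}
    (hs : (X.rho i).x l j z = (0, s)) : (R1 X a).tr.x l j (c, b, z) =
    ((zo i (out N X.x j s), zo j (out N X.x i (X.x j i s)),
      X.t i (X.x j i s) + X.x j i (X.t j s)), 0) := by
  rw [Retr.tr_x, Retr.x_to _ _ _ h, R1_p, Ob.rho_x, rx_to h, hs, out_rho a,
    Ob.rho_t_ne (adj_ne a).symm, p1_apply _ _ (zo_self _ _)]

theorem xZ_ij (c : K ι V) (b : ι → (ι → V) × V) (n : ι → V) (v : V) :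
    (R1 X a).tr.x i j (c, b, n, v) = ((zo i (out N X.x j (n j)), zo j (out N X.x i (X.x j i (n j))),
      X.t i (X.x j i (n j)) + X.x j i (X.t j (n j))), 0) :=
  xZ_to a (adj_ne a) _ _ _ (by rw [Ob.rho_x, rx_from])

theorem xZ_ne (h : l ≠ j) (h' : m ≠ j) (c : K ι V) (b : ι → (ι → V) × V) (z : (ι → V) × V) :
    (R1 X a).tr.x l m (c, b, z) = (0, 0, rx N X.x (X.t i) i l m z) := by
  rw [Retr.tr_x, Retr.x_ne _ _ _ h h', Ob.rho_x, rx_ne h h', Ob.rho_x]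

theorem tZ_j (c : K ι V) (z : W2 ι V) : (R1 X a).tr.t j (c, z) = 0 := by
  obtain ⟨m', m, w⟩ := c
  rw [Retr.tr_t_self, R1_e, e1_apply, Ob.rho_t_self, ← Prod.zero_eq_mk, map_zero, map_zero,
    ← Prod.zero_eq_mk, map_zero, ← Prod.zero_eq_mk]

theorem tZ_i (c : K ι V) (b : ι → (ι → V) × V) (n : ι → V) (v : V) :
    (R1 X a).tr.t i (c, b, n, v) = (0, 0, out N X.x i v + Pi.single j (X.t j (n j)), X.t i v) := by
  rw [Retr.tr_t_ne (adj_ne a), Retr.cor_adj _ _ a, Ob.rho_t_ne (adj_ne a), Ob.rho_t_self, R1_h,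
    Ob.rho_x, rx_to (adj_ne a), Ob.rho_x, rx_from, Ob.rho_t_ne (adj_ne a).symm, h1_apply, rx_from]
  simp

theorem tZ_l (h : l ≠ i) (h' : l ≠ j) (c : K ι V) (b : ι → (ι → V) × V) (n : ι → V) (v : V) :
    (R1 X a).tr.t l (c, b, n, v) = (0, 0, 0, X.t l v) := by
  rw [Retr.tr_t_ne h', Ob.rho_t_ne h', Ob.rho_t_ne h]
  by_cases e : N l j = 3
  · rw [Retr.cor_adj _ _ e, R1_h, Ob.rho_x, rx_to h', Ob.rho_x, rx_ne h (adj_ne a).symm,
      Ob.rho_t_ne (adj_ne a).symm, h1_apply, rx_from, fam_ne h]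
    simp
  · rw [Retr.cor_not _ _ e, add_zero]

/-- families after the first retraction -/
def fm (j : ι) (c : K ι V) (n : ι → V) : ι → WZ ι V := fam j (c, 0) fun p => (0, 0, n p)

@[simp] theorem fm_self (c : K ι V) (n : ι → V) : fm j c n j = (c, 0) := fam_self _ _ _
theorem fm_ne (h : l ≠ j) (c : K ι V) (n : ι → V) : fm j c n l = (0, 0, 0, n l) := fam_ne h _ _
@[simp] theorem fm_add (c c' : K ι V) (n n' : ι → V) :
    fm j c n + fm j c' n' = fm j (c + c') (n + n') := by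
  funext p; by_cases e : p = j
  · subst e; simp
  · simp [fm_ne e]

theorem mem_nb_Z {z : ι → WZ ι V} : z ∈ nb N ((R1 X a).tr.G k) i ↔
    ∃ c ∈ KG X j i k, ∃ n ∈ nb N (X.G k) i, n j = 0 ∧ z = fm j c n := by
  constructor
  · intro h
    obtain ⟨h1, h2⟩ := mem_nb.1 h
    obtain ⟨c, hc, e⟩ := (memZ_j a).1 (h1 j a)
    refine ⟨c, hc, zo j fun p => (z p).2.2.2, mem_nb.2 ⟨fun p b => ?_, fun p b => ?_⟩, by simp, ?_⟩
    · by_cases g : p = j
      · subst g; simp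
      · obtain ⟨v, hv, e⟩ := (memZ_l a (adj_ne b).symm g).1 (h1 p b)
        rw [zo_ne g, e]; exact hv
    · by_cases g : p = j
      · subst g; simp
      · rw [zo_ne g, h2 p b]; rfl
    · funext p
      by_cases g : p = j
      · subst g; rw [e, fm_self]
      · rw [fm_ne g, zo_ne g]
        by_cases b : N i p = 3
        · obtain ⟨v, hv, e⟩ := (memZ_l a (adj_ne b).symm g).1 (h1 p b)
          rw [e]
        · rw [h2 p b]; rfl
  · rintro ⟨c, hc, n, hn, h0, rfl⟩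
    refine mem_nb.2 ⟨fun p b => ?_, fun p b => ?_⟩
    · by_cases g : p = j
      · subst g; rw [fm_self]; exact (memZ_j a).2 ⟨c, hc, rfl⟩
      · rw [fm_ne g]; exact (memZ_l a (adj_ne b).symm g).2 ⟨_, (mem_nb.1 hn).1 p b, rfl⟩
    · have g : p ≠ j := by rintro rfl; exact b a
      rw [fm_ne g, (mem_nb.1 hn).2 p b]; rfl

theorem dia_Z (c : K ι V) (n : ι → V) :
    dia (R1 X a).tr.d (fm j c n) = fm j (dK X j i c) (dia X.d n) := by
  funext p; by_cases e : p = j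
  · subst e; rw [dia_apply, fm_self, fm_self, dZ_j]
  · rw [dia_apply, fm_ne e, fm_ne e, dZ]; simp

theorem inn_Z (m' m : ι → V) (w : V) {n : ι → V} (h : n j = 0) :
    inn N (R1 X a).tr.x i (fm j (m', m, w) n) = (0, 0, m + Pi.single j (inn N X.x j m') +
      out N X.x i (inn N X.x i n), w + X.t i (inn N X.x i n)) := by
  have e := inn_zo (R1 X a).tr.x a (fm j (m', m, w) n)
  rw [fm_self, xZ_ji] at e
  have e' : inn N (R1 X a).tr.x i (zo j (fm j (m', m, w) n)) =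
      (LinearMap.inr F (K ι V) (W2 ι V) ∘ₗ LinearMap.inr F (ι → (ι → V) × V) ((ι → V) × V) ∘ₗ
        (out N X.x i).prod (X.t i)) (inn N X.x i n) := inn_map _ fun p b => by
    by_cases g : p = j
    · subst g; simp [h, Prod.ext_iff]
    · rw [zo_ne g, fm_ne g, xZ_ne a g (adj_ne a), rx_to (adj_ne b).symm]; rfl
  rw [e'] at e
  rw [eq_of_add (v := inn N _ i _) (w := _ + _) (by rw [← add_assoc, ← e, h2])]
  simp

theorem out_Z (n : ι → V) (v : V) (hn : ∀ p, N i p ≠ 3 → n p = 0) :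
    out N (R1 X a).tr.x i (0, 0, n, v) =
    fm j (zo i (out N X.x j (n j)), zo j (out N X.x i (X.x j i (n j))),
      X.t i (X.x j i (n j)) + X.x j i (X.t j (n j))) (zo j n) := by
  funext p; by_cases e : p = j
  · subst e; rw [out_apply, if_pos a, fm_self, xZ_ij]
  · rw [out_apply, fm_ne e, zo_ne e]
    split_ifs with b
    · rw [xZ_ne a (adj_ne a) e, rx_from]
    · rw [hn p b]; rfl

theorem mem3 {z : (ι → WZ ι V) × WZ ι V} : z ∈ ((R1 X a).tr.rho i).G k i ↔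
    ∃ m' m w n0 n v, z = (fm j (m', m, w) n0, 0, 0, n, v) ∧ (m', m, w) ∈ KG X j i k ∧
      n0 ∈ nb N (X.G k) i ∧ n0 j = 0 ∧ n ∈ nb N (X.G (k - 1)) i ∧ v ∈ X.G (k - 1 - 1) i := by
  obtain ⟨b, c⟩ := z
  rw [Ob.mem_rho_self, mem_nb_Z a, memZ_i a]
  constructor
  · rintro ⟨⟨⟨m', m, w⟩, h1, n0, h2, h3, rfl⟩, n, h4, v, h5, rfl⟩
    exact ⟨m', m, w, n0, n, v, rfl, h1, h2, h3, h4, h5⟩
  · rintro ⟨m', m, w, n0, n, v, e, h1, h2, h3, h4, h5⟩
    cases e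
    exact ⟨⟨_, h1, n0, h2, h3, rfl⟩, n, h4, v, h5, rfl⟩

theorem d3 (m' m : ι → V) (w : V) {n0 : ι → V} (h : n0 j = 0) (n : ι → V) (v : V) :
    ((R1 X a).tr.rho i).d i (fm j (m', m, w) n0, 0, 0, n, v) =
      (fm j (dia X.d m', dia X.d m, X.x j i (inn N X.x j m') + inn N X.x i m + X.d i w)
        (dia X.d n0), 0, 0,
        m + Pi.single j (inn N X.x j m') + out N X.x i (inn N X.x i n0) + dia X.d n,
        w + X.t i (inn N X.x i n0) + (inn N X.x i n + X.d i v)) := by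
  rw [Ob.rho_d, dia_Z, inn_Z a _ _ _ h, dZ, dK_apply]
  simp

variable (X i j)

/-- inclusion -/
def e2 : K ι V →ₗ[F] (ι → WZ ι V) × WZ ι V :=
  mkL (fun c => (fm j (c.2.1, zo j (out N X.x i (inn N X.x i c.1)),
    X.t i (inn N X.x i c.1) + X.x j i c.2.2) c.1, 0, 0, Pi.single j c.2.2, 0)) fun a b => by
    simp [Pi.single_add, add_assoc, add_comm, add_left_comm]

/-- projection -/
def p2 : ((ι → WZ ι V) × WZ ι V) →ₗ[F] K ι V :=
  mkL (fun z => (zo j fun p => (z.1 p).2.2.2, (z.1 j).1.1, z.2.2.2.1 j)) fun a b => by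
    simp only [Prod.fst_add, Prod.snd_add, Pi.add_apply, map_add, Prod.mk_add_mk, ← Pi.add_def]

/-- homotopy -/
def hh2 : ((ι → WZ ι V) × WZ ι V) →ₗ[F] (ι → WZ ι V) × WZ ι V :=
  mkL (fun z => (fm j (0, zo j z.2.2.2.1, z.2.2.2.2) 0, 0)) fun a b => by simp

variable {X i j}

theorem e2_apply (n0 n' : ι → V) (u : V) : e2 X i j (n0, n', u) =
    (fm j (n', zo j (out N X.x i (inn N X.x i n0)), X.t i (inn N X.x i n0) + X.x j i u) n0,
      0, 0, Pi.single j u, 0) := rfl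

theorem p2_apply (m' m : ι → V) (w : V) {n0 : ι → V} (h : n0 j = 0) (c : K ι V)
    (b : ι → (ι → V) × V) (n : ι → V) (v : V) :
    p2 j (fm j (m', m, w) n0, c, b, n, v) = (n0, m', n j) := by
  simp only [p2, mkL_apply, fm_self, Prod.mk.injEq, and_true]
  funext p; by_cases e : p = j
  · subst e; simp [h]
  · simp [zo_ne e, fm_ne e]

theorem hh2_apply (z : ι → WZ ι V) (c : K ι V) (b : ι → (ι → V) × V) (n : ι → V) (v : V) :
    hh2 j (z, c, b, n, v) = (fm j (0, zo j n, v) 0, 0, 0, 0, 0) := rfl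

variable (X)

/-- the retraction of the complex at `i` after the third reflection -/
def R2 : Retr ((R1 X a).tr.rho i) i (K ι V) where
  G := KG X i j
  d := dK X i j
  e := e2 X i j
  p := p2 j
  h := hh2 j
  d_mem := dK_mem X a
  e_mem k := by
    rintro ⟨n0, n', u⟩ h
    obtain ⟨⟨h1, h2⟩, ⟨h3, h4⟩, h5⟩ := mem_KG.1 h
    have h6 := inn_mem (X.x_mem k) h1
    exact (mem3 a).2 ⟨_, _, _, _, _, _, rfl, mem_KG.2 ⟨⟨h3, h4⟩,
      ⟨zo_mem (out_mem (X.x_mem k) h6), by simp⟩,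
      add_mem (X.t_mem _ _ _ h6) (X.x_mem _ _ _ (adj_symm a) _ h5)⟩, h1, h2, single_mem a h5,
      zero_mem _⟩
  p_mem k z h := by
    obtain ⟨m', m, w, n0, n, v, rfl, h1, h2, h3, h4, h5⟩ := (mem3 a).1 h
    rw [p2_apply _ _ _ h3]
    exact mem_KG.2 ⟨⟨h2, h3⟩, (mem_KG.1 h1).1, (mem_nb.1 h4).1 j a⟩
  h_mem k z h := by
    obtain ⟨m', m, w, n0, n, v, rfl, h1, h2, h3, h4, h5⟩ := (mem3 a).1 h
    exact (mem3 a).2 ⟨_, _, _, _, _, _, rfl, mem_KG.2 ⟨⟨zero_mem _, rfl⟩, ⟨zo_mem h4, by simp⟩, h5⟩,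
      zero_mem _, rfl, zero_mem _, zero_mem _⟩
  de k := by
    rintro ⟨n0, n', u⟩ h
    obtain ⟨⟨h1, g2⟩, ⟨h3, h4⟩, h5⟩ := mem_KG.1 h
    have h6 := inn_mem (X.x_mem k) h1
    rw [e2_apply, d3 a _ _ _ g2, dK_apply, e2_apply]
    simp [dia_single, dia_zo, X.dia_out h6, X.d_inn h1, inn_single _ a, X.dt _ _ _ h6,
      X.dx _ _ _ (adj_symm a) _ h5, X.dx _ _ _ a _ h6, zo_eq_add, out_apply, a, Pi.single_add, add_assoc, add_comm,
      add_left_comm, h2, h2']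
  dp k z h := by
    obtain ⟨m', m, w, n0, n, v, rfl, h1, g2, h3, h4, h5⟩ := (mem3 a).1 h
    rw [p2_apply _ _ _ h3, d3 a _ _ _ h3, dK_apply, p2_apply _ _ _ (by simp [h3])]
    simp [(mem_KG.1 h1).2.1.2, out_apply, a, add_comm]
  pe k := by
    rintro ⟨n0, n', u⟩ h
    obtain ⟨⟨h1, g2⟩, ⟨h3, h4⟩, h5⟩ := mem_KG.1 h
    rw [e2_apply, p2_apply _ _ _ g2]
    simp
  ep k z h := by
    obtain ⟨m', m, w, n0, n, v, rfl, h1, g2, h3, h4, h5⟩ := (mem3 a).1 h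
    rw [p2_apply _ _ _ h3, d3 a _ _ _ h3, e2_apply, hh2_apply, hh2_apply, d3 a _ _ _ rfl]
    have h6 := zo_eq (mem_KG.1 h1).2.1.2
    simp only [map_add, zo_single, h6, dia_zo, inn_zo _ a]
    simp [zo_eq_add j n, add_assoc, add_comm, add_left_comm, h2, h2']

end Pool.Agent.WP34.BraidB
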