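import Pool.Agent.Lib.WP34.Blue

/-! Block CONG: the reflections preserve strict quasi-isomorphisms. -/

set_option linter.unusedSectionVars false

namespace Pool.Agent.WP34

open LinearMap (fst snd)

namespace CONG

section five

variable {A C A' C' : Type} [AddCommGroup A] [Module F A] [AddCommGroup C] [Module F C]
  [AddCommGroup A'] [Module F A'] [AddCommGroup C'] [Module F C']

/-- a chain map that is bijective in cohomology -/
structure Q (G : ℤ → Submodule F A) (d : A →ₗ[F] A) (G' : ℤ → Submodule F A') (d' : A' →ₗ[F] A')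
    (f : A →ₗ[F] A') : Prop where
  mem : ∀ k, ∀ v ∈ G k, f v ∈ G' k
  fd : ∀ k, ∀ v ∈ G k, f (d v) = d' (f v)
  inj : ∀ k, ∀ z ∈ G k, d z = 0 → ∀ u ∈ G' (k - 1), d' u = f z → ∃ v ∈ G (k - 1), d v = z
  sur : ∀ k, ∀ y ∈ G' k, d' y = 0 → ∃ z ∈ G k, d z = 0 ∧ ∃ u ∈ G' (k - 1), d' u = f z + y

/-- a gluing map of degree one -/
structure Gl (G : ℤ → Submodule F A) (d : A →ₗ[F] A) (H : ℤ → Submodule F C) (e : C →ₗ[F] C)
    (w : C →ₗ[F] A) : Prop where
  mem : ∀ k, ∀ c ∈ H (k - 1), w c ∈ G k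
  dw : ∀ k, ∀ c ∈ H k, d (w c) = w (e c)

variable {G : ℤ → Submodule F A} {d : A →ₗ[F] A} {G' : ℤ → Submodule F A'} {d' : A' →ₗ[F] A'}
  {f : A →ₗ[F] A'} {H : ℤ → Submodule F C} {e : C →ₗ[F] C} {H' : ℤ → Submodule F C'}
  {e' : C' →ₗ[F] C'} {g : C →ₗ[F] C'} {w : C →ₗ[F] A} {w' : C' →ₗ[F] A'}

theorem Q.shift (h : Q G d G' d' f) (s : ℤ) : Q (fun k => G (k + s)) d (fun k => G' (k + s)) d' f :=
  ⟨fun _ => h.mem _, fun _ => h.fd _, fun k => by simpa only [add_sub_right_comm] using h.inj (k + s),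
    fun k => by simpa only [add_sub_right_comm] using h.sur (k + s)⟩

theorem Q.pred (h : Q G d G' d' f) : Q (fun k => G (k - 1)) d (fun k => G' (k - 1)) d' f :=
  ⟨fun _ => h.mem _, fun _ => h.fd _, fun _ => h.inj _, fun _ => h.sur _⟩

theorem five_inj (hf : Q G d G' d' f) (hg : Q H e H' e' g) (hw : Gl G d H e w)
    (hw' : Gl G' d' H' e' w') (c0 : ∀ k, ∀ c ∈ H k, f (w c) = w' (g c)) {k : ℤ} {a : A} {c : C}
    {a' : A'} {c' : C'} (ha : a ∈ G k) (hc : c ∈ H k) (h1 : d a + w c = 0) (h3 : e c = 0)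
    (ha' : a' ∈ G' (k - 1)) (hc' : c' ∈ H' (k - 1)) (h4 : d' a' + w' c' = f a) (h5 : e' c' = g c) :
    ∃ a0 ∈ G (k - 1), ∃ b ∈ H (k - 1), d a0 + w b = a ∧ e b = c := by
  obtain ⟨b, hb, rfl⟩ := hg.inj k c hc h3 c' hc' h5
  obtain ⟨b1, hb1, e1, u, hu, e2⟩ := hg.sur (k - 1) (c' + g b) (add_mem hc' (hg.mem _ _ hb))
    (by rw [map_add, h5, hg.fd _ _ hb, h2])
  obtain ⟨a0, ha0, e3⟩ := hf.inj k (a + w (b + b1)) (add_mem ha (hw.mem _ _ (add_mem hb hb1)))
    (by rw [map_add, hw.dw _ _ (add_mem hb hb1), map_add, e1, add_zero, h1]) (a' + w' u)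
    (add_mem ha' (hw'.mem _ _ hu)) (by
      rw [map_add, hw'.dw _ _ hu, e2, map_add f, c0 _ _ (add_mem hb hb1), ← h4]
      simp only [map_add]
      abel)
  exact ⟨a0, ha0, b + b1, add_mem hb hb1, by rw [e3, add_assoc, h2, add_zero],
    by rw [map_add, e1, add_zero]⟩

theorem five_sur (hf : Q G d G' d' f) (hg : Q H e H' e' g) (hw : Gl G d H e w)
    (hw' : Gl G' d' H' e' w') (c0 : ∀ k, ∀ c ∈ H k, f (w c) = w' (g c)) {k : ℤ} {a' : A'} {c' : C'}
    (ha' : a' ∈ G' k) (hc' : c' ∈ H' k) (h1 : d' a' + w' c' = 0) (h3 : e' c' = 0) :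
    ∃ a ∈ G k, ∃ c ∈ H k, d a + w c = 0 ∧ e c = 0 ∧ ∃ s ∈ G' (k - 1), ∃ u ∈ H' (k - 1),
      d' s + w' u = f a + a' ∧ e' u = g c + c' := by
  obtain ⟨c, hc, e1, u, hu, e2⟩ := hg.sur k c' hc' h3
  have m1 := add_mem (hw'.mem _ _ hu) ha'
  have e3 : d' (w' u + a') = f (w c) := by
    rw [map_add, hw'.dw _ _ hu, e2, c0 _ _ hc, eq_of_add h1, map_add, add_assoc, h2, add_zero]
  obtain ⟨a, ha, e4⟩ := hf.inj (k + 1) (w c) (hw.mem _ _ (by rwa [add_sub_cancel_right]))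
    (by rw [hw.dw _ _ hc, e1, map_zero]) _ (by rwa [add_sub_cancel_right]) e3
  rw [add_sub_cancel_right] at ha
  obtain ⟨z, hz, e5, s, hs, e6⟩ := hf.sur k (f a + (w' u + a')) (add_mem (hf.mem _ _ ha) m1)
    (by rw [map_add, ← hf.fd _ _ ha, e4, e3, h2])
  refine ⟨a + z, add_mem ha hz, c, hc, by rw [map_add, e4, e5, add_zero, h2], e1, s, hs, u, hu,
    ?_, e2⟩
  rw [e6, map_add]
  simp [add_comm, add_left_comm, h2]

end five

variable {ι : Type} [Fintype ι] [DecidableEq ι] {N : CoxeterMatrix ι} {V W : Type} [AddCommGroup V]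
  [Module F V] [AddCommGroup W] [Module F W] {X : Ob N V} {Y : Ob N W} (φ : Hom X Y)

theorem q_at (h : Qis X Y φ.f) (i : ι) :
    Q (fun k => X.G k i) (X.d i) (fun k => Y.G k i) (Y.d i) (φ.f i) :=
  ⟨fun k => φ.mem k i, fun k => φ.fd k i,
    fun k z hz h1 u hu h3 => (h k i).1 z ⟨hz, h1⟩ ⟨u, hu, h3⟩,
    fun k y hy h1 => let ⟨z, hz, u, hu, e⟩ := (h k i).2 y ⟨hy, h1⟩; ⟨z, hz.1, hz.2, u, hu, e⟩⟩

theorem dia_mem {k i n} (h : n ∈ nb N (X.G k) i) : dia φ.f n ∈ nb N (Y.G k) i :=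
  mem_nb.2 ⟨fun p hp => φ.mem _ _ _ ((mem_nb.1 h).1 p hp), fun p hp => by
    simp [(mem_nb.1 h).2 p hp]⟩

theorem dia_d {k i n} (h : n ∈ nb N (X.G k) i) : dia φ.f (dia X.d n) = dia Y.d (dia φ.f n) := by
  funext p
  by_cases hp : N i p = 3
  exacts [φ.fd _ _ _ ((mem_nb.1 h).1 p hp), by simp [(mem_nb.1 h).2 p hp]]

theorem f_inn {k i n} (h : n ∈ nb N (X.G k) i) :
    φ.f i (inn N X.x i n) = inn N Y.x i (dia φ.f n) :=
  (inn_map (φ.f i) fun p hp => (φ.fx _ _ _ (adj_symm hp) _ ((mem_nb.1 h).1 p hp)).symm).symm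

theorem dia_out {k i v} (h : v ∈ X.G k i) :
    dia φ.f (out N X.x i v) = out N Y.x i (φ.f i v) := by
  funext p
  simp only [dia_apply, out_apply]
  split_ifs with hp
  exacts [φ.fx _ _ _ hp _ h, map_zero _]

theorem q_nb (h : Qis X Y φ.f) (i : ι) :
    Q (fun k => nb N (X.G k) i) (dia X.d) (fun k => nb N (Y.G k) i) (dia Y.d) (dia φ.f) := by
  refine ⟨fun k _ => dia_mem φ, fun k _ => dia_d φ, fun k z hz h1 u hu h3 => ?_,
    fun k y hy h1 => ?_⟩
  · have : ∀ p, ∃ v, (N i p = 3 → v ∈ X.G (k - 1) p) ∧ (N i p ≠ 3 → v = 0) ∧ X.d p v = z p :=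
      fun p => by
        by_cases hp : N i p = 3
        · obtain ⟨v, hv, e⟩ := (q_at φ h p).inj k _ ((mem_nb.1 hz).1 p hp) (congrFun h1 p) _
            ((mem_nb.1 hu).1 p hp) (congrFun h3 p)
          exact ⟨v, fun _ => hv, fun h => absurd hp h, e⟩
        · exact ⟨0, fun h => absurd h hp, fun _ => rfl, by simp [(mem_nb.1 hz).2 p hp]⟩
    choose v h4 h5 h6 using this
    exact ⟨v, mem_nb.2 ⟨h4, h5⟩, funext h6⟩
  · have : ∀ p, ∃ z u, (N i p = 3 → z ∈ X.G k p) ∧ (N i p ≠ 3 → z = 0) ∧ X.d p z = 0 ∧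
        (N i p = 3 → u ∈ Y.G (k - 1) p) ∧ (N i p ≠ 3 → u = 0) ∧ Y.d p u = φ.f p z + y p :=
      fun p => by
        by_cases hp : N i p = 3
        · obtain ⟨z, hz, e, u, hu, e'⟩ := (q_at φ h p).sur k _ ((mem_nb.1 hy).1 p hp)
            (congrFun h1 p)
          exact ⟨z, u, fun _ => hz, fun h => absurd hp h, e, fun _ => hu, fun h => absurd hp h, e'⟩
        · exact ⟨0, 0, fun h => absurd h hp, fun _ => rfl, map_zero _, fun h => absurd h hp,
            fun _ => rfl, by simp [(mem_nb.1 hy).2 p hp]⟩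
    choose z u h4 h5 h6 h7 h8 h9 using this
    exact ⟨z, mem_nb.2 ⟨h4, h5⟩, funext h6, u, mem_nb.2 ⟨h7, h8⟩, funext h9⟩

theorem gl_inn (X : Ob N V) (i : ι) : Gl (fun k => X.G (k - 1) i) (X.d i)
    (fun k => nb N (X.G k) i) (dia X.d) (inn N X.x i) :=
  ⟨fun _ _ h => inn_mem (X.x_mem _) h, fun _ _ h => X.d_inn h⟩

theorem gl_out (X : Ob N V) (i : ι) : Gl (fun k => nb N (X.G k) i) (dia X.d)
    (fun k => X.G (k + 1) i) (X.d i) (out N X.x i) :=
  ⟨fun _ _ h => out_mem (X.x_mem _) (by rwa [sub_add_cancel] at h), fun _ _ h => X.dia_out h⟩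

/-- the map on the ambient space of a reflection -/
def pm (j : ι) : (ι → V) × V →ₗ[F] (ι → W) × W := (dia φ.f).prodMap (φ.f j)

/-- the same at the reflected vertex -/
theorem pm_apply (j : ι) (n : ι → V) (v : V) : pm φ j (n, v) = (dia φ.f n, φ.f j v) := rfl

open Ob

/-- the morphism induced on the positive reflections -/
def hr (i : ι) : Hom (X.rho i) (Y.rho i) where
  f := pm φ
  mem k j := by
    rintro ⟨n, v⟩
    by_cases h : j = i
    · subst h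
      simp only [pm_apply, mem_rho_self]
      exact fun h => ⟨dia_mem φ h.1, φ.mem _ _ _ h.2⟩
    · simp only [pm_apply, mem_rho_ne h]
      exact fun h => ⟨by simp [h.1], φ.mem _ _ _ h.2⟩
  fd k j := by
    rintro ⟨n, v⟩
    by_cases h : j = i
    · subst h
      simp only [pm_apply, mem_rho_self, rho_d]
      exact fun h => by rw [dia_d φ h.1, map_add, f_inn φ h.1, φ.fd _ _ _ h.2]
    · simp only [pm_apply, mem_rho_ne h, rho_d]
      rintro ⟨rfl, h⟩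
      simp [φ.fd _ _ _ h]
  ft k j := by
    rintro ⟨n, v⟩
    by_cases h : j = i
    · subst h
      simp only [pm_apply, mem_rho_self, rho_t_self]
      exact fun h => by rw [dia_out φ h.2, φ.ft _ _ _ h.2]
    · simp only [pm_apply, mem_rho_ne h, rho_t_ne h]
      exact fun h => by rw [map_zero, φ.ft _ _ _ h.2]
  fx k j l a := by
    rintro ⟨n, v⟩
    by_cases h : j = i
    · subst h
      simp [pm_apply, rho_x]
    · by_cases h' : l = i
      · subst h'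
        simp only [pm_apply, mem_rho_ne h, rho_x, rx_to h]
        intro h
        have := X.x_mem _ _ _ a _ h.2
        rw [dia_out φ this, φ.ft _ _ _ this, φ.fx _ _ _ a _ h.2]
      · simp only [pm_apply, mem_rho_ne h, rho_x, rx_ne h h']
        exact fun h => by rw [map_zero, φ.fx _ _ _ a _ h.2]

/-- the morphism induced on the negative reflections -/
def hl (i : ι) : Hom (X.lam i) (Y.lam i) where
  f := pm φ
  mem k j := by
    rintro ⟨n, v⟩
    by_cases h : j = i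
    · subst h
      simp only [pm_apply, mem_lam_self]
      exact fun h => ⟨dia_mem φ h.1, φ.mem _ _ _ h.2⟩
    · simp only [pm_apply, mem_lam_ne h]
      exact fun h => ⟨by simp [h.1], φ.mem _ _ _ h.2⟩
  fd k j := by
    rintro ⟨n, v⟩
    by_cases h : j = i
    · subst h
      simp only [pm_apply, mem_lam_self, lam_d_self]
      exact fun h => by rw [map_add, dia_d φ h.1, dia_out φ h.2, φ.fd _ _ _ h.2]
    · simp only [pm_apply, mem_lam_ne h, lam_d_ne h]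
      exact fun h => by rw [map_zero, φ.fd _ _ _ h.2]
  ft k j := by
    rintro ⟨n, v⟩
    by_cases h : j = i
    · subst h
      simp only [pm_apply, mem_lam_self, lam_t]
      exact fun h => by rw [map_zero, map_add, f_inn φ h.1, φ.ft _ _ _ h.2]
    · simp only [pm_apply, mem_lam_ne h, lam_t]
      rintro ⟨rfl, h⟩
      simp [φ.ft _ _ _ h]
  fx k j l a := by
    rintro ⟨n, v⟩
    by_cases h : j = i
    · subst h
      simp only [pm_apply, mem_lam_self, lam_x, lx_from]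
      intro h
      rw [map_zero, φ.fx _ _ _ a _ (add_mem (inn_mem (X.x_mem k) h.1) (X.t_mem' h.2)), map_add,
        f_inn φ h.1, φ.ft _ _ _ h.2]
    · by_cases h' : l = i
      · subst h'
        simp only [pm_apply, mem_lam_ne h, lam_x, lx_to h]
        intro _
        refine Prod.ext (funext fun p => ?_) (map_zero _)
        by_cases e : p = j
        · subst e; simp
        · simp [e]
      · simp only [pm_apply, mem_lam_ne h, lam_x, lx_ne h h']
        exact fun h => by rw [map_zero, φ.fx _ _ _ a _ h.2]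

theorem qis_hr (h : Qis X Y φ.f) (i : ι) : Qis (X.rho i) (Y.rho i) (pm φ) := by
  intro k j
  by_cases e : j = i
  · subst e
    have hf := (q_at φ h j).pred
    have hg := q_nb φ h j
    constructor
    · rintro ⟨n, v⟩ ⟨h1, h3⟩ ⟨⟨n', v'⟩, h4, h5⟩
      replace h1 := mem_rho_self.1 h1
      replace h4 := mem_rho_self.1 h4
      obtain ⟨a, ha, b, hb, e1, e2⟩ := five_inj hf hg (gl_inn X j) (gl_inn Y j)
        (fun _ _ => f_inn φ) h1.2 h1.1 ((add_comm _ _).trans (congrArg Prod.snd h3))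
        (congrArg Prod.fst h3) h4.2 h4.1 ((add_comm _ _).trans (congrArg Prod.snd h5))
        (congrArg Prod.fst h5)
      exact ⟨(b, a), mem_rho_self.2 ⟨hb, ha⟩, Prod.ext e2 ((add_comm _ _).trans e1)⟩
    · rintro ⟨n, v⟩ ⟨h1, h3⟩
      replace h1 := mem_rho_self.1 h1
      obtain ⟨a, ha, c, hc, e1, e2, s, hs, u, hu, e3, e4⟩ := five_sur hf hg (gl_inn X j)
        (gl_inn Y j) (fun _ _ => f_inn φ) h1.2 h1.1
        ((add_comm _ _).trans (congrArg Prod.snd h3)) (congrArg Prod.fst h3)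
      exact ⟨(c, a), ⟨mem_rho_self.2 ⟨hc, ha⟩, Prod.ext e2 ((add_comm _ _).trans e1)⟩, (u, s),
        mem_rho_self.2 ⟨hu, hs⟩, Prod.ext e4 ((add_comm _ _).trans e3)⟩
  · constructor
    · rintro ⟨n, v⟩ ⟨h1, h3⟩ ⟨⟨n', v'⟩, h4, h5⟩
      obtain ⟨rfl, g1⟩ := (mem_rho_ne e).1 h1
      obtain ⟨rfl, g4⟩ := (mem_rho_ne e).1 h4
      obtain ⟨u, hu, e1⟩ := (q_at φ h j).inj k v g1
        (by simpa [rho_d] using (h3 : (X.rho i).d j (0, v) = 0)) v' g4
        (by simpa [rho_d, pm_apply] using h5)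
      exact ⟨(0, u), (mem_rho_ne e).2 ⟨rfl, hu⟩, by simp [rho_d, e1]⟩
    · rintro ⟨n, v⟩ ⟨h1, h3⟩
      obtain ⟨rfl, g1⟩ := (mem_rho_ne e).1 h1
      obtain ⟨z, hz, e1, u, hu, e2⟩ := (q_at φ h j).sur k v g1
        (by simpa [rho_d] using (h3 : (Y.rho i).d j (0, v) = 0))
      exact ⟨(0, z), mem_Z.2 ⟨(mem_rho_ne e).2 ⟨rfl, hz⟩, by simp [rho_d, e1]⟩, (0, u),
        (mem_rho_ne e).2 ⟨rfl, hu⟩, by simp [rho_d, pm_apply, e2]⟩

theorem qis_hl (h : Qis X Y φ.f) (i : ι) : Qis (X.lam i) (Y.lam i) (pm φ) := by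
  intro k j
  by_cases e : j = i
  · subst e
    have hf := q_nb φ h j
    have hg := (q_at φ h j).shift 1
    constructor
    · rintro ⟨n, v⟩ ⟨h1, h3⟩ ⟨⟨n', v'⟩, h4, h5⟩
      replace h1 := mem_lam_self.1 h1
      replace h4 := mem_lam_self.1 h4
      replace h3 := lam_d_self.symm.trans h3
      replace h5 := lam_d_self.symm.trans h5
      obtain ⟨a, ha, b, hb, e1, e2⟩ := five_inj hf hg (gl_out X j) (gl_out Y j)
        (fun _ _ => dia_out φ) h1.1 h1.2 (congrArg Prod.fst h3) (congrArg Prod.snd h3) h4.1 h4.2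
        (congrArg Prod.fst h5) (congrArg Prod.snd h5)
      exact ⟨(a, b), mem_lam_self.2 ⟨ha, hb⟩, lam_d_self.trans (Prod.ext e1 e2)⟩
    · rintro ⟨n, v⟩ ⟨h1, h3⟩
      replace h1 := mem_lam_self.1 h1
      replace h3 := lam_d_self.symm.trans h3
      obtain ⟨a, ha, c, hc, e1, e2, s, hs, u, hu, e3, e4⟩ := five_sur hf hg (gl_out X j)
        (gl_out Y j) (fun _ _ => dia_out φ) h1.1 h1.2 (congrArg Prod.fst h3) (congrArg Prod.snd h3)
      exact ⟨(a, c), ⟨mem_lam_self.2 ⟨ha, hc⟩, lam_d_self.trans (Prod.ext e1 e2)⟩, (s, u),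
        mem_lam_self.2 ⟨hs, hu⟩, lam_d_self.trans (Prod.ext e3 e4)⟩
  · constructor
    · rintro ⟨n, v⟩ ⟨h1, h3⟩ ⟨⟨n', v'⟩, h4, h5⟩
      obtain ⟨rfl, g1⟩ := (mem_lam_ne e).1 h1
      obtain ⟨rfl, g4⟩ := (mem_lam_ne e).1 h4
      obtain ⟨u, hu, e1⟩ := (q_at φ h j).inj k v g1
        (by simpa [lam_d_ne e] using (h3 : (X.lam i).d j (0, v) = 0)) v' g4
        (by simpa [lam_d_ne e, pm_apply] using h5)
      exact ⟨(0, u), (mem_lam_ne e).2 ⟨rfl, hu⟩, by simp [lam_d_ne e, e1]⟩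
    · rintro ⟨n, v⟩ ⟨h1, h3⟩
      obtain ⟨rfl, g1⟩ := (mem_lam_ne e).1 h1
      obtain ⟨z, hz, e1, u, hu, e2⟩ := (q_at φ h j).sur k v g1
        (by simpa [lam_d_ne e] using (h3 : (Y.lam i).d j (0, v) = 0))
      exact ⟨(0, z), mem_Z.2 ⟨(mem_lam_ne e).2 ⟨rfl, hz⟩, by simp [lam_d_ne e, e1]⟩, (0, u),
        (mem_lam_ne e).2 ⟨rfl, hu⟩, by simp [lam_d_ne e, pm_apply, e2]⟩

end CONG

theorem st_CONG : St_CONG := fun _ _ i ⟨φ, h⟩ =>
  ⟨⟨CONG.hr φ i, CONG.qis_hr φ h i⟩, ⟨CONG.hl φ i, CONG.qis_hl φ h i⟩⟩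

end Pool.Agent.WP34
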