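import Mathlib

/-! An explicit procedure for the word problem in Artin groups. -/

namespace Pool.Agent.WP34.Ex

/-- A vertex of the unfolded graph: a generator and a string of digits. -/
abbrev Vt := ℕ × List ℕ

/-- A complex over the field with two elements: the vertex of each basis vector, the matrix of the
differential and the matrix of the arrows. -/
abbrev St := List Vt × List (List Bool) × List (List Bool)

/-- All strings of `K` digits whose digit number `m` is below `2, 1, 1, 2, 3, …, m - 1, …`. -/
def digs : ℕ → List (List ℕ)
  | 0 => [[]]
  | m + 1 => (digs m).flatMap fun f => (List.range (m - 1 + (2 - m))).map fun a => f ++ [a]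

/-- Adjacency in the unfolded graph; `m` is the label, `0` (infinity) outside the matrix. -/
def adj (L : List (List ℕ)) (v u : Vt) : Bool :=
  let m := (L.getD v.1 []).getD u.1 0
  v.1 != u.1 && v.2.set m 0 == u.2.set m 0 &&
    (m == 0 || v.2.getD m 0 + 1 == u.2.getD m 0 || u.2.getD m 0 + 1 == v.2.getD m 0)

/-- The twist at the vertex `i` (for `σ = false` the transposed construction, its inverse). -/
def twist (L : List (List ℕ)) (σ : Bool) (X : St) (i : Vt) : St :=
  let R := List.range X.1.length
  let e := fun (A : List (List Bool)) a b =>
    if σ then (A.getD a []).getD b false else (A.getD b []).getD a false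
  let o := fun a => X.1.getD a i == i
  let P := fun a b => (R.countP fun c => o c && e X.2.2 a c && e X.2.2 c b) % 2 == 1
  let B := R.map (false, ·) ++ (R.filter fun a => adj L (X.1.getD a i) i).map (true, ·)
  let D := fun p q : Bool × ℕ =>
    if p.1 == q.1 then e X.2.1 p.2 q.2 else p.1 && o q.2 && e X.2.2 p.2 q.2
  let E := fun p q : Bool × ℕ =>
    if p.1 then !(q.1 || o q.2) && p.2 == q.2
    else if o p.2 == (q.1 || o q.2) then e X.2.2 p.2 q.2 else !o p.2 && P p.2 q.2
  let T := fun A : Bool × ℕ → Bool × ℕ → Bool =>
    B.map fun p => B.map fun q => if σ then A p q else A q p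
  (B.map fun p => if p.1 then i else X.1.getD p.2 i, T D, T E)

/-- The decision procedure. -/
def wp (L : List (List ℕ)) (w : List (ℕ × Bool)) : Bool :=
  let F := digs (L.flatten.foldr max 0 + 1)
  let X := w.foldl (fun X l => (F.map (l.1, ·)).foldl (twist L l.2) X) (F.map (L.length, ·), [], [])
  let R := List.range X.1.length
  let I := R.filter fun a => (X.1.getD a (0, [])).1 < L.length
  (I.sublists.countP fun z => R.all fun b =>
    (z.countP fun a => (X.2.1.getD a []).getD b false) % 2 == 0) ^ 2 == 2 ^ I.length

end Pool.Agent.WP34.Ex
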