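import Pool.Agent.Lib.WP34.Blue
import Pool.Agent.Lib.WP34.ExDefs

/-! Statements of the steps that connect the explicit procedure with the faithful action. -/

namespace Pool.Agent.WP34.Ex

open Pool.Agent.H51

/-- the counting test of `wp` -/
def test (n : ℕ) (X : St) : Bool :=
  let R := List.range X.1.length
  let I := R.filter fun a => (X.1.getD a (0, [])).1 < n
  (I.sublists.countP fun z => R.all fun b =>
    (z.countP fun a => (X.2.1.getD a []).getD b false) % 2 == 0) ^ 2 == 2 ^ I.length

theorem wp_eq (L : List (List ℕ)) (w : List (ℕ × Bool)) : wp L w = test L.length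
    (w.foldl (fun X l => ((digs (L.flatten.foldr max 0 + 1)).map (l.1, ·)).foldl (twist L l.2) X)
      ((digs (L.flatten.foldr max 0 + 1)).map (L.length, ·), [], [])) := rfl

/-- the procedure is primitive recursive -/
def St_EXPR : Prop := Primrec₂ wp

/-- the tables describe the twisted objects -/
def St_EXREP : Prop := ∀ {ι : Type} [Fintype ι] [DecidableEq ι] (N : CoxeterMatrix ι)
  (L : List (List ℕ)) (e : ι → Vt), Function.Injective e →
  (∀ i j, N i j = 3 ↔ adj L (e i) (e j) = true) → ∀ I0 : List ι, I0.Nodup →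
  ∀ (u : List (ι × Bool)) (n : ℕ),
    (test n (u.foldl (fun X a => twist L a.2 X (e a.1)) (I0.map e, [], [])) = true ↔
      ∀ k i, (e i).1 < n → (BO.run ⟨Ob.base N fun j => decide (j ∈ I0)⟩ u).o.hd k i = 0)

/-- the unfolding by strings of digits -/
def St_EXUNF : Prop := ∀ (n : ℕ) (M : CoxeterMatrix (Fin n)) (L : List (List ℕ)),
  (∀ s t : Fin n, s ≠ t → M s t = (L.getD s []).getD t 0) →
  ∃ (ι : Type) (_ : Fintype ι) (_ : DecidableEq ι) (e : ι → Vt) (N : CoxeterMatrix ι)
    (U : Unf M N), Function.Injective e ∧ (∀ i j, N i j = 3 ↔ adj L (e i) (e j) = true) ∧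
    (∀ i, (e i).1 = U.pr i) ∧
    ∀ s, (U.fib s).map e = (digs (L.flatten.foldr max 0 + 1)).map (s.1, ·)

/-- the criterion for triviality -/
def St_EXCRIT : Prop := ∀ (n : ℕ) (M : CoxeterMatrix (Fin n)) (M' : CoxeterMatrix (Fin (n + 1))),
  (∀ s t : Fin n, M' s.castSucc t.castSucc = M s t) →
  (∀ s : Fin n, M' s.castSucc (Fin.last n) = 0) →
  ∀ {ι : Type} [Fintype ι] [DecidableEq ι] (N : CoxeterMatrix ι) (U : Unf M' N)
    (w : List (Fin n × Bool)),
    (evalW M w = 1 ↔ ∀ k i, U.pr i ≠ Fin.last n →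
      (BO.run ⟨Ob.base N fun j => decide (j ∈ U.fib (Fin.last n))⟩
        (w.flatMap fun l => (U.fib l.1.castSucc).map (·, l.2))).o.hd k i = 0)

/-- one more generator, joined to all others by the label infinity -/
def ext {n : ℕ} (M : CoxeterMatrix (Fin n)) : CoxeterMatrix (Fin (n + 1)) where
  M := Matrix.of fun s t => if s = t then 1 else
    if h : s.1 < n ∧ t.1 < n then M ⟨s, h.1⟩ ⟨t, h.2⟩ else 0
  isSymm := by
    ext s t
    simp only [Matrix.transpose_apply, Matrix.of_apply, eq_comm (a := t), and_comm (a := t.1 < n)]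
    split_ifs <;> simp [M.symmetric]
  diagonal s := by simp
  off_diagonal s t h := by
    simp only [Matrix.of_apply, h, if_false]
    split_ifs with h'
    · exact M.off_diagonal _ _ fun e => h (Fin.ext (congrArg Fin.val e :))
    · simp

theorem ext_apply {n : ℕ} (M : CoxeterMatrix (Fin n)) (s t : Fin (n + 1)) : ext M s t =
    if s = t then 1 else if h : s.1 < n ∧ t.1 < n then M ⟨s, h.1⟩ ⟨t, h.2⟩ else 0 := rfl

theorem final (h2 : St_EXREP) (h3 : St_EXUNF) (h4 : St_EXCRIT) (n : ℕ)
    (M : CoxeterMatrix (Fin n)) (w : List (Fin n × Bool)) :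
    wp (List.ofFn fun s => List.ofFn fun t => M s t) (w.map fun l => (l.1.val, l.2)) = true ↔
      evalW M w = 1 := by
  generalize hL : (List.ofFn fun s => List.ofFn fun t => M s t) = L
  have hn : L.length = n := by simp [← hL]
  obtain ⟨ι, _, _, e, N, U, e1, e2, e3, e4⟩ := h3 (n + 1) (ext M) L fun s t hst => by
    rw [ext_apply, if_neg hst, ← hL]
    split_ifs with h
    · simp [List.getD, h.1, h.2]
    · by_cases hs : s.1 < n
      · have ht : ¬ t.1 < n := fun ht => h ⟨hs, ht⟩
        simp [List.getD, hs, ht]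
      · simp [List.getD, hs]
  rw [h4 n M (ext M) (fun s t => by
      rw [ext_apply]
      split_ifs with h h'
      · rw [Fin.castSucc_inj.1 h, M.diagonal]
      · rfl
      · simp at h') (fun s => by
      rw [ext_apply, if_neg (Fin.castSucc_ne_last s), dif_neg (by simp)]) N U w]
  have := h2 N L e e1 e2 (U.fib (Fin.last n)) (U.nodup _)
    (w.flatMap fun l => (U.fib l.1.castSucc).map (·, l.2)) n
  rw [wp_eq, hn]
  refine Iff.trans ?_ (this.trans (forall₂_congr fun k i => imp_congr_left ?_))
  · rw [e4, List.foldl_flatMap, List.foldl_map]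
    refine Iff.of_eq (congrArg (fun X => test n X = true) ?_)
    refine List.foldl_ext _ _ _ fun X l _ => ?_
    rw [List.foldl_map (f := fun x => (x, l.2)), ← List.foldl_map (f := e) (g := twist L l.2), e4]
    rfl
  · rw [e3, Ne, Fin.ext_iff, Fin.val_last]
    have := (U.pr i).2
    omega

end Pool.Agent.WP34.Ex
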