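import Pool.Agent.Lib.WP34.Core
import Pool.Agent.Lib.WP34.ExBlue

/-! The criterion for triviality with one extra generator. -/

namespace Pool.Agent.WP34

open Pool.Agent.H51

theorem st_EXCRIT (h : St_CORE) : Ex.St_EXCRIT := by
  intro n M M' h1 h2 ι _ _ N U w
  have e0 : evalW M w = FreeGroup.lift (gen M) (FreeGroup.mk w) := by
    have : PresentedGroup.mk (artinRel M) = FreeGroup.lift (gen M) := by
      ext s; simp [gen, PresentedGroup.of]
    rw [evalW, this]
  have b1 : BrOn M Set.univ fun s => gen M' s.castSucc := fun s _ t _ => by
    have := brOn_gen (M := M') s.castSucc trivial t.castSucc trivial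
    rwa [h1, ← alt_map, ← alt_map, List.map_map, List.map_map] at this
  have b2 : BrOn M' Set.univ (Fin.lastCases (1 : Artin M) (gen M)) := fun s _ t _ => by
    induction s using Fin.lastCases with
    | last =>
      induction t using Fin.lastCases with
      | last => rfl
      | cast t => rw [M'.symmetric, h2]; rfl
    | cast s =>
      induction t using Fin.lastCases with
      | last => rw [h2]; rfl
      | cast t =>
        rw [h1, ← alt_map, ← alt_map, List.map_map, List.map_map]
        simpa [Function.comp_def] using brOn_gen (M := M) s trivial t trivial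
  have hr : ∀ s, s ≠ Fin.last n → M' s (Fin.last n) = 0 := fun s hs => by
    obtain ⟨s, rfl⟩ := Fin.exists_castSucc_eq.2 hs
    exact h2 s
  have key := h U (Fin.last n) hr (w.map fun l => (l.1.castSucc, l.2))
    (List.forall_mem_map.2 fun l _ => Fin.castSucc_ne_last _)
  rw [List.flatMap_map] at key
  rw [show (fun j => decide (j ∈ U.fib (Fin.last n))) = fun j => decide (U.pr j = Fin.last n) from
    funext fun j => decide_eq_decide.2 (U.mem_fib _ _), key, e0]
  constructor <;> intro e
  · have := congrArg (alift _ b1) e
    rw [map_one, FreeGroup.lift_mk, map_list_prod, List.map_map] at this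
    rw [← this, FreeGroup.lift_mk, List.map_map]
    exact congrArg _ (List.map_congr_left fun l _ => by cases h : l.2 <;> simp [h])
  · have := congrArg (alift _ b2) e
    rw [map_one, FreeGroup.lift_mk, map_list_prod, List.map_map, List.map_map] at this
    rw [← this, FreeGroup.lift_mk]
    exact congrArg _ (List.map_congr_left fun l _ => by cases h : l.2 <;> simp [h])

end Pool.Agent.WP34
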