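import Pool.Agent.Lib.WP34.ExBlue
import Pool.Agent.Lib.MP_a1ec0a_al.S1

/-! The explicit procedure is primitive recursive. -/

namespace Pool.Agent.WP34.Ex

open Pool.Agent.Lib.MP_a1ec0a_al

variable {α β : Type} [Primcodable α] [Primcodable β]

@[fun_prop] theorem pr_beq [BEq β] [LawfulBEq β] {f g : α → β} (hf : PR f) (hg : PR g) :
    PR fun a => f a == g a := by
  classical exact (PR.beq hf hg).congr fun a => by rw [Bool.eq_iff_iff]; simp

@[fun_prop] theorem pr_bne [BEq β] [LawfulBEq β] {f g : α → β} (hf : PR f) (hg : PR g) :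
    PR fun a => f a != g a := PR.not (pr_beq hf hg)

@[fun_prop] theorem pr_flatten {L : α → List (List β)} (h : PR L) : PR fun a => (L a).flatten :=
  Primrec.list_flatten.comp h

@[fun_prop] theorem pr_sublists {L : α → List β} (h : PR L) : PR fun a => (L a).sublists := by
  unfold List.sublists; fun_prop

@[fun_prop] theorem pr_countP {f : α → β → Bool} {l : α → List β}
    (hf : PR fun p : α × β => f p.1 p.2) (hl : PR l) : PR fun a => (l a).countP (f a) :=
  (PR.length (PR.filter hf hl)).congr fun _ => List.countP_eq_length_filter.symm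

@[fun_prop] theorem pr_mod {m n : α → ℕ} (hm : PR m) (hn : PR n) : PR fun a => m a % n a :=
  Primrec.nat_mod.comp hm hn

@[fun_prop] theorem pr_max {m n : α → ℕ} (hm : PR m) (hn : PR n) : PR fun a => max (m a) (n a) :=
  Primrec.nat_max.comp hm hn

@[fun_prop] theorem pr_lt {m n : α → ℕ} (hm : PR m) (hn : PR n) :
    PR fun a => decide (m a < n a) :=
  (PR.ble (PR.add hm (PR.const 1)) hn).congr fun a => by
    rw [Bool.eq_iff_iff, Nat.ble_eq, decide_eq_true_eq]; exact Nat.add_one_le_iff

@[fun_prop] theorem pr_set {l : α → List ℕ} {m x : α → ℕ} (hl : PR l) (hm : PR m) (hx : PR x) :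
    PR fun a => (l a).set (m a) (x a) :=
  (show PR fun a => (List.range (l a).length).map fun k => bif k == m a then x a else (l a).getD k 0
    by fun_prop).congr fun a => List.ext_getElem (by simp) fun k h _ => by
      simp only [List.length_map, List.length_range] at h
      by_cases e : k = m a
      · subst e; simp
      · rw [List.getElem_set_ne (Ne.symm e)]; simp [beq_false_of_ne e, h]

theorem digs_eq (K : ℕ) : digs K = (List.range K).foldl
    (fun F m => F.flatMap fun f => (List.range (m - 1 + (2 - m))).map fun a => f ++ [a]) [[]] := by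
  induction K with
  | zero => rfl
  | succ K ih => rw [List.range_succ, List.foldl_append, ← ih]; rfl

@[fun_prop] theorem pr_digs {K : α → ℕ} (hK : PR K) : PR fun a => digs (K a) := by
  simp only [digs_eq]; fun_prop

@[fun_prop] theorem pr_adj {L : α → List (List ℕ)} {u v : α → Vt} (hL : PR L) (hu : PR u)
    (hv : PR v) : PR fun a => adj (L a) (u a) (v a) := by
  simp only [adj]; fun_prop

/-- entry of a matrix or of its transpose -/
def entS (σ : Bool) (A : List (List Bool)) (a b : ℕ) : Bool :=
  bif σ then (A.getD a []).getD b false else (A.getD b []).getD a false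

/-- the basis vector sits at the vertex -/
def atv (X : St) (i : Vt) (a : ℕ) : Bool := X.1.getD a i == i

/-- paths of two arrows through the vertex -/
def pth (σ : Bool) (X : St) (i : Vt) (a b : ℕ) : Bool :=
  ((List.range X.1.length).countP fun c => atv X i c && entS σ X.2.2 a c && entS σ X.2.2 c b) % 2 == 1

/-- the new basis -/
def bas (L : List (List ℕ)) (X : St) (i : Vt) : List (Bool × ℕ) :=
  ((List.range X.1.length).map fun a => (false, a)) ++
    ((List.range X.1.length).filter fun a => adj L (X.1.getD a i) i).map fun a => (true, a)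

/-- the new differential -/
def nD (σ : Bool) (X : St) (i : Vt) (p q : Bool × ℕ) : Bool :=
  bif p.1 == q.1 then entS σ X.2.1 p.2 q.2 else p.1 && atv X i q.2 && entS σ X.2.2 p.2 q.2

/-- the new arrows -/
def nE (σ : Bool) (X : St) (i : Vt) (p q : Bool × ℕ) : Bool :=
  bif p.1 then !(q.1 || atv X i q.2) && p.2 == q.2
  else bif atv X i p.2 == (q.1 || atv X i q.2) then entS σ X.2.2 p.2 q.2
    else !atv X i p.2 && pth σ X i p.2 q.2

theorem twist_eq (L : List (List ℕ)) (σ : Bool) (X : St) (i : Vt) : twist L σ X i =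
    ((bas L X i).map fun p => bif p.1 then i else X.1.getD p.2 i,
      (bas L X i).map fun p => (bas L X i).map fun q => bif σ then nD σ X i p q else nD σ X i q p,
      (bas L X i).map fun p => (bas L X i).map fun q =>
        bif σ then nE σ X i p q else nE σ X i q p) := by
  simp only [twist, bas, nD, nE, pth, atv, entS, Bool.cond_eq_ite]

@[fun_prop] theorem pr_ent {σ : α → Bool} {A : α → List (List Bool)} {a b : α → ℕ} (hσ : PR σ)
    (hA : PR A) (ha : PR a) (hb : PR b) : PR fun x => entS (σ x) (A x) (a x) (b x) := by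
  unfold entS; fun_prop

@[fun_prop] theorem pr_atv {X : α → St} {i : α → Vt} {a : α → ℕ} (hX : PR X) (hi : PR i)
    (ha : PR a) : PR fun x => atv (X x) (i x) (a x) := by
  unfold atv; fun_prop

@[fun_prop] theorem pr_pth {σ : α → Bool} {X : α → St} {i : α → Vt} {a b : α → ℕ} (hσ : PR σ)
    (hX : PR X) (hi : PR i) (ha : PR a) (hb : PR b) :
    PR fun x => pth (σ x) (X x) (i x) (a x) (b x) := by
  unfold pth; fun_prop

@[fun_prop] theorem pr_bas {L : α → List (List ℕ)} {X : α → St} {i : α → Vt} (hL : PR L)
    (hX : PR X) (hi : PR i) : PR fun x => bas (L x) (X x) (i x) := by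
  unfold bas; fun_prop

@[fun_prop] theorem pr_nD {σ : α → Bool} {X : α → St} {i : α → Vt} {p q : α → Bool × ℕ}
    (hσ : PR σ) (hX : PR X) (hi : PR i) (hp : PR p) (hq : PR q) :
    PR fun x => nD (σ x) (X x) (i x) (p x) (q x) := by
  unfold nD; fun_prop

@[fun_prop] theorem pr_nE {σ : α → Bool} {X : α → St} {i : α → Vt} {p q : α → Bool × ℕ}
    (hσ : PR σ) (hX : PR X) (hi : PR i) (hp : PR p) (hq : PR q) :
    PR fun x => nE (σ x) (X x) (i x) (p x) (q x) := by
  unfold nE; fun_prop

@[fun_prop] theorem pr_twist {L : α → List (List ℕ)} {σ : α → Bool} {X : α → St} {i : α → Vt}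
    (hL : PR L) (hσ : PR σ) (hX : PR X) (hi : PR i) :
    PR fun x => twist (L x) (σ x) (X x) (i x) := by
  simp only [twist_eq]; fun_prop

@[fun_prop] theorem pr_test {n : α → ℕ} {X : α → St} (hn : PR n) (hX : PR X) :
    PR fun x => test (n x) (X x) := by
  simp only [test]; fun_prop

theorem st_EXPR : St_EXPR := by
  have : PR fun p : List (List ℕ) × List (ℕ × Bool) => wp p.1 p.2 := by
    simp only [wp_eq]; fun_prop
  exact this

end Pool.Agent.WP34.Ex
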