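import Pool.Agent.Lib.WP34.Ob

/-! Homogeneous bases of differential graded modules and the matrices of the reflections. -/

set_option linter.unusedSectionVars false

namespace Pool.Agent.WP34

open LinearMap (fst snd proj)

variable {ι : Type} [Fintype ι] [DecidableEq ι] {N : CoxeterMatrix ι} {V : Type} [AddCommGroup V]
  [Module F V] {β : Type} [DecidableEq β]

/-- the loop or the arrow from `j` to `l` -/
def Ob.op (X : Ob N V) (j l : ι) : V →ₗ[F] V := if j = l then X.t j else X.x j l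

/-- the loss of degree -/
def sh (j l : ι) : ℤ := if j = l then 1 else 0

variable (N) in
/-- equal or adjacent -/
def Ok (j l : ι) : Prop := j = l ∨ N j l = 3

instance (j l : ι) : Decidable (Ok N j l) := inferInstanceAs (Decidable (_ ∨ _))

theorem Ob.op_mem (X : Ob N V) {j l k v} (h : Ok N j l) (hv : v ∈ X.G k j) :
    X.op j l v ∈ X.G (k - sh j l) l := by
  by_cases e : j = l
  · subst e; simpa [Ob.op, sh] using X.t_mem _ _ _ hv
  · simpa [Ob.op, sh, e] using X.x_mem _ _ _ (h.resolve_left e) _ hv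

/-- a basis of every piece, with its dual basis -/
structure Rep (X : Ob N V) (S : Finset β) where
  lab : β → ι
  deg : β → ℤ
  b : β → V
  c : β → V →ₗ[F] F
  mem : ∀ a ∈ S, b a ∈ X.G (deg a) (lab a)
  dual : ∀ a ∈ S, ∀ a' ∈ S, lab a = lab a' → deg a = deg a' → c a (b a') = if a = a' then 1 else 0
  exp : ∀ k j, ∀ v ∈ X.G k j, v = ∑ a ∈ S, if lab a = j ∧ deg a = k then c a v • b a else 0

namespace Rep

variable {X : Ob N V} {S : Finset β} (R : Rep X S)

/-- the matrix of the differential -/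
def D (a a' : β) : F :=
  if R.lab a = R.lab a' ∧ R.deg a' = R.deg a + 1 then R.c a' (X.d (R.lab a) (R.b a)) else 0

/-- the matrix of the loops and arrows -/
def E (a a' : β) : F :=
  if Ok N (R.lab a) (R.lab a') ∧ R.deg a' = R.deg a - sh (R.lab a) (R.lab a') then
    R.c a' (X.op (R.lab a) (R.lab a') (R.b a)) else 0

/-- paths of length two through `i` -/
def P (i : ι) (a a' : β) : F := ∑ c ∈ S, if R.lab c = i then R.E a c * R.E c a' else 0

theorem P_eq (i : ι) {a : β} (ha : a ∈ S) (a' : β) : R.P i a a' =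
    if Ok N (R.lab a) i ∧ Ok N i (R.lab a') ∧
      R.deg a' = R.deg a - sh (R.lab a) i - sh i (R.lab a') then
    R.c a' (X.op i (R.lab a') (X.op (R.lab a) i (R.b a))) else 0 := by
  by_cases h1 : Ok N (R.lab a) i
  · have := R.exp _ _ _ (X.op_mem h1 (R.mem a ha))
    split_ifs with h
    · rw [this, map_sum, map_sum]
      refine Finset.sum_congr rfl fun c _ => ?_
      by_cases e : R.lab c = i
      · by_cases e' : R.deg c = R.deg a - sh (R.lab a) i
        · simp [E, e, e', h1, h.2.1, h.2.2]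
        · simp [E, e, e']
      · simp [e]
    · refine Finset.sum_eq_zero fun c _ => ?_
      by_cases e : R.lab c = i
      · by_cases e' : R.deg c = R.deg a - sh (R.lab a) i
        · have : ¬ (Ok N i (R.lab a') ∧ R.deg a' = R.deg c - sh i (R.lab a')) := fun h' =>
            h ⟨h1, h'.1, by rw [h'.2, e']⟩
          simp only [E, e, if_true, this, if_false, mul_zero]
        · simp [E, e, e']
      · simp [e]
  · rw [if_neg fun h => h1 h.1]
    refine Finset.sum_eq_zero fun c _ => ?_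
    by_cases e : R.lab c = i <;> simp [E, e, h1]

/-- change of the index set -/
def comp {γ : Type} [DecidableEq γ] (T : Finset γ) (f : γ → β) (h1 : ∀ a ∈ T, f a ∈ S)
    (h2 : ∀ a ∈ T, ∀ a' ∈ T, f a = f a' → a = a') (h3 : ∀ b ∈ S, ∃ a ∈ T, f a = b) : Rep X T where
  lab a := R.lab (f a)
  deg a := R.deg (f a)
  b a := R.b (f a)
  c a := R.c (f a)
  mem a ha := R.mem _ (h1 a ha)
  dual a ha a' ha' e e' := by
    rw [R.dual _ (h1 a ha) _ (h1 a' ha') e e']
    exact if_congr ⟨h2 a ha a' ha', fun e => by rw [e]⟩ rfl rfl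
  exp k j v hv := (R.exp k j v hv).trans
    (Finset.sum_bij (fun a _ => f a) h1 (fun a ha a' ha' => h2 a ha a' ha')
      (fun b hb => let ⟨a, ha, e⟩ := h3 b hb; ⟨a, ha, e⟩) fun _ _ => rfl).symm

/-- the index set after a reflection -/
def nS (i : ι) : Finset (Bool × β) :=
  (Finset.univ ×ˢ S).filter fun p => p.1 = true → N (R.lab p.2) i = 3

theorem mem_nS {i : ι} {p : Bool × β} :
    p ∈ R.nS i ↔ p.2 ∈ S ∧ (p.1 = true → N (R.lab p.2) i = 3) := by simp [nS]

theorem sum_nS {W : Type} [AddCommMonoid W] (i : ι) (f : Bool × β → W) : ∑ p ∈ R.nS i, f p =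
    (∑ a ∈ S, if N (R.lab a) i = 3 then f (true, a) else 0) + ∑ a ∈ S, f (false, a) := by
  rw [nS, Finset.sum_filter, Finset.sum_product]
  simp

/-- the basis after a reflection -/
def step (i : ι) (s : ℤ) (Y : Ob N ((ι → V) × V))
    (h1 : ∀ k n v, (n, v) ∈ Y.G k i ↔ n ∈ nb N (X.G k) i ∧ v ∈ X.G (k - s) i)
    (h2 : ∀ k j n v, j ≠ i → ((n, v) ∈ Y.G k j ↔ n = 0 ∧ v ∈ X.G k j)) : Rep Y (R.nS i) where
  lab p := if p.1 then i else R.lab p.2
  deg p := if p.1 = false ∧ R.lab p.2 = i then R.deg p.2 + s else R.deg p.2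
  b p := if p.1 then (Pi.single (R.lab p.2) (R.b p.2), 0) else (0, R.b p.2)
  c p := if p.1 then R.c p.2 ∘ₗ proj (R.lab p.2) ∘ₗ fst _ _ _ else R.c p.2 ∘ₗ snd _ _ _
  mem := by
    rintro ⟨_ | _, a⟩ ha <;> rw [mem_nS] at ha
    · by_cases e : R.lab a = i
      · simpa [e, h1] using e ▸ R.mem a ha.1
      · simpa [e, h2] using R.mem a ha.1
    · simpa [h1] using single_mem (adj_symm (ha.2 rfl)) (R.mem a ha.1)
  dual := by
    rintro ⟨_ | _, a⟩ ha ⟨_ | _, a'⟩ ha' e e' <;> rw [mem_nS] at ha ha'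
    · simp at e e'
      rw [e] at e'
      simpa using R.dual a ha.1 a' ha'.1 e (by split_ifs at e' <;> omega)
    · simp
    · simp
    · simp at e'
      by_cases e2 : R.lab a = R.lab a'
      · simpa [e2] using R.dual a ha.1 a' ha'.1 e2 e'
      · have : a ≠ a' := fun h => e2 (by rw [h])
        simp [e2, this]
  exp k j := by
    rintro ⟨n, v⟩ hv
    rw [sum_nS]
    refine Prod.ext (funext fun p => ?_) ?_ <;>
      simp only [Prod.fst_add, Prod.snd_add, Prod.fst_sum, Prod.snd_sum, Pi.add_apply,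
        Finset.sum_apply, apply_ite Prod.fst, apply_ite Prod.snd, ite_apply] <;> simp
    · by_cases e : j = i
      · subst e
        rw [h1, mem_nb] at hv
        by_cases a : N j p = 3
        · refine (R.exp k p _ (hv.1.1 p a)).trans (Finset.sum_congr rfl fun c _ => ?_)
          by_cases e : R.lab c = p
          · simp [e, adj_symm a]
          · simp [e, Ne.symm e]
        · rw [hv.1.2 p a, Finset.sum_eq_zero fun c _ => ?_]
          by_cases e : R.lab c = p
          · simp [e, N.symmetric p j, a]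
          · simp [Ne.symm e]
      · simp [((h2 _ _ _ _ e).1 hv).1]
    · by_cases e : j = i
      · subst e
        refine (R.exp _ _ _ ((h1 _ _ _).1 hv).2).trans (Finset.sum_congr rfl fun c _ => ?_)
        by_cases e : R.lab c = j <;> simp [e, eq_sub_iff_add_eq]
      · refine (R.exp _ _ _ ((h2 _ _ _ _ e).1 hv).2).trans (Finset.sum_congr rfl fun c _ => ?_)
        by_cases e' : R.lab c = j <;> simp [e, e']

/-- the basis after the positive reflection -/
def rho (i : ι) : Rep (X.rho i) (R.nS i) :=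
  R.step i 1 _ (fun _ _ _ => Ob.mem_rho_self) fun _ _ _ _ => Ob.mem_rho_ne

/-- the basis after the negative reflection -/
def lam (i : ι) : Rep (X.lam i) (R.nS i) :=
  R.step i (-1) _ (fun _ _ _ => by rw [sub_neg_eq_add]; exact Ob.mem_lam_self)
    fun _ _ _ _ => Ob.mem_lam_ne

end Rep

/-- the new differential -/
def nD (D E : β → β → F) (o : β → Prop) [DecidablePred o] (p q : Bool × β) : F :=
  if p.1 = q.1 then D p.2 q.2 else if p.1 = true ∧ o q.2 then E p.2 q.2 else 0

/-- the new arrows -/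
def nE (E P : β → β → F) (o : β → Prop) [DecidablePred o] (p q : Bool × β) : F :=
  if p.1 = true then (if ¬ (q.1 = true ∨ o q.2) ∧ p.2 = q.2 then 1 else 0)
  else if (o p.2 ↔ q.1 = true ∨ o q.2) then E p.2 q.2 else if ¬ o p.2 then P p.2 q.2 else 0

namespace Rep

variable {X : Ob N V} {S : Finset β} (R : Rep X S) (i : ι)

theorem single_dual {a b : β} (ha : a ∈ S) (hb : b ∈ S) {p : Prop} [Decidable p]
    (hp : a = b → p) : (if p ∧ R.deg b = R.deg a then
      R.c b (Pi.single (M := fun _ => V) (R.lab a) (R.b a) (R.lab b)) else 0) =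
      if a = b then 1 else 0 := by
  by_cases h : a = b
  · subst h; simp [hp rfl, R.dual a ha a ha]
  · by_cases e : R.lab b = R.lab a
    · simp +contextual [e, h, Ne.symm h, R.dual b hb a ha e]
    · simp [e, h]

theorem rho_D {p q} (hp : p ∈ R.nS i) (hq : q ∈ R.nS i) :
    (R.rho i).D p q = nD R.D R.E (R.lab · = i) p q := by
  obtain ⟨_ | _, a⟩ := p <;> obtain ⟨_ | _, b⟩ := q <;> rw [mem_nS] at hp hq <;>
    simp [D, E, nD, rho, step, Ob.rho_d]
  · exact if_congr (and_congr_right fun e => by rw [e]; split_ifs <;> omega) rfl rfl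
  · have h := hp.2 rfl
    by_cases hb : R.lab b = i
    · simp [hb, Ok, sh, Ob.op, h, adj_ne h, inn_single _ (adj_symm h)]
    · simp [hb, Ne.symm hb]
  · by_cases e : R.lab a = R.lab b <;> simp [e, Ne.symm]

theorem lam_D {p q} (hp : p ∈ R.nS i) (hq : q ∈ R.nS i) :
    (R.lam i).D p q = nD (flip R.D) (flip R.E) (R.lab · = i) q p := by
  obtain ⟨_ | _, a⟩ := p <;> obtain ⟨_ | _, b⟩ := q <;> rw [mem_nS] at hp hq <;>
    simp [D, E, nD, lam, step, flip, Ob.lam_d_self]
  · refine if_congr (and_congr_right fun e => by rw [e]; split_ifs <;> omega) ?_ rfl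
    by_cases ha : R.lab a = i <;> simp [ha, Ob.lam_d_self, Ob.lam_d_ne]
  · have h := adj_symm (hq.2 rfl)
    by_cases ha : R.lab a = i <;> simp [ha, Ok, sh, Ob.op, h, adj_ne h, Ob.lam_d_self, out_apply]
  · by_cases e : R.lab a = R.lab b <;> simp [e, Ne.symm]

theorem rho_E {p q} (hp : p ∈ R.nS i) (hq : q ∈ R.nS i) :
    (R.rho i).E p q = nE R.E (R.P i) (R.lab · = i) p q := by
  obtain ⟨_ | _, a⟩ := p <;> obtain ⟨_ | _, b⟩ := q <;> rw [mem_nS] at hp hq <;>
    simp [E, nE, rho, step, R.P_eq i hp.1]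
  · by_cases ha : R.lab a = i <;> by_cases hb : R.lab b = i
    · simp [ha, hb, Ok, sh, Ob.op, Ob.rho_t_self]
      exact if_congr (by omega) rfl rfl
    · simp [ha, hb, Ne.symm hb, Ob.op, Ob.rho_x]
    · simp [ha, hb, Ok, sh, Ob.op, Ob.rho_x, rx_to ha]
      exact if_congr (and_congr_right fun _ => by omega) rfl rfl
    · by_cases e : R.lab a = R.lab b <;> simp [ha, hb, e, Ob.op, Ob.rho_x, rx_ne, Ob.rho_t_ne]
  · have h := adj_symm (hq.2 rfl)
    by_cases ha : R.lab a = i <;>
      simp [ha, Ok, sh, Ob.op, h, adj_ne h, Ob.rho_t_self, out_apply, Ob.rho_x, rx_to]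
  · have h := adj_symm (hp.2 rfl)
    by_cases hb : R.lab b = i
    · simp [hb, Ob.op, Ob.rho_t_self]
    · simp [hb, Ne.symm hb, Ob.op, Ob.rho_x, sh, Ok]
      exact R.single_dual hp.1 hq.1 fun e : a = b => e ▸ h
  · simp [Ob.op, Ob.rho_t_self]

theorem lam_E {p q} (hp : p ∈ R.nS i) (hq : q ∈ R.nS i) :
    (R.lam i).E p q = nE (flip R.E) (flip (R.P i)) (R.lab · = i) q p := by
  obtain ⟨_ | _, a⟩ := p <;> obtain ⟨_ | _, b⟩ := q <;> rw [mem_nS] at hp hq <;>
    simp [E, nE, lam, step, R.P_eq i hp.1, flip]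
  · by_cases ha : R.lab a = i <;> by_cases hb : R.lab b = i
    · simp [ha, hb, Ok, sh, Ob.op, Ob.lam_t]
      exact if_congr (by omega) rfl rfl
    · simp [ha, hb, Ne.symm hb, Ob.op, Ob.lam_x, Ok, sh]
      rfl
    · simp [ha, hb, Ok, sh, Ob.op, Ob.lam_x, lx_to ha]
    · by_cases e : R.lab a = R.lab b <;> simp [ha, hb, e, Ob.op, Ob.lam_x, lx_ne, Ob.lam_t]
  · have h := hq.2 rfl
    by_cases ha : R.lab a = i
    · simp [ha, Ob.op, Ob.lam_t]
    · simp [ha, Ob.op, Ob.lam_x, lx_to ha, sh, Ok]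
      exact (R.single_dual hp.1 hq.1 fun e : a = b => e ▸ h).trans (if_congr eq_comm rfl rfl)
  · have h := hp.2 rfl
    by_cases hb : R.lab b = i
    · simp [hb, Ok, sh, Ob.op, h, adj_ne h, Ob.lam_t, inn_single _ (adj_symm h)]
      exact if_congr (by omega) rfl rfl
    · simp [hb, Ne.symm hb, Ok, sh, Ob.op, h, adj_ne h, Ob.lam_x, inn_single _ (adj_symm h)]
  · simp [Ob.op, Ob.lam_t]

/-- the differential in coordinates, on the part `J` of the basis -/
def δ (J : Finset β) : (J → F) →ₗ[F] (J → F) :=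
  LinearMap.pi fun c => ∑ a : J, R.D a c • proj a

theorem δ_apply (J : Finset β) (w : J → F) (c : J) : R.δ J w c = ∑ a : J, R.D a c * w a := by
  simp [δ]

/-- the vector with given coordinates in one piece -/
def φ (J : Finset β) (k : ℤ) (j : ι) : (J → F) →ₗ[F] V :=
  ∑ a : J, if R.lab a = j ∧ R.deg a = k then (proj a : (J → F) →ₗ[F] F).smulRight (R.b a) else 0

theorem φ_apply (J : Finset β) (k : ℤ) (j : ι) (w : J → F) :
    R.φ J k j w = ∑ a : J, if R.lab a = j ∧ R.deg a = k then w a • R.b a else 0 := by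
  simp only [φ, LinearMap.sum_apply]
  exact Finset.sum_congr rfl fun a _ => by split_ifs <;> rfl

theorem count [Finite V] (Q : ι → Prop) (J : Finset β) (hJ : ∀ a, a ∈ J ↔ a ∈ S ∧ Q (R.lab a)) :
    Nat.card (LinearMap.ker (R.δ J)) ^ 2 = 2 ^ J.card ↔ ∀ k j, Q j → X.hd k j = 0 := by
  have m : ∀ k j w, R.φ J k j w ∈ X.G k j := fun k j w => by
    rw [φ_apply]
    refine Submodule.sum_mem _ fun a _ => ?_
    split_ifs with h
    exacts [Submodule.smul_mem _ _ (h.1 ▸ h.2 ▸ R.mem a ((hJ a).1 a.2).1), zero_mem _]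
  have ex : ∀ k j, Q j → ∀ v ∈ X.G k j,
      (∑ a : J, if R.lab a = j ∧ R.deg a = k then R.c a v • R.b a else 0) = v := by
    intro k j hj v hv
    rw [Finset.sum_coe_sort J fun a => if R.lab a = j ∧ R.deg a = k then R.c a v • R.b a else 0]
    refine Eq.trans (Finset.sum_subset (fun a ha => ((hJ a).1 ha).1) fun a ha ha' => ?_)
      (R.exp k j v hv).symm
    exact if_neg fun h => ha' ((hJ a).2 ⟨ha, by rw [h.1]; exact hj⟩)
  have dφ : ∀ k j w, X.d j (R.φ J k j w) = R.φ J (k + 1) j (R.δ J w) := fun k j w => by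
    simp only [φ_apply, δ_apply, map_sum, Finset.sum_smul, Finset.ite_sum_zero]
    rw [Finset.sum_comm]
    refine Finset.sum_congr rfl fun a _ => ?_
    obtain ⟨h1, h2⟩ := (hJ a).1 a.2
    split_ifs with h
    · obtain ⟨rfl, rfl⟩ := h
      rw [map_smul, ← ex _ _ h2 _ (X.d_mem _ _ _ (R.mem a h1)), Finset.smul_sum]
      refine Finset.sum_congr rfl fun c _ => ?_
      split_ifs with h
      · simp [D, h.1, h.2, mul_comm, mul_smul]
      · simp
    · rw [map_zero, Finset.sum_eq_zero fun c _ => ?_]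
      split_ifs with h'
      · rw [D, if_neg fun e => h ⟨e.1.trans h'.1, by omega⟩, zero_mul, zero_smul]
      · rfl
  have inj : ∀ w, (∀ k j, Q j → R.φ J k j w = 0) → w = 0 := fun w h => funext fun a => by
    obtain ⟨h1, h2⟩ := (hJ a).1 a.2
    have := congrArg (R.c a) (h (R.deg a) _ h2)
    rw [φ_apply, map_sum, Finset.sum_eq_single a (fun c _ hc => ?_) (by simp)] at this
    · simpa [R.dual a h1 a h1] using this
    · split_ifs with h
      · simp [R.dual a h1 c ((hJ c).1 c.2).1 h.1.symm h.2.symm, Subtype.val_injective.ne hc.symm]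
      · simp
  have le : LinearMap.range (R.δ J) ≤ LinearMap.ker (R.δ J) := by
    rintro _ ⟨w, rfl⟩
    refine inj _ fun k j _ => ?_
    rw [show k = k - 2 + 1 + 1 by ring, ← dφ, ← dφ, X.dd _ _ _ (m _ _ _)]
  have c1 : Nat.card (LinearMap.ker (R.δ J)) * Nat.card (LinearMap.range (R.δ J)) = 2 ^ J.card := by
    rw [← Nat.card_congr (R.δ J).quotKerEquivRange.toEquiv,
      ← Submodule.card_eq_card_quotient_mul_card]
    simp [Nat.card_eq_fintype_card]
  rw [← c1, sq, mul_right_inj' Nat.card_pos.ne']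
  refine Iff.trans (b := LinearMap.ker (R.δ J) ≤ LinearMap.range (R.δ J)) ⟨fun h => ?_, fun h => ?_⟩
    ⟨fun h k j hj => Ob.hd_eq_zero.2 fun z hz => ?_, fun h w hw => ?_⟩
  · exact (Set.eq_of_subset_of_ncard_le (s := (LinearMap.range (R.δ J) : Set (J → F)))
      (t := LinearMap.ker (R.δ J)) le h.le).ge
  · rw [le_antisymm h le]
  · have e : ∀ k' j', R.φ J k' j' (fun a => if R.lab a = j ∧ R.deg a = k then R.c a z else 0) =
        if j' = j ∧ k' = k then z else 0 := fun k' j' => by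
      rw [φ_apply]
      split_ifs with h
      · rw [h.1, h.2, ← ex k j hj z hz.1]
        exact Finset.sum_congr rfl fun a _ => by split_ifs with h; exacts [by rw [ex k j hj z hz.1], rfl]
      · exact Finset.sum_eq_zero fun a _ => by
          split_ifs with h1 h2
          exacts [absurd ⟨h1.1.symm.trans h2.1, h1.2.symm.trans h2.2⟩ h, zero_smul _ _, rfl]
    obtain ⟨u, hu⟩ := h (show (fun a : J => if R.lab a = j ∧ R.deg a = k then R.c a z else 0) ∈ _
      from inj _ fun k' j' _ => by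
        rw [← sub_add_cancel k' 1, ← dφ, e]
        split_ifs with h
        exacts [h.1 ▸ hz.2, map_zero _])
    exact ⟨_, m (k - 1) j u, by rw [dφ, sub_add_cancel, hu, e, if_pos ⟨rfl, rfl⟩]⟩
  · have : ∀ k j, ∃ u, Q j → u ∈ X.G k j ∧ X.d j u = R.φ J (k + 1) j w := fun k j => by
      by_cases hj : Q j
      · obtain ⟨u, hu⟩ := Ob.hd_eq_zero.1 (h (k + 1) j hj)
          ⟨m _ _ w, show X.d j _ = 0 by rw [dφ, show R.δ J w = 0 from hw, map_zero]⟩
        exact ⟨u, fun _ => by simpa using hu⟩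
      · exact ⟨0, fun h => absurd h hj⟩
    choose u hu using this
    refine ⟨fun a => R.c a (u (R.deg a) (R.lab a)), eq_of_add (inj _ fun k j hj => ?_)⟩
    rw [← sub_add_cancel k 1, map_add, ← dφ, ← (hu _ _ hj).2, ← map_add, φ_apply,
      Finset.sum_congr rfl fun a _ => if_ctx_congr Iff.rfl (fun h => by rw [h.1, h.2]) fun _ => rfl,
      ex _ _ hj _ (hu _ _ hj).1, h2, map_zero]

end Rep

end Pool.Agent.WP34
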