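import Pool.Agent.Lib.WP34.ExBlue
import Pool.Agent.Lib.WP34.ExRep1

/-! The tables of the explicit procedure describe the twisted objects. -/

set_option linter.unusedSectionVars false

namespace Pool.Agent.WP34.Ex

namespace RP

/-- an entry of a table -/
def ent (A : List (List Bool)) (a b : ℕ) : Bool := (A.getD a []).getD b false

/-- a bit as a scalar -/
def bf (x : Bool) : F := if x then 1 else 0

@[simp] theorem bf_true : bf true = 1 := rfl
@[simp] theorem bf_false : bf false = 0 := rfl
theorem bf_and (x y : Bool) : bf (x && y) = bf x * bf y := by cases x <;> cases y <;> simp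
theorem bf_ite (p : Prop) [Decidable p] (x y : Bool) :
    bf (if p then x else y) = if p then bf x else bf y := apply_ite _ _ _ _

theorem bf_count (l : List ℕ) (p : ℕ → Bool) :
    bf (l.countP p % 2 == 1) = (l.map fun c => bf (p c)).sum := by
  induction l with
  | nil => simp
  | cons a l ih =>
    rw [List.map_cons, List.sum_cons, ← ih, List.countP_cons]
    rcases Nat.mod_two_eq_zero_or_one (l.countP p) with h | h <;> cases p a <;>
      simp [Nat.add_mod, h, h2]

theorem even_iff (m : ℕ) : (m % 2 == 0) = true ↔ bf (m % 2 == 1) = 0 := by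
  rcases Nat.mod_two_eq_zero_or_one m with h | h <;> simp [h]

theorem sum_range (n : ℕ) (f : ℕ → F) : ((List.range n).map f).sum = ∑ c ∈ Finset.range n, f c :=
  rfl

theorem ent_map {α : Type} (B : List α) (f : α → α → Bool) (d : α) {a b : ℕ} (ha : a < B.length)
    (hb : b < B.length) :
    ent (B.map fun p => B.map fun q => f p q) a b = f (B.getD a d) (B.getD b d) := by
  simp [ent, List.getD, ha, hb]

variable {ι : Type} [Fintype ι] [DecidableEq ι] {N : CoxeterMatrix ι} (e : ι → Vt)

/-- the tables `T` describe `X` -/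
def Good (T : St) {V : Type} [AddCommGroup V] [Module F V] (X : Ob N V) : Prop :=
  ∃ R : Rep X (Finset.range T.1.length), (∀ a < T.1.length, ∀ v, T.1.getD a v = e (R.lab a)) ∧
    ∀ a < T.1.length, ∀ b < T.1.length,
      bf (ent T.2.1 a b) = R.D a b ∧ bf (ent T.2.2 a b) = R.E a b

variable {e}

theorem good_base (d : ι) (I : List ι) (hI : I.Nodup) :
    Good e (I.map e, [], []) (Ob.base N fun j => decide (j ∈ I)) := by
  have inj : ∀ a < I.length, ∀ b < I.length, I.getD a d = I.getD b d → a = b := fun a ha b hb h =>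
    hI.getElem_inj_iff.1 (by simpa [List.getD, ha, hb] using h)
  refine ⟨⟨fun a => I.getD a d, fun _ => 0, fun _ => 1, fun _ => LinearMap.id, fun a ha => ?_,
    fun a ha b hb h _ => ?_, fun k j v hv => ?_⟩, fun a ha v => ?_, fun a _ b _ => ?_⟩
  · have : a < I.length := by simpa using ha
    simp [Ob.base, List.getD, this]
  · simp [inj a (by simpa using ha) b (by simpa using hb) h]
  · by_cases h : k = 0 ∧ j ∈ I
    · obtain ⟨a, ha, rfl⟩ := List.getElem_of_mem h.2
      rw [Finset.sum_eq_single a (fun b hb hn => if_neg fun h' => hn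
        (inj b (by simpa using hb) a ha (by simpa [List.getD, ha] using h'.1))) (by simp [ha])]
      simp [List.getD, ha, h.1]
    · have : v = 0 := by simpa [Ob.base, h] using hv
      simp [this]
  · have : a < I.length := by simpa using ha
    simp [List.getD, this]
  · simp [ent, Rep.D, Rep.E, Ob.base, Ob.op]

theorem good_step {L : List (List ℕ)} (he : Function.Injective e)
    (hadj : ∀ i j, N i j = 3 ↔ adj L (e i) (e j) = true) {T : St} {V W : Type} [AddCommGroup V]
    [Module F V] [AddCommGroup W] [Module F W] {X : Ob N V} {Y : Ob N W} (i : ι) (σ : Bool)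
    (h : Good e T X) (hY : ∀ (S : Finset ℕ) (R : Rep X S), ∃ R' : Rep Y (R.nS i),
      (∀ p, R'.lab p = if p.1 then i else R.lab p.2) ∧ ∀ p ∈ R.nS i, ∀ q ∈ R.nS i,
        (R'.D p q = if σ then nD R.D R.E (R.lab · = i) p q
          else nD (flip R.D) (flip R.E) (R.lab · = i) q p) ∧
        R'.E p q = if σ then nE R.E (R.P i) (R.lab · = i) p q
          else nE (flip R.E) (flip (R.P i)) (R.lab · = i) q p) :
    Good e (twist L σ T (e i)) Y := by
  obtain ⟨R, h1, h2⟩ := h
  obtain ⟨R', h3, h4⟩ := hY _ R
  set B : List (Bool × ℕ) := (List.range T.1.length).map (false, ·) ++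
    ((List.range T.1.length).filter fun a => adj L (T.1.getD a (e i)) (e i)).map (true, ·) with hB
  have hm : ∀ p, p ∈ B ↔ p ∈ R.nS i := by
    rintro ⟨_ | _, a⟩
    · simp [hB, Rep.mem_nS]
    · simp +contextual [hB, Rep.mem_nS, hadj, ← h1 _ _ (e i)]
  have hn : B.Nodup := List.Nodup.append (List.nodup_range.map fun _ _ => by simp)
    ((List.nodup_range.filter _).map fun _ _ => by simp) (by simp [List.disjoint_left])
  have hl : (twist L σ T (e i)).1.length = B.length := List.length_map _
  have hg : ∀ a < B.length, B.getD a (false, 0) ∈ R.nS i := fun a ha => (hm _).1 (by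
    simp [List.getD, ha])
  have ho : ∀ a < T.1.length, (T.1.getD a (e i) == e i) = decide (R.lab a = i) := fun a ha => by
    rw [h1 a ha, Bool.eq_iff_iff]; simp [he.eq_iff]
  have hP : ∀ a < T.1.length, ∀ b < T.1.length, bf ((List.range T.1.length).countP (fun c =>
      T.1.getD c (e i) == e i && ent T.2.2 a c && ent T.2.2 c b) % 2 == 1) = R.P i a b := by
    intro a ha b hb
    rw [bf_count, sum_range]
    refine Finset.sum_congr rfl fun c hc => ?_
    rw [Finset.mem_range] at hc
    rw [bf_and, bf_and, ho c hc, (h2 a ha c hc).2, (h2 c hc b hb).2]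
    split_ifs with h <;> simp [h]
  unfold Good
  rw [hl]
  refine ⟨R'.comp _ (fun a => B.getD a (false, 0)) (fun a ha => hg a (by simpa using ha))
    (fun a ha b hb h => ?_) fun p hp => ?_, fun a ha v => ?_, fun a ha b hb => ?_⟩
  · rw [Finset.mem_range] at ha hb
    exact hn.getElem_inj_iff.1 (by simpa [List.getD, ha, hb] using h)
  · obtain ⟨a, ha, rfl⟩ := List.getElem_of_mem ((hm p).2 hp)
    exact ⟨a, by simpa using ha, by simp [List.getD, ha]⟩
  · have := (R.mem_nS.1 (hg a ha)).1
    rw [Finset.mem_range] at this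
    change (B.map _).getD a v = e (R'.lab _)
    rw [h3, apply_ite e, ← h1 _ this (e i)]
    simp [List.getD, ha]
  · change bf (ent (B.map fun p => B.map fun q => _) a b) = R'.D _ _ ∧
      bf (ent (B.map fun p => B.map fun q => _) a b) = R'.E _ _
    rw [ent_map _ _ (false, 0) ha hb, ent_map _ _ (false, 0) ha hb,
      (h4 _ (hg a ha) _ (hg b hb)).1, (h4 _ (hg a ha) _ (hg b hb)).2]
    have ha := (R.mem_nS.1 (hg a ha)).1
    have hb := (R.mem_nS.1 (hg b hb)).1
    rw [Finset.mem_range] at ha hb
    generalize B.getD a (false, 0) = p at ha ⊢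
    generalize B.getD b (false, 0) = q at hb ⊢
    obtain ⟨p, a⟩ := p
    obtain ⟨q, b⟩ := q
    have e1 := h2 a ha b hb
    have e2 := hP a ha b hb
    have e3 := ho a ha
    have e4 := ho b hb
    unfold ent at e1 e2
    cases σ <;> simp only [Bool.false_eq_true, if_false, if_true, Bool.and_right_comm (_ == e i)] <;>
      simp only [nD, nE, flip, ← e1.1, ← e1.2, ← e2, e3, e4] <;>
      generalize (List.countP _ _ % 2 == 1) = y <;> cases p <;> cases q <;>
      by_cases h : R.lab a = i <;> by_cases h' : R.lab b = i <;> simp [h, h', bf]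

theorem good_test {T : St} {V : Type} [AddCommGroup V] [Module F V] [Finite V] {X : Ob N V}
    (h : Good e T X) (n : ℕ) : test n T = true ↔ ∀ k i, (e i).1 < n → X.hd k i = 0 := by
  classical
  obtain ⟨R, h1, h2⟩ := h
  set I := (List.range T.1.length).filter fun a => (T.1.getD a (0, [])).1 < n with hI
  have hn : I.Nodup := List.nodup_range.filter _
  have hJ : ∀ a, a ∈ I.toFinset ↔ a ∈ Finset.range T.1.length ∧ (e (R.lab a)).1 < n := fun a => by
    simp +contextual [hI, ← h1 _ _ (0, [])]
  rw [← R.count (fun j => (e j).1 < n) I.toFinset hJ, List.toFinset_card_of_nodup hn]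
  refine beq_iff_eq.trans (Iff.of_eq (congrArg (· ^ 2 = 2 ^ I.length) ?_))
  rw [List.countP_eq_length_filter,
    ← List.toFinset_card_of_nodup ((List.nodup_sublists.2 hn).filter _), Nat.card_eq_fintype_card,
    Fintype.card_subtype]
  have key : ∀ z : List ℕ, z.Sublist I → (((List.range T.1.length).all fun b =>
      (z.countP fun a => (T.2.1.getD a []).getD b false) % 2 == 0) = true ↔
      R.δ I.toFinset (fun a => if a.1 ∈ z then 1 else 0) = 0) := fun z hz => by
    have hz' : ∀ a ∈ z, a ∈ I.toFinset := fun a ha => List.mem_toFinset.2 (hz.subset ha)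
    have e1 : ∀ b < T.1.length, ((z.countP fun a => (T.2.1.getD a []).getD b false) % 2 == 0) = true ↔
        ∑ a : I.toFinset, R.D a b * (if a.1 ∈ z then 1 else 0) = 0 := fun b hb => by
      rw [even_iff, bf_count, ← List.sum_toFinset _ (hn.sublist hz),
        Finset.sum_coe_sort I.toFinset fun a => R.D a b * (if a ∈ z then 1 else 0),
        ← Finset.sum_subset (s₁ := z.toFinset) (fun a ha => hz' a (by simpa using ha))
          (by simp +contextual), Finset.sum_congr rfl fun a ha => ?_]
      rw [List.mem_toFinset] at ha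
      rw [if_pos ha, mul_one]
      exact (h2 a (by simpa using ((hJ a).1 (hz' a ha)).1) b hb).1
    simp only [List.all_eq_true, List.mem_range, funext_iff, Rep.δ_apply]
    refine ⟨fun h c => ?_, fun h b hb => (e1 b hb).2 ?_⟩
    · have : c.1 < T.1.length := by simpa using ((hJ c).1 c.2).1
      exact (e1 c this).1 (h c this)
    · by_cases hb' : b ∈ I.toFinset
      · exact h ⟨b, hb'⟩
      · refine Finset.sum_eq_zero fun a _ => ?_
        rw [Rep.D, if_neg fun h => hb' ((hJ b).2
          ⟨by simpa using hb, by rw [← h.1]; exact ((hJ a).1 a.2).2⟩), zero_mul]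
  refine Finset.card_bij (fun z _ a => if a.1 ∈ z then 1 else 0) (fun z hz => ?_)
    (fun z hz z' hz' h => ?_) fun w hw => ?_
  · simp only [List.mem_toFinset, List.mem_filter, List.mem_sublists] at hz
    simpa using (key z hz.1).1 hz.2
  · simp only [List.mem_toFinset, List.mem_filter, List.mem_sublists] at hz hz'
    refine (hn.perm_iff_eq_of_sublist hz.1 hz'.1).1
      ((List.perm_ext_iff_of_nodup (hn.sublist hz.1) (hn.sublist hz'.1)).2 fun a => ?_)
    by_cases ha : a ∈ I
    · have := congrFun h ⟨a, List.mem_toFinset.2 ha⟩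
      by_cases h : a ∈ z <;> by_cases h' : a ∈ z' <;> simp_all
    · exact iff_of_false (fun h => ha (hz.1.subset h)) fun h => ha (hz'.1.subset h)
  · have : (fun a : I.toFinset => if a.1 ∈ I.filter (fun a => ∃ h : a ∈ I.toFinset, w ⟨a, h⟩ = 1)
        then 1 else 0) = w := funext fun a => by
      have : ∀ x : F, x = if x = 1 then 1 else 0 := by decide
      rw [this (w a)]
      exact if_congr (by simp [List.mem_toFinset.1 a.2]) rfl rfl
    refine ⟨_, ?_, this⟩
    rw [List.mem_toFinset, List.mem_filter, List.mem_sublists]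
    exact ⟨List.filter_sublist, (key _ List.filter_sublist).2 (by rw [this]; simpa using hw)⟩

end RP

open RP in
theorem exrep : St_EXREP := by
  intro ι _ _ N L e he hadj I hI u n
  cases isEmpty_or_nonempty ι with
  | inl h =>
    obtain rfl : I = [] := List.eq_nil_iff_forall_not_mem.2 fun a => isEmptyElim a
    obtain rfl : u = [] := List.eq_nil_iff_forall_not_mem.2 fun a => isEmptyElim a.1
    exact iff_of_true rfl fun _ i => isEmptyElim i
  | inr h =>
    refine good_test ?_ n
    have := good_base (N := N) (e := e) h.some I hI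
    change Good e _ (BO.mk (Ob.base N fun j => decide (j ∈ I))).o at this
    generalize BO.mk (Ob.base N fun j => decide (j ∈ I)) = X at this ⊢
    generalize ((I.map e, [], []) : St) = T at this ⊢
    induction u generalizing X T with
    | nil => exact this
    | cons a u ih =>
      refine ih (X.step a) _ ?_
      obtain ⟨i, _ | _⟩ := a
      · exact good_step he hadj i false this fun S R =>
          ⟨R.lam i, fun _ => rfl, fun p hp q hq => ⟨R.lam_D i hp hq, R.lam_E i hp hq⟩⟩
      · exact good_step he hadj i true this fun S R =>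
          ⟨R.rho i, fun _ => rfl, fun p hp q hq => ⟨R.rho_D i hp hq, R.rho_E i hp hq⟩⟩

end Pool.Agent.WP34.Ex
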