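import Pool.Agent.Lib.WP34.ExBlue

/-! The unfolding by strings of digits. -/

namespace Pool.Agent.WP34

open Pool.Agent.H51 Finset Ex

namespace ExUnf

theorem mem_digs {K : ℕ} {f : List ℕ} :
    f ∈ digs K ↔ f.length = K ∧ ∀ c < K, f.getD c 0 < c - 1 + (2 - c) := by
  induction K generalizing f with
  | zero => simp [digs]
  | succ K ih =>
    simp only [digs, List.mem_flatMap, List.mem_map, List.mem_range, ih]
    constructor
    · rintro ⟨g, ⟨rfl, h⟩, a, ha, rfl⟩
      refine ⟨by simp, fun c hc => ?_⟩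
      rcases Nat.lt_succ_iff_lt_or_eq.1 hc with hc | rfl
      · rw [List.getD_append _ _ _ _ hc]; exact h c hc
      · simpa using ha
    · rintro ⟨hl, h⟩
      rcases List.eq_nil_or_concat' f with rfl | ⟨g, a, rfl⟩
      · simp at hl
      · obtain rfl : g.length = K := by simpa using hl
        refine ⟨g, ⟨rfl, fun c hc => ?_⟩, a, by simpa using h _ (Nat.lt_succ_self _), rfl⟩
        have := h c (by omega)
        rwa [List.getD_append _ _ _ _ hc] at this

theorem nodup_digs (K : ℕ) : (digs K).Nodup := by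
  induction K with
  | zero => simp [digs]
  | succ K ih =>
    rw [digs, List.nodup_flatMap]
    refine ⟨fun f _ => List.nodup_range.map fun a b h => by simpa using h,
      ih.pairwise_of_forall_ne fun f _ g _ h => ?_⟩
    simp only [Function.onFun, List.disjoint_left, List.mem_map]
    rintro _ ⟨a, -, rfl⟩ ⟨b, -, e⟩
    exact h (List.append_inj_left' e rfl).symm

theorem digs_ne (K : ℕ) : List.replicate K 0 ∈ digs K :=
  mem_digs.2 ⟨by simp, fun c hc => by simp [hc]; omega⟩

theorem getD_set {f : List ℕ} {m : ℕ} (hm : m < f.length) (a c : ℕ) :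
    (f.set m a).getD c 0 = if c = m then a else f.getD c 0 := by
  simp only [List.getD_eq_getElem?_getD, List.getElem?_set, hm, if_true, eq_comm (a := m)]
  split_ifs <;> rfl

theorem set_mem {K m a : ℕ} {f : List ℕ} (hf : f ∈ digs K) (hm : m < K)
    (ha : a < m - 1 + (2 - m)) : f.set m a ∈ digs K := by
  obtain ⟨h1, h2⟩ := mem_digs.1 hf
  refine mem_digs.2 ⟨by simpa using h1, fun c hc => ?_⟩
  rw [getD_set (h1 ▸ hm)]
  split_ifs with e
  exacts [e ▸ ha, h2 c hc]

theorem set_getD {f : List ℕ} {m : ℕ} (hm : m < f.length) : f.set m (f.getD m 0) = f := by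
  rw [List.getD_eq_getElem _ _ hm, List.set_getElem_self]

/-- weights -/
noncomputable def w (m a : ℕ) : ℝ := if m ≤ 1 then 1 else Real.sin ((a + 1) * (Real.pi / m))

theorem w_pos {m a : ℕ} (ha : a < m - 1 + (2 - m)) : 0 < w m a := by
  rw [w]
  split_ifs with h
  · exact one_pos
  · have h1 : ((a + 1 : ℕ) : ℝ) < m := Nat.cast_lt.mpr (by omega)
    have h2 : (0 : ℝ) < m := Nat.cast_pos.mpr (by omega)
    have h3 := Real.pi_pos
    refine Real.sin_pos_of_pos_of_lt_pi (by positivity) ?_
    rw [← mul_div_assoc, div_lt_iff₀ h2, mul_comm]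
    exact mul_lt_mul_of_pos_left (by exact_mod_cast h1) h3

theorem rsum {m b : ℕ} (hm : m ≠ 1) (hb : b < m - 1 + (2 - m)) :
    ∑ a ∈ range (m - 1 + (2 - m)), (if m = 0 ∨ a + 1 = b ∨ b + 1 = a then w m a else 0) =
      2 * Real.cos (Real.pi / m) * w m b := by
  rcases m with _ | _ | k
  · simp [w]
  · exact absurd rfl hm
  rw [show k + 1 + 1 - 1 + (2 - (k + 1 + 1)) = k + 1 by omega] at hb ⊢
  have hw : ∀ e, w (k + 1 + 1) e = Real.sin ((e + 1) * (Real.pi / (k + 1 + 1 : ℕ))) := fun e =>
    if_neg (by omega)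
  set y := Real.pi / (k + 1 + 1 : ℕ) with hy
  have e1 : ∑ a ∈ range (k + 1), (if a + 1 = b then w (k + 1 + 1) a else 0) =
      Real.sin (b * y) := by
    rcases b with _ | c
    · simp
    · rw [Finset.sum_eq_single_of_mem c (mem_range.mpr (by omega))
        fun a _ ha => if_neg (by omega), if_pos rfl, hw c]
      push_cast; rfl
  have e2 : ∑ a ∈ range (k + 1), (if b + 1 = a then w (k + 1 + 1) a else 0) =
      Real.sin ((b + 2) * y) := by
    by_cases h : b = k
    · have : ((k : ℝ) + 2) * y = Real.pi := by rw [hy]; push_cast; field_simp; ring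
      rw [h, this, Real.sin_pi]
      exact Finset.sum_eq_zero fun a ha => if_neg (mem_range.1 ha).ne'
    · rw [Finset.sum_eq_single_of_mem (b + 1) (mem_range.mpr (by omega))
        fun a _ ha => if_neg (by omega), if_pos rfl, hw]
      push_cast; congr 1; ring
  have e3 : Real.sin (b * y) + Real.sin ((b + 2) * y) = 2 * Real.cos y * Real.sin ((b + 1) * y) := by
    rw [show b * y = (b + 1) * y - y by ring, show (b + 2) * y = (b + 1) * y + y by ring,
      Real.sin_sub, Real.sin_add]
    ring
  rw [hw b, ← e3, ← e1, ← e2, ← Finset.sum_add_distrib]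
  refine Finset.sum_congr rfl fun a _ => ?_
  by_cases h : b + 1 = a
  · rw [if_pos (Or.inr (Or.inr h)), if_pos h, if_neg (by omega), zero_add]
  · simp [h]

/-- the weight of a string -/
noncomputable def mu (K : ℕ) (f : List ℕ) : ℝ := ∏ c ∈ range K, w c (f.getD c 0)

theorem mu_set {K m : ℕ} {f : List ℕ} (hf : f.length = K) (hm : m < K) (a : ℕ) :
    mu K (f.set m a) = w m a * ∏ c ∈ (range K).erase m, w c (f.getD c 0) := by
  rw [mu, ← Finset.mul_prod_erase _ _ (mem_range.2 hm), getD_set (hf ▸ hm), if_pos rfl]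
  congr 1
  exact Finset.prod_congr rfl fun c hc => by
    rw [getD_set (hf ▸ hm), if_neg (Finset.ne_of_mem_erase hc)]

theorem fsum {K m : ℕ} {g : List ℕ} (hg : g ∈ digs K) (hm : m < K) (h1 : m ≠ 1) :
    ∑ f : {f // f ∈ digs K}, (if f.1.set m 0 = g.set m 0 ∧ (m = 0 ∨ f.1.getD m 0 + 1 = g.getD m 0 ∨
      g.getD m 0 + 1 = f.1.getD m 0) then mu K f.1 else 0) =
      2 * Real.cos (Real.pi / m) * mu K g := by
  obtain ⟨g1, g2⟩ := mem_digs.1 hg
  have hm' : m < g.length := g1 ▸ hm
  conv_rhs => rw [← set_getD hm', mu_set g1 hm, ← mul_assoc, ← rsum h1 (g2 m hm),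
    Finset.sum_range, Finset.sum_mul]
  refine (Finset.sum_of_injOn (fun a : Fin (m - 1 + (2 - m)) =>
    (⟨g.set m a, set_mem hg hm a.2⟩ : {f // f ∈ digs K})) (fun a _ b _ e => ?_)
    (fun _ _ => by simp) (fun f _ hf => if_neg fun h => hf ?_) fun a _ => ?_).symm
  · have := congrArg (fun f : {f // f ∈ digs K} => f.1.getD m 0) e
    simp only [getD_set hm', if_true] at this
    exact Fin.ext this
  · obtain ⟨f1, f2⟩ := mem_digs.1 f.2
    refine ⟨⟨_, f2 m hm⟩, by simp, Subtype.ext ?_⟩
    have := congrArg (·.set m (f.1.getD m 0)) h.1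
    simp only [List.set_set] at this
    exact this.symm.trans (set_getD (hm.trans_eq f1.symm))
  · simp only [List.set_set, true_and, getD_set hm', if_true, mu_set g1 hm, ite_mul, zero_mul]

theorem lab_lt (L : List (List ℕ)) (i j : ℕ) :
    (L.getD i []).getD j 0 < L.flatten.foldr max 0 + 1 := by
  rw [Nat.lt_succ_iff]
  have h1 : ∀ (l : List ℕ) (x : ℕ), x ∈ l → x ≤ l.foldr max 0 := fun l x hx => by
    induction l with
    | nil => simp at hx
    | cons a t ih =>
      rw [List.foldr_cons]
      rcases List.mem_cons.mp hx with rfl | h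
      · omega
      · have := ih h; omega
  rcases Nat.lt_or_ge i L.length with hi | hi
  · rw [List.getD_eq_getElem _ _ hi]
    rcases Nat.lt_or_ge j (L[i]).length with hj | hj
    · rw [List.getD_eq_getElem _ _ hj]
      exact h1 _ _ (List.mem_flatten.mpr ⟨_, List.getElem_mem hi, List.getElem_mem hj⟩)
    · rw [List.getD_eq_default _ _ hj]; omega
  · rw [List.getD_eq_default _ _ hi]; simp

variable {n : ℕ} {M : CoxeterMatrix (Fin n)} {L : List (List ℕ)}

theorem adj_iff (h : ∀ s t : Fin n, s ≠ t → M s t = (L.getD s []).getD t 0) (s t : Fin n)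
    (f g : List ℕ) : adj L (s.1, f) (t.1, g) = true ↔ s ≠ t ∧ f.set (M s t) 0 = g.set (M s t) 0 ∧
      (M s t = 0 ∨ f.getD (M s t) 0 + 1 = g.getD (M s t) 0 ∨
        g.getD (M s t) 0 + 1 = f.getD (M s t) 0) := by
  by_cases e : s = t
  · simp [adj, e]
  · simp only [adj, ← h s t e, Bool.and_eq_true, Bool.or_eq_true, beq_iff_eq, bne_iff_ne, ne_eq,
      Fin.val_inj, and_assoc, or_assoc]

/-- the vertices -/
abbrev Io (n : ℕ) (L : List (List ℕ)) := Fin n × {f // f ∈ digs (L.flatten.foldr max 0 + 1)}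

/-- the code of a vertex -/
def em (i : Io n L) : Vt := (i.1.1, i.2.1)

theorem adj_symm (h : ∀ s t : Fin n, s ≠ t → M s t = (L.getD s []).getD t 0) (i j : Io n L) :
    adj L (em i) (em j) = adj L (em j) (em i) := by
  rw [Bool.eq_iff_iff, em, em, adj_iff h, adj_iff h, M.symmetric j.1 i.1]
  tauto

/-- the unfolded matrix -/
def NN (h : ∀ s t : Fin n, s ≠ t → M s t = (L.getD s []).getD t 0) : CoxeterMatrix (Io n L) where
  M := Matrix.of fun i j => if i = j then 1 else if adj L (em i) (em j) = true then 3 else 2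
  isSymm := by
    ext i j
    simp only [Matrix.transpose_apply, Matrix.of_apply, adj_symm h j i, eq_comm (a := j)]
  diagonal i := by simp
  off_diagonal i j h := by simp only [Matrix.of_apply, if_neg h]; split_ifs <;> omega

variable (h : ∀ s t : Fin n, s ≠ t → M s t = (L.getD s []).getD t 0)

theorem NN_apply (i j : Io n L) :
    NN h i j = if i = j then 1 else if adj L (em i) (em j) = true then 3 else 2 := rfl

theorem NN_eq (i j : Io n L) : NN h i j = 3 ↔ adj L (em i) (em j) = true := by
  rw [NN_apply]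
  split_ifs with e e'
  · simp [e, adj]
  · simp [e']
  · simp [e']

/-- the unfolding -/
noncomputable def UU : Unf M (NN h) where
  pr i := i.1
  fib s := (digs (L.flatten.foldr max 0 + 1)).attach.map (s, ·)
  μ i := mu (L.flatten.foldr max 0 + 1) i.2.1
  sl i j e := by rw [NN_apply, if_neg e]; split_ifs <;> simp
  mem_fib s i := by
    obtain ⟨t, f⟩ := i
    simp [eq_comm]
  nodup s := (nodup_digs _).attach.map fun a b e => by simpa using e
  surj s := List.ne_nil_of_mem (a := (s, ⟨_, digs_ne _⟩)) (List.mem_map_of_mem (List.mem_attach _ _))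
  μ_pos i := Finset.prod_pos fun c hc => w_pos ((mem_digs.1 i.2.2).2 c (mem_range.1 hc))
  indep i j e := by
    rw [Ne, NN_eq, em, em, adj_iff h]
    exact fun h' => h'.1 e
  wsum s j e := by
    refine Eq.trans ?_ (fsum j.2.2 (m := M s j.1) (h s j.1 e ▸ lab_lt L _ _)
      (M.off_diagonal _ _ e))
    rw [Fintype.sum_prod_type, Finset.sum_eq_single_of_mem s (mem_univ _)
      fun t _ ht => Finset.sum_eq_zero fun f _ => if_neg fun e => ht e.1]
    refine Finset.sum_congr rfl fun f _ => if_congr ?_ rfl rfl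
    rw [NN_eq, em, em, adj_iff h]
    simp only [true_and, ne_eq, e, not_false_eq_true]

end ExUnf

open ExUnf in
theorem st_EXUNF : Ex.St_EXUNF := fun n _ L h =>
  ⟨Io n L, inferInstance, inferInstance, em, NN h, UU h,
    fun _ _ e => Prod.ext (Fin.ext (congrArg Prod.fst e)) (Subtype.ext (congrArg Prod.snd e)),
    NN_eq h, fun _ => rfl, fun s => by
      simp only [ExUnf.UU, List.map_map, Function.comp_def, ExUnf.em]
      exact List.attach_map_val (f := fun f => (s.1, f))⟩

end Pool.Agent.WP34
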