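import Pool.Agent.Lib.WP34.All
import Pool.Agent.Lib.WP34.ExCrit
import Pool.Agent.Lib.WP34.ExPr
import Pool.Agent.Lib.WP34.ExUnf
import Pool.Agent.Lib.WP34.ExRep

/-! The explicit procedure is primitive recursive and correct. -/

namespace Pool.Agent.WP34.Ex

open Pool.Agent.H51

theorem wp_primrec : Primrec₂ wp := st_EXPR

theorem wp_correct (n : ℕ) (M : CoxeterMatrix (Fin n)) (w : List (Fin n × Bool)) :
    wp (List.ofFn fun s => List.ofFn fun t => M s t) (w.map fun l => (l.1.val, l.2)) = true ↔
      evalW M w = 1 :=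
  final exrep st_EXUNF (st_EXCRIT core) n M w

end Pool.Agent.WP34.Ex
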