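import Pool.Agent.Lib.WP34.Blue

/-! The decision procedure. -/

set_option linter.unusedSectionVars false

namespace Pool.Agent.WP34

open Pool.Agent.H51 Pool.Agent.Lib.MP_a1ec0a_al TR

namespace Fin0

def mx (L : Mat) (i j : ℕ) : ℕ :=
  bif i == j then 1 else bif i == L.length || j == L.length then 0 else me L i j

/-- one more generator, with label infinity to all the others -/
def ext (L : Mat) : Mat :=
  (List.range (L.length + 1)).map fun i => (List.range (L.length + 1)).map fun j => mx L i j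

def cut (L : Mat) (w : Wd) : Wd := w.filter fun a => Nat.ble (a.1 + 1) L.length

variable {L : Mat}

@[simp] theorem len_ext : (ext L).length = L.length + 1 := by simp [ext]

theorem me_ext {i j : ℕ} (hi : i < L.length + 1) (hj : j < L.length + 1) :
    me (ext L) i j = mx L i j := by
  have e : ∀ {i j : ℕ}, i < L.length + 1 → j < L.length + 1 → ent (ext L) i j = mx L i j :=
    fun hi hj => by simp [ent, ext, List.getD_eq_getElem?_getD, hi, hj]
  rw [me, e hi hj, e hj hi]
  simp only [mx, me]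
  grind

theorem gn_braid {i j : ℕ} (hi : i < L.length) (hj : j < L.length) :
    ((alt i j (me L i j)).map (gn L)).prod = ((alt j i (me L i j)).map (gn L)).prod := by
  have := brOn_gen (M := cm L) ⟨i, hi⟩ trivial ⟨j, hj⟩ trivial
  have e : ∀ a b : Fin L.length, ∀ m, (alt a b m).map (gen (cm L)) = (alt a.1 b.1 m).map (gn L) :=
    fun a b m => by rw [← alt_map Fin.val, List.map_map]; simp [Function.comp_def]
  rwa [e, e] at this

theorem brOn_gn {L L' : Mat} (h : ∀ i j : Fin L.length, i ≠ j → me L i j = 0 ∨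
    i < L'.length ∧ j < L'.length ∧ me L i j = me L' i j) :
    BrOn (cm L) Set.univ fun s => gn L' s.1 := by
  intro i _ j _
  by_cases hij : i = j
  · subst hij; rfl
  have e : ∀ a b : Fin L.length, ∀ m, (alt a b m).map (fun s => gn L' s.1) =
      (alt a.1 b.1 m).map (gn L') := fun a b m => by rw [← alt_map Fin.val, List.map_map]; rfl
  rw [e, e, cm_apply]
  rcases h i j hij with h | ⟨h1, h2, h⟩ <;> rw [h]
  exacts [rfl, gn_braid h1 h2]

theorem hom_ev {L L' : Mat} (f : Artin (cm L) →* Artin (cm L')) {w : Wd}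
    (h : ∀ a ∈ w, f (gn L a.1) = gn L' a.1) : f (ev L w) = ev L' w := by
  induction w with
  | nil => simp
  | cons a w ih =>
    rw [ev_cons, ev_cons, map_mul, ih fun b hb => h b (List.mem_cons_of_mem _ hb),
      ← h a List.mem_cons_self]
    cases a.2 <;> simp

theorem mem_cut {w : Wd} {a : ℕ × Bool} (h : a ∈ cut L w) : a.1 < L.length := by
  simpa [Nat.succ_le_iff] using (List.mem_filter.1 h).2

theorem ev_cut (w : Wd) : ev L (cut L w) = ev L w := by
  induction w with
  | nil => rfl
  | cons a w ih =>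
    obtain ⟨i, b⟩ := a
    by_cases h : i < L.length
    · rw [cut, List.filter_cons_of_pos (by simpa [Nat.succ_le_iff] using h), ev_cons, ev_cons,
        ← cut, ih]
    · rw [cut, List.filter_cons_of_neg (by simpa [Nat.succ_le_iff] using h), ev_cons, ← cut, ih]
      cases b <;> simp [gn, h]

theorem ev_ext (w : Wd) : ev (ext L) (cut L w) = 1 ↔ ev L w = 1 := by
  rw [← ev_cut w]
  constructor <;> intro h
  · rw [← hom_ev (alift _ (brOn_gn (L := ext L) (L' := L) fun i j hij => ?_)) fun a ha => ?_, h,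
      map_one]
    · have hi := i.2.trans_eq len_ext
      have hj := j.2.trans_eq len_ext
      have := Fin.val_ne_of_ne hij
      rw [me_ext hi hj, mx]
      grind
    · have : a.1 < (ext L).length := by have := mem_cut ha; simp; omega
      rw [gn, dif_pos this, alift_gen]
  · rw [← hom_ev (alift _ (brOn_gn (L := L) (L' := ext L) fun i j hij => ?_)) fun a ha => ?_, h,
      map_one]
    · have hi := i.2
      have hj := j.2
      have := Fin.val_ne_of_ne hij
      rw [me_ext (by omega) (by omega), mx, len_ext]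
      grind
    · rw [gn, dif_pos (mem_cut ha), alift_gen]

section act
variable {S ι : Type} [Fintype S] [DecidableEq S] [Fintype ι] [DecidableEq ι]
  {M : CoxeterMatrix S} {N : CoxeterMatrix ι}

theorem prod_inv {Q : Type*} (ρ : ι → Equiv.Perm Q) (l : List ι) (x : Q) :
    ((l.map fun i => (ρ i)⁻¹).prod)⁻¹ x = l.foldl (fun y i => ρ i y) x := by
  induction l generalizing x with
  | nil => simp
  | cons a l ih => simp [← ih]

theorem prod_fold {Q : Type*} (ρ : ι → Equiv.Perm Q) (l : List ι) (x : Q) :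
    (l.map ρ).prod x = l.reverse.foldl (fun y i => ρ i y) x := by
  induction l with
  | nil => simp
  | cons a l ih => simp [ih]

theorem exists_sys (U : Unf M N) (hU : U.Good) (D : DG N) (X0 : D.Q) : ∃ Y : Sys U D, Y.X 1 = X0 ∧
    ∀ g s, Y.X (g * (gen M s)⁻¹) = (U.fib s).reverse.foldl (fun y i => (D.rho i)⁻¹ y) (Y.X g) := by
  have hb : BrOn M Set.univ fun s => ((U.fib s).map fun i => (D.rho i)⁻¹).prod := by
    intro s _ t _
    have e : ∀ l : List S, (l.map fun s => ((U.fib s).map fun i => (D.rho i)⁻¹).prod).prod =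
        ((U.uw l).map fun i => (D.rho i)⁻¹).prod := fun l => by
      induction l with
      | nil => rfl
      | cons a l ih => simp [Unf.uw, ih]
    rw [e, e]
    exact (hU.braid s t).prod_eq D.br fun _ _ => trivial
  exact ⟨⟨fun g => (alift _ hb g)⁻¹ X0, fun g s => by simp [← prod_inv]⟩, by simp,
    fun g s => by simp [prod_fold]⟩

theorem hd_base (R : ι → Bool) (k : ℤ) (i : ι) :
    (Ob.base N R).hd k i = 0 ↔ ¬ (k = 0 ∧ R i = true) := by
  rw [Ob.hd_eq_zero]
  by_cases h : k = 0 ∧ R i = true <;> simp [Ob.Z, Ob.B, Ob.base, h]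

theorem mk_run {Q : Type*} (mk : BO N → Q) (f : ι → Q → Q) (b : Bool)
    (h : ∀ X i, mk (X.step (i, b)) = f i (mk X)) (l : List ι) (X : BO N) :
    mk (X.run (l.map fun i => (i, b))) = l.foldl (fun y i => f i y) (mk X) := by
  induction l generalizing X with
  | nil => rfl
  | cons a l ih => rw [List.map_cons, List.foldl_cons, ← h, ← ih]; rfl

end act

def ucode (r : ℕ) (pr : ℕ → ℕ) (w : Wd) : List (ℕ × Bool) :=
  w.flatMap fun a => bif a.2 then ((List.range r).filter fun i => pr i == a.1).map fun i => (i, true)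
    else ((List.range r).filter fun i => pr i == a.1).reverse.map fun i => (i, false)

end Fin0

open Fin0

theorem st_PROC (hdg : St_DG) (hm1 : St_MOD1) (hm2 : St_MOD2) (hu1 : St_UNF1) (hu2 : St_UNF2)
    (ha : St_IFA) (hb : St_IFB) (hc : St_IFC) (hmain : St_MAIN) (hcode : St_CODE) : St_PROC := by
  obtain ⟨rr, adj, pr, p1, p2, p3, hU⟩ := hu2
  obtain ⟨P, pP, hP⟩ := hcode
  let NE : Mat × Wd → Prop := fun x => ∃ i, Nat.ble (i + 1) (rr (ext x.1)) = true ∧
    (pr (ext x.1) i == x.1.length) = false ∧ P (rr (ext x.1),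
      (List.range (rr (ext x.1))).map fun i => (List.range (rr (ext x.1))).map fun j =>
        adj (ext x.1) i j, (List.range (rr (ext x.1))).map fun i => pr (ext x.1) i == x.1.length,
      ucode (rr (ext x.1)) (pr (ext x.1)) (cut x.1 x.2), i)
  have pe : PR ext := by unfold ext mx; fun_prop
  have sNE : S1 NE := by
    refine S1.ex (S1.and (by fun_prop) (S1.and (by fun_prop) (pP.comp ?_)))
    unfold ucode cut; fun_prop
  have key : ∀ L w, NE (L, w) ↔ ev L w ≠ 1 := by
    intro L w
    obtain ⟨N, U, h1, h2, h3⟩ := hU (ext L)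
    obtain ⟨D, mk, d1, d2, d3⟩ := hdg N U.sl
    let R := (List.range (rr (ext L))).map fun i => pr (ext L) i == L.length
    let r : Fin (ext L).length := ⟨L.length, by simp⟩
    have hR : ∀ i : Fin (rr (ext L)), R.getD i false = true ↔ U.pr i = r := fun i => by
      simp [R, r, List.getD_eq_getElem?_getD, Fin.ext_iff, h2]
    let X0 : BO N := ⟨Ob.base N fun j => R.getD j false⟩
    obtain ⟨Y, y1, y2⟩ := exists_sys U (hu1 U) D (mk X0)
    have run : ∀ w : Wd, (∀ a ∈ w, a.1 < L.length) → ∃ u : List (Fin (rr (ext L)) × Bool),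
        u.map (fun a => (a.1.1, a.2)) = ucode (rr (ext L)) (pr (ext L)) w ∧
        ∀ X g, mk X = Y.X g → mk (X.run u) = Y.X (g * ev (ext L) w) := by
      intro w hw
      induction w with
      | nil => exact ⟨[], rfl, fun X g h => by rw [ev_nil, mul_one, ← h]; rfl⟩
      | cons a w ih =>
        obtain ⟨u, e1, e2⟩ := ih fun b hb => hw b (List.mem_cons_of_mem _ hb)
        obtain ⟨i, b⟩ := a
        have hi : i < (ext L).length := by have := hw _ List.mem_cons_self; simp at this ⊢; omega
        have e3 := h3 ⟨i, hi⟩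
        cases b
        · refine ⟨(U.fib ⟨i, hi⟩).reverse.map (fun i => (i, false)) ++ u,
            by simp [ucode, ← e3, e1, Function.comp_def], fun X g h => ?_⟩
          rw [ev_cons, ← mul_assoc, BO.run, List.foldl_append]
          refine e2 _ _ ((mk_run mk (fun i => ⇑(D.rho i)⁻¹) false d2 _ X).trans ?_)
          rw [h, ← y2, ← gn_fin]; rfl
        · refine ⟨(U.fib ⟨i, hi⟩).map (fun i => (i, true)) ++ u,
            by simp [ucode, ← e3, e1, Function.comp_def], fun X g h => ?_⟩
          rw [ev_cons, ← mul_assoc, BO.run, List.foldl_append]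
          refine e2 _ _ ((mk_run mk (fun i => ⇑(D.rho i)) true d1 _ X).trans ?_)
          rw [h, ← Y.step, ← gn_fin]; rfl
    obtain ⟨u, e1, e2⟩ := run (cut L w) fun _ => mem_cut
    have e3 := e2 X0 1 y1.symm
    rw [one_mul] at e3
    have e4 : NE (L, w) ↔ ∃ i k, U.pr i ≠ r ∧ D.hd (Y.X (ev (ext L) (cut L w))) k i ≠ 0 := by
      have hP' := fun i => hP _ N ((List.range (rr (ext L))).map fun i =>
        (List.range (rr (ext L))).map fun j => adj (ext L) i j) R u i fun i j => by
          simp [h1, List.getD_eq_getElem?_getD]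
      simp only [NE, ← e1, ← e3, d3, Nat.ble_eq]
      constructor
      · rintro ⟨i, hi, a, b⟩
        obtain ⟨k, hk⟩ := (hP' ⟨i, hi⟩).1 b
        exact ⟨⟨i, hi⟩, k, by simpa [r, Fin.ext_iff, h2] using a, hk⟩
      · rintro ⟨i, k, a, b⟩
        exact ⟨i, i.2, by simpa [r, Fin.ext_iff, h2] using a, (hP' i).2 ⟨k, b⟩⟩
    have b0 : ∀ k i, D.hd (Y.X 1) k i = 0 ↔ ¬ (k = 0 ∧ U.pr i = r) := fun k i => by
      rw [y1, d3, hd_base, hR]
    rw [e4, Ne, ← ev_ext]
    constructor
    · rintro ⟨i, k, a, b⟩ h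
      rw [h] at b
      exact b ((b0 k i).2 fun e => a e.2)
    · intro h
      by_contra hn
      push Not at hn
      obtain ⟨a1, a2, a3, a4, a5⟩ := ha Y (hu1 U) (hm1 N U.sl)
      obtain ⟨c1, c2⟩ := hc Y (hu1 U) (hm1 N U.sl) (hm2 N U.sl) a1
      have nn : ∀ g k, 0 ≤ Y.n g k := fun g k => by
        simpa [Sys.n] using U.π_mono (u := 0) fun i => Nat.cast_nonneg (D.hd (Y.X g) k i)
      refine h (hmain Y.n r _ ⟨nn, a2, a3, a4, c1, hb Y (hu1 U) (hm1 N U.sl) (hm2 N U.sl) a1 a2, c2,
        a5⟩ (fun s hs => ?_) (fun k s hs => Y.n_eq_zero.2 fun i e => (b0 k i).2 fun e' => ?_)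
        (fun k hk => Y.n_eq_zero.2 fun i _ => (b0 k i).2 fun e' => hk.ne e'.1)
        ((nn 1 0 r).lt_of_ne' fun e => ?_) ?_ fun k s hs => Y.n_eq_zero.2 fun i e => ?_)
      · have : s.1 ≠ L.length := fun e => hs (Fin.ext e)
        rw [cm_apply, me_ext (s.2.trans_eq len_ext) (by simp [r])]
        simp [mx, r, Bool.cond_eq_ite, this]
      · exact hs (e.symm.trans e'.2)
      · obtain ⟨i, hi⟩ := List.exists_mem_of_ne_nil _ (U.surj r)
        rw [U.mem_fib] at hi
        exact (b0 0 i).1 (Y.n_eq_zero.1 e i hi) ⟨rfl, hi⟩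
      · refine apar_mono (fun s hs e => ?_)
          (ev_mem (T := List.range L.length) fun a h => List.mem_range.2 (mem_cut h))
        rw [e] at hs
        simp [TR.SL, r] at hs
      · exact hn i k (e ▸ hs)
  obtain ⟨R1, a1, a2⟩ : S1 fun x : Mat × Wd => OneW x.1 x.2 := by fun_prop
  obtain ⟨R2, b1, b2⟩ := sNE
  have h1 : PR fun y : (Mat × Wd) × ℕ => R1 y || R2 y := by fun_prop
  refine ⟨fun x => (Nat.rfind fun n => (Part.some (R1 (x, n) || R2 (x, n)) : Part Bool)).map
    fun n => R1 (x, n), (Partrec.rfind (Primrec.to_comp h1).partrec.to₂).map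
      (Primrec.to_comp a1).to₂, fun M w => ?_⟩
  have : ∃ n, (R1 ((M, w), n) || R2 ((M, w), n)) = true := by
    by_cases h : ev M w = 1
    · exact ((a2 (M, w)).1 h).imp fun n hn => by simp [hn]
    · exact ((b2 (M, w)).1 ((key M w).2 h)).imp fun n hn => by simp [hn]
  obtain ⟨n, hn⟩ := this
  obtain ⟨m, hm, -⟩ := Nat.rfind_min' (p := fun n => R1 ((M, w), n) || R2 ((M, w), n)) hn
  refine ⟨_, Part.mem_map _ hm, fun h => (a2 (M, w)).2 ⟨m, h⟩, fun h => ?_⟩
  have := Nat.rfind_spec hm
  simp only [PFun.coe_val, Part.mem_some_iff, Bool.true_eq, Bool.or_eq_true] at this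
  exact this.resolve_right fun e => (key M w).1 ((b2 (M, w)).2 ⟨m, e⟩) h

end Pool.Agent.WP34
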