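import Mathlib

/-! Differential graded modules over the preprojective data of a graph, in characteristic two;
the reflections `rho` and `lam`; modules and the degree zero reflection `r0`. Vertices `i, j` are
adjacent when `N i j = 3`. -/

set_option linter.unusedSectionVars false

namespace Pool.Agent.WP34

open LinearMap (fst snd proj)

abbrev F := ZMod 2

theorem h2 {V : Type} [AddCommGroup V] [Module F V] (v : V) : v + v = 0 := by
  rw [← two_smul F v, show (2 : F) = 0 from rfl, zero_smul]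

theorem h2' {V : Type} [AddCommGroup V] [Module F V] (v w : V) : v + (v + w) = w := by
  rw [← add_assoc, h2, zero_add]

theorem eq_of_add {V : Type} [AddCommGroup V] [Module F V] {v w : V} (h : v + w = 0) : v = w := by
  rw [← h2' w v, add_comm w v, h, add_zero]

variable {ι : Type} [Fintype ι] [DecidableEq ι]

section raw
variable (N : CoxeterMatrix ι) {V : Type} [AddCommGroup V] [Module F V]

/-- the sum of the arrows into `i` -/
def inn (x : ι → ι → V →ₗ[F] V) (i : ι) : (ι → V) →ₗ[F] V :=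
  ∑ p, if N i p = 3 then x p i ∘ₗ proj p else 0

/-- the family of the arrows out of `i` -/
def out (x : ι → ι → V →ₗ[F] V) (i : ι) : V →ₗ[F] (ι → V) :=
  LinearMap.pi fun p => if N i p = 3 then x i p else 0

/-- componentwise action -/
def dia {W : Type} [AddCommGroup W] [Module F W] (d : ι → V →ₗ[F] W) : (ι → V) →ₗ[F] (ι → W) :=
  LinearMap.pi fun p => d p ∘ₗ proj p

/-- families supported on the neighbours of `i` -/
def nb (G : ι → Submodule F V) (i : ι) : Submodule F (ι → V) :=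
  Submodule.pi Set.univ fun p => if N i p = 3 then G p else ⊥

/-- the arrows after the positive reflection at `i` (`t` is the loop at `i`) -/
def rx (x : ι → ι → V →ₗ[F] V) (t : V →ₗ[F] V) (i j l : ι) : (ι → V) × V →ₗ[F] (ι → V) × V :=
  if j = i then LinearMap.prod 0 (proj l ∘ₗ fst _ _ _)
  else if l = i then (out N x i ∘ₗ x j i ∘ₗ snd _ _ _).prod (t ∘ₗ x j i ∘ₗ snd _ _ _)
  else LinearMap.prod 0 (x j l ∘ₗ snd _ _ _)

/-- the arrows after the negative reflection at `i` -/
def lx (x : ι → ι → V →ₗ[F] V) (t : V →ₗ[F] V) (i j l : ι) : (ι → V) × V →ₗ[F] (ι → V) × V :=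
  if j = i then LinearMap.prod 0 (x i l ∘ₗ (inn N x i ∘ₗ fst _ _ _ + t ∘ₗ snd _ _ _))
  else if l = i then (LinearMap.single F (fun _ => V) j ∘ₗ snd _ _ _).prod 0
  else LinearMap.prod 0 (x j l ∘ₗ snd _ _ _)

variable {N}

theorem inn_apply (x : ι → ι → V →ₗ[F] V) (i : ι) (n : ι → V) :
    inn N x i n = ∑ p, if N i p = 3 then x p i (n p) else 0 := by
  simp only [inn, LinearMap.sum_apply]
  exact Finset.sum_congr rfl fun p _ => by split_ifs <;> rfl

theorem out_apply (x : ι → ι → V →ₗ[F] V) (i : ι) (v : V) (p : ι) :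
    out N x i v p = if N i p = 3 then x i p v else 0 := by
  simp only [out, LinearMap.pi_apply]; split_ifs <;> rfl

@[simp] theorem dia_apply {W : Type} [AddCommGroup W] [Module F W] (d : ι → V →ₗ[F] W)
    (n : ι → V) (p : ι) : dia d n p = d p (n p) := rfl

theorem mem_nb {G : ι → Submodule F V} {i : ι} {n : ι → V} :
    n ∈ nb N G i ↔ (∀ p, N i p = 3 → n p ∈ G p) ∧ ∀ p, N i p ≠ 3 → n p = 0 := by
  simp only [nb, Submodule.mem_pi, Set.mem_univ, true_imp_iff, ← forall_and]
  exact forall_congr' fun p => by by_cases h : N i p = 3 <;> simp [h]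

theorem adj_symm {i j : ι} (h : N i j = 3) : N j i = 3 := by rw [N.symmetric, h]

theorem adj_ne {i j : ι} (h : N i j = 3) : i ≠ j := by rintro rfl; simp at h

theorem inn_single (x : ι → ι → V →ₗ[F] V) {i j : ι} (h : N i j = 3) (v : V) :
    inn N x i (Pi.single j v) = x j i v := by
  rw [inn_apply, Finset.sum_eq_single j (fun p _ hp => by simp [hp]) (by simp)]; simp [h]

theorem inn_mem {x : ι → ι → V →ₗ[F] V} {G : ι → Submodule F V}
    (hx : ∀ i j, N i j = 3 → ∀ v ∈ G i, x i j v ∈ G j) {i : ι} {n : ι → V} (hn : n ∈ nb N G i) :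
    inn N x i n ∈ G i := by
  rw [inn_apply]
  refine Submodule.sum_mem _ fun p _ => ?_
  split_ifs with h
  exacts [hx _ _ (adj_symm h) _ ((mem_nb.1 hn).1 p h), zero_mem _]

theorem out_mem {x : ι → ι → V →ₗ[F] V} {G : ι → Submodule F V}
    (hx : ∀ i j, N i j = 3 → ∀ v ∈ G i, x i j v ∈ G j) {i : ι} {v : V} (hv : v ∈ G i) :
    out N x i v ∈ nb N G i :=
  mem_nb.2 ⟨fun p h => by simpa [out_apply, h] using hx _ _ h _ hv, fun p h => by simp [out_apply, h]⟩

theorem single_mem {G : ι → Submodule F V} {i j : ι} (h : N i j = 3) {v : V} (hv : v ∈ G j) :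
    Pi.single j v ∈ nb N G i :=
  mem_nb.2 ⟨fun p _ => by by_cases e : p = j <;> simp [e, hv],
    fun p hp => Pi.single_eq_of_ne (by rintro rfl; exact hp h) _⟩

variable {x : ι → ι → V →ₗ[F] V} {t : V →ₗ[F] V} {i j l : ι}

@[simp] theorem rx_from (l : ι) (n : ι → V) (v : V) : rx N x t i i l (n, v) = (0, n l) := by
  simp [rx]
theorem rx_to (h : j ≠ i) (n : ι → V) (v : V) :
    rx N x t i j i (n, v) = (out N x i (x j i v), t (x j i v)) := by simp [rx, h]
theorem rx_ne (h : j ≠ i) (h' : l ≠ i) (n : ι → V) (v : V) :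
    rx N x t i j l (n, v) = (0, x j l v) := by simp [rx, h, h']
@[simp] theorem lx_from (l : ι) (n : ι → V) (v : V) :
    lx N x t i i l (n, v) = (0, x i l (inn N x i n + t v)) := by simp [lx]
theorem lx_to (h : j ≠ i) (n : ι → V) (v : V) : lx N x t i j i (n, v) = (Pi.single j v, 0) := by
  simp [lx, h]
theorem lx_ne (h : j ≠ i) (h' : l ≠ i) (n : ι → V) (v : V) :
    lx N x t i j l (n, v) = (0, x j l v) := by simp [lx, h, h']

theorem inn_map {W : Type} [AddCommGroup W] [Module F W] {y : ι → ι → W →ₗ[F] W} {m : ι → W}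
    (φ : V →ₗ[F] W) {n : ι → V} (h : ∀ p, N i p = 3 → y p i (m p) = φ (x p i (n p))) :
    inn N y i m = φ (inn N x i n) := by
  rw [inn_apply, inn_apply, map_sum]
  exact Finset.sum_congr rfl fun p _ => by split_ifs with a; exacts [h p a, (map_zero _).symm]

theorem rx_rel_self (n : ι → V) (v : V) : inn N (rx N x t i) i (out N (rx N x t i) i (n, v)) =
    (out N x i (inn N x i n), t (inn N x i n)) :=
  inn_map ((out N x i).prod t) fun p a => by simp [out_apply, a, rx_to (adj_ne a).symm]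

theorem rx_rel_ne (h : j ≠ i) (n : ι → V) (v : V) :
    inn N (rx N x t i) j (out N (rx N x t i) j (n, v)) = (0, inn N x j (out N x j v)) :=
  inn_map (LinearMap.inr F (ι → V) V) fun p a => by
    by_cases e : p = i
    · subst e; simp [out_apply, a, adj_symm a, rx_to h]
    · simp [out_apply, a, rx_ne h e, rx_ne e h]

theorem lx_rel_self (n : ι → V) (v : V) : inn N (lx N x t i) i (out N (lx N x t i) i (n, v)) =
    (out N x i (inn N x i n + t v), 0) := by
  rw [inn_apply, Finset.sum_congr rfl (g := fun p => LinearMap.inl F _ _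
    (Pi.single p (out N x i (inn N x i n + t v) p))) fun p _ => by
      by_cases a : N i p = 3
      · simp [out_apply, a, lx_to (adj_ne a).symm]
      · simp [out_apply, a, Prod.ext_iff], ← map_sum, Finset.univ_sum_single]
  rfl

theorem lx_rel_ne (h : j ≠ i) (n : ι → V) (v : V) :
    inn N (lx N x t i) j (out N (lx N x t i) j (n, v)) = (0, inn N x j (out N x j v)) :=
  inn_map (LinearMap.inr F (ι → V) V) fun p a => by
    by_cases e : p = i
    · subst e; simp [out_apply, a, lx_to h, inn_single _ (adj_symm a)]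
    · simp [out_apply, a, lx_ne h e, lx_ne e h]

end raw

/-- A differential graded module. All pieces `G i k` (vertex `i`, degree `k`) live in one ambient
space; the identities are only required on the pieces. -/
structure Ob (N : CoxeterMatrix ι) (V : Type) [AddCommGroup V] [Module F V] where
  G : ℤ → ι → Submodule F V
  d : ι → V →ₗ[F] V
  t : ι → V →ₗ[F] V
  x : ι → ι → V →ₗ[F] V
  d_mem : ∀ k i, ∀ v ∈ G k i, d i v ∈ G (k + 1) i
  t_mem : ∀ k i, ∀ v ∈ G k i, t i v ∈ G (k - 1) i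
  x_mem : ∀ k i j, N i j = 3 → ∀ v ∈ G k i, x i j v ∈ G k j
  dd : ∀ k i, ∀ v ∈ G k i, d i (d i v) = 0
  dx : ∀ k i j, N i j = 3 → ∀ v ∈ G k i, d j (x i j v) = x i j (d i v)
  dt : ∀ k i, ∀ v ∈ G k i, d i (t i v) = t i (d i v) + inn N x i (out N x i v)
  bdd : ∃ a, ∀ k < a, ∀ i, G k i = ⊥

namespace Ob

variable {N : CoxeterMatrix ι} {V : Type} [AddCommGroup V] [Module F V] (X : Ob N V)

theorem d_mem' {k i v} (h : v ∈ X.G (k - 1) i) : X.d i v ∈ X.G k i := by
  simpa using X.d_mem _ _ _ h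

theorem t_mem' {k i v} (h : v ∈ X.G (k + 1) i) : X.t i v ∈ X.G k i := by
  simpa using X.t_mem _ _ _ h

theorem dia_mem {k i n} (h : n ∈ nb N (X.G k) i) : dia X.d n ∈ nb N (X.G (k + 1)) i :=
  mem_nb.2 ⟨fun p hp => X.d_mem _ _ _ ((mem_nb.1 h).1 p hp), fun p hp => by
    simp [(mem_nb.1 h).2 p hp]⟩

theorem dia_dia {k i n} (h : n ∈ nb N (X.G k) i) : dia X.d (dia X.d n) = 0 := by
  funext p
  by_cases hp : N i p = 3
  exacts [X.dd _ _ _ ((mem_nb.1 h).1 p hp), by simp [(mem_nb.1 h).2 p hp]]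

theorem d_inn {k i n} (h : n ∈ nb N (X.G k) i) :
    X.d i (inn N X.x i n) = inn N X.x i (dia X.d n) := by
  rw [inn_apply, inn_apply, map_sum]
  refine Finset.sum_congr rfl fun p _ => ?_
  split_ifs with hp
  exacts [X.dx _ _ _ (adj_symm hp) _ ((mem_nb.1 h).1 p hp), map_zero _]

theorem dia_out {k i v} (h : v ∈ X.G k i) :
    dia X.d (out N X.x i v) = out N X.x i (X.d i v) := by
  funext p
  simp only [dia_apply, out_apply]
  split_ifs with hp
  exacts [X.dx _ _ _ hp _ h, map_zero _]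

theorem bdd_aux {a : ℤ} (h : ∀ k < a, ∀ i, X.G k i = ⊥) {k k' : ℤ} (hk : k < a) (hk' : k' < a)
    (i j : ι) : (if j = i then (nb N (X.G k) i).prod (X.G k' i)
      else Submodule.prod ⊥ (X.G k j)) = ⊥ := by
  split_ifs
  · rw [h k' hk', eq_bot_iff]
    rintro ⟨n, v⟩ ⟨h1, h2⟩
    refine Prod.ext (funext fun p => ?_) h2
    by_cases e : N i p = 3
    exacts [by simpa [h k hk] using (mem_nb.1 h1).1 p e, (mem_nb.1 h1).2 p e]
  · simp [h k hk]

/-- the positive reflection at `i` -/
def rho (i : ι) : Ob N ((ι → V) × V) where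
  G k j := if j = i then (nb N (X.G k) i).prod (X.G (k - 1) i) else Submodule.prod ⊥ (X.G k j)
  d j := (dia X.d ∘ₗ fst _ _ _).prod (inn N X.x j ∘ₗ fst _ _ _ + X.d j ∘ₗ snd _ _ _)
  t j := if j = i then (out N X.x i ∘ₗ snd _ _ _).prod (X.t i ∘ₗ snd _ _ _)
    else LinearMap.prod 0 (X.t j ∘ₗ snd _ _ _)
  x := rx N X.x (X.t i) i
  d_mem k j := by
    rintro ⟨n, v⟩
    by_cases h : j = i
    · subst h
      simp only [if_true, Submodule.mem_prod, add_sub_cancel_right]
      exact fun h => ⟨X.dia_mem h.1, add_mem (inn_mem (X.x_mem k) h.1) (X.d_mem' h.2)⟩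
    · simp only [h, if_false, Submodule.mem_prod, Submodule.mem_bot]
      rintro ⟨rfl, h⟩
      simpa using X.d_mem _ _ _ h
  t_mem k j := by
    rintro ⟨n, v⟩
    by_cases h : j = i
    · subst h
      simp only [if_true, Submodule.mem_prod]
      exact fun h => ⟨out_mem (X.x_mem _) h.2, X.t_mem _ _ _ h.2⟩
    · simp only [h, if_false, Submodule.mem_prod, Submodule.mem_bot]
      exact fun h => ⟨rfl, X.t_mem _ _ _ h.2⟩
  x_mem k j l a := by
    rintro ⟨n, v⟩
    by_cases h : j = i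
    · subst h
      simp only [if_true, (adj_ne a).symm, if_false, Submodule.mem_prod, Submodule.mem_bot, rx_from]
      exact fun h => ⟨trivial, (mem_nb.1 h.1).1 _ a⟩
    · by_cases h' : l = i
      · subst h'
        simp only [h, if_true, if_false, Submodule.mem_prod, rx_to h]
        exact fun h => ⟨out_mem (X.x_mem _) (X.x_mem _ _ _ a _ h.2),
          X.t_mem _ _ _ (X.x_mem _ _ _ a _ h.2)⟩
      · simp only [h, h', if_false, Submodule.mem_prod, Submodule.mem_bot, rx_ne h h']
        exact fun h => ⟨trivial, X.x_mem _ _ _ a _ h.2⟩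
  dd k j := by
    rintro ⟨n, v⟩
    by_cases h : j = i
    · subst h
      simp only [if_true, Submodule.mem_prod]
      exact fun h => by simp [X.dia_dia h.1, X.d_inn h.1, X.dd _ _ _ h.2, h2]
    · simp only [h, if_false, Submodule.mem_prod, Submodule.mem_bot]
      rintro ⟨rfl, h⟩
      simp [X.dd _ _ _ h]
  dx k j l a := by
    rintro ⟨n, v⟩
    by_cases h : j = i
    · subst h
      simp
    · by_cases h' : l = i
      · subst h'
        simp only [h, if_false, Submodule.mem_prod, Submodule.mem_bot]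
        rintro ⟨rfl, hv⟩
        have := X.x_mem _ _ _ a _ hv
        simp [X.dia_out this, X.dt _ _ _ this, X.dx _ _ _ a _ hv, add_left_comm, h2, rx_to h]
      · simp only [h, if_false, Submodule.mem_prod, Submodule.mem_bot]
        rintro ⟨rfl, hv⟩
        simp [X.dx _ _ _ a _ hv, rx_ne h h']
  dt k j := by
    rintro ⟨n, v⟩
    by_cases h : j = i
    · subst h
      simp only [if_true, Submodule.mem_prod, rx_rel_self]
      intro h
      simp [X.dia_out h.2, X.dt _ _ _ h.2, add_left_comm, add_comm, h2]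
    · simp only [h, if_false, Submodule.mem_prod, Submodule.mem_bot, rx_rel_ne h]
      rintro ⟨rfl, hv⟩
      simp [X.dt _ _ _ hv]
  bdd := let ⟨a, h⟩ := X.bdd; ⟨a, fun k hk j => X.bdd_aux h hk (by omega) i j⟩

/-- the negative reflection at `i` -/
def lam (i : ι) : Ob N ((ι → V) × V) where
  G k j := if j = i then (nb N (X.G k) i).prod (X.G (k + 1) i) else Submodule.prod ⊥ (X.G k j)
  d j := if j = i then (dia X.d ∘ₗ fst _ _ _ + out N X.x i ∘ₗ snd _ _ _).prod (X.d i ∘ₗ snd _ _ _)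
    else LinearMap.prod 0 (X.d j ∘ₗ snd _ _ _)
  t j := LinearMap.prod 0 (inn N X.x j ∘ₗ fst _ _ _ + X.t j ∘ₗ snd _ _ _)
  x := lx N X.x (X.t i) i
  d_mem k j := by
    rintro ⟨n, v⟩
    by_cases h : j = i
    · subst h
      simp only [if_true, Submodule.mem_prod]
      exact fun h => ⟨add_mem (X.dia_mem h.1) (out_mem (X.x_mem _) h.2), X.d_mem _ _ _ h.2⟩
    · simp only [h, if_false, Submodule.mem_prod, Submodule.mem_bot]
      exact fun h => ⟨rfl, X.d_mem _ _ _ h.2⟩
  t_mem k j := by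
    rintro ⟨n, v⟩
    by_cases h : j = i
    · subst h
      simp only [if_true, Submodule.mem_prod, sub_add_cancel]
      exact fun h => ⟨zero_mem _, add_mem (inn_mem (X.x_mem k) h.1) (X.t_mem' h.2)⟩
    · simp only [h, if_false, Submodule.mem_prod, Submodule.mem_bot]
      rintro ⟨rfl, h⟩
      simpa using X.t_mem _ _ _ h
  x_mem k j l a := by
    rintro ⟨n, v⟩
    by_cases h : j = i
    · subst h
      simp only [if_true, (adj_ne a).symm, if_false, Submodule.mem_prod, Submodule.mem_bot, lx_from]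
      exact fun h => ⟨trivial,
        X.x_mem _ _ _ a _ (add_mem (inn_mem (X.x_mem k) h.1) (X.t_mem' h.2))⟩
    · by_cases h' : l = i
      · subst h'
        simp only [h, if_true, if_false, Submodule.mem_prod, lx_to h]
        exact fun h => ⟨single_mem (adj_symm a) h.2, zero_mem _⟩
      · simp only [h, h', if_false, Submodule.mem_prod, Submodule.mem_bot, lx_ne h h']
        exact fun h => ⟨trivial, X.x_mem _ _ _ a _ h.2⟩
  dd k j := by
    rintro ⟨n, v⟩
    by_cases h : j = i
    · subst h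
      simp only [if_true, Submodule.mem_prod]
      exact fun h => by simp [X.dia_dia h.1, X.dia_out h.2, X.dd _ _ _ h.2, h2]
    · simp only [h, if_false, Submodule.mem_prod, Submodule.mem_bot]
      rintro ⟨rfl, h⟩
      simp [X.dd _ _ _ h]
  dx k j l a := by
    rintro ⟨n, v⟩
    by_cases h : j = i
    · subst h
      simp only [if_true, Submodule.mem_prod, (adj_ne a).symm, if_false]
      intro h
      simp [X.dx _ _ _ a _ (inn_mem (X.x_mem k) h.1), X.dx _ _ _ a _ (X.t_mem' h.2), X.d_inn h.1,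
        X.dt _ _ _ h.2, add_assoc, add_comm]
    · by_cases h' : l = i
      · subst h'
        simp only [h, if_true, if_false, Submodule.mem_prod, Submodule.mem_bot]
        rintro ⟨rfl, -⟩
        ext p
        · by_cases e : p = j <;> simp [e, lx_to h]
        · simp [lx_to h]
      · simp only [h, h', if_false, Submodule.mem_prod, Submodule.mem_bot]
        rintro ⟨rfl, hv⟩
        simp [X.dx _ _ _ a _ hv, lx_ne h h']
  dt k j := by
    rintro ⟨n, v⟩
    by_cases h : j = i
    · subst h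
      simp only [if_true, Submodule.mem_prod, lx_rel_self]
      intro h
      simp [X.d_inn h.1, X.dt _ _ _ h.2, add_assoc, add_comm]
    · simp only [h, if_false, Submodule.mem_prod, Submodule.mem_bot, lx_rel_ne h]
      rintro ⟨rfl, hv⟩
      simp [X.dt _ _ _ hv]
  bdd := let ⟨a, h⟩ := X.bdd; ⟨a - 1, fun k hk j => X.bdd_aux h (by omega) (by omega) i j⟩

variable {X} {i j l : ι} {k : ℤ} {n : ι → V} {v : V}

theorem mem_rho_self : (n, v) ∈ (X.rho i).G k i ↔
    n ∈ nb N (X.G k) i ∧ v ∈ X.G (k - 1) i := by simp [rho]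
theorem mem_rho_ne (h : j ≠ i) : (n, v) ∈ (X.rho i).G k j ↔
    n = 0 ∧ v ∈ X.G k j := by simp [rho, h]
theorem rho_d : (X.rho i).d j (n, v) = (dia X.d n, inn N X.x j n + X.d j v) := rfl
theorem rho_t_self : (X.rho i).t i (n, v) = (out N X.x i v, X.t i v) := by simp [rho]
theorem rho_t_ne (h : j ≠ i) : (X.rho i).t j (n, v) = (0, X.t j v) := by simp [rho, h]
theorem rho_x : (X.rho i).x = rx N X.x (X.t i) i := rfl
theorem mem_lam_self : (n, v) ∈ (X.lam i).G k i ↔
    n ∈ nb N (X.G k) i ∧ v ∈ X.G (k + 1) i := by simp [lam]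
theorem mem_lam_ne (h : j ≠ i) : (n, v) ∈ (X.lam i).G k j ↔
    n = 0 ∧ v ∈ X.G k j := by simp [lam, h]
theorem lam_d_self : (X.lam i).d i (n, v) = (dia X.d n + out N X.x i v, X.d i v) := by simp [lam]
theorem lam_d_ne (h : j ≠ i) : (X.lam i).d j (n, v) = (0, X.d j v) := by simp [lam, h]
theorem lam_t : (X.lam i).t j (n, v) = (0, inn N X.x j n + X.t j v) := rfl
theorem lam_x : (X.lam i).x = lx N X.x (X.t i) i := rfl

variable (X)

/-- cycles -/
def Z (k : ℤ) (i : ι) : Submodule F V := X.G k i ⊓ LinearMap.ker (X.d i)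
/-- boundaries -/
def B (k : ℤ) (i : ι) : Submodule F V := (X.G (k - 1) i).map (X.d i)
/-- dimension of the cohomology -/
noncomputable def hd (k : ℤ) (i : ι) : ℕ := Module.finrank F (X.Z k i) - Module.finrank F (X.B k i)

variable {X}

theorem mem_Z : v ∈ X.Z k i ↔ v ∈ X.G k i ∧ X.d i v = 0 := Iff.rfl
theorem mem_B : v ∈ X.B k i ↔ ∃ u ∈ X.G (k - 1) i, X.d i u = v := Iff.rfl
theorem B_le_Z : X.B k i ≤ X.Z k i := by
  rintro _ ⟨u, h, rfl⟩; exact ⟨X.d_mem' h, X.dd _ _ _ h⟩
theorem hd_eq_zero [Finite V] : X.hd k i = 0 ↔ X.Z k i ≤ X.B k i :=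
  ⟨fun h => (Submodule.eq_of_le_of_finrank_le B_le_Z (Nat.sub_eq_zero_iff_le.1 h)).ge,
    fun h => Nat.sub_eq_zero_iff_le.2 (Submodule.finrank_mono h)⟩

end Ob

variable {N : CoxeterMatrix ι} {V W : Type} [AddCommGroup V] [Module F V] [AddCommGroup W]
  [Module F W]

/-- strict morphisms -/
structure Hom (X : Ob N V) (Y : Ob N W) where
  f : ι → V →ₗ[F] W
  mem : ∀ k i, ∀ v ∈ X.G k i, f i v ∈ Y.G k i
  fd : ∀ k i, ∀ v ∈ X.G k i, f i (X.d i v) = Y.d i (f i v)
  ft : ∀ k i, ∀ v ∈ X.G k i, f i (X.t i v) = Y.t i (f i v)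
  fx : ∀ k i j, N i j = 3 → ∀ v ∈ X.G k i, f j (X.x i j v) = Y.x i j (f i v)

/-- a family of maps that is bijective in cohomology -/
def Qis (X : Ob N V) (Y : Ob N W) (f : ι → V →ₗ[F] W) : Prop :=
  ∀ k i, (∀ z ∈ X.Z k i, f i z ∈ Y.B k i → z ∈ X.B k i) ∧
    ∀ y ∈ Y.Z k i, ∃ z ∈ X.Z k i, f i z + y ∈ Y.B k i

/-- there is a strict quasi-isomorphism -/
def QI (X : Ob N V) (Y : Ob N W) : Prop := ∃ φ : Hom X Y, Qis X Y φ.f

/-- weak morphisms (morphisms of twisted complexes) -/
structure WHom (X : Ob N V) (Y : Ob N W) where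
  f0 : ι → V →ₗ[F] W
  f1 : ι → ι → V →ₗ[F] W
  f2 : ι → V →ₗ[F] W
  mem0 : ∀ k i, ∀ v ∈ X.G k i, f0 i v ∈ Y.G k i
  mem1 : ∀ k i j, N i j = 3 → ∀ v ∈ X.G k i, f1 i j v ∈ Y.G (k - 1) j
  mem2 : ∀ k i, ∀ v ∈ X.G k i, f2 i v ∈ Y.G (k - 1 - 1) i
  c0 : ∀ k i, ∀ v ∈ X.G k i, f0 i (X.d i v) = Y.d i (f0 i v)
  c1 : ∀ k i j, N i j = 3 → ∀ v ∈ X.G k i,
    Y.d j (f1 i j v) = f1 i j (X.d i v) + Y.x i j (f0 i v) + f0 j (X.x i j v)
  c2 : ∀ k i, ∀ v ∈ X.G k i, Y.d i (f2 i v) = f2 i (X.d i v) + Y.t i (f0 i v) + f0 i (X.t i v) +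
    ∑ j, if N i j = 3 then Y.x j i (f1 i j v) + f1 j i (X.x i j v) else 0

/-- the semisimple object in degree zero that is one dimensional at the vertices in `R` -/
def Ob.base (N : CoxeterMatrix ι) (R : ι → Bool) : Ob N F where
  G k i := if k = 0 ∧ R i = true then ⊤ else ⊥
  d _ := 0
  t _ := 0
  x _ _ := 0
  d_mem := by simp
  t_mem := by simp
  x_mem := by simp
  dd := by simp
  dx := by simp
  dt := by simp [inn_apply]
  bdd := ⟨0, fun k hk i => if_neg fun h => hk.ne h.1⟩

/-- finite objects with their ambient space -/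
structure BO (N : CoxeterMatrix ι) where
  {V : Type}
  [ab : AddCommGroup V]
  [md : Module F V]
  [fin : Finite V]
  o : Ob N V

attribute [instance] BO.ab BO.md BO.fin

abbrev BO.rho (X : BO N) (i : ι) : BO N := ⟨X.o.rho i⟩
abbrev BO.lam (X : BO N) (i : ι) : BO N := ⟨X.o.lam i⟩

/-- a letter: `true` is the positive reflection -/
def BO.step (X : BO N) (a : ι × Bool) : BO N := bif a.2 then X.rho a.1 else X.lam a.1

/-- reading a word from left to right -/
def BO.run (X : BO N) (w : List (ι × Bool)) : BO N := w.foldl BO.step X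

/-- zigzags of strict quasi-isomorphisms -/
def Eqv : BO N → BO N → Prop := Relation.EqvGen fun X Y => QI X.o Y.o

/-- A module over the preprojective algebra. -/
structure Md (N : CoxeterMatrix ι) (V : Type) [AddCommGroup V] [Module F V] where
  G : ι → Submodule F V
  x : ι → ι → V →ₗ[F] V
  x_mem : ∀ i j, N i j = 3 → ∀ v ∈ G i, x i j v ∈ G j
  rel : ∀ i, ∀ v ∈ G i, inn N x i (out N x i v) = 0

namespace Md

variable (A : Md N V)

/-- the dimension vector -/
noncomputable def dim (i : ι) : ℝ := Module.finrank F (A.G i)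

/-- the reflection that replaces the space at `i` by the kernel of the incoming map -/
def r0 (i : ι) : Md N ((ι → V) × V) where
  G j := if j = i then (nb N A.G i ⊓ LinearMap.ker (inn N A.x i)).prod ⊥
    else Submodule.prod ⊥ (A.G j)
  x := rx N A.x 0 i
  x_mem j l a := by
    rintro ⟨n, v⟩
    by_cases h : j = i
    · subst h
      simp only [if_true, (adj_ne a).symm, if_false, Submodule.mem_prod, Submodule.mem_bot, rx_from]
      exact fun h => ⟨trivial, (mem_nb.1 h.1.1).1 _ a⟩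
    · by_cases h' : l = i
      · subst h'
        simp only [h, if_true, if_false, Submodule.mem_prod, rx_to h]
        exact fun h => ⟨⟨out_mem A.x_mem (A.x_mem _ _ a _ h.2), A.rel _ _ (A.x_mem _ _ a _ h.2)⟩,
          rfl⟩
      · simp only [h, h', if_false, Submodule.mem_prod, Submodule.mem_bot, rx_ne h h']
        exact fun h => ⟨trivial, A.x_mem _ _ a _ h.2⟩
  rel j := by
    rintro ⟨n, v⟩
    by_cases h : j = i
    · subst h
      simp only [if_true, Submodule.mem_prod, rx_rel_self]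
      exact fun h => by simp [show inn N A.x j n = 0 from h.1.2]
    · simp only [h, if_false, Submodule.mem_prod, rx_rel_ne h]
      exact fun h => by simp [A.rel _ _ h.2]

/-- the outgoing map at `i` is injective -/
def Inj (i : ι) : Prop := ∀ v ∈ A.G i, out N A.x i v = 0 → v = 0

variable {A} {i j : ι} {n : ι → V} {v : V}

theorem mem_r0_self : (n, v) ∈ (A.r0 i).G i ↔ (n ∈ nb N A.G i ∧ inn N A.x i n = 0) ∧ v = 0 := by
  simp [r0]
theorem mem_r0_ne (h : j ≠ i) : (n, v) ∈ (A.r0 i).G j ↔ n = 0 ∧ v ∈ A.G j := by simp [r0, h]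
theorem r0_x : (A.r0 i).x = rx N A.x 0 i := rfl

end Md

/-- `A` embeds in `B` -/
def Emb (A : Md N V) (B : Md N W) : Prop :=
  ∃ f : ι → V →ₗ[F] W, (∀ i, ∀ v ∈ A.G i, f i v ∈ B.G i) ∧
    (∀ i, ∀ v ∈ A.G i, f i v = 0 → v = 0) ∧
    ∀ i j, N i j = 3 → ∀ v ∈ A.G i, f j (A.x i j v) = B.x i j (f i v)

/-- `A` is the cohomology module of `X` in degree `k` -/
def IsH (X : Ob N V) (k : ℤ) (A : Md N W) : Prop :=
  ∃ q : ι → V →ₗ[F] W, (∀ i, (X.Z k i).map (q i) = A.G i) ∧
    (∀ i, ∀ z ∈ X.Z k i, q i z = 0 ↔ z ∈ X.B k i) ∧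
    ∀ i j, N i j = 3 → ∀ z ∈ X.Z k i, q j (X.x i j z) = A.x i j (q i z)

/-- finite modules with their ambient space -/
structure BM (N : CoxeterMatrix ι) where
  {V : Type}
  [ab : AddCommGroup V]
  [md : Module F V]
  [fin : Finite V]
  o : Md N V

attribute [instance] BM.ab BM.md BM.fin

abbrev BM.r0 (A : BM N) (i : ι) : BM N := ⟨A.o.r0 i⟩

/-- reflections along a word, read from left to right -/
def BM.rw (A : BM N) (l : List ι) : BM N := l.foldl BM.r0 A

@[simp] theorem BM.rw_nil (A : BM N) : A.rw [] = A := rfl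
theorem BM.rw_cons (A : BM N) (i : ι) (l : List ι) : A.rw (i :: l) = (A.r0 i).rw l := rfl
theorem BM.rw_append (A : BM N) (l l' : List ι) : A.rw (l ++ l') = (A.rw l).rw l' :=
  List.foldl_append

end Pool.Agent.WP34
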