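import Pool.Agent.Lib.WP34.Blue

/-! Segments in an apartment. -/

set_option linter.unusedSectionVars false

namespace Pool.Agent.WP34

open Pool.Agent.H51 Relation

namespace SEG

variable {S : Type} [Fintype S] [DecidableEq S] {M : CoxeterMatrix S} {T : Set S}
  {y : M.Group → S → ℝ}

theorem par_ind {P : M.Group → Prop} {w : M.Group} (hw : w ∈ par (cx M) T) (h1 : P 1)
    (hm : ∀ w ∈ par (cx M) T, ∀ r ∈ T, ¬ (cx M).IsRightDescent w r → P w →
      P (w * (cx M).simple r)) : P w := by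
  induction hn : (cx M).length w using Nat.strong_induction_on generalizing w with
  | _ n ih =>
    by_cases h : w = 1
    · exact h ▸ h1
    obtain ⟨r, hr⟩ := (cx M).exists_rightDescent_of_ne_one h
    have hT := rdesc_mem_par (cx M) hw hr
    have h2 := mul_mem hw (simple_mem_par (cx M) hT)
    have h3 := hm _ h2 r hT ((cx M).isRightDescent_iff_not_isRightDescent_mul.mp hr)
      (ih _ (hn ▸ hr) h2 rfl)
    rwa [(cx M).simple_mul_simple_cancel_right] at h3

theorem rho_mul (u v : M.Group) (z : S → ℝ) :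
    rho (cx M) (u * v) z = rho (cx M) u (rho (cx M) v z) := by rw [map_mul]; rfl

theorem rho_inv (u : M.Group) (z : S → ℝ) : rho (cx M) u⁻¹ (rho (cx M) u z) = z := by
  rw [← rho_mul, inv_mul_cancel, map_one]; rfl

theorem rho_inv' (u : M.Group) (z : S → ℝ) : rho (cx M) u (rho (cx M) u⁻¹ z) = z := by
  rw [← rho_mul, mul_inv_cancel, map_one]; rfl

/-- the hypothesis on steps -/
def St (T : Set S) (y : M.Group → S → ℝ) : Prop :=
  ∀ u ∈ par (cx M) T, ∀ r ∈ T, ∃ c : ℝ, 0 ≤ c ∧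
    y u - y (u * (cx M).simple r) = c • rho (cx M) u (ee r)

theorem conv (hs : St T y) {u v : M.Group} (hu : u ∈ par (cx M) T) (hv : v ∈ par (cx M) T) :
    rho (cx M) u⁻¹ (y v) ≤ rho (cx M) u⁻¹ (y u) := by
  rw [← mul_inv_cancel_left u v]
  refine par_ind (P := fun w => rho (cx M) u⁻¹ (y (u * w)) ≤ rho (cx M) u⁻¹ (y u))
    (mul_mem (inv_mem hu) hv) (by rw [mul_one]) fun w hw r hr hd ih => le_trans ?_ ih
  obtain ⟨c, hc, e⟩ := hs _ (mul_mem hu hw) r hr
  rw [← sub_nonneg, ← map_sub, ← mul_assoc, e, map_smul, rho_mul, rho_inv]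
  exact smul_nonneg hc (rho_nonneg _ hd)

theorem val_step (hs : St T y) {u : M.Group} (hu : u ∈ par (cx M) T) {r j : S} (hr : r ∈ T)
    (h : r ≠ j) : val M y (u * (cx M).simple r, j) = val M y (u, j) := by
  obtain ⟨c, -, e⟩ := hs u hu r hr
  rw [sub_eq_iff_eq_add'.trans sub_eq_iff_eq_add.symm] at e
  simp only [val]
  rw [mul_inv_rev, (cx M).inv_simple, rho_mul, rho_simple, sref_apply, ← e, map_sub, map_smul,
    rho_inv]
  simp [ee, h.symm]

theorem lam_sum (lam : (S → ℝ) →ₗ[ℝ] ℝ) (u : M.Group) (v : S → ℝ) :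
    lam (rho (cx M) u v) = ∑ j, v j * lam (rho (cx M) u (ee j)) := by
  rw [rho_eq_sum, map_sum]
  simp only [map_smul, smul_eq_mul]

theorem lam_zero {lam : (S → ℝ) →ₗ[ℝ] ℝ} {u : M.Group}
    (h : ∀ r ∈ T, lam (rho (cx M) u (ee r)) = 0) {v : S → ℝ} (hv : ∀ j, j ∉ T → v j = 0) :
    lam (rho (cx M) u v) = 0 := by
  rw [lam_sum]
  refine Finset.sum_eq_zero fun j _ => ?_
  by_cases hj : j ∈ T
  · rw [h j hj, mul_zero]
  · rw [hv j hj, zero_mul]

/-- dominant chambers -/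
def Dom (T : Set S) (lam : (S → ℝ) →ₗ[ℝ] ℝ) (u : M.Group) : Prop :=
  u ∈ par (cx M) T ∧ ∀ r ∈ T, 0 ≤ lam (rho (cx M) u (ee r))

theorem exists_reg (hT : (par (cx M) T : Set M.Group).Finite) :
    ∃ x : S → ℝ, ∀ r ∈ T, 0 < bf M r x := by
  refine ⟨∑ w ∈ hT.toFinset, ∑ j, |rho (cx M) w (ee j)|, fun r hr => ?_⟩
  have h1 : ∀ w j, sref M r |rho (cx M) w (ee j)| ≤ |rho (cx M) ((cx M).simple r * w) (ee j)| :=
    fun w j => by
      rw [rho_mul, rho_simple]
      by_cases h : (cx M).IsRightDescent w j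
      · rw [abs_of_nonpos (rho_nonpos _ h), map_neg]
        exact neg_le_abs _
      · rw [abs_of_nonneg (rho_nonneg _ h)]
        exact le_abs_self _
  have h2 : ∑ w ∈ hT.toFinset, ∑ j, |rho (cx M) ((cx M).simple r * w) (ee j)| =
      ∑ w ∈ hT.toFinset, ∑ j, |rho (cx M) w (ee j)| :=
    Finset.sum_equiv (Equiv.mulLeft ((cx M).simple r)) (fun w => by
      simp only [Set.Finite.mem_toFinset, SetLike.mem_coe, Equiv.coe_mulLeft]
      exact (Subgroup.mul_mem_cancel_left _ (simple_mem_par _ hr)).symm) fun _ _ => rfl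
  have h3 : sref M r (∑ w ∈ hT.toFinset, ∑ j, |rho (cx M) w (ee j)|) r <
      (∑ w ∈ hT.toFinset, ∑ j, |rho (cx M) ((cx M).simple r * w) (ee j)|) r := by
    simp only [map_sum, Finset.sum_apply]
    refine Finset.sum_lt_sum (fun w _ => Finset.sum_le_sum fun j _ => h1 w j r)
      ⟨1, hT.mem_toFinset.mpr (one_mem _), Finset.sum_lt_sum (fun j _ => h1 1 j r)
        ⟨r, Finset.mem_univ _, ?_⟩⟩
    have h4 : (0 : S → ℝ) ≤ ee r := by simp [ee]
    rw [mul_one, map_one, rho_simple, Module.End.one_apply, abs_of_nonneg h4, sref_ee_self, abs_neg,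
      abs_of_nonneg h4]
    simp [ee]
  rw [h2, sref_apply] at h3
  simpa [ee] using h3

theorem exists_dom (hT : (par (cx M) T : Set M.Group).Finite) (lam : (S → ℝ) →ₗ[ℝ] ℝ) :
    ∃ u : M.Group, Dom T lam u := by
  obtain ⟨x, hx⟩ := exists_reg hT
  obtain ⟨u, hu, h⟩ := Set.exists_max_image _ (fun u => lam (rho (cx M) u x)) hT ⟨1, one_mem _⟩
  refine ⟨u, hu, fun r hr => ?_⟩
  have h1 := h _ (mul_mem hu (simple_mem_par _ hr))
  simp only [rho_mul, rho_simple, sref_apply, map_sub, map_smul, smul_eq_mul] at h1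
  exact nonneg_of_mul_nonneg_right (sub_le_self_iff _ |>.mp h1) (mul_pos two_pos (hx r hr))

theorem tits (hs : St T y) {lam : (S → ℝ) →ₗ[ℝ] ℝ} {u w : M.Group} {j : S} (hj : j ∈ T)
    (hu : Dom T lam u) (hw : w ∈ par (cx M) T) : Dom T lam (u * w) →
      0 < lam (rho (cx M) (u * w) (ee j)) → val M y (u * w, j) ≤ 0 →
        ReflTransGen (WStep M T fun c => val M y c ≤ 0) (u * w, j) (u, j) := by
  refine par_ind (P := fun w => Dom T lam (u * w) → 0 < lam (rho (cx M) (u * w) (ee j)) →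
    val M y (u * w, j) ≤ 0 → ReflTransGen (WStep M T fun c => val M y c ≤ 0) (u * w, j) (u, j))
    hw (fun _ _ _ => by rw [mul_one]) fun w hw r hr hd ih h1 h2 h3 => ?_
  rw [← mul_assoc] at h1 h2 h3 ⊢
  have h4 : 0 ≤ lam (rho (cx M) (u * w) (ee r)) := by
    rw [rho_mul, lam_sum]
    refine Finset.sum_nonneg fun k _ => ?_
    by_cases hk : k ∈ T
    · exact mul_nonneg (rho_nonneg _ hd k) (hu.2 k hk)
    · rw [root_supp _ hw hr k hk, zero_mul]
  have h5 := h1.2 r hr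
  rw [rho_mul, rho_simple, sref_ee_self, map_neg, map_neg] at h5
  have h6 : lam (rho (cx M) (u * w) (ee r)) = 0 := le_antisymm (neg_nonneg.mp h5) h4
  have h7 : ∀ k, lam (rho (cx M) (u * w * (cx M).simple r) (ee k)) =
      lam (rho (cx M) (u * w) (ee k)) := fun k => by
    rw [rho_mul, rho_simple, sref_ee, map_add, map_add, map_smul, map_smul, h6, smul_zero, add_zero]
  rw [h7] at h2
  have h8 : r ≠ j := fun e => h2.ne' (e ▸ h6)
  have h9 := mul_mem hu.1 hw
  rw [val_step hs h9 hr h8] at h3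
  exact ReflTransGen.head ⟨h9, hj, h3, Or.inr ⟨rfl, r, hr, h8,
    ((cx M).simple_mul_simple_cancel_right r).symm⟩⟩
    (ih ⟨h9, fun k hk => h7 k ▸ h1.2 k hk⟩ h2 h3)

theorem exists_pos (h0 : ∀ u ∈ par (cx M) T, ∀ j, j ∉ T → y u j = 0) {lam : (S → ℝ) →ₗ[ℝ] ℝ}
    {u : M.Group} (hu : Dom T lam u) (h1 : ∃ s ∈ T, lam (ee s) ≠ 0) (h2 : lam (y u) ≤ 0) :
    ∃ j ∈ T, 0 < lam (rho (cx M) u (ee j)) ∧ val M y (u, j) ≤ 0 := by
  by_contra h
  push Not at h
  obtain ⟨s, hs, h1⟩ := h1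
  refine h1 ?_
  rw [← rho_inv' u (ee s)]
  refine lam_zero (T := T) (fun r hr => by_contra fun h3 => ?_) (root_supp _ (inv_mem hu.1) hs)
  have h4 := lt_of_le_of_ne (hu.2 r hr) (Ne.symm h3)
  rw [← rho_inv' u (y u), lam_sum] at h2
  refine absurd h2 (not_le.mpr (Finset.sum_pos' (fun k _ => ?_)
    ⟨r, Finset.mem_univ _, mul_pos (h r hr h4) h4⟩))
  by_cases hk : k ∈ T
  · rcases (hu.2 k hk).eq_or_lt with e | e
    · rw [← e, mul_zero]
    · exact (mul_pos (h k hk e) e).le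
  · rw [rho_supp _ (inv_mem hu.1) _ k hk, h0 u hu.1 k hk, zero_mul]

/-- the coordinate function of a vertex -/
noncomputable def co (a : M.Group × S) : (S → ℝ) →ₗ[ℝ] ℝ :=
  LinearMap.proj a.2 ∘ₗ rho (cx M) a.1⁻¹

theorem co_apply (a : M.Group × S) (z : S → ℝ) : co a z = rho (cx M) a.1⁻¹ z a.2 := rfl

theorem zero_T (M : CoxeterMatrix S) {lam : (S → ℝ) →ₗ[ℝ] ℝ} (h : ∀ r ∈ T, lam (ee r) = 0) {v : S → ℝ}
    (hv : ∀ j, j ∉ T → v j = 0) : lam v = 0 := by
  simpa using lam_zero (M := M) (u := 1) (by simpa using h) hv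

theorem co_ne {a : M.Group × S} (h1 : a.1 ∈ par (cx M) T) (h2 : a.2 ∈ T) :
    ¬ ∀ r ∈ T, co a (ee r) = 0 := fun h => by
  have h3 := zero_T M h (root_supp _ h1 h2)
  rw [co_apply, rho_inv] at h3
  simp [ee] at h3

theorem co_dom {a : M.Group × S} (h1 : a.1 ∈ par (cx M) T) : Dom T (co a) a.1 :=
  ⟨h1, fun r _ => by rw [co_apply, rho_inv]; exact (show (0 : S → ℝ) ≤ ee r by simp [ee]) _⟩

theorem closed_dom (hT : (par (cx M) T : Set M.Group).Finite) (A B : (S → ℝ) →ₗ[ℝ] ℝ)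
    (Q : M.Group → Prop) : IsClosed {t : ℝ | ∃ u, Dom T ((1 - t) • A + t • B) u ∧ Q u} := by
  have : {t : ℝ | ∃ u, Dom T ((1 - t) • A + t • B) u ∧ Q u} =
      ⋃ u ∈ {u ∈ (par (cx M) T : Set M.Group) | Q u}, ⋂ r ∈ T,
        {t : ℝ | 0 ≤ (1 - t) * A (rho (cx M) u (ee r)) + t * B (rho (cx M) u (ee r))} := by
    ext t
    simp [Dom, and_assoc, and_comm]
  rw [this]
  exact (hT.subset (Set.sep_subset _ _)).isClosed_biUnion fun u _ => isClosed_biInter fun r _ =>
    isClosed_le continuous_const (by fun_prop)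

end SEG

open SEG in
theorem st_SEG : St_SEG := by
  intro S _ _ M T y hT h0 hs
  refine ⟨fun u hu v hv j _ => conv hs hu hv j, fun a b ha ha' hb hb' va vb hab => ?_⟩
  have hA : ¬ Anti M T a b := by
    rintro ⟨τ, hτ, h⟩
    have h1 := hab.resolve_right (not_not.mpr ⟨τ, hτ, h⟩)
    have h2 := zero_T M (lam := co a + τ • co b) (fun r hr => by
      rw [LinearMap.add_apply, LinearMap.smul_apply, co_apply, co_apply, h r hr, smul_eq_mul]
      ring) (h0 _ ha)
    have h3 : co b (y a.1) < 0 := (conv hs hb ha b.2).trans_lt h1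
    have h4 : co a (y a.1) ≤ 0 := va
    rw [LinearMap.add_apply, LinearMap.smul_apply, smul_eq_mul] at h2
    linarith [mul_neg_of_pos_of_neg hτ h3]
  have key : ∀ t ∈ Set.Icc (0 : ℝ) 1, ∀ u, Dom T ((1 - t) • co a + t • co b) u → ∃ j ∈ T,
      0 < ((1 - t) • co a + t • co b) (rho (cx M) u (ee j)) ∧ val M y (u, j) ≤ 0 := by
    intro t ht u hu
    refine exists_pos h0 hu (by_contra fun h => ?_) ?_
    · push Not at h
      simp only [LinearMap.add_apply, LinearMap.smul_apply, smul_eq_mul] at h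
      rcases ht.1.eq_or_lt with rfl | h1
      · exact co_ne ha ha' (by simpa using h)
      rcases ht.2.eq_or_lt with rfl | h2
      · exact co_ne hb hb' (by simpa using h)
      have h3 : 0 < 1 - t := sub_pos.mpr h2
      refine hA ⟨t / (1 - t), div_pos h1 h3, fun r hr => ?_⟩
      have h4 := h r hr
      rw [co_apply, co_apply] at h4
      field_simp
      linarith
    · exact add_nonpos (mul_nonpos_of_nonneg_of_nonpos (sub_nonneg.mpr ht.2)
        ((conv hs ha hu.1 a.2).trans va))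
        (mul_nonpos_of_nonneg_of_nonpos ht.1 ((conv hs hb hu.1 b.2).trans vb))
  by_contra hne
  let K := ReflTransGen (WStep M T fun c => val M y c ≤ 0) a
  obtain ⟨t, ht, ⟨u, hu, j, hj⟩, u', hu', j', hj', hv, hK⟩ :=
    isPreconnected_closed_iff.mp (isPreconnected_Icc (a := (0 : ℝ)) (b := 1)) _ _
      (closed_dom hT (co a) (co b) fun u => ∃ j, K (u, j))
      (closed_dom hT (co a) (co b) fun u => ∃ j ∈ T, val M y (u, j) ≤ 0 ∧ ¬ K (u, j))
      (fun t ht => by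
        obtain ⟨u, hu⟩ := exists_dom hT ((1 - t) • co a + t • co b)
        obtain ⟨j, hj, -, hv⟩ := key t ht u hu
        by_cases h : K (u, j)
        exacts [Or.inl ⟨u, hu, j, h⟩, Or.inr ⟨u, hu, j, hj, hv, h⟩])
      ⟨0, by simp, a.1, by simpa using co_dom ha, a.2, ReflTransGen.refl⟩
      ⟨1, by simp, b.1, by simpa using co_dom hb, b.2, hb', vb, hne⟩
  obtain ⟨k, hk, h1, h2⟩ := key t ht u hu
  have h3 := tits hs hk hu' (mul_mem (inv_mem hu'.1) hu.1)
  rw [mul_inv_cancel_left] at h3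
  have h4 := h3 hu h1 h2
  exact hK (((hj.tail (c := (u, k)) ⟨hu.1, hk, h2, Or.inl rfl⟩).trans h4).tail
    ⟨hu'.1, hj', hv, Or.inl rfl⟩)

end Pool.Agent.WP34
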