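import Pool.Agent.Lib.WP34.Ob

/-! Transfer of the structure along a homotopy retraction of the complex at one vertex. -/

set_option linter.unusedSectionVars false

namespace Pool.Agent.WP34

open LinearMap (fst snd)

variable {ι : Type} [Fintype ι] [DecidableEq ι] {N : CoxeterMatrix ι} {V : Type} [AddCommGroup V]
  [Module F V]

/-- a homotopy retraction of the complex of `X` at `i` onto a complex `K` -/
structure Retr (X : Ob N V) (i : ι) (K : Type) [AddCommGroup K] [Module F K] where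
  G : ℤ → Submodule F K
  d : K →ₗ[F] K
  e : K →ₗ[F] V
  p : V →ₗ[F] K
  h : V →ₗ[F] V
  d_mem : ∀ k, ∀ c ∈ G k, d c ∈ G (k + 1)
  e_mem : ∀ k, ∀ c ∈ G k, e c ∈ X.G k i
  p_mem : ∀ k, ∀ v ∈ X.G k i, p v ∈ G k
  h_mem : ∀ k, ∀ v ∈ X.G k i, h v ∈ X.G (k - 1) i
  de : ∀ k, ∀ c ∈ G k, X.d i (e c) = e (d c)
  dp : ∀ k, ∀ v ∈ X.G k i, d (p v) = p (X.d i v)
  pe : ∀ k, ∀ c ∈ G k, p (e c) = c
  ep : ∀ k, ∀ v ∈ X.G k i, e (p v) = v + X.d i (h v) + h (X.d i v)

namespace Retr

variable {X : Ob N V} {i : ι} {K : Type} [AddCommGroup K] [Module F K] (R : Retr X i K)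

/-- the transferred arrows -/
def x (j l : ι) : K × V →ₗ[F] K × V :=
  if j = i then LinearMap.prod 0 (X.x i l ∘ₗ R.e ∘ₗ fst _ _ _)
  else if l = i then (R.p ∘ₗ X.x j i ∘ₗ snd _ _ _).prod 0
  else LinearMap.prod 0 (X.x j l ∘ₗ snd _ _ _)

/-- the correction of the loop at `j` -/
def cor (j : ι) : V →ₗ[F] V := if N j i = 3 then X.x i j ∘ₗ R.h ∘ₗ X.x j i else 0

variable {j l : ι} (c : K) (v : V)

@[simp] theorem x_from (l : ι) : R.x i l (c, v) = (0, X.x i l (R.e c)) := by simp [x]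
theorem x_to (h : j ≠ i) : R.x j i (c, v) = (R.p (X.x j i v), 0) := by simp [x, h]
theorem x_ne (h : j ≠ i) (h' : l ≠ i) : R.x j l (c, v) = (0, X.x j l v) := by simp [x, h, h']
theorem cor_adj (h : N j i = 3) : R.cor j v = X.x i j (R.h (X.x j i v)) := by simp [cor, h]
theorem cor_not (h : N j i ≠ 3) : R.cor j v = 0 := by simp [cor, h]

theorem rel_self : inn N R.x i (out N R.x i (c, v)) =
    (R.p (inn N X.x i (out N X.x i (R.e c))), 0) :=
  inn_map (R.p.prod (0 : V →ₗ[F] V)) fun p a => by simp [out_apply, a, x_to _ _ _ (adj_ne a).symm]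

theorem rel_ne (h : j ≠ i) : inn N R.x j (out N R.x j (c, v)) = (0, inn N X.x j (out N X.x j v) +
    if N j i = 3 then X.x i j (R.e (R.p (X.x j i v)) + X.x j i v) else 0) := by
  rw [inn_apply, inn_apply, Finset.sum_congr rfl (g := fun p => LinearMap.inr F K V
    ((if N j p = 3 then X.x p j (out N X.x j v p) else 0) + if p = i then
      (if N j i = 3 then X.x i j (R.e (R.p (X.x j i v)) + X.x j i v) else 0) else 0))
    fun p _ => by
      by_cases e : p = i
      · subst e
        by_cases a : N j p = 3 <;> simp [a, out_apply, x_to _ _ _ h, add_comm (X.x p j (R.e _)), h2', Prod.ext_iff]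
      · by_cases a : N j p = 3 <;>
          simp [a, e, out_apply, x_ne _ _ _ h e, x_ne _ _ _ e h, Prod.ext_iff], ← map_sum,
    Finset.sum_add_distrib]
  simp

/-- the transferred object -/
def tr : Ob N (K × V) where
  G k j := if j = i then (R.G k).prod ⊥ else Submodule.prod ⊥ (X.G k j)
  d j := R.d.prodMap (X.d j)
  t j := if j = i then (R.p ∘ₗ X.t i ∘ₗ R.e ∘ₗ fst _ _ _).prod 0
    else LinearMap.prod 0 ((X.t j + R.cor j) ∘ₗ snd _ _ _)
  x := R.x
  d_mem k j := by
    rintro ⟨c, v⟩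
    by_cases h : j = i <;> simp only [h, if_true, if_false, Submodule.mem_prod, Submodule.mem_bot]
    · rintro ⟨h, rfl⟩; simpa using R.d_mem _ _ h
    · rintro ⟨rfl, h⟩; simpa using X.d_mem _ _ _ h
  t_mem k j := by
    rintro ⟨c, v⟩
    by_cases h : j = i <;> simp only [h, if_true, if_false, Submodule.mem_prod, Submodule.mem_bot]
    · exact fun h => ⟨R.p_mem _ _ (X.t_mem _ _ _ (R.e_mem _ _ h.1)), rfl⟩
    · refine fun h => ⟨rfl, add_mem (X.t_mem _ _ _ h.2) ?_⟩
      by_cases a : N j i = 3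
      · rw [R.cor_adj _ a]
        exact X.x_mem _ _ _ (adj_symm a) _ (R.h_mem _ _ (X.x_mem _ _ _ a _ h.2))
      · rw [R.cor_not _ a]; exact zero_mem _
  x_mem k j l a := by
    rintro ⟨c, v⟩
    by_cases h : j = i
    · subst h
      simp only [if_true, (adj_ne a).symm, if_false, Submodule.mem_prod, Submodule.mem_bot, x_from]
      exact fun h => ⟨trivial, X.x_mem _ _ _ a _ (R.e_mem _ _ h.1)⟩
    · by_cases h' : l = i
      · subst h'
        simp only [h, if_true, if_false, Submodule.mem_prod, R.x_to _ _ h]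
        exact fun h => ⟨R.p_mem _ _ (X.x_mem _ _ _ a _ h.2), rfl⟩
      · simp only [h, h', if_false, Submodule.mem_prod, Submodule.mem_bot, R.x_ne _ _ h h']
        exact fun h => ⟨trivial, X.x_mem _ _ _ a _ h.2⟩
  dd k j := by
    rintro ⟨c, v⟩
    by_cases h : j = i <;> simp only [h, if_true, if_false, Submodule.mem_prod, Submodule.mem_bot]
    · rintro ⟨h, rfl⟩
      have := R.pe _ _ (R.d_mem _ _ (R.d_mem _ _ h))
      rw [← R.de _ _ (R.d_mem _ _ h), ← R.de _ _ h, X.dd _ _ _ (R.e_mem _ _ h), map_zero] at this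
      simp [← this]
    · rintro ⟨rfl, h⟩; simp [X.dd _ _ _ h]
  dx k j l a := by
    rintro ⟨c, v⟩
    by_cases h : j = i
    · subst h
      simp only [if_true, Submodule.mem_prod]
      exact fun h => by simp [X.dx _ _ _ a _ (R.e_mem _ _ h.1), R.de _ _ h.1]
    · by_cases h' : l = i
      · subst h'
        simp only [h, if_false, Submodule.mem_prod]
        exact fun hv => by
          simp [R.x_to _ _ h, R.dp _ _ (X.x_mem _ _ _ a _ hv.2), X.dx _ _ _ a _ hv.2]
      · simp only [h, if_false, Submodule.mem_prod]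
        exact fun hv => by simp [R.x_ne _ _ h h', X.dx _ _ _ a _ hv.2]
  dt k j := by
    rintro ⟨c, v⟩
    by_cases h : j = i
    · subst h
      simp only [if_true, Submodule.mem_prod, rel_self]
      intro h
      have := R.e_mem _ _ h.1
      simp [R.dp _ _ (X.t_mem _ _ _ this), X.dt _ _ _ this, R.de _ _ h.1]
    · simp only [h, if_false, Submodule.mem_prod, R.rel_ne _ _ h]
      intro hv
      by_cases a : N j i = 3
      · have h1 := X.x_mem _ _ _ a _ hv.2
        simp [a, R.cor_adj _ a, X.dt _ _ _ hv.2, R.ep _ _ h1, X.dx _ _ _ a _ hv.2,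
          X.dx _ _ _ (adj_symm a) _ (R.h_mem _ _ h1), add_assoc, add_comm, add_left_comm, h2']
      · simp [a, R.cor_not _ a, X.dt _ _ _ hv.2]
  bdd := by
    obtain ⟨a, h⟩ := X.bdd
    refine ⟨a, fun k hk j => ?_⟩
    split_ifs
    · rw [eq_bot_iff]
      rintro ⟨c, v⟩ ⟨h1, h2⟩
      have := R.e_mem _ _ h1
      rw [h k hk, Submodule.mem_bot] at this
      exact Prod.ext (by simpa [this] using (R.pe _ _ h1).symm) h2
    · simp [h k hk]

variable {R c v} {k : ℤ}

theorem mem_tr_self : (c, v) ∈ R.tr.G k i ↔ c ∈ R.G k ∧ v = 0 := by simp [tr]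
theorem mem_tr_ne (h : j ≠ i) : (c, v) ∈ R.tr.G k j ↔ c = 0 ∧ v ∈ X.G k j := by simp [tr, h]
theorem tr_d : R.tr.d j (c, v) = (R.d c, X.d j v) := rfl
theorem tr_t_self : R.tr.t i (c, v) = (R.p (X.t i (R.e c)), 0) := by simp [tr]
theorem tr_t_ne (h : j ≠ i) : R.tr.t j (c, v) = (0, X.t j v + R.cor j v) := by simp [tr, h]
theorem tr_x : R.tr.x = R.x := rfl

end Retr

end Pool.Agent.WP34
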