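import Pool.Agent.Lib.WP34.Blue

/-! A computable unfolding of every Coxeter matrix. -/

namespace Pool.Agent.WP34

open Pool.Agent.H51 Pool.Agent.Lib.MP_a1ec0a_al Finset

namespace Unf2

variable {α : Type} [Primcodable α]

@[fun_prop] theorem pr_div {m n : α → ℕ} (hm : PR m) (hn : PR n) : PR (fun a => m a / n a) :=
  Primrec.nat_div.comp hm hn

@[fun_prop] theorem pr_mod {m n : α → ℕ} (hm : PR m) (hn : PR n) : PR (fun a => m a % n a) :=
  Primrec.nat_mod.comp hm hn

/-- number of coordinates -/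
def KK (L : TR.Mat) : ℕ := (L.flatMap fun l => l).foldr (fun a s => a + s) 0 + 3
/-- the radix -/
def RR (L : TR.Mat) : ℕ := (List.range (KK L)).foldr (fun i s => (i + 1) * s) 1
/-- number of vertices -/
def rr (L : TR.Mat) : ℕ := L.length * RR L ^ KK L
/-- the projection -/
def pr (L : TR.Mat) (i : ℕ) : ℕ := i / RR L ^ KK L
/-- digits -/
def dg (L : TR.Mat) (i c : ℕ) : ℕ := i % RR L ^ KK L / RR L ^ c % RR L
/-- edges in one coordinate -/
def rel (m a b : ℕ) : Bool := bif m == 0 then a / 2 == b / 2 else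
  (a + 1 == b && !(b % (m - 1) == 0)) || (b + 1 == a && !(a % (m - 1) == 0))
/-- the label -/
def lab (L : TR.Mat) (i j : ℕ) : ℕ := TR.me L (pr L i) (pr L j)
/-- edges -/
def adj (L : TR.Mat) (i j : ℕ) : Bool := !(pr L i == pr L j) &&
  ((List.range (KK L)).all fun c => c == lab L i j || dg L i c == dg L j c) &&
    rel (lab L i j) (dg L i (lab L i j)) (dg L j (lab L i j))

theorem pr_rr : PR rr := by unfold rr RR KK; fun_prop

theorem pr_pr : PR fun x : TR.Mat × ℕ => pr x.1 x.2 := by unfold pr RR KK; fun_prop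

theorem pr_adj : PR fun x : TR.Mat × ℕ × ℕ => adj x.1 x.2.1 x.2.2 := by
  have h1 : PR KK := by unfold KK; fun_prop
  have h2 : PR RR := by unfold RR; fun_prop
  unfold adj rel lab dg pr TR.me TR.ent
  fun_prop

theorem me_lt (L : TR.Mat) (i j : ℕ) : TR.me L i j < KK L := by
  have h1 : ∀ (l : List ℕ) (x : ℕ), x ∈ l → x ≤ l.foldr (fun a s => a + s) 0 := fun l x hx => by
    induction l with
    | nil => simp at hx
    | cons a t ih =>
      rw [List.foldr_cons]
      rcases List.mem_cons.mp hx with rfl | h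
      · omega
      · have := ih h; omega
  have h2 : TR.ent L i j + 3 ≤ KK L := by
    rw [TR.ent, KK, Nat.add_le_add_iff_right]
    rcases Nat.lt_or_ge i L.length with hi | hi
    · rw [List.getD_eq_getElem _ _ hi]
      rcases Nat.lt_or_ge j (L[i]).length with hj | hj
      · rw [List.getD_eq_getElem _ _ hj]
        exact h1 _ _ (List.mem_flatMap.mpr ⟨_, List.getElem_mem hi, List.getElem_mem hj⟩)
      · rw [List.getD_eq_default _ _ hj]; omega
    · rw [List.getD_eq_default _ _ hi]; simp
  rw [TR.me]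
  grind

theorem me_symm (L : TR.Mat) (i j : ℕ) : TR.me L i j = TR.me L j i := by
  simp only [TR.me]; grind

theorem RR_spec (L : TR.Mat) : 0 < RR L ∧ ∀ d < KK L, d + 1 ∣ RR L := by
  have : ∀ l : List ℕ, 0 < l.foldr (fun i s => (i + 1) * s) 1 ∧
      ∀ d ∈ l, d + 1 ∣ l.foldr (fun i s => (i + 1) * s) 1 := fun l => by
    induction l with
    | nil => simp
    | cons a t ih =>
      rw [List.foldr_cons]
      refine ⟨Nat.mul_pos a.succ_pos ih.1, fun d hd => ?_⟩
      rcases List.mem_cons.mp hd with rfl | h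
      · exact dvd_mul_right _ _
      · exact (ih.2 d h).mul_left _
  exact ⟨(this _).1, fun d hd => (this _).2 d (List.mem_range.mpr hd)⟩

theorem rel_symm (m a b : ℕ) : rel m a b = rel m b a := by
  simp only [rel]; grind

theorem adj_symm (L : TR.Mat) (i j : ℕ) : adj L i j = adj L j i := by
  have : lab L i j = lab L j i := me_symm _ _ _
  simp only [adj, this, rel_symm (lab L j i) (dg L i _), BEq.comm (a := dg L i _),
    BEq.comm (a := pr L i)]

/-- weights -/
noncomputable def w (m a : ℕ) : ℝ :=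
  if m ≤ 1 then 1 else Real.sin ((a % (m - 1) + 1 : ℕ) * (Real.pi / m))

theorem w_pos (m a : ℕ) : 0 < w m a := by
  rw [w]
  split_ifs with h
  · exact one_pos
  · have h1 : a % (m - 1) + 1 < m := by have := Nat.mod_lt a (show 0 < m - 1 by omega); omega
    have h2 : (0 : ℝ) < m := Nat.cast_pos.mpr (by omega)
    have h3 := Real.pi_pos
    refine Real.sin_pos_of_pos_of_lt_pi (by positivity) ?_
    rw [← mul_div_assoc, div_lt_iff₀ h2, mul_comm]
    exact mul_lt_mul_of_pos_left (Nat.cast_lt.mpr h1) h3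

theorem rsum {R m b : ℕ} (hm : m ≠ 1) (h2 : 2 ∣ R) (hd : m ≠ 0 → m - 1 ∣ R) (hb : b < R) :
    ∑ a ∈ range R, (if rel m a b = true then w m a else 0) =
      2 * Real.cos (Real.pi / m) * w m b := by
  rcases m with _ | _ | k
  · rw [Finset.sum_eq_add_of_mem (2 * (b / 2)) (2 * (b / 2) + 1) (mem_range.mpr (by omega))
      (mem_range.mpr (by omega)) (by omega) fun c _ hc => if_neg (by simp [rel]; omega),
      if_pos (by simp [rel]), if_pos (by simp [rel]; omega)]
    simp [w]; norm_num
  · exact absurd rfl hm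
  obtain ⟨t, rfl⟩ : k + 1 ∣ R := hd (by omega)
  obtain ⟨q, c, hc, rfl⟩ : ∃ q c, c < k + 1 ∧ b = (k + 1) * q + c :=
    ⟨_, _, Nat.mod_lt b k.succ_pos, (Nat.div_add_mod b (k + 1)).symm⟩
  have hq : (k + 1) * (q + 1) ≤ (k + 1) * t := Nat.mul_le_mul_left _
    (Nat.lt_of_mul_lt_mul_left (a := k + 1) (by omega))
  have hw : ∀ e < k + 1, w (k + 1 + 1) ((k + 1) * q + e) =
      Real.sin ((e + 1) * (Real.pi / (k + 1 + 1 : ℕ))) := fun e he => by
    rw [w, if_neg (by omega), Nat.add_sub_cancel, Nat.mul_add_mod, Nat.mod_eq_of_lt he]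
    push_cast; rfl
  set y := Real.pi / (k + 1 + 1 : ℕ) with hy
  have e1 : ∑ a ∈ range ((k + 1) * t), (if a + 1 = (k + 1) * q + c ∧ c ≠ 0 then w (k + 1 + 1) a
      else 0) = Real.sin (c * y) := by
    rcases c with _ | c
    · simp
    · rw [Finset.sum_eq_single_of_mem ((k + 1) * q + c) (mem_range.mpr (by omega))
        fun a _ ha => if_neg (by omega), if_pos (by omega), hw c (by omega)]
      push_cast; rfl
  have e2 : ∑ a ∈ range ((k + 1) * t), (if (k + 1) * q + c + 1 = a ∧ c ≠ k then w (k + 1 + 1) a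
      else 0) = Real.sin ((c + 2) * y) := by
    by_cases h : c = k
    · have : ((k : ℝ) + 2) * y = Real.pi := by rw [hy]; push_cast; field_simp; ring
      simp [h, this]
    · rw [mul_add] at hq
      rw [Finset.sum_eq_single_of_mem ((k + 1) * q + (c + 1)) (mem_range.mpr (by omega))
        fun a _ ha => if_neg (by omega), if_pos (by omega), hw _ (by omega)]
      push_cast; congr 1; ring
  have e3 : Real.sin (c * y) + Real.sin ((c + 2) * y) = 2 * Real.cos y * Real.sin ((c + 1) * y) := by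
    rw [show c * y = (c + 1) * y - y by ring, show (c + 2) * y = (c + 1) * y + y by ring,
      Real.sin_sub, Real.sin_add]
    ring
  rw [hw c hc, ← e3, ← e1, ← e2, ← Finset.sum_add_distrib]
  refine Finset.sum_congr rfl fun a _ => ?_
  have f1 : ((k + 1) * q + c) % (k + 1) = c := by rw [Nat.mul_add_mod, Nat.mod_eq_of_lt hc]
  have f2 : ((k + 1) * q + c + 1) % (k + 1) = 0 ↔ c = k := by
    rw [add_assoc, Nat.mul_add_mod]
    refine ⟨fun h => ?_, fun h => by simp [h]⟩
    by_contra h'
    rw [Nat.mod_eq_of_lt (by omega)] at h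
    omega
  simp only [rel, Nat.add_sub_cancel, f1]
  by_cases h : (k + 1) * q + c + 1 = a
  · subst h
    have : ¬(k + 1) * q + c + 1 + 1 = (k + 1) * q + c := by omega
    simp [this, f2]
  · simp [h]

theorem fsum {K R : ℕ} (m : Fin K) (g : Fin K → Fin R) (hm : m.1 ≠ 1) (h2 : 2 ∣ R)
    (hd : m.1 ≠ 0 → m.1 - 1 ∣ R) :
    ∑ f : Fin K → Fin R, (if (∀ c, c ≠ m → f c = g c) ∧ rel m (f m) (g m) = true then
      ∏ c : Fin K, w c (f c) else 0) = 2 * Real.cos (Real.pi / m.1) * ∏ c : Fin K, w c (g c) := by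
  rw [← Finset.mul_prod_erase _ _ (mem_univ m), ← mul_assoc, ← rsum hm h2 hd (g m).2,
    Finset.sum_range, Finset.sum_mul]
  refine (Finset.sum_of_injOn (Function.update g m) (Function.update_injective g m).injOn
    (fun _ _ => by simp) (fun f _ hf => if_neg fun h => hf ⟨f m, by simp, ?_⟩) fun a _ => ?_).symm
  · funext c
    by_cases e : c = m
    · rw [e, Function.update_self]
    · rw [Function.update_of_ne e, h.1 c e]
  · rw [Function.update_self, ite_mul, zero_mul, ← Finset.mul_prod_erase _ _ (mem_univ m),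
      Function.update_self]
    refine if_congr (and_iff_right fun c hc => Function.update_of_ne hc _ _).symm ?_ rfl
    congr 1
    exact Finset.prod_congr rfl fun c hc => by
      rw [Function.update_of_ne (Finset.ne_of_mem_erase hc)]

/-- coordinates -/
def ev (L : TR.Mat) : Fin (rr L) ≃ Fin L.length × (Fin (KK L) → Fin (RR L)) :=
  finProdFinEquiv.symm.trans (Equiv.prodCongr (Equiv.refl _) finFunctionFinEquiv.symm)

theorem ev_fst (L : TR.Mat) (i : Fin (rr L)) : ((ev L i).1 : ℕ) = pr L i := rfl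

theorem ev_snd (L : TR.Mat) (i : Fin (rr L)) (c : Fin (KK L)) : ((ev L i).2 c : ℕ) = dg L i c :=
  finFunctionFinEquiv_symm_apply_val _ _

/-- the unfolded matrix -/
def NN (L : TR.Mat) : CoxeterMatrix (Fin (rr L)) where
  M := Matrix.of fun i j => if i = j then 1 else if adj L i j = true then 3 else 2
  isSymm := by
    ext i j
    simp only [Matrix.transpose_apply, Matrix.of_apply, adj_symm L j i, eq_comm (a := j)]
  diagonal i := by simp
  off_diagonal i j h := by simp only [Matrix.of_apply, if_neg h]; split_ifs <;> omega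

theorem NN_apply (L : TR.Mat) (i j : Fin (rr L)) :
    NN L i j = if i = j then 1 else if adj L i j = true then 3 else 2 := rfl

theorem NN_eq (L : TR.Mat) (i j : Fin (rr L)) : NN L i j = 3 ↔ adj L i j = true := by
  rw [NN_apply]
  split_ifs with h h'
  · simp [h, adj]
  · simp [h']
  · simp [h']

theorem adj_iff (L : TR.Mat) (i j : Fin (rr L)) (m : Fin (KK L)) (hm : m.1 = lab L i j) :
    adj L i j = true ↔ (ev L i).1 ≠ (ev L j).1 ∧ (∀ c, c ≠ m → (ev L i).2 c = (ev L j).2 c) ∧
      rel m ((ev L i).2 m) ((ev L j).2 m) = true := by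
  simp only [adj, ← hm, Bool.and_eq_true, List.all_eq_true, List.mem_range, Bool.or_eq_true,
    beq_iff_eq, Bool.not_eq_true', beq_eq_false_iff_ne, ev_snd, ne_eq, Fin.ext_iff, ev_fst,
    and_assoc]
  refine and_congr_right fun _ => and_congr_left fun _ =>
    ⟨fun h c hc => (h c c.2).resolve_left hc, fun h c hc => or_iff_not_imp_left.mpr (h ⟨c, hc⟩)⟩

/-- the unfolding -/
noncomputable def UU (L : TR.Mat) : Unf (TR.cm L) (NN L) where
  pr i := (ev L i).1
  fib s := (List.finRange (rr L)).filter ((fun i => pr L i == s.1) ∘ Fin.val)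
  μ i := ∏ c : Fin (KK L), w c ((ev L i).2 c)
  sl i j h := by rw [NN_apply, if_neg h]; split_ifs <;> simp
  mem_fib s i := by simp [Fin.ext_iff, ev_fst]
  nodup s := (List.nodup_finRange _).filter _
  surj s := List.ne_nil_of_mem (a := (ev L).symm (s, fun _ => ⟨0, (RR_spec L).1⟩)) (by
    simp [← ev_fst])
  μ_pos i := Finset.prod_pos fun c _ => w_pos _ _
  indep i j h := by
    rw [Ne, NN_eq, adj_iff L i j ⟨_, me_lt L _ _⟩ rfl]
    exact fun h' => h'.1 h
  wsum s j h := by
    let m : Fin (KK L) := ⟨_, me_lt L s (ev L j).1⟩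
    have h1 : m.1 ≠ 1 := (TR.cm L).off_diagonal _ _ h
    have h3 : 3 ≤ KK L := Nat.le_add_left _ _
    have h4 := fsum m (ev L j).2 h1 ((RR_spec L).2 1 (by omega)) fun h0 => by
      have := (RR_spec L).2 (m.1 - 2) (by omega)
      rwa [show m.1 - 2 + 1 = m.1 - 1 by omega] at this
    refine Eq.trans ?_ h4
    rw [← (ev L).symm.sum_comp, Fintype.sum_prod_type, Finset.sum_eq_single_of_mem s (mem_univ _)
      fun t _ ht => Finset.sum_eq_zero fun f _ => if_neg fun e => ht (by simpa using e.1)]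
    refine Finset.sum_congr rfl fun f _ => if_congr ?_ (by rw [Equiv.apply_symm_apply]) rfl
    rw [NN_eq, adj_iff L _ j m (by rw [lab, ← ev_fst, ← ev_fst, Equiv.apply_symm_apply])]
    simp only [Equiv.apply_symm_apply, true_and, ne_eq, h, not_false_eq_true]

end Unf2

open Unf2 in
theorem st_UNF2 : St_UNF2 :=
  ⟨rr, adj, pr, pr_rr, pr_adj, pr_pr, fun L => ⟨NN L, UU L, NN_eq L, fun _ => rfl, fun s => by
    rw [← List.map_coe_finRange_eq_range, List.filter_map]; rfl⟩⟩

end Pool.Agent.WP34
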